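import Pool.Agent.P.MP_7f9919_an.NH.PartI
import Pool.Agent.P.MP_7f9919_an.G73.Core
import Pool.Agent.P.MP_7f9919_an.G73.Frame
import Pool.Agent.P.MP_7f9919_an.G73.Two
import Pool.Agent.P.MP_7f9919_an.G73.Loc
import Pool.Agent.P.MP_7f9919_an.G73.Kill
import Pool.Agent.P.MP_7f9919_an.G73.Trans

set_option autoImplicit false

namespace Pool.Agent.P.MP_7f9919_an.NH

/-- Theorem NH -/
theorem nh_final : S_NH := nh_of_II (ii_of diag trans (core fr two loc kill))

/-- Theorem NH, stated with Mathlib notions only -/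
theorem nh_eps_final : S_NHeps := nh_eps_of nh_final

end Pool.Agent.P.MP_7f9919_an.NH
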