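import Pool.Agent.P.MP_7f9919_an.NH.Defs

set_option autoImplicit false
set_option linter.unusedSectionVars false

namespace Pool.Agent.P.MP_7f9919_an.NH

open Matrix
open scoped MatrixOrder ComplexOrder

variable {k l m n S : Type} [Fintype k] [Fintype l] [Fintype m] [Fintype n] [Fintype S]

/-! ### inner product, norm, trace -/

theorem inner_def (x y : Mat m n) : (inner ℂ x y : ℂ) = trace (xᴴ * y) := rfl

theorem re_inner (x y : Mat m n) : (inner ℂ x y : ℂ).re = tr (xᴴ * y) := rfl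

theorem norm_sq_eq_tr (x : Mat m n) : ‖x‖ ^ 2 = tr (xᴴ * x) :=
  InnerProductSpace.norm_sq_eq_re_inner (𝕜 := ℂ) x

@[simp] theorem norm_adj (x : Mat m n) : ‖xᴴ‖ = ‖x‖ := Matrix.frobenius_norm_conjTranspose x

theorem norm_sq_eq_tr' (x : Mat m n) : ‖x‖ ^ 2 = tr (x * xᴴ) := by
  rw [← norm_adj, norm_sq_eq_tr, conjTranspose_conjTranspose]

@[simp] theorem tr_zero : tr (0 : Mat n n) = 0 := by simp [tr]
theorem tr_add (x y : Mat n n) : tr (x + y) = tr x + tr y := by simp [tr]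
theorem tr_sub (x y : Mat n n) : tr (x - y) = tr x - tr y := by simp [tr]
theorem tr_neg (x : Mat n n) : tr (-x) = -tr x := by simp [tr]
theorem tr_smul (c : ℝ) (x : Mat n n) : tr (c • x) = c * tr x := by simp [tr]
theorem tr_sum {ι : Type} (s : Finset ι) (f : ι → Mat n n) :
    tr (∑ i ∈ s, f i) = ∑ i ∈ s, tr (f i) := by simp [tr, trace_sum]
theorem tr_mul_comm (x : Mat m n) (y : Mat n m) : tr (x * y) = tr (y * x) := by
  simp only [tr]; rw [trace_mul_comm]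
theorem tr_cycle (x : Mat l m) (y : Mat m n) (z : Mat n l) : tr (x * y * z) = tr (z * x * y) := by
  rw [tr_mul_comm, Matrix.mul_assoc]
@[simp] theorem tr_one [DecidableEq n] : tr (1 : Mat n n) = Fintype.card n := by simp [tr]
theorem tr_adj (x : Mat n n) : tr xᴴ = tr x := by simp [tr, trace_conjTranspose]
theorem tr_adj_mul_comm (x y : Mat m n) : tr (xᴴ * y) = tr (yᴴ * x) := by
  rw [← tr_adj, conjTranspose_mul, conjTranspose_conjTranspose]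

theorem trace_eq_tr_of_herm {x : Mat n n} (h : xᴴ = x) : trace x = (tr x : ℂ) := by
  have : star (trace x) = trace x := by rw [← trace_conjTranspose, h]
  exact (Complex.conj_eq_iff_re.mp this).symm

theorem tr_nonneg {x : Mat n n} (h : 0 ≤ x) : 0 ≤ tr x :=
  (Complex.nonneg_iff.mp (nonneg_iff_posSemidef.mp h).trace_nonneg).1

theorem tr_mono {x y : Mat n n} (h : x ≤ y) : tr x ≤ tr y := by
  have := tr_nonneg (sub_nonneg.mpr h); rw [tr_sub] at this; linarith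

theorem norm_trace_le (x y : Mat m n) : ‖trace (xᴴ * y)‖ ≤ ‖x‖ * ‖y‖ :=
  norm_inner_le_norm (𝕜 := ℂ) x y

theorem abs_tr_le (x y : Mat m n) : |tr (xᴴ * y)| ≤ ‖x‖ * ‖y‖ :=
  (Complex.abs_re_le_norm _).trans (norm_trace_le x y)

theorem abs_tr_mul_le (x : Mat n m) (y : Mat m n) : |tr (x * y)| ≤ ‖x‖ * ‖y‖ := by
  simpa using abs_tr_le xᴴ y

theorem norm_add_sq (x y : Mat m n) : ‖x + y‖ ^ 2 = ‖x‖ ^ 2 + 2 * tr (xᴴ * y) + ‖y‖ ^ 2 :=
  _root_.norm_add_sq (𝕜 := ℂ) x y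

theorem norm_sub_sq (x y : Mat m n) : ‖x - y‖ ^ 2 = ‖x‖ ^ 2 - 2 * tr (xᴴ * y) + ‖y‖ ^ 2 :=
  _root_.norm_sub_sq (𝕜 := ℂ) x y

theorem norm_add_sq_le (x y : Mat m n) : ‖x + y‖ ^ 2 ≤ 2 * ‖x‖ ^ 2 + 2 * ‖y‖ ^ 2 := by
  have h := norm_add_le x y
  have h0 := norm_nonneg (x + y)
  nlinarith [sq_nonneg (‖x‖ - ‖y‖), norm_nonneg x, norm_nonneg y]

theorem norm_sub_sq_le (x y : Mat m n) : ‖x - y‖ ^ 2 ≤ 2 * ‖x‖ ^ 2 + 2 * ‖y‖ ^ 2 := by
  simpa [sub_eq_add_neg] using norm_add_sq_le x (-y)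

theorem norm_add3_sq_le (x y z : Mat m n) :
    ‖x + y + z‖ ^ 2 ≤ 3 * (‖x‖ ^ 2 + ‖y‖ ^ 2 + ‖z‖ ^ 2) := by
  have h : ‖x + y + z‖ ≤ ‖x‖ + ‖y‖ + ‖z‖ := norm_add₃_le
  have h0 := norm_nonneg (x + y + z)
  nlinarith [sq_nonneg (‖x‖ - ‖y‖), sq_nonneg (‖x‖ - ‖z‖), sq_nonneg (‖y‖ - ‖z‖), norm_nonneg x,
    norm_nonneg y, norm_nonneg z]

theorem norm_add4_sq_le (x y z w : Mat m n) :
    ‖x + y + z + w‖ ^ 2 ≤ 4 * (‖x‖ ^ 2 + ‖y‖ ^ 2 + ‖z‖ ^ 2 + ‖w‖ ^ 2) := by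
  have h1 := norm_add_sq_le (x + y) (z + w)
  have h2 := norm_add_sq_le x y
  have h3 := norm_add_sq_le z w
  rw [add_assoc (x + y)]; linarith

theorem norm_real_smul (c : ℝ) (x : Mat m n) : ‖c • x‖ = |c| * ‖x‖ := norm_smul c x

theorem norm_one_sq [DecidableEq n] : ‖(1 : Mat n n)‖ ^ 2 = Fintype.card n := by
  simp [norm_sq_eq_tr]

/-! ### order -/

theorem herm_of_nonneg {x : Mat n n} (h : 0 ≤ x) : xᴴ = x := (nonneg_iff_posSemidef.mp h).1

theorem adj_mul_self_nonneg (x : Mat m n) : 0 ≤ xᴴ * x :=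
  nonneg_iff_posSemidef.mpr (posSemidef_conjTranspose_mul_self x)

theorem self_mul_adj_nonneg (x : Mat m n) : 0 ≤ x * xᴴ :=
  nonneg_iff_posSemidef.mpr (posSemidef_self_mul_conjTranspose x)

theorem herm_sq_nonneg {x : Mat n n} (h : xᴴ = x) : 0 ≤ x * x := by
  simpa [h] using adj_mul_self_nonneg x

theorem conj_nonneg {A : Mat m m} (h : 0 ≤ A) (y : Mat m n) : 0 ≤ yᴴ * A * y :=
  nonneg_iff_posSemidef.mpr ((nonneg_iff_posSemidef.mp h).conjTranspose_mul_mul_same y)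

theorem conj_nonneg' {A : Mat m m} (h : 0 ≤ A) (y : Mat n m) : 0 ≤ y * A * yᴴ :=
  nonneg_iff_posSemidef.mpr ((nonneg_iff_posSemidef.mp h).mul_mul_conjTranspose_same y)

theorem conj_le {A B : Mat m m} (h : A ≤ B) (y : Mat m n) : yᴴ * A * y ≤ yᴴ * B * y := by
  have := conj_nonneg (sub_nonneg.mpr h) y
  rwa [Matrix.mul_sub, Matrix.sub_mul, sub_nonneg] at this

theorem conj_le' {A B : Mat m m} (h : A ≤ B) (y : Mat n m) : y * A * yᴴ ≤ y * B * yᴴ := by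
  simpa using conj_le h yᴴ

theorem smul_nonneg' {c : ℝ} (hc : 0 ≤ c) {A : Mat n n} (h : 0 ≤ A) : 0 ≤ c • A :=
  nonneg_iff_posSemidef.mpr ((nonneg_iff_posSemidef.mp h).smul hc)

theorem smul_le_smul' {c : ℝ} (hc : 0 ≤ c) {A B : Mat n n} (h : A ≤ B) : c • A ≤ c • B := by
  have := smul_nonneg' hc (sub_nonneg.mpr h)
  rwa [smul_sub, sub_nonneg] at this

theorem smul_le_smul_of_le {c d : ℝ} (hc : c ≤ d) {A : Mat n n} (h : 0 ≤ A) : c • A ≤ d • A := by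
  have := smul_nonneg' (sub_nonneg.mpr hc) h
  rwa [sub_smul, sub_nonneg] at this

theorem one_nonneg [DecidableEq n] : (0 : Mat n n) ≤ 1 := nonneg_iff_posSemidef.mpr PosSemidef.one

theorem exists_sqrt {A : Mat n n} (h : 0 ≤ A) : ∃ B : Mat n n, 0 ≤ B ∧ B * B = A := by
  classical
  exact ⟨CFC.sqrt A, CFC.sqrt_nonneg A, CFC.sqrt_mul_sqrt_self A h⟩

theorem tr_mul_nonneg {A B : Mat n n} (hA : 0 ≤ A) (hB : 0 ≤ B) : 0 ≤ tr (A * B) := by
  obtain ⟨C, hC, rfl⟩ := exists_sqrt hB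
  have := tr_nonneg (conj_nonneg hA C)
  rwa [herm_of_nonneg hC, Matrix.mul_assoc, tr_mul_comm, Matrix.mul_assoc] at this

theorem tr_mul_le_left {A A' B : Mat n n} (h : A ≤ A') (hB : 0 ≤ B) :
    tr (A * B) ≤ tr (A' * B) := by
  have := tr_mul_nonneg (sub_nonneg.mpr h) hB
  rw [Matrix.sub_mul, tr_sub] at this; linarith

theorem tr_mul_le_right {A B B' : Mat n n} (hA : 0 ≤ A) (h : B ≤ B') :
    tr (A * B) ≤ tr (A * B') := by
  rw [tr_mul_comm A, tr_mul_comm A]; exact tr_mul_le_left h hA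

theorem eq_zero_of_tr_eq_zero {A : Mat n n} (h : 0 ≤ A) (h0 : tr A = 0) : A = 0 := by
  obtain ⟨C, hC, rfl⟩ := exists_sqrt h
  have h1 : ‖C‖ ^ 2 = 0 := by rw [norm_sq_eq_tr, herm_of_nonneg hC, h0]
  have : C = 0 := by simpa using h1
  simp [this]

theorem norm_mul_sq (x : Mat l m) (y : Mat m n) : ‖x * y‖ ^ 2 = tr (yᴴ * (xᴴ * x) * y) := by
  rw [norm_sq_eq_tr, conjTranspose_mul]; simp only [Matrix.mul_assoc]

theorem norm_mul_sq' (x : Mat l m) (y : Mat m n) : ‖x * y‖ ^ 2 = tr ((xᴴ * x) * (y * yᴴ)) := by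
  rw [norm_mul_sq, tr_cycle, tr_mul_comm]

/-- `xᴴ x ≤ c` gives `‖x y‖² ≤ c ‖y‖²` -/
theorem norm_mul_sq_le [DecidableEq m] {x : Mat l m} {c : ℝ} (h : xᴴ * x ≤ c • (1 : Mat m m))
    (y : Mat m n) : ‖x * y‖ ^ 2 ≤ c * ‖y‖ ^ 2 := by
  have := tr_mono (conj_le h y)
  rw [norm_mul_sq, norm_sq_eq_tr y]
  simpa [tr_smul] using this

/-- `x xᴴ ≤ c` gives `‖y x‖² ≤ c ‖y‖²` -/
theorem norm_mul_sq_le' [DecidableEq m] {x : Mat m n} {c : ℝ} (h : x * xᴴ ≤ c • (1 : Mat m m))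
    (y : Mat l m) : ‖y * x‖ ^ 2 ≤ c * ‖y‖ ^ 2 := by
  have := norm_mul_sq_le (x := xᴴ) (c := c) (by simpa using h) yᴴ
  rwa [← conjTranspose_mul, norm_adj, norm_adj] at this

theorem norm_mul_sq_mono {x : Mat k m} {x' : Mat l m} (h : xᴴ * x ≤ x'ᴴ * x') (y : Mat m n) :
    ‖x * y‖ ^ 2 ≤ ‖x' * y‖ ^ 2 := by
  rw [norm_mul_sq, norm_mul_sq]; exact tr_mono (conj_le h y)

/-- to prove an operator inequality it is enough to test on one-column matrices -/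
theorem nonneg_of_tr {A : Mat n n} (hA : Aᴴ = A) (h : ∀ y : Mat n Unit, 0 ≤ tr (yᴴ * A * y)) :
    0 ≤ A := by
  refine nonneg_iff_posSemidef.mpr (PosSemidef.of_dotProduct_mulVec_nonneg hA fun v => ?_)
  have h1 := h (replicateCol Unit v)
  have h2 : trace ((replicateCol Unit v)ᴴ * A * replicateCol Unit v) = star v ⬝ᵥ (A *ᵥ v) := by
    simp [trace, mul_apply, dotProduct, mulVec, Finset.mul_sum, Finset.sum_mul, mul_assoc]
    rw [Finset.sum_comm]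
  have h3 : ((replicateCol Unit v)ᴴ * A * replicateCol Unit v)ᴴ =
      (replicateCol Unit v)ᴴ * A * replicateCol Unit v := by
    simp only [conjTranspose_mul, conjTranspose_conjTranspose, hA, Matrix.mul_assoc]
  rw [← h2, trace_eq_tr_of_herm h3]
  exact_mod_cast h1

theorem adj_mul_le_of_norm [DecidableEq n] {x : Mat m n} {c : ℝ}
    (h : ∀ y : Mat n Unit, ‖x * y‖ ^ 2 ≤ c * ‖y‖ ^ 2) : xᴴ * x ≤ c • (1 : Mat n n) := by
  rw [← sub_nonneg]
  refine nonneg_of_tr (by simp) fun y => ?_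
  have := h y
  rw [norm_mul_sq, norm_sq_eq_tr y] at this
  rw [Matrix.mul_sub, Matrix.sub_mul, tr_sub]
  simpa [tr_smul] using this

/-! ### contractions -/

section ctr
variable [DecidableEq k] [DecidableEq l] [DecidableEq m] [DecidableEq n]

theorem Ctr.adj {x : Mat m n} (h : Ctr x) : Ctr xᴴ := by
  unfold Ctr at *
  rw [conjTranspose_conjTranspose, ← sub_nonneg]
  have h1 : 0 ≤ (1 - x * xᴴ) * (1 - x * xᴴ) := herm_sq_nonneg (by simp)
  have h2 := conj_nonneg' (sub_nonneg.mpr h) x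
  have h3 : 1 - x * xᴴ = (1 - x * xᴴ) * (1 - x * xᴴ) + x * (1 - xᴴ * x) * xᴴ := by
    simp only [Matrix.mul_sub, Matrix.sub_mul, Matrix.mul_one, Matrix.one_mul, Matrix.mul_assoc]
    abel
  rw [h3]; exact add_nonneg h1 h2

theorem Ctr.le_one {x : Mat m n} (h : Ctr x) : xᴴ * x ≤ 1 := h
theorem Ctr.le_one' {x : Mat m n} (h : Ctr x) : x * xᴴ ≤ 1 := by simpa [Ctr] using h.adj

theorem Ctr.norm_mul_sq_le {x : Mat l m} (h : Ctr x) (y : Mat m n) : ‖x * y‖ ^ 2 ≤ ‖y‖ ^ 2 := by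
  simpa using NH.norm_mul_sq_le (c := 1) (by simpa using h.le_one) y

theorem Ctr.mul_norm_sq_le {x : Mat m n} (h : Ctr x) (y : Mat l m) : ‖y * x‖ ^ 2 ≤ ‖y‖ ^ 2 := by
  simpa using norm_mul_sq_le' (c := 1) (by simpa using h.le_one') y

theorem Ctr.norm_mul_le {x : Mat l m} (h : Ctr x) (y : Mat m n) : ‖x * y‖ ≤ ‖y‖ :=
  (pow_le_pow_iff_left₀ (norm_nonneg _) (norm_nonneg _) two_ne_zero).mp (h.norm_mul_sq_le y)

theorem Ctr.mul_norm_le {x : Mat m n} (h : Ctr x) (y : Mat l m) : ‖y * x‖ ≤ ‖y‖ :=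
  (pow_le_pow_iff_left₀ (norm_nonneg _) (norm_nonneg _) two_ne_zero).mp (h.mul_norm_sq_le y)

theorem ctr_of_norm {x : Mat m n} (h : ∀ y : Mat n Unit, ‖x * y‖ ≤ ‖y‖) : Ctr x := by
  have := adj_mul_le_of_norm (x := x) (c := 1) fun y => by
    simpa using pow_le_pow_left₀ (norm_nonneg _) (h y) 2
  simpa [Ctr] using this

theorem Ctr.mul {x : Mat l m} {y : Mat m n} (hx : Ctr x) (hy : Ctr y) : Ctr (x * y) :=
  ctr_of_norm fun z => by
    rw [Matrix.mul_assoc]; exact (hx.norm_mul_le _).trans (hy.norm_mul_le _)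

theorem ctr_one : Ctr (1 : Mat n n) := by simp [Ctr]
theorem ctr_zero : Ctr (0 : Mat m n) := by simp [Ctr]
theorem Ctr.neg {x : Mat m n} (h : Ctr x) : Ctr (-x) := by simpa [Ctr] using h

theorem Ctr.norm_sq_le_right {x : Mat m n} (h : Ctr x) : ‖x‖ ^ 2 ≤ Fintype.card n := by
  simpa [norm_one_sq] using h.norm_mul_sq_le (1 : Mat n n)

theorem Ctr.norm_sq_le_left {x : Mat m n} (h : Ctr x) : ‖x‖ ^ 2 ≤ Fintype.card m := by
  simpa using h.adj.norm_sq_le_right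

/-- an average of contractions is a contraction -/
theorem ctr_avg {ι : Type} [Fintype ι] {x : ι → Mat m n} (h : ∀ i, Ctr (x i)) :
    Ctr ((Fintype.card ι : ℝ)⁻¹ • ∑ i, x i) := by
  refine ctr_of_norm fun y => ?_
  rw [Matrix.smul_mul, Matrix.sum_mul, norm_real_smul]
  have h1 : ‖∑ i, x i * y‖ ≤ Fintype.card ι * ‖y‖ := by
    refine (norm_sum_le _ _).trans ?_
    refine (Finset.sum_le_sum fun i _ => (h i).norm_mul_le y).trans ?_
    simp
  rcases Nat.eq_zero_or_pos (Fintype.card ι) with h0 | h0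
  · simp [h0]
  · have : (0 : ℝ) < Fintype.card ι := by exact_mod_cast h0
    rw [abs_of_pos (inv_pos.mpr this), inv_mul_le_iff₀ this]; exact h1

theorem sq_le_self {x : Mat n n} (h0 : 0 ≤ x) (h1 : x ≤ 1) : x * x ≤ x := by
  obtain ⟨C, hC, rfl⟩ := exists_sqrt h0
  have := conj_le h1 C
  simpa [herm_of_nonneg hC, Matrix.mul_assoc] using this

theorem ctr_of_nonneg_le_one {x : Mat n n} (h0 : 0 ≤ x) (h1 : x ≤ 1) : Ctr x := by
  unfold Ctr; rw [herm_of_nonneg h0]; exact (sq_le_self h0 h1).trans h1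

theorem Ctr.herm_le_one {x : Mat n n} (h : Ctr x) (hx : xᴴ = x) : x ≤ 1 := by
  have h1 : 0 ≤ (1 - x) * (1 - x) := herm_sq_nonneg (by simp [hx])
  have h2 : 0 ≤ 1 - x * x := by simpa [Ctr, hx] using h
  have h3 : 1 - x = (1 / 2 : ℝ) • ((1 - x) * (1 - x) + (1 - x * x)) := by
    simp only [Matrix.mul_sub, Matrix.sub_mul, Matrix.mul_one, Matrix.one_mul]
    module
  rw [← sub_nonneg, h3]; exact smul_nonneg' (by norm_num) (add_nonneg h1 h2)

theorem norm_comm_le {a : Mat m m} {b : Mat n n} (ha : Ctr a) (hb : Ctr b) (x : Mat m n) :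
    ‖a * x - x * b‖ ≤ 2 * ‖x‖ := by
  have := norm_sub_le (a * x) (x * b)
  linarith [ha.norm_mul_le x, hb.mul_norm_le x]

/-- commutator of anything with a contraction -/
theorem Ctr.norm_comm_le' {x : Mat n n} (hx : Ctr x) (e : Mat n n) :
    ‖e * x - x * e‖ ≤ 2 * ‖e‖ := by
  have := norm_sub_le (e * x) (x * e)
  linarith [hx.norm_mul_le e, hx.mul_norm_le e]

/-! ### unitaries -/

theorem IsUni.ctr {u : Mat n n} (h : IsUni u) : Ctr u := le_of_eq h.1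
theorem IsUni.adj {u : Mat n n} (h : IsUni u) : IsUni uᴴ := ⟨by simpa using h.2, by simpa using h.1⟩
theorem isUni_one : IsUni (1 : Mat n n) := by simp [IsUni]
theorem IsUni.mul {u v : Mat n n} (hu : IsUni u) (hv : IsUni v) : IsUni (u * v) := by
  constructor
  · rw [conjTranspose_mul, Matrix.mul_assoc, ← Matrix.mul_assoc uᴴ, hu.1, Matrix.one_mul, hv.1]
  · rw [conjTranspose_mul, Matrix.mul_assoc, ← Matrix.mul_assoc v, hv.2, Matrix.one_mul, hu.2]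

theorem isUni_of_adj_mul {u : Mat n n} (h : uᴴ * u = 1) : IsUni u := ⟨h, mul_eq_one_comm.mp h⟩

theorem isUni_coe (u : Matrix.unitaryGroup n ℂ) : IsUni (u : Mat n n) := ⟨u.2.1, u.2.2⟩

theorem norm_isom_mul {x : Mat l m} (h : xᴴ * x = 1) (y : Mat m n) : ‖x * y‖ = ‖y‖ := by
  rw [← sq_eq_sq₀ (norm_nonneg _) (norm_nonneg _), norm_mul_sq, h, Matrix.mul_one, norm_sq_eq_tr]

theorem norm_mul_coisom {x : Mat m n} (h : x * xᴴ = 1) (y : Mat l m) : ‖y * x‖ = ‖y‖ := by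
  rw [← norm_adj, conjTranspose_mul, norm_isom_mul (by simpa using h), norm_adj]

theorem IsUni.norm_mul {u : Mat m m} (h : IsUni u) (y : Mat m n) : ‖u * y‖ = ‖y‖ :=
  norm_isom_mul h.1 y

theorem IsUni.mul_norm {u : Mat n n} (h : IsUni u) (y : Mat m n) : ‖y * u‖ = ‖y‖ :=
  norm_mul_coisom h.2 y

theorem norm_comm_adj {u : Mat m m} {v : Mat n n} (hu : IsUni u) (hv : IsUni v) (x : Mat m n) :
    ‖uᴴ * x - x * vᴴ‖ = ‖u * x - x * v‖ := by
  have : u * (uᴴ * x - x * vᴴ) * v = -(u * x - x * v) := by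
    rw [Matrix.mul_sub, Matrix.sub_mul, ← Matrix.mul_assoc u, hu.2, Matrix.one_mul,
      Matrix.mul_assoc u, Matrix.mul_assoc x, hv.1, Matrix.mul_one, neg_sub]
  rw [← hu.norm_mul, ← hv.mul_norm, this, norm_neg]

theorem norm_comm_adj' {u : Mat m m} {v : Mat n n} (hu : IsUni u) (hv : IsUni v) (x : Mat m n) :
    ‖v * xᴴ - xᴴ * u‖ = ‖u * x - x * v‖ := by
  rw [← norm_adj, conjTranspose_sub, conjTranspose_mul, conjTranspose_mul,
    conjTranspose_conjTranspose, norm_sub_rev, norm_comm_adj hu hv]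

theorem norm_conj_sub {u : Mat m m} {v : Mat n n} (hv : IsUni v) (x : Mat m n) :
    ‖u * x * vᴴ - x‖ = ‖u * x - x * v‖ := by
  rw [← hv.mul_norm, Matrix.sub_mul, Matrix.mul_assoc, hv.1, Matrix.mul_one]

/-- `‖y‖² ≤ ‖V y‖² + c (k - ‖V‖²)` for a contraction `V` and `y yᴴ ≤ c` -/
theorem Ctr.norm_sq_le_mul_add {V : Mat l m} (hV : Ctr V) {y : Mat m n} {c : ℝ}
    (hy : y * yᴴ ≤ c • (1 : Mat m m)) :
    ‖y‖ ^ 2 ≤ ‖V * y‖ ^ 2 + c * (Fintype.card m - ‖V‖ ^ 2) := by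
  have h1 := tr_mul_le_right (sub_nonneg.mpr hV.le_one) hy
  rw [norm_mul_sq', norm_sq_eq_tr' y, norm_sq_eq_tr V]
  simp only [Matrix.sub_mul, Matrix.one_mul, Matrix.mul_smul, Matrix.mul_one, tr_sub, tr_smul,
    tr_one] at h1
  linarith

/-- `‖y‖² ≤ ‖y V‖² + c (n - ‖V‖²)` for a contraction `V` and `yᴴ y ≤ c` -/
theorem Ctr.norm_sq_le_mul_add' {V : Mat m n} (hV : Ctr V) {y : Mat l m} {c : ℝ}
    (hy : yᴴ * y ≤ c • (1 : Mat m m)) :
    ‖y‖ ^ 2 ≤ ‖y * V‖ ^ 2 + c * (Fintype.card m - ‖V‖ ^ 2) := by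
  have := hV.adj.norm_sq_le_mul_add (y := yᴴ) (c := c) (by simpa using hy)
  rwa [← conjTranspose_mul, norm_adj, norm_adj, norm_adj] at this

/-- the difference of two contractions has `yᴴ y ≤ 4` -/
theorem Ctr.sub_le_four {x y : Mat m n} (hx : Ctr x) (hy : Ctr y) :
    (x - y)ᴴ * (x - y) ≤ (4 : ℝ) • (1 : Mat n n) := by
  refine adj_mul_le_of_norm fun z => ?_
  have h1 := norm_sub_le (x * z) (y * z)
  rw [Matrix.sub_mul]
  nlinarith [hx.norm_mul_le z, hy.norm_mul_le z, norm_nonneg (x * z - y * z), norm_nonneg z]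

theorem Ctr.sub_le_four' {x y : Mat m n} (hx : Ctr x) (hy : Ctr y) :
    (x - y) * (x - y)ᴴ ≤ (4 : ℝ) • (1 : Mat m m) := by
  simpa using hx.adj.sub_le_four hy.adj

end ctr

end Pool.Agent.P.MP_7f9919_an.NH
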