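import Pool.Agent.P.MP_7f9919_an.NH.B0

set_option autoImplicit false
set_option linter.unusedSectionVars false

namespace Pool.Agent.P.MP_7f9919_an.NH

open Matrix
open scoped MatrixOrder ComplexOrder

variable {k l m n S : Type} [Fintype k] [Fintype l] [Fintype m] [Fintype n] [Fintype S]
variable [DecidableEq k] [DecidableEq l] [DecidableEq m] [DecidableEq n]

/-! ### projections -/

theorem isProj_zero : IsProj (0 : Mat n n) := by simp [IsProj]
theorem isProj_one : IsProj (1 : Mat n n) := by simp [IsProj]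

theorem IsProj.nonneg {p : Mat n n} (h : IsProj p) : 0 ≤ p := by
  rw [← h.2]; exact herm_sq_nonneg h.1

theorem IsProj.compl {p : Mat n n} (h : IsProj p) : IsProj (1 - p) := by
  refine ⟨by simp [h.1], ?_⟩
  simp [Matrix.mul_sub, Matrix.sub_mul, h.2]

theorem IsProj.le_one {p : Mat n n} (h : IsProj p) : p ≤ 1 := sub_nonneg.mp h.compl.nonneg

theorem IsProj.ctr {p : Mat n n} (h : IsProj p) : Ctr p := ctr_of_nonneg_le_one h.nonneg h.le_one

theorem IsProj.mul_compl {p : Mat n n} (h : IsProj p) : p * (1 - p) = 0 := by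
  simp [Matrix.mul_sub, h.2]

theorem IsProj.compl_mul {p : Mat n n} (h : IsProj p) : (1 - p) * p = 0 := by
  simp [Matrix.sub_mul, h.2]

theorem IsProj.norm_sq {p : Mat n n} (h : IsProj p) : ‖p‖ ^ 2 = tr p := by
  rw [norm_sq_eq_tr, h.1, h.2]

theorem IsProj.tr_nonneg {p : Mat n n} (h : IsProj p) : 0 ≤ tr p := NH.tr_nonneg h.nonneg

theorem IsProj.tr_le {p : Mat n n} (h : IsProj p) : tr p ≤ Fintype.card n := by
  simpa using tr_mono h.le_one

/-- `‖x p‖² = tr (xᴴ x p)` -/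
theorem IsProj.norm_mul_sq {p : Mat n n} (h : IsProj p) (x : Mat m n) :
    ‖x * p‖ ^ 2 = tr (xᴴ * x * p) := by rw [norm_mul_sq', h.1, h.2]

theorem IsProj.mul_norm_sq {p : Mat m m} (h : IsProj p) (x : Mat m n) :
    ‖p * x‖ ^ 2 = tr (p * (x * xᴴ)) := by rw [norm_mul_sq', h.1, h.2]

theorem IsProj.norm_mul_proj_sq {p q : Mat n n} (hp : IsProj p) (hq : IsProj q) :
    ‖p * q‖ ^ 2 = tr (p * q) := by rw [hq.norm_mul_sq, hp.1, hp.2]

/-- `q ≤ p` in the algebraic form `p q = q` gives `q p = q` -/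
theorem IsProj.mul_eq_of {p q : Mat n n} (hp : IsProj p) (hq : IsProj q) (h : p * q = q) :
    q * p = q := by
  have := congrArg conjTranspose h
  rwa [conjTranspose_mul, hp.1, hq.1] at this

theorem IsProj.mul_zero_symm {p q : Mat n n} (hp : IsProj p) (hq : IsProj q) (h : p * q = 0) :
    q * p = 0 := by
  have := congrArg conjTranspose h
  rwa [conjTranspose_mul, hp.1, hq.1, conjTranspose_zero] at this

theorem IsProj.add {p q : Mat n n} (hp : IsProj p) (hq : IsProj q) (h : p * q = 0) :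
    IsProj (p + q) := by
  refine ⟨by simp [hp.1, hq.1], ?_⟩
  simp [Matrix.mul_add, Matrix.add_mul, hp.2, hq.2, h, hp.mul_zero_symm hq h]

theorem IsProj.sub {p q : Mat n n} (hp : IsProj p) (hq : IsProj q) (h : p * q = q) :
    IsProj (p - q) := by
  refine ⟨by simp [hp.1, hq.1], ?_⟩
  simp [Matrix.mul_sub, Matrix.sub_mul, hp.2, hq.2, h, hp.mul_eq_of hq h]

theorem IsProj.le_of_mul {p q : Mat n n} (hp : IsProj p) (hq : IsProj q) (h : p * q = q) : q ≤ p :=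
  sub_nonneg.mp (hp.sub hq h).nonneg

theorem IsProj.conj_isom {q : Mat m m} (hq : IsProj q) {x : Mat n m} (hx : xᴴ * x = 1) :
    IsProj (x * q * xᴴ) := by
  refine ⟨by simp [hq.1, Matrix.mul_assoc], ?_⟩
  calc x * q * xᴴ * (x * q * xᴴ) = x * (q * (xᴴ * x) * q) * xᴴ := by simp only [Matrix.mul_assoc]
    _ = _ := by rw [hx, Matrix.mul_one, hq.2]

theorem norm_add_sq_of_adj_mul {x y : Mat m n} (h : xᴴ * y = 0) :
    ‖x + y‖ ^ 2 = ‖x‖ ^ 2 + ‖y‖ ^ 2 := by rw [norm_add_sq, h]; simp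

theorem norm_add_sq_of_mul_adj {x y : Mat m n} (h : y * xᴴ = 0) :
    ‖x + y‖ ^ 2 = ‖x‖ ^ 2 + ‖y‖ ^ 2 := by rw [norm_add_sq, tr_mul_comm, h]; simp

theorem IsProj.add_mul_norm_sq {p q : Mat m m} (hp : IsProj p) (h : p * q = 0) (x : Mat m n) :
    ‖(p + q) * x‖ ^ 2 = ‖p * x‖ ^ 2 + ‖q * x‖ ^ 2 := by
  rw [Matrix.add_mul]
  refine norm_add_sq_of_adj_mul ?_
  rw [conjTranspose_mul, hp.1, Matrix.mul_assoc, ← Matrix.mul_assoc p, h]; simp

theorem IsProj.mul_add_norm_sq {p q : Mat n n} (hp : IsProj p) (h : q * p = 0) (x : Mat m n) :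
    ‖x * (p + q)‖ ^ 2 = ‖x * p‖ ^ 2 + ‖x * q‖ ^ 2 := by
  rw [Matrix.mul_add]
  refine norm_add_sq_of_mul_adj ?_
  rw [conjTranspose_mul, hp.1, Matrix.mul_assoc, ← Matrix.mul_assoc q, h]; simp

theorem IsProj.pyth_left {p : Mat m m} (hp : IsProj p) (x : Mat m n) :
    ‖p * x‖ ^ 2 + ‖(1 - p) * x‖ ^ 2 = ‖x‖ ^ 2 := by
  rw [← hp.add_mul_norm_sq hp.mul_compl]; simp

theorem IsProj.pyth_right {p : Mat n n} (hp : IsProj p) (x : Mat m n) :
    ‖x * p‖ ^ 2 + ‖x * (1 - p)‖ ^ 2 = ‖x‖ ^ 2 := by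
  rw [← hp.mul_add_norm_sq hp.compl_mul]; simp

theorem IsProj.norm_sub_sq {p q : Mat n n} (hp : IsProj p) (hq : IsProj q) :
    ‖p - q‖ ^ 2 = tr (p * (1 - q)) + tr (q * (1 - p)) := by
  rw [NH.norm_sub_sq, hp.norm_sq, hq.norm_sq, hp.1]
  simp only [Matrix.mul_sub, Matrix.mul_one, tr_sub, tr_mul_comm q p]; ring

/-- (0.1) -/
theorem IsProj.abs_tr_sub_le {p q : Mat n n} (hp : IsProj p) (hq : IsProj q) :
    |tr p - tr q| ≤ ‖p - q‖ ^ 2 := by
  have h1 := tr_mul_nonneg hp.nonneg hq.compl.nonneg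
  have h2 := tr_mul_nonneg hq.nonneg hp.compl.nonneg
  rw [hp.norm_sub_sq hq]
  simp only [Matrix.mul_sub, Matrix.mul_one, tr_sub, tr_mul_comm q p] at *
  rw [abs_le]; constructor <;> linarith

/-- a difference of two projections is a contraction -/
theorem IsProj.ctr_sub {p q : Mat n n} (hp : IsProj p) (hq : IsProj q) : Ctr (p - q) := by
  have h1 : 0 ≤ (1 - p - q) * (1 - p - q) := herm_sq_nonneg (by simp [hp.1, hq.1])
  have h2 : 1 - (p - q)ᴴ * (p - q) = (1 - p - q) * (1 - p - q) := by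
    simp only [conjTranspose_sub, hp.1, hq.1, Matrix.mul_sub, Matrix.sub_mul, Matrix.mul_one,
      Matrix.one_mul, hp.2, hq.2]
    abel
  unfold Ctr; rw [← sub_nonneg, h2]; exact h1

/-! ### rows and columns (L11) -/

section rows
variable {ι : Type}

theorem sum_norm_mul_sq_le (s : Finset ι) {a : ι → Mat m n} {c : ℝ}
    (h : ∑ i ∈ s, a i * (a i)ᴴ ≤ c • (1 : Mat m m)) (e : Mat l m) :
    ∑ i ∈ s, ‖e * a i‖ ^ 2 ≤ c * ‖e‖ ^ 2 := by
  have h1 := tr_mul_le_right (adj_mul_self_nonneg e) h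
  simp only [norm_mul_sq']
  rw [← tr_sum, ← Matrix.mul_sum, norm_sq_eq_tr]
  simpa [tr_smul] using h1

theorem sum_mul_norm_sq_le (s : Finset ι) {a : ι → Mat l m} {c : ℝ}
    (h : ∑ i ∈ s, (a i)ᴴ * a i ≤ c • (1 : Mat m m)) (e : Mat m n) :
    ∑ i ∈ s, ‖a i * e‖ ^ 2 ≤ c * ‖e‖ ^ 2 := by
  have := sum_norm_mul_sq_le s (a := fun i => (a i)ᴴ) (c := c) (by simpa using h) eᴴ
  simpa only [← conjTranspose_mul, norm_adj] using this

theorem norm_sum_mul_sq_le (s : Finset ι) {a : ι → Mat l m} {c : ℝ} (hc : 0 ≤ c)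
    (h : ∑ i ∈ s, a i * (a i)ᴴ ≤ c • (1 : Mat l l)) (y : ι → Mat m n) :
    ‖∑ i ∈ s, a i * y i‖ ^ 2 ≤ c * ∑ i ∈ s, ‖y i‖ ^ 2 := by
  obtain ⟨X, hX⟩ : ∃ X, X = ∑ i ∈ s, a i * y i := ⟨_, rfl⟩
  rw [← hX]
  have h1 : ‖X‖ ^ 2 ≤ ∑ i ∈ s, ‖Xᴴ * a i‖ * ‖y i‖ := by
    have h0 : Xᴴ * X = ∑ i ∈ s, Xᴴ * a i * y i := by
      simp only [Matrix.mul_assoc]; rw [← Matrix.mul_sum, ← hX]
    rw [norm_sq_eq_tr, h0, tr_sum]
    exact Finset.sum_le_sum fun i _ => (le_abs_self _).trans (abs_tr_mul_le _ _)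
  have h2 := Finset.sum_mul_sq_le_sq_mul_sq s (fun i => ‖Xᴴ * a i‖) (fun i => ‖y i‖)
  have h3 := sum_norm_mul_sq_le s h Xᴴ
  rw [norm_adj] at h3
  have hy : 0 ≤ ∑ i ∈ s, ‖y i‖ ^ 2 := by positivity
  have h4 : (‖X‖ ^ 2) ^ 2 ≤ c * ‖X‖ ^ 2 * ∑ i ∈ s, ‖y i‖ ^ 2 :=
    (pow_le_pow_left₀ (by positivity) h1 2).trans (h2.trans (mul_le_mul_of_nonneg_right h3 hy))
  generalize ∑ i ∈ s, ‖y i‖ ^ 2 = T at *
  have hN : 0 ≤ ‖X‖ ^ 2 := sq_nonneg _
  generalize ‖X‖ ^ 2 = N at *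
  rcases hN.eq_or_lt with h0 | h0
  · rw [← h0]; positivity
  · nlinarith

theorem norm_sum_mul_adj_sq_le (s : Finset ι) {a : ι → Mat n m} {c : ℝ} (hc : 0 ≤ c)
    (h : ∑ i ∈ s, a i * (a i)ᴴ ≤ c • (1 : Mat n n)) (y : ι → Mat l m) :
    ‖∑ i ∈ s, y i * (a i)ᴴ‖ ^ 2 ≤ c * ∑ i ∈ s, ‖y i‖ ^ 2 := by
  have := norm_sum_mul_sq_le s hc h (fun i => (y i)ᴴ)
  rw [← norm_adj, conjTranspose_sum] at this
  simpa using this

theorem sum_norm_comm_sq_le (s : Finset ι) {a : ι → Mat n n}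
    (h : ∑ i ∈ s, a i * (a i)ᴴ ≤ 1) (h' : ∑ i ∈ s, (a i)ᴴ * a i ≤ 1) (e : Mat n n) :
    ∑ i ∈ s, ‖e * a i - a i * e‖ ^ 2 ≤ 4 * ‖e‖ ^ 2 := by
  have h1 := sum_norm_mul_sq_le s (c := 1) (by simpa using h) e
  have h2 := sum_mul_norm_sq_le s (c := 1) (by simpa using h') e
  have h3 := Finset.sum_le_sum fun i (_ : i ∈ s) => norm_sub_sq_le (e * a i) (a i * e)
  rw [Finset.sum_add_distrib, ← Finset.mul_sum, ← Finset.mul_sum] at h3
  linarith

/-- a partition of unity into projections splits the norm -/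
theorem sum_norm_mul_proj_sq (s : Finset ι) {e : ι → Mat n n} (he : ∀ i ∈ s, IsProj (e i))
    (h : ∑ i ∈ s, e i = 1) (x : Mat m n) : ∑ i ∈ s, ‖x * e i‖ ^ 2 = ‖x‖ ^ 2 := by
  rw [Finset.sum_congr rfl fun i hi => (he i hi).norm_mul_sq x, ← tr_sum, ← Matrix.mul_sum, h,
    Matrix.mul_one, norm_sq_eq_tr]

theorem sum_norm_proj_mul_sq (s : Finset ι) {e : ι → Mat m m} (he : ∀ i ∈ s, IsProj (e i))
    (h : ∑ i ∈ s, e i = 1) (x : Mat m n) : ∑ i ∈ s, ‖e i * x‖ ^ 2 = ‖x‖ ^ 2 := by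
  rw [Finset.sum_congr rfl fun i hi => (he i hi).mul_norm_sq x, ← tr_sum, ← Matrix.sum_mul, h,
    Matrix.one_mul, norm_sq_eq_tr']

end rows

/-! ### defects -/

theorem D_nonneg (a : S → Mat m m) (b : S → Mat n n) (x : Mat m n) : 0 ≤ D a b x := by
  unfold D; positivity

theorem D2_nonneg (a : S → Mat m m) (b : S → Mat n n) (x : Mat m n) : 0 ≤ D2 a b x :=
  add_nonneg (D_nonneg _ _ _) (D_nonneg _ _ _)

theorem D_le_D2 (a : S → Mat m m) (b : S → Mat n n) (x : Mat m n) : D a b x ≤ D2 a b x :=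
  le_add_of_nonneg_right (D_nonneg _ _ _)

theorem norm_sq_le_D (a : S → Mat m m) (b : S → Mat n n) (x : Mat m n) (s : S) :
    ‖a s * x - x * b s‖ ^ 2 ≤ D a b x :=
  Finset.single_le_sum (f := fun s => ‖a s * x - x * b s‖ ^ 2) (fun _ _ => sq_nonneg _)
    (Finset.mem_univ s)

theorem D2_adj (a : S → Mat m m) (b : S → Mat n n) (x : Mat m n) : D2 b a xᴴ = D2 a b x := by
  simp [D2, add_comm]

theorem D2_herm (a : S → Mat n n) {x : Mat n n} (h : xᴴ = x) : D2 a a x = 2 * D a a x := by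
  rw [D2, h]; ring

theorem D_adj {a : S → Mat m m} {b : S → Mat n n} (ha : ∀ s, IsUni (a s)) (hb : ∀ s, IsUni (b s))
    (x : Mat m n) : D b a xᴴ = D a b x :=
  Finset.sum_congr rfl fun s _ => by rw [norm_comm_adj' (ha s) (hb s)]

theorem D_smul (a : S → Mat m m) (b : S → Mat n n) (c : ℝ) (x : Mat m n) :
    D a b (c • x) = c ^ 2 * D a b x := by
  unfold D
  rw [Finset.mul_sum]
  refine Finset.sum_congr rfl fun s _ => ?_
  rw [Matrix.mul_smul, Matrix.smul_mul, ← smul_sub, norm_real_smul, mul_pow, sq_abs]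

theorem D2_smul (a : S → Mat m m) (b : S → Mat n n) (c : ℝ) (x : Mat m n) :
    D2 a b (c • x) = c ^ 2 * D2 a b x := by
  simp [D2, D_smul, mul_add]

theorem D_add_le (a : S → Mat m m) (b : S → Mat n n) (x y : Mat m n) :
    D a b (x + y) ≤ 2 * D a b x + 2 * D a b y := by
  unfold D
  rw [Finset.mul_sum, Finset.mul_sum, ← Finset.sum_add_distrib]
  refine Finset.sum_le_sum fun s _ => ?_
  have : a s * (x + y) - (x + y) * b s = (a s * x - x * b s) + (a s * y - y * b s) := by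
    rw [Matrix.mul_add, Matrix.add_mul]; abel
  rw [this]; exact norm_add_sq_le _ _

theorem D_le_norm {a : S → Mat m m} {b : S → Mat n n} (ha : ∀ s, Ctr (a s)) (hb : ∀ s, Ctr (b s))
    (x : Mat m n) : D a b x ≤ 4 * Fintype.card S * ‖x‖ ^ 2 := by
  have : ∀ s, ‖a s * x - x * b s‖ ^ 2 ≤ 4 * ‖x‖ ^ 2 := fun s => by
    nlinarith [norm_comm_le (ha s) (hb s) x, norm_nonneg (a s * x - x * b s)]
  refine (Finset.sum_le_sum fun s _ => this s).trans ?_
  simp only [Finset.sum_const, Finset.card_univ, nsmul_eq_mul]; nlinarith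

/-- (0.0) -/
theorem D_le_of_near {a : S → Mat m m} {b : S → Mat n n} (ha : ∀ s, Ctr (a s))
    (hb : ∀ s, Ctr (b s)) (x x' : Mat m n) :
    D a b x' ≤ 2 * D a b x + 8 * Fintype.card S * ‖x' - x‖ ^ 2 := by
  have h1 := D_add_le a b x (x' - x)
  have h2 := D_le_norm ha hb (x' - x)
  rw [add_sub_cancel] at h1; linarith

theorem D2_le_of_near {a : S → Mat m m} {b : S → Mat n n} (ha : ∀ s, Ctr (a s))
    (hb : ∀ s, Ctr (b s)) (x x' : Mat m n) :
    D2 a b x' ≤ 2 * D2 a b x + 16 * Fintype.card S * ‖x' - x‖ ^ 2 := by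
  have h1 := D_le_of_near ha hb x x'
  have h2 := D_le_of_near hb ha xᴴ x'ᴴ
  rw [← conjTranspose_sub, norm_adj] at h2
  unfold D2; linarith

/-- changing the tuples, for a contraction `x` -/
theorem D_le_of_tuple (a a' : S → Mat m m) (b b' : S → Mat n n) {x : Mat m n} (hx : Ctr x) :
    D a' b' x ≤ 3 * (D a b x + ∑ s, ‖a' s - a s‖ ^ 2 + ∑ s, ‖b' s - b s‖ ^ 2) := by
  unfold D
  rw [← Finset.sum_add_distrib, ← Finset.sum_add_distrib, Finset.mul_sum]
  refine Finset.sum_le_sum fun s _ => ?_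
  have : a' s * x - x * b' s = (a s * x - x * b s) + (a' s - a s) * x + -(x * (b' s - b s)) := by
    rw [Matrix.sub_mul, Matrix.mul_sub]; abel
  rw [this]
  refine (norm_add3_sq_le _ _ _).trans ?_
  rw [norm_neg]
  linarith [hx.mul_norm_sq_le (a' s - a s), hx.norm_mul_sq_le (b' s - b s)]

theorem norm_comm_proj_sq {p : Mat n n} (hp : IsProj p) (u : Mat n n) :
    ‖u * p - p * u‖ ^ 2 = ‖p * u * (1 - p)‖ ^ 2 + ‖(1 - p) * u * p‖ ^ 2 := by
  have : u * p - p * u = -(p * u * (1 - p)) + (1 - p) * u * p := by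
    simp only [Matrix.mul_sub, Matrix.sub_mul, Matrix.mul_one, Matrix.one_mul]; abel
  rw [this, norm_add_sq_of_adj_mul, norm_neg]
  simp only [conjTranspose_neg, conjTranspose_mul, hp.1, Matrix.neg_mul, Matrix.mul_assoc]
  rw [← Matrix.mul_assoc p, hp.mul_compl]; simp

theorem D_proj {p : Mat n n} (hp : IsProj p) (u : S → Mat n n) : D u u p = ed u p (1 - p) :=
  Finset.sum_congr rfl fun s _ => norm_comm_proj_sq hp (u s)

theorem ed_nonneg (u : S → Mat n n) (p q : Mat n n) : 0 ≤ ed u p q := by unfold ed; positivity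

theorem ed_comm (u : S → Mat n n) (p q : Mat n n) : ed u p q = ed u q p :=
  Finset.sum_congr rfl fun _ _ => add_comm _ _

@[simp] theorem ed_zero_left (u : S → Mat n n) (q : Mat n n) : ed u 0 q = 0 := by simp [ed]

theorem ed_add_left (u : S → Mat n n) {p p' : Mat n n} (hp : IsProj p) (hp' : IsProj p')
    (h : p * p' = 0) (q : Mat n n) : ed u (p + p') q = ed u p q + ed u p' q := by
  unfold ed
  rw [← Finset.sum_add_distrib]
  refine Finset.sum_congr rfl fun s _ => ?_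
  rw [Matrix.mul_assoc (p + p'), hp.add_mul_norm_sq h, hp.mul_add_norm_sq (hp.mul_zero_symm hp' h)]
  simp only [Matrix.mul_assoc]; ring

theorem ed_add_right (u : S → Mat n n) {q q' : Mat n n} (hq : IsProj q) (hq' : IsProj q')
    (h : q * q' = 0) (p : Mat n n) : ed u p (q + q') = ed u p q + ed u p q' := by
  rw [ed_comm, ed_add_left u hq hq' h, ed_comm u q, ed_comm u q']

theorem ed_mono_left (u : S → Mat n n) {p p' : Mat n n} (hp : IsProj p) (hp' : IsProj p')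
    (h : p * p' = p') (q : Mat n n) : ed u p' q ≤ ed u p q := by
  have h1 := ed_add_left u hp' (hp.sub hp' h) (by simp [Matrix.mul_sub, hp'.2, hp.mul_eq_of hp' h]) q
  rw [add_sub_cancel] at h1
  linarith [ed_nonneg u (p - p') q]

theorem ed_mono_right (u : S → Mat n n) {q q' : Mat n n} (hq : IsProj q) (hq' : IsProj q')
    (h : q * q' = q') (p : Mat n n) : ed u p q' ≤ ed u p q := by
  rw [ed_comm, ed_comm u p]; exact ed_mono_left u hq hq' h p

/-- for `W ≤ U` : `D W ≤ e(W, U - W) + D U` -/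
theorem D_le_ed_add (u : S → Mat n n) {U W : Mat n n} (hU : IsProj U) (hW : IsProj W)
    (h : U * W = W) : D u u W ≤ ed u W (U - W) + D u u U := by
  have hr := hU.sub hW h
  have h' := hU.mul_eq_of hW h
  have h1 : (1 : Mat n n) - W = (U - W) + (1 - U) := by abel
  rw [D_proj hW, D_proj hU, h1, ed_add_right u hr hU.compl (by simp [Matrix.mul_sub, Matrix.sub_mul, hU.2, h'])]
  linarith [ed_mono_left u hU hW h (1 - U)]

/-- for `W ≤ U` : `D (U - W) ≤ e(W, U - W) + D U` -/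
theorem D_sub_le_ed_add (u : S → Mat n n) {U W : Mat n n} (hU : IsProj U) (hW : IsProj W)
    (h : U * W = W) : D u u (U - W) ≤ ed u W (U - W) + D u u U := by
  have := D_le_ed_add u hU (hU.sub hW h) (by simp [Matrix.mul_sub, hU.2, h])
  rwa [sub_sub_cancel, ed_comm] at this

end Pool.Agent.P.MP_7f9919_an.NH
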