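import Pool.Agent.P.MP_7f9919_an.NH.B1

set_option autoImplicit false
set_option linter.unusedSectionVars false

namespace Pool.Agent.P.MP_7f9919_an.NH

open Matrix
open scoped MatrixOrder ComplexOrder

variable {k l m n S : Type} [Fintype k] [Fintype l] [Fintype m] [Fintype n] [Fintype S]
variable [DecidableEq k] [DecidableEq l] [DecidableEq m] [DecidableEq n]

/-! ### functional calculus -/

open Classical in
/-- eigenvalues of a Hermitian matrix -/
noncomputable def eig (A : Mat n n) : n → ℝ :=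
  if h : A.IsHermitian then h.eigenvalues else 0

/-- real diagonal matrix -/
noncomputable def dg (d : n → ℝ) : Mat n n := diagonal fun i => (d i : ℂ)

/-- `|zᴴ| = (z zᴴ)^(1/2)` -/
noncomputable def absL (z : Mat m n) : Mat m m := fc Real.sqrt (z * zᴴ)

/-- `|z| = (zᴴ z)^(1/2)` -/
noncomputable def absR (z : Mat m n) : Mat n n := fc Real.sqrt (zᴴ * z)

theorem exists_diag {A : Mat n n} (hA : Aᴴ = A) :
    ∃ U : Mat n n, IsUni U ∧ ∀ f : ℝ → ℝ, fc f A = U * dg (fun i => f (eig A i)) * Uᴴ := by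
  have h : A.IsHermitian := hA
  refine ⟨h.eigenvectorUnitary, isUni_coe _, fun f => ?_⟩
  rw [fc, h.cfc_eq, IsHermitian.cfc, Unitary.conjStarAlgAut_apply]
  simp only [eig, dif_pos h]
  rfl

theorem eig_mem {A : Mat n n} (hA : Aᴴ = A) (i : n) : eig A i ∈ spectrum ℝ A := by
  have h : A.IsHermitian := hA
  simp only [eig, dif_pos h]; exact h.eigenvalues_mem_spectrum_real i

theorem exists_eig {A : Mat n n} (hA : Aᴴ = A) {x : ℝ} (hx : x ∈ spectrum ℝ A) :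
    ∃ i, eig A i = x := by
  have h : A.IsHermitian := hA
  rw [h.spectrum_real_eq_range_eigenvalues] at hx
  simp only [eig, dif_pos h]; exact hx

theorem contOn (f : ℝ → ℝ) (A : Mat n n) : ContinuousOn f (spectrum ℝ A) :=
  A.finite_real_spectrum.continuousOn f

theorem fc_herm (f : ℝ → ℝ) (A : Mat n n) : (fc f A)ᴴ = fc f A :=
  (cfc_predicate f A : IsSelfAdjoint (cfc f A))

theorem fc_id {A : Mat n n} (hA : Aᴴ = A) : fc (fun x => x) A = A :=
  cfc_id' ℝ A (show IsSelfAdjoint A from hA)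

theorem fc_const {A : Mat n n} (hA : Aᴴ = A) (c : ℝ) : fc (fun _ => c) A = c • (1 : Mat n n) := by
  rw [fc, cfc_const c A (show IsSelfAdjoint A from hA), Algebra.algebraMap_eq_smul_one]

theorem fc_one {A : Mat n n} (hA : Aᴴ = A) : fc (fun _ => 1) A = 1 := by
  rw [fc_const hA, one_smul]

theorem fc_zero (A : Mat n n) : fc (fun _ => 0) A = 0 := cfc_const_zero ℝ A

theorem fc_add (f g : ℝ → ℝ) (A : Mat n n) : fc (fun x => f x + g x) A = fc f A + fc g A :=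
  cfc_add A f g (contOn _ _) (contOn _ _)

theorem fc_sub (f g : ℝ → ℝ) (A : Mat n n) : fc (fun x => f x - g x) A = fc f A - fc g A :=
  cfc_sub f g A (contOn _ _) (contOn _ _)

theorem fc_mul (f g : ℝ → ℝ) (A : Mat n n) : fc (fun x => f x * g x) A = fc f A * fc g A :=
  cfc_mul f g A (contOn _ _) (contOn _ _)

theorem fc_smul (c : ℝ) (f : ℝ → ℝ) (A : Mat n n) : fc (fun x => c * f x) A = c • fc f A :=
  cfc_const_mul c f A (contOn _ _)

theorem fc_comm (f g : ℝ → ℝ) (A : Mat n n) : fc f A * fc g A = fc g A * fc f A := by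
  rw [← fc_mul, ← fc_mul]; simp only [mul_comm]

theorem fc_congr {f g : ℝ → ℝ} {A : Mat n n} (h : ∀ x ∈ spectrum ℝ A, f x = g x) :
    fc f A = fc g A := cfc_congr h

theorem fc_comp {A : Mat n n} (hA : Aᴴ = A) (g f : ℝ → ℝ) :
    fc g (fc f A) = fc (fun x => g (f x)) A :=
  (cfc_comp' g f A ((A.finite_real_spectrum.image f).continuousOn g) (contOn _ _)
    (show IsSelfAdjoint A from hA)).symm

theorem fc_id_mul {A : Mat n n} (hA : Aᴴ = A) (f : ℝ → ℝ) :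
    fc (fun x => x * f x) A = A * fc f A := by rw [fc_mul, fc_id hA]

theorem fc_mul_id {A : Mat n n} (hA : Aᴴ = A) (f : ℝ → ℝ) :
    fc (fun x => f x * x) A = fc f A * A := by rw [fc_mul, fc_id hA]

theorem fc_one_sub {A : Mat n n} (hA : Aᴴ = A) (f : ℝ → ℝ) :
    fc (fun x => 1 - f x) A = 1 - fc f A := by rw [fc_sub, fc_one hA]

theorem fc_nonneg {f : ℝ → ℝ} {A : Mat n n} (h : ∀ x ∈ spectrum ℝ A, 0 ≤ f x) : 0 ≤ fc f A :=
  cfc_nonneg h

theorem fc_le_fc {f g : ℝ → ℝ} {A : Mat n n} (h : ∀ x ∈ spectrum ℝ A, f x ≤ g x) :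
    fc f A ≤ fc g A := by
  rw [← sub_nonneg, ← fc_sub]; exact fc_nonneg fun x hx => sub_nonneg.mpr (h x hx)

theorem fc_le_smul_one {f : ℝ → ℝ} {A : Mat n n} (hA : Aᴴ = A) {c : ℝ}
    (h : ∀ x ∈ spectrum ℝ A, f x ≤ c) : fc f A ≤ c • (1 : Mat n n) := by
  rw [← fc_const hA]; exact fc_le_fc h

theorem fc_le_one {f : ℝ → ℝ} {A : Mat n n} (hA : Aᴴ = A) (h : ∀ x ∈ spectrum ℝ A, f x ≤ 1) :
    fc f A ≤ 1 := by simpa using fc_le_smul_one hA h

theorem ctr_fc {f : ℝ → ℝ} {A : Mat n n} (hA : Aᴴ = A) (h : ∀ x ∈ spectrum ℝ A, |f x| ≤ 1) :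
    Ctr (fc f A) := by
  unfold Ctr
  rw [fc_herm, ← fc_mul]
  exact fc_le_one hA fun x hx => by nlinarith [abs_le.mp (h x hx)]

theorem spec_fc {A : Mat n n} (hA : Aᴴ = A) (f : ℝ → ℝ) {y : ℝ} (hy : y ∈ spectrum ℝ (fc f A)) :
    ∃ x ∈ spectrum ℝ A, f x = y := by
  rw [fc, cfc_map_spectrum f A (show IsSelfAdjoint A from hA) (contOn _ _)] at hy
  exact hy

theorem spec_nonneg {A : Mat n n} (hA : 0 ≤ A) {x : ℝ} (hx : x ∈ spectrum ℝ A) : 0 ≤ x :=
  spectrum_nonneg_of_nonneg hA hx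

theorem spec_le {A : Mat n n} (hA : Aᴴ = A) {c : ℝ} (h : A ≤ c • (1 : Mat n n)) {x : ℝ}
    (hx : x ∈ spectrum ℝ A) : x ≤ c := by
  have h1 : 0 ≤ fc (fun y => c - y) A := by
    rw [fc_sub, fc_const hA, fc_id hA]; exact sub_nonneg.mpr h
  have h2 : c - x ∈ spectrum ℝ (fc (fun y => c - y) A) := by
    rw [fc, cfc_map_spectrum _ A (show IsSelfAdjoint A from hA) (contOn _ _)]
    exact ⟨x, hx, rfl⟩
  linarith [spec_nonneg h1 h2]

theorem spec_le_one {A : Mat n n} (hA : Aᴴ = A) (h : A ≤ 1) {x : ℝ} (hx : x ∈ spectrum ℝ A) :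
    x ≤ 1 := spec_le hA (by simpa using h) hx

theorem le_spec {A : Mat n n} (hA : Aᴴ = A) {c : ℝ} (h : c • (1 : Mat n n) ≤ A) {x : ℝ}
    (hx : x ∈ spectrum ℝ A) : c ≤ x := by
  have h1 : 0 ≤ fc (fun y => y - c) A := by
    rw [fc_sub, fc_const hA, fc_id hA]; exact sub_nonneg.mpr h
  have h2 : x - c ∈ spectrum ℝ (fc (fun y => y - c) A) := by
    rw [fc, cfc_map_spectrum _ A (show IsSelfAdjoint A from hA) (contOn _ _)]
    exact ⟨x, hx, rfl⟩
  linarith [spec_nonneg h1 h2]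

theorem IsProj.spec {p : Mat n n} (hp : IsProj p) {x : ℝ} (hx : x ∈ spectrum ℝ p) :
    x = 0 ∨ x = 1 := by
  have h1 : fc (fun y => y * y - y) p = 0 := by
    rw [fc_sub, fc_mul, fc_id hp.1, hp.2, sub_self]
  have h2 : x * x - x ∈ spectrum ℝ (fc (fun y => y * y - y) p) := by
    rw [fc, cfc_map_spectrum _ p (show IsSelfAdjoint p from hp.1) (contOn _ _)]
    exact ⟨x, hx, rfl⟩
  have h3 := spec_nonneg (le_of_eq h1.symm) h2
  have h4 := spec_nonneg hp.nonneg hx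
  have h5 := spec_le_one hp.1 hp.le_one hx
  rcases h4.eq_or_lt with h | h
  · exact Or.inl h.symm
  · right; nlinarith

theorem isProj_fc {f : ℝ → ℝ} {A : Mat n n} (h : ∀ x, f x = 0 ∨ f x = 1) : IsProj (fc f A) := by
  refine ⟨fc_herm _ _, ?_⟩
  rw [← fc_mul]
  exact fc_congr fun x _ => by rcases h x with h | h <;> simp [h]

theorem gtI_cases (s x : ℝ) : gtI s x = 0 ∨ gtI s x = 1 := by unfold gtI; split_ifs <;> simp
theorem gtI_of_lt {s x : ℝ} (h : s < x) : gtI s x = 1 := if_pos h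
theorem gtI_of_le {s x : ℝ} (h : x ≤ s) : gtI s x = 0 := if_neg (not_lt.mpr h)
theorem gtI_nonneg (s x : ℝ) : 0 ≤ gtI s x := by rcases gtI_cases s x with h | h <;> simp [h]
theorem gtI_le_one (s x : ℝ) : gtI s x ≤ 1 := by rcases gtI_cases s x with h | h <;> simp [h]
theorem gtI_anti {s t : ℝ} (h : s ≤ t) (x : ℝ) : gtI t x ≤ gtI s x := by
  by_cases hx : t < x
  · rw [gtI_of_lt hx, gtI_of_lt (h.trans_lt hx)]
  · rw [gtI_of_le (not_lt.mp hx)]; exact gtI_nonneg _ _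

theorem isProj_gtI (s : ℝ) (A : Mat n n) : IsProj (fc (gtI s) A) := isProj_fc (gtI_cases s)

theorem tr_fc {A : Mat n n} (hA : Aᴴ = A) (f : ℝ → ℝ) : tr (fc f A) = ∑ i, f (eig A i) := by
  obtain ⟨U, hU, h⟩ := exists_diag hA
  rw [h, tr_cycle, hU.1, Matrix.one_mul]
  simp [tr, dg]

theorem norm_fc_sq {A : Mat n n} (hA : Aᴴ = A) (f : ℝ → ℝ) :
    ‖fc f A‖ ^ 2 = ∑ i, f (eig A i) ^ 2 := by
  rw [norm_sq_eq_tr, fc_herm, ← fc_mul, tr_fc hA]; simp only [sq]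

theorem norm_fc_sq_eq_tr (A : Mat n n) (f : ℝ → ℝ) :
    ‖fc f A‖ ^ 2 = tr (fc (fun x => f x ^ 2) A) := by
  rw [norm_sq_eq_tr, fc_herm, ← fc_mul]; simp only [sq]

theorem tr_fc_mono {f g : ℝ → ℝ} {A : Mat n n} (h : ∀ x ∈ spectrum ℝ A, f x ≤ g x) :
    tr (fc f A) ≤ tr (fc g A) := tr_mono (fc_le_fc h)

/-- L1, the workhorse -/
theorem exists_weights {A : Mat m m} {B : Mat n n} (hA : Aᴴ = A) (hB : Bᴴ = B) (y : Mat m n) :
    ∃ w : m → n → ℝ, (∀ i j, 0 ≤ w i j) ∧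
      (Ctr y → (∀ i, ∑ j, w i j ≤ 1) ∧ ∀ j, ∑ i, w i j ≤ 1) ∧
      ∀ f g : ℝ → ℝ, ‖fc f A * y - y * fc g B‖ ^ 2 =
        ∑ i, ∑ j, w i j * (f (eig A i) - g (eig B j)) ^ 2 := by
  obtain ⟨U, hU, h⟩ := exists_diag hA
  obtain ⟨V, hV, h'⟩ := exists_diag hB
  obtain ⟨Y, hY⟩ : ∃ Y, Y = Uᴴ * y * V := ⟨_, rfl⟩
  refine ⟨fun i j => ‖Y i j‖ ^ 2, fun _ _ => sq_nonneg _, fun hy => ?_, fun f g => ?_⟩
  · have hc : Ctr Y := hY ▸ (hU.adj.ctr.mul hy).mul hV.ctr
    constructor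
    · intro i
      have h1 := (nonneg_iff_posSemidef.mp (sub_nonneg.mpr hc.le_one')).diag_nonneg (i := i)
      have h2 := (Complex.nonneg_iff.mp h1).1
      simp only [Matrix.sub_apply, one_apply_eq, mul_apply, conjTranspose_apply, Complex.sub_re,
        Complex.one_re, Complex.re_sum, sub_nonneg] at h2
      refine le_trans (le_of_eq (Finset.sum_congr rfl fun j _ => ?_)) h2
      simp [Complex.sq_norm, Complex.normSq_apply]
    · intro j
      have h1 := (nonneg_iff_posSemidef.mp (sub_nonneg.mpr hc.le_one)).diag_nonneg (i := j)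
      have h2 := (Complex.nonneg_iff.mp h1).1
      simp only [Matrix.sub_apply, one_apply_eq, mul_apply, conjTranspose_apply, Complex.sub_re,
        Complex.one_re, Complex.re_sum, sub_nonneg] at h2
      refine le_trans (le_of_eq (Finset.sum_congr rfl fun i _ => ?_)) h2
      simp [Complex.sq_norm, Complex.normSq_apply]
  · have e : Uᴴ * (fc f A * y - y * fc g B) * V =
        dg (fun i => f (eig A i)) * Y - Y * dg (fun j => g (eig B j)) := by
      rw [h, h', hY, Matrix.mul_sub, Matrix.sub_mul]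
      simp only [Matrix.mul_assoc]
      rw [← Matrix.mul_assoc Uᴴ U, hU.1, hV.1, Matrix.one_mul, Matrix.mul_one]
    rw [← hU.adj.norm_mul, ← hV.mul_norm, e, norm_sq_eq_sum]
    refine Finset.sum_congr rfl fun i _ => Finset.sum_congr rfl fun j _ => ?_
    simp only [dg, Matrix.sub_apply, diagonal_mul, mul_diagonal]
    rw [mul_comm _ (Y i j), ← mul_sub, norm_mul, mul_pow, ← Complex.ofReal_sub, Complex.norm_real,
      Real.norm_eq_abs, sq_abs]

/-- L1(a) -/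
theorem norm_fc_le {A : Mat m m} {B : Mat n n} (hA : Aᴴ = A) (hB : Bᴴ = B) (y : Mat m n)
    {f g f' g' : ℝ → ℝ} {c : ℝ}
    (h : ∀ x ∈ spectrum ℝ A, ∀ z ∈ spectrum ℝ B, (f x - g z) ^ 2 ≤ c * (f' x - g' z) ^ 2) :
    ‖fc f A * y - y * fc g B‖ ^ 2 ≤ c * ‖fc f' A * y - y * fc g' B‖ ^ 2 := by
  obtain ⟨w, hw, -, hf⟩ := exists_weights hA hB y
  rw [hf, hf, Finset.mul_sum]
  refine Finset.sum_le_sum fun i _ => ?_
  rw [Finset.mul_sum]
  refine Finset.sum_le_sum fun j _ => ?_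
  nlinarith [h _ (eig_mem hA i) _ (eig_mem hB j), hw i j]

/-- L1(a) against the matrices themselves -/
theorem norm_fc_le' {A : Mat m m} {B : Mat n n} (hA : Aᴴ = A) (hB : Bᴴ = B) (y : Mat m n)
    {f g : ℝ → ℝ} {c : ℝ}
    (h : ∀ x ∈ spectrum ℝ A, ∀ z ∈ spectrum ℝ B, (f x - g z) ^ 2 ≤ c * (x - z) ^ 2) :
    ‖fc f A * y - y * fc g B‖ ^ 2 ≤ c * ‖A * y - y * B‖ ^ 2 := by
  have := norm_fc_le hA hB y (f' := fun x => x) (g' := fun x => x) h
  rwa [fc_id hA, fc_id hB] at this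

/-- L1(a) with `y = 1` -/
theorem norm_fc_sub_le {A B : Mat n n} (hA : Aᴴ = A) (hB : Bᴴ = B) {f g : ℝ → ℝ} {c : ℝ}
    (h : ∀ x ∈ spectrum ℝ A, ∀ z ∈ spectrum ℝ B, (f x - g z) ^ 2 ≤ c * (x - z) ^ 2) :
    ‖fc f A - fc g B‖ ^ 2 ≤ c * ‖A - B‖ ^ 2 := by
  simpa using norm_fc_le' hA hB 1 h

/-- L1(b) -/
theorem fc_intertwine {A : Mat m m} {B : Mat n n} (hA : Aᴴ = A) (hB : Bᴴ = B) {y : Mat m n}
    (h : A * y = y * B) (f : ℝ → ℝ) : fc f A * y = y * fc f B := by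
  obtain ⟨w, hw, -, hf⟩ := exists_weights hA hB y
  have h0 := hf (fun x => x) (fun x => x)
  rw [fc_id hA, fc_id hB, h, sub_self, norm_zero, zero_pow two_ne_zero, eq_comm,
    Finset.sum_eq_zero_iff_of_nonneg
      (fun i _ => Finset.sum_nonneg fun j _ => mul_nonneg (hw i j) (sq_nonneg _))] at h0
  have h1 : ‖fc f A * y - y * fc f B‖ ^ 2 = 0 := by
    rw [hf]
    refine Finset.sum_eq_zero fun i _ => Finset.sum_eq_zero fun j _ => ?_
    have h2 := (Finset.sum_eq_zero_iff_of_nonneg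
      (fun j _ => mul_nonneg (hw i j) (sq_nonneg _))).mp (h0 i (Finset.mem_univ _)) j
      (Finset.mem_univ _)
    rcases mul_eq_zero.mp h2 with h3 | h3
    · simp [h3]
    · have : eig A i = eig B j := by nlinarith [pow_eq_zero_iff (two_ne_zero) |>.mp h3]
      simp [this]
  exact sub_eq_zero.mp (by simpa using h1)

theorem fc_commute {A y : Mat n n} (hA : Aᴴ = A) (h : A * y = y * A) (f : ℝ → ℝ) :
    fc f A * y = y * fc f A := fc_intertwine hA hA h f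

theorem fc_mul_self_comm {A : Mat n n} (hA : Aᴴ = A) (f : ℝ → ℝ) : fc f A * A = A * fc f A :=
  fc_commute hA rfl f

theorem fc_zero_mat (f : ℝ → ℝ) : fc f (0 : Mat n n) = f 0 • (1 : Mat n n) := by
  rw [fc, cfc_apply_zero, Algebra.algebraMap_eq_smul_one]

/-- if `A y = 0` then `f(A) y = f(0) y` -/
theorem fc_mul_of_mul_eq_zero {A : Mat m m} (hA : Aᴴ = A) {y : Mat m n} (h : A * y = 0)
    (f : ℝ → ℝ) : fc f A * y = f 0 • y := by
  rw [fc_intertwine hA (B := 0) (by simp) (by simpa using h), fc_zero_mat]; simp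

/-- if `p A = A` and `f 0 = 0` then `p f(A) = f(A)` -/
theorem IsProj.mul_fc {p A : Mat n n} (hp : IsProj p) (hA : Aᴴ = A) (h : p * A = A) {f : ℝ → ℝ}
    (hf : f 0 = 0) : p * fc f A = fc f A := by
  have h1 : A * (1 - p) = 0 := by
    have := congrArg conjTranspose h
    rw [conjTranspose_mul, hA, hp.1] at this
    rw [Matrix.mul_sub, this]; simp
  have h2 := fc_mul_of_mul_eq_zero hA h1 f
  rw [hf, zero_smul, Matrix.mul_sub, Matrix.mul_one, sub_eq_zero] at h2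
  have := congrArg conjTranspose h2
  rwa [conjTranspose_mul, fc_herm, hp.1, eq_comm] at this

theorem fc_eq_mul_of_zero {A : Mat n n} (hA : Aᴴ = A) {φ : ℝ → ℝ} (h : φ 0 = 0) :
    fc φ A = A * fc (fun x => φ x / x) A := by
  rw [← fc_id_mul hA]
  refine fc_congr fun x _ => ?_
  by_cases hx : x = 0
  · simp [hx, h]
  · field_simp

theorem fc_self_mul_adj (y : Mat m n) (f : ℝ → ℝ) : fc f (y * yᴴ) * y = y * fc f (yᴴ * y) :=
  fc_intertwine (by simp) (by simp) (Matrix.mul_assoc _ _ _) f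

/-- L3 -/
theorem tr_fc_transfer (y : Mat m n) {φ : ℝ → ℝ} (h : φ 0 = 0) :
    tr (fc φ (y * yᴴ)) = tr (fc φ (yᴴ * y)) := by
  rw [fc_eq_mul_of_zero (by simp) h, fc_eq_mul_of_zero (A := yᴴ * y) (by simp) h,
    Matrix.mul_assoc y, tr_mul_comm, Matrix.mul_assoc, fc_self_mul_adj, Matrix.mul_assoc]

theorem fc_conj_uni {A U : Mat n n} (hA : Aᴴ = A) (hU : IsUni U) (f : ℝ → ℝ) :
    fc f (U * A * Uᴴ) = U * fc f A * Uᴴ := by
  have := fc_intertwine (A := U * A * Uᴴ) (B := A) (y := U) (by simp [hA, Matrix.mul_assoc]) hA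
    (by rw [Matrix.mul_assoc, hU.1, Matrix.mul_one]) f
  rw [← this, Matrix.mul_assoc _ U, hU.2, Matrix.mul_one]

/-! ### absolute values -/

theorem absL_nonneg (z : Mat m n) : 0 ≤ absL z := fc_nonneg fun _ _ => Real.sqrt_nonneg _
theorem absR_nonneg (z : Mat m n) : 0 ≤ absR z := fc_nonneg fun _ _ => Real.sqrt_nonneg _
theorem absL_herm (z : Mat m n) : (absL z)ᴴ = absL z := fc_herm _ _
theorem absR_herm (z : Mat m n) : (absR z)ᴴ = absR z := fc_herm _ _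
theorem absR_adj (z : Mat m n) : absR zᴴ = absL z := by simp [absR, absL]
theorem absL_adj (z : Mat m n) : absL zᴴ = absR z := by simp [absR, absL]

theorem fc_sqrt_sq {A : Mat n n} (hA : 0 ≤ A) : fc Real.sqrt A * fc Real.sqrt A = A := by
  rw [← fc_mul]
  conv_rhs => rw [← fc_id (herm_of_nonneg hA)]
  exact fc_congr fun x hx => Real.mul_self_sqrt (spec_nonneg hA hx)

theorem absL_sq (z : Mat m n) : absL z * absL z = z * zᴴ := fc_sqrt_sq (self_mul_adj_nonneg z)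
theorem absR_sq (z : Mat m n) : absR z * absR z = zᴴ * z := fc_sqrt_sq (adj_mul_self_nonneg z)

theorem norm_mul_absL (y : Mat l m) (z : Mat m n) : ‖y * absL z‖ = ‖y * z‖ := by
  rw [← sq_eq_sq₀ (norm_nonneg _) (norm_nonneg _), norm_mul_sq', norm_mul_sq', absL_herm, absL_sq]

theorem norm_absR_mul (z : Mat l m) (y : Mat m n) : ‖absR z * y‖ = ‖z * y‖ := by
  rw [← sq_eq_sq₀ (norm_nonneg _) (norm_nonneg _), norm_mul_sq', norm_mul_sq', absR_herm, absR_sq]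

theorem norm_absL (z : Mat m n) : ‖absL z‖ = ‖z‖ := by
  have := norm_mul_absL (1 : Mat m m) z
  rwa [Matrix.one_mul, Matrix.one_mul] at this
theorem norm_absR (z : Mat m n) : ‖absR z‖ = ‖z‖ := by
  have := norm_absR_mul z (1 : Mat n n)
  rwa [Matrix.mul_one, Matrix.mul_one] at this

theorem tr_absL (z : Mat m n) : tr (absL z) = tr (absR z) := tr_fc_transfer z Real.sqrt_zero

theorem norm_fromBlocks_sq (a : Mat k m) (b : Mat k n) (c : Mat l m) (d : Mat l n) :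
    ‖(fromBlocks a b c d : Mat (k ⊕ l) (m ⊕ n))‖ ^ 2 = ‖a‖ ^ 2 + ‖b‖ ^ 2 + ‖c‖ ^ 2 + ‖d‖ ^ 2 := by
  simp only [norm_sq_eq_sum, Fintype.sum_sum_type, fromBlocks_apply₁₁, fromBlocks_apply₁₂,
    fromBlocks_apply₂₁, fromBlocks_apply₂₂, Finset.sum_add_distrib]
  ring

theorem fc_fromBlocks {A : Mat m m} {B : Mat n n} (hA : Aᴴ = A) (hB : Bᴴ = B) (f : ℝ → ℝ) :
    fc f (fromBlocks A 0 0 B : Mat (m ⊕ n) (m ⊕ n)) = fromBlocks (fc f A) 0 0 (fc f B) := by
  have hZ : (fromBlocks A 0 0 B : Mat (m ⊕ n) (m ⊕ n))ᴴ = fromBlocks A 0 0 B := by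
    simp [fromBlocks_conjTranspose, hA, hB]
  have h1 := fc_intertwine hZ hA (y := fromRows 1 0) (by simp [fromBlocks_mul_fromRows]) f
  have h2 := fc_intertwine hZ hB (y := fromRows 0 1) (by simp [fromBlocks_mul_fromRows]) f
  rw [← fromBlocks_toBlocks (fc f (fromBlocks A 0 0 B : Mat (m ⊕ n) (m ⊕ n)))] at h1 h2 ⊢
  simp only [fromBlocks_mul_fromRows, fromRows_mul, Matrix.mul_one, Matrix.mul_zero, add_zero,
    zero_add, Matrix.one_mul, Matrix.zero_mul, fromRows_ext_iff] at h1 h2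
  rw [h1.1, h1.2, h2.1, h2.2]

/-- L2 -/
theorem norm_comm_abs_le (z : Mat m n) (a : Mat m m) (b : Mat n n) :
    ‖a * absL z - absL z * a‖ ^ 2 + ‖b * absR z - absR z * b‖ ^ 2 ≤
      ‖a * z - z * b‖ ^ 2 + ‖b * zᴴ - zᴴ * a‖ ^ 2 := by
  have hZ : (fromBlocks 0 z zᴴ 0 : Mat (m ⊕ n) (m ⊕ n))ᴴ = fromBlocks 0 z zᴴ 0 := by
    simp [fromBlocks_conjTranspose]
  have h1 : fc (fun x => |x|) (fromBlocks 0 z zᴴ 0 : Mat (m ⊕ n) (m ⊕ n)) =
      fromBlocks (absL z) 0 0 (absR z) := by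
    rw [absL, absR, ← fc_fromBlocks (by simp) (by simp)]
    have : (fromBlocks (z * zᴴ) 0 0 (zᴴ * z) : Mat (m ⊕ n) (m ⊕ n)) =
        fc (fun x => x * x) (fromBlocks 0 z zᴴ 0) := by
      rw [fc_mul, fc_id hZ]; simp [fromBlocks_multiply]
    rw [this, fc_comp hZ]
    exact fc_congr fun x _ => (Real.sqrt_mul_self_eq_abs x).symm
  have h2 := norm_fc_le' hZ hZ (fromBlocks a 0 0 b) (f := fun x => |x|) (g := fun x => |x|)
    (c := 1) fun x _ y _ => by
      rw [one_mul]; exact sq_le_sq.mpr (abs_abs_sub_abs_le_abs_sub x y)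
  rw [h1] at h2
  simp only [fromBlocks_multiply, Matrix.mul_zero, Matrix.zero_mul, add_zero, zero_add,
    sub_eq_add_neg, fromBlocks_neg, fromBlocks_add, norm_fromBlocks_sq, neg_zero, norm_zero,
    one_mul] at h2
  simp only [← sub_eq_add_neg] at h2
  rw [norm_sub_rev (a * absL z), norm_sub_rev (b * absR z), norm_sub_rev (a * z),
    norm_sub_rev (b * zᴴ)]
  linarith

theorem D_abs_le (a : S → Mat m m) (b : S → Mat n n) (z : Mat m n) :
    D a a (absL z) + D b b (absR z) ≤ D2 a b z := by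
  unfold D2 D
  rw [← Finset.sum_add_distrib, ← Finset.sum_add_distrib]
  exact Finset.sum_le_sum fun s _ => norm_comm_abs_le z (a s) (b s)

end Pool.Agent.P.MP_7f9919_an.NH
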