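import Pool.Agent.P.MP_7f9919_an.NH.B2

set_option autoImplicit false
set_option linter.unusedSectionVars false

namespace Pool.Agent.P.MP_7f9919_an.NH

open Matrix
open scoped MatrixOrder ComplexOrder

variable {k l m n S : Type} [Fintype k] [Fintype l] [Fintype m] [Fintype n] [Fintype S]
variable [DecidableEq k] [DecidableEq l] [DecidableEq m] [DecidableEq n]

/-! ### rank (L4) -/

theorem rank_eq_sum {A : Mat n n} (hA : Aᴴ = A) :
    (A.rank : ℝ) = ∑ i, if eig A i = 0 then (0 : ℝ) else 1 := by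
  have h : A.IsHermitian := hA
  rw [h.rank_eq_card_non_zero_eigs, Fintype.card_subtype, Finset.card_filter]
  simp only [eig, dif_pos h]
  push_cast
  refine Finset.sum_congr rfl fun i _ => ?_
  by_cases h0 : h.eigenvalues i = 0 <;> simp [h0]

theorem tr_le_rank {X : Mat n n} (hX : Xᴴ = X) (h : X ≤ 1) : tr X ≤ X.rank := by
  rw [rank_eq_sum hX]
  conv_lhs => rw [← fc_id hX, tr_fc hX]
  refine Finset.sum_le_sum fun i _ => ?_
  split_ifs with h0
  · exact h0.le
  · exact spec_le_one hX h (eig_mem hX i)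

theorem IsProj.tr_eq_rank {p : Mat n n} (hp : IsProj p) : tr p = p.rank := by
  rw [rank_eq_sum hp.1]
  conv_lhs => rw [← fc_id hp.1, tr_fc hp.1]
  refine Finset.sum_congr rfl fun i _ => ?_
  rcases hp.spec (eig_mem hp.1 i) with h | h <;> simp [h]

theorem IsProj.exists_nat {p : Mat n n} (hp : IsProj p) : ∃ d : ℕ, tr p = d := ⟨_, hp.tr_eq_rank⟩

theorem IsProj.tr_pos {p : Mat n n} (hp : IsProj p) (h : p ≠ 0) : 0 < tr p :=
  hp.tr_nonneg.lt_of_ne fun h0 => h (eq_zero_of_tr_eq_zero hp.nonneg h0.symm)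

theorem IsProj.one_le_tr {p : Mat n n} (hp : IsProj p) (h : p ≠ 0) : 1 ≤ tr p := by
  have h1 := hp.tr_pos h
  obtain ⟨d, hd⟩ := hp.exists_nat
  rw [hd] at h1 ⊢
  exact_mod_cast h1

theorem ne_zero_of_tr_pos {p : Mat n n} (h : 0 < tr p) : p ≠ 0 := by
  rintro rfl; simp at h

theorem rank_add_le (A B : Mat m n) : (A + B).rank ≤ A.rank + B.rank := by
  unfold Matrix.rank
  rw [Matrix.mulVecLin_add]
  exact (Submodule.finrank_mono (LinearMap.range_add_le _ _)).trans
    (Submodule.finrank_add_le_finrank_add_finrank _ _)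

theorem rank_sum_le {ι : Type} (s : Finset ι) (A : ι → Mat m n) :
    (∑ i ∈ s, A i).rank ≤ ∑ i ∈ s, (A i).rank := by
  classical
  induction s using Finset.induction_on with
  | empty => simp
  | insert a s ha ih =>
    rw [Finset.sum_insert ha, Finset.sum_insert ha]
    exact (rank_add_le _ _).trans (by omega)

theorem rank_fc_le {A : Mat n n} (hA : Aᴴ = A) {φ : ℝ → ℝ} (h : φ 0 = 0) :
    (fc φ A).rank ≤ A.rank := by
  rw [fc_eq_mul_of_zero hA h]; exact rank_mul_le_left _ _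

/-- a Hermitian `X ≤ 1` that factors through a projection `p` has trace at most `tr p` -/
theorem tr_le_of_factor {X : Mat n n} (hX : Xᴴ = X) (h : X ≤ 1) {p : Mat m m} (hp : IsProj p)
    {y : Mat n m} {z : Mat m n} (e : X = y * p * z) : tr X ≤ tr p := by
  refine (tr_le_rank hX h).trans ?_
  rw [hp.tr_eq_rank, e]
  exact Nat.cast_le.mpr ((rank_mul_le_left (y * p) z).trans (rank_mul_le_right y p))

/-- a function `φ ≤ 1`, `φ 0 = 0`, of a Hermitian matrix that factors through `p` -/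
theorem tr_fc_le_of_factor {X : Mat n n} (hX : Xᴴ = X) {φ : ℝ → ℝ} (h0 : φ 0 = 0)
    (h1 : ∀ x, φ x ≤ 1) {p : Mat m m} (hp : IsProj p) {y : Mat n m} {z : Mat m n}
    (e : X = y * p * z) : tr (fc φ X) ≤ tr p := by
  refine tr_le_of_factor (fc_herm _ _) (fc_le_one hX fun x _ => h1 x) hp (y := y)
    (z := z * fc (fun x => φ x / x) X) ?_
  rw [← Matrix.mul_assoc, ← e, ← fc_eq_mul_of_zero hX h0]

theorem tr_fc_sum_le {ι : Type} (s : Finset ι) {V : ι → Mat n n} (hV : ∀ i ∈ s, IsProj (V i))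
    {φ : ℝ → ℝ} (h0 : φ 0 = 0) (h1 : ∀ x, φ x ≤ 1) :
    tr (fc φ (∑ i ∈ s, V i)) ≤ ∑ i ∈ s, tr (V i) := by
  have hS : (∑ i ∈ s, V i)ᴴ = ∑ i ∈ s, V i := by
    rw [conjTranspose_sum]; exact Finset.sum_congr rfl fun i hi => (hV i hi).1
  refine (tr_le_rank (fc_herm _ _) (fc_le_one hS fun x _ => h1 x)).trans ?_
  rw [Finset.sum_congr rfl fun i hi => (hV i hi).tr_eq_rank]
  exact_mod_cast (rank_fc_le hS h0).trans (rank_sum_le s V)

/-! ### layer cake -/

/-- clamp to `[a, b]` -/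
noncomputable def cl (a b x : ℝ) : ℝ := max a (min b x)

theorem integral_gtI {a b : ℝ} (hab : a ≤ b) (x : ℝ) : ∫ s in a..b, gtI s x = cl a b x - a := by
  have hc : cl a b x ∈ Set.Icc a b := ⟨le_max_left _ _, max_le hab (min_le_left _ _)⟩
  have h1 := intervalIntegral.integral_indicator (μ := MeasureTheory.volume)
    (f := fun _ : ℝ => (1 : ℝ)) hc
  rw [intervalIntegral.integral_const, smul_eq_mul, mul_one] at h1
  rw [← h1]
  refine intervalIntegral.integral_congr_ae ?_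
  have h2 : ∀ᵐ s : ℝ, s ≠ cl a b x := by simp [MeasureTheory.ae_iff]
  filter_upwards [h2] with s hs hs'
  rw [Set.uIoc_of_le hab] at hs'
  obtain ⟨h3, h4⟩ := hs'
  by_cases h : s < x
  · rw [gtI_of_lt h, Set.indicator_of_mem]
    exact le_max_of_le_right (le_min h4 h.le)
  · rw [gtI_of_le (not_lt.mp h), Set.indicator_of_notMem]
    intro h5
    have h6 : s < cl a b x := lt_of_le_of_ne h5 hs
    rcases lt_max_iff.mp h6 with h7 | h7
    · linarith
    · exact h (lt_min_iff.mp h7).2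

/-- mean value form of the layer cake formula -/
theorem exists_level {ι : Type} [Fintype ι] {a b : ℝ} (hab : a ≤ b) (c x : ι → ℝ) :
    ∃ s ∈ Set.Icc a b, (b - a) * ∑ i, c i * gtI s (x i) ≤ ∑ i, c i * (cl a b (x i) - a) := by
  classical
  have hfin : (Set.range fun s : ℝ => fun i => gtI s (x i)).Finite := by
    refine (Set.Finite.pi' (t := fun _ : ι => ({0, 1} : Set ℝ)) fun _ => Set.toFinite _).subset ?_
    rintro _ ⟨s, rfl⟩ i
    exact gtI_cases s (x i)
  have hfin2 : ((fun s => ∑ i, c i * gtI s (x i)) '' Set.Icc a b).Finite := by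
    refine (hfin.image fun v => ∑ i, c i * v i).subset ?_
    rintro _ ⟨s, -, rfl⟩
    exact ⟨_, ⟨s, rfl⟩, rfl⟩
  obtain ⟨s, hs, hmin⟩ := Set.Finite.exists_minimalFor' (fun s => ∑ i, c i * gtI s (x i)) _ hfin2
    ⟨a, Set.left_mem_Icc.mpr hab⟩
  refine ⟨s, hs, ?_⟩
  have hint : ∀ i, IntervalIntegrable (fun s => c i * gtI s (x i)) MeasureTheory.volume a b :=
    fun i => (Antitone.intervalIntegrable fun s t h => gtI_anti h (x i)).const_mul _
  have h1 : ∫ s in a..b, ∑ i, c i * gtI s (x i) = ∑ i, c i * (cl a b (x i) - a) := by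
    rw [intervalIntegral.integral_finsetSum fun i _ => hint i]
    refine Finset.sum_congr rfl fun i _ => ?_
    rw [intervalIntegral.integral_const_mul, integral_gtI hab]
  rw [← h1, ← smul_eq_mul, ← intervalIntegral.integral_const]
  refine intervalIntegral.integral_mono_on hab intervalIntegrable_const ?_ fun t ht => ?_
  · have := IntervalIntegrable.sum Finset.univ fun i _ => hint i
    rwa [Finset.sum_fn] at this
  · by_contra hlt
    exact hlt (hmin ht (not_le.mp hlt).le)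

theorem gtI_sub_sq (s x y : ℝ) : (gtI s x - gtI s y) ^ 2 = gtI s (max x y) - gtI s (min x y) := by
  unfold gtI
  by_cases hx : s < x <;> by_cases hy : s < y <;> simp [hx, hy]

theorem cl_max_sub_cl_min (a b x y : ℝ) :
    cl a b (max x y) - cl a b (min x y) = |cl a b x - cl a b y| := by
  have hm : Monotone (cl a b) := fun _ _ h => max_le_max le_rfl (min_le_min le_rfl h)
  rw [hm.map_max, hm.map_min, max_sub_min_eq_abs']

theorem abs_cl_sub_le (a b x y : ℝ) : |cl a b x - cl a b y| ≤ |x - y| := by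
  unfold cl
  refine (abs_max_sub_max_le_max _ _ _ _).trans (max_le (by simp) ?_)
  refine (abs_min_sub_min_le_max _ _ _ _).trans (max_le (by simp) le_rfl)

/-- layer cake for a pair energy plus a linear term -/
theorem exists_level_pair {ι κ : Type} [Fintype ι] [Fintype κ] {a b : ℝ} (hab : a ≤ b)
    (w x y : ι → ℝ) (c z : κ → ℝ) :
    ∃ s ∈ Set.Icc a b,
      (b - a) * (∑ i, w i * (gtI s (x i) - gtI s (y i)) ^ 2 + ∑ j, c j * gtI s (z j)) ≤
        ∑ i, w i * |cl a b (x i) - cl a b (y i)| + ∑ j, c j * (cl a b (z j) - a) := by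
  obtain ⟨s, hs, h⟩ := exists_level (ι := (ι ⊕ ι) ⊕ κ) hab
    (Sum.elim (Sum.elim w fun i => -w i) c)
    (Sum.elim (Sum.elim (fun i => max (x i) (y i)) fun i => min (x i) (y i)) z)
  refine ⟨s, hs, ?_⟩
  simp only [Fintype.sum_sum_type, Sum.elim_inl, Sum.elim_inr, ← Finset.sum_add_distrib] at h
  convert h using 3
  · exact Finset.sum_congr rfl fun i _ => by rw [gtI_sub_sq]; ring
  · rw [← cl_max_sub_cl_min]; ring

/-- summed weights for a tuple of contractions -/
theorem exists_weights_D {A : Mat n n} (hA : Aᴴ = A) {u : S → Mat n n} (hu : ∀ s, Ctr (u s)) :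
    ∃ w : n → n → ℝ, (∀ i j, 0 ≤ w i j) ∧ (∀ i, ∑ j, w i j ≤ Fintype.card S) ∧
      (∀ j, ∑ i, w i j ≤ Fintype.card S) ∧
      ∀ f : ℝ → ℝ, D u u (fc f A) = ∑ i, ∑ j, w i j * (f (eig A i) - f (eig A j)) ^ 2 := by
  choose w hw0 hw1 hw2 using fun s => exists_weights hA hA (u s)
  refine ⟨fun i j => ∑ s, w s i j, fun i j => Finset.sum_nonneg fun s _ => hw0 s i j, fun i => ?_,
    fun j => ?_, fun f => ?_⟩
  · rw [Finset.sum_comm]
    simpa using Finset.sum_le_sum fun s (_ : s ∈ Finset.univ) => (hw1 s (hu s)).1 i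
  · rw [Finset.sum_comm]
    simpa using Finset.sum_le_sum fun s (_ : s ∈ Finset.univ) => (hw1 s (hu s)).2 j
  · unfold D
    simp only [Finset.sum_mul]
    rw [Finset.sum_congr rfl fun s _ => by rw [norm_sub_rev, hw2 s f f], Finset.sum_comm]
    exact Finset.sum_congr rfl fun i _ => Finset.sum_comm

/-- L5 (cut) -/
theorem exists_cut {A : Mat n n} (hA : Aᴴ = A) {u : S → Mat n n} (hu : ∀ s, Ctr (u s))
    {a b N : ℝ} (hab : a ≤ b) (hN : tr (fc (gtI a) A) ≤ N) :
    ∃ s ∈ Set.Icc a b,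
      ((b - a) * D u u (fc (gtI s) A)) ^ 2 ≤ 2 * Fintype.card S * N * D u u A := by
  obtain ⟨w, hw, hr, hc, hD⟩ := exists_weights_D hA hu
  obtain ⟨s, hs, h⟩ := exists_level_pair (ι := n × n) (κ := Empty) hab (fun p => w p.1 p.2)
    (fun p => eig A p.1) (fun p => eig A p.2) (fun _ => 0) (fun _ => 0)
  refine ⟨s, hs, ?_⟩
  simp only [Finset.univ_eq_empty, Finset.sum_empty, add_zero] at h
  have hDA := hD fun x => x
  rw [fc_id hA] at hDA
  rw [tr_fc hA] at hN
  rw [hD, hDA, ← Fintype.sum_prod_type', ← Fintype.sum_prod_type']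
  have h0 : 0 ≤ (b - a) * ∑ p : n × n, w p.1 p.2 * (gtI s (eig A p.1) - gtI s (eig A p.2)) ^ 2 :=
    mul_nonneg (sub_nonneg.mpr hab) (Finset.sum_nonneg fun p _ => mul_nonneg (hw _ _) (sq_nonneg _))
  refine (pow_le_pow_left₀ h0 h 2).trans ?_
  have h1 := Finset.sum_sq_le_sum_mul_sum_of_sq_le_mul (Finset.univ : Finset (n × n))
    (r := fun p => w p.1 p.2 * |cl a b (eig A p.1) - cl a b (eig A p.2)|)
    (f := fun p => w p.1 p.2 * (gtI a (eig A p.1) + gtI a (eig A p.2)))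
    (g := fun p => w p.1 p.2 * (eig A p.1 - eig A p.2) ^ 2)
    (fun p _ => mul_nonneg (hw _ _) (add_nonneg (gtI_nonneg _ _) (gtI_nonneg _ _)))
    (fun p _ => mul_nonneg (hw _ _) (sq_nonneg _)) (fun p _ => ?_)
  · refine h1.trans (mul_le_mul_of_nonneg_right ?_
      (Finset.sum_nonneg fun p _ => mul_nonneg (hw _ _) (sq_nonneg _)))
    simp only [mul_add, Finset.sum_add_distrib, Fintype.sum_prod_type]
    have h2 : ∑ i, ∑ j, w i j * gtI a (eig A i) ≤ Fintype.card S * N := by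
      refine le_trans (Finset.sum_le_sum fun i _ => ?_)
        (le_trans (le_of_eq (Finset.mul_sum _ _ _).symm) (mul_le_mul_of_nonneg_left hN (by positivity)))
      rw [← Finset.sum_mul]; exact mul_le_mul_of_nonneg_right (hr i) (gtI_nonneg _ _)
    have h3 : ∑ i, ∑ j, w i j * gtI a (eig A j) ≤ Fintype.card S * N := by
      rw [Finset.sum_comm]
      refine le_trans (Finset.sum_le_sum fun i _ => ?_)
        (le_trans (le_of_eq (Finset.mul_sum _ _ _).symm) (mul_le_mul_of_nonneg_left hN (by positivity)))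
      rw [← Finset.sum_mul]; exact mul_le_mul_of_nonneg_right (hc i) (gtI_nonneg _ _)
    linarith
  · have h2 : |cl a b (eig A p.1) - cl a b (eig A p.2)| ^ 2 ≤
        (gtI a (eig A p.1) + gtI a (eig A p.2)) * (eig A p.1 - eig A p.2) ^ 2 := by
      have h3 : |cl a b (eig A p.1) - cl a b (eig A p.2)| ^ 2 ≤ (eig A p.1 - eig A p.2) ^ 2 := by
        rw [← sq_abs (eig A p.1 - _)]
        exact pow_le_pow_left₀ (abs_nonneg _) (abs_cl_sub_le _ _ _ _) 2
      by_cases h4 : a < eig A p.1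
      · rw [gtI_of_lt h4]; nlinarith [gtI_nonneg a (eig A p.2), sq_nonneg (eig A p.1 - eig A p.2)]
      by_cases h5 : a < eig A p.2
      · rw [gtI_of_lt h5]; nlinarith [gtI_nonneg a (eig A p.1), sq_nonneg (eig A p.1 - eig A p.2)]
      have h6 : ∀ x, ¬ a < x → cl a b x = a := fun x hx =>
        max_eq_left ((min_le_right _ _).trans (not_lt.mp hx))
      rw [h6 _ h4, h6 _ h5, gtI_of_le (not_lt.mp h4), gtI_of_le (not_lt.mp h5)]; simp
    rw [mul_pow]
    nlinarith [mul_le_mul_of_nonneg_left h2 (sq_nonneg (w p.1 p.2))]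

/-- L6 (round) -/
theorem norm_round_le {X T : Mat n n} (hX : Xᴴ = X) (hT : IsProj T) {s0 s : ℝ} (h0 : 0 < s0)
    (h1 : s0 ≤ s) (h2 : s ≤ 1 - s0) : s0 ^ 2 * ‖fc (gtI s) X - T‖ ^ 2 ≤ ‖X - T‖ ^ 2 := by
  have := norm_fc_sub_le hX hT.1 (f := gtI s) (g := fun x => x) (c := (s0 ^ 2)⁻¹) fun x _ z hz => by
    rw [le_inv_mul_iff₀ (by positivity)]
    rcases hT.spec hz with rfl | rfl
    · by_cases h : s < x
      · rw [gtI_of_lt h]; nlinarith
      · rw [gtI_of_le (not_lt.mp h)]; nlinarith [sq_nonneg x]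
    · by_cases h : s < x
      · rw [gtI_of_lt h]; nlinarith [sq_nonneg (x - 1)]
      · rw [gtI_of_le (not_lt.mp h)]; nlinarith [not_lt.mp h]
  rwa [fc_id hT.1, le_inv_mul_iff₀ (by positivity)] at this

/-- L7 (compress) -/
theorem exists_compress {p R : Mat n n} (hp : IsProj p) (hR : IsProj R) :
    ∃ p' : Mat n n, IsProj p' ∧ R * p' = p' ∧ tr p' ≤ tr p ∧
      ‖p' - p‖ ^ 2 ≤ 8 * tr (p * (1 - R)) := by
  have hX : (R * p * R)ᴴ = R * p * R := by simp [hp.1, hR.1, Matrix.mul_assoc]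
  refine ⟨fc (gtI (1 / 2)) (R * p * R), isProj_gtI _ _, ?_, ?_, ?_⟩
  · exact hR.mul_fc hX (by rw [← Matrix.mul_assoc, ← Matrix.mul_assoc, hR.2])
      (gtI_of_le (by norm_num))
  · exact tr_fc_le_of_factor hX (gtI_of_le (by norm_num)) (gtI_le_one _) hp rfl
  · have h1 := norm_round_le hX hp (s0 := 1 / 2) (s := 1 / 2) (by norm_num) le_rfl (by norm_num)
    have h2 : R * p * R - p = -((1 - R) * p) + -(R * (p * (1 - R))) := by
      simp only [Matrix.mul_sub, Matrix.sub_mul, Matrix.mul_one, Matrix.one_mul, Matrix.mul_assoc]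
      abel
    have h3 : ‖p * (1 - R)‖ ^ 2 = tr (p * (1 - R)) := hp.norm_mul_proj_sq hR.compl
    have h4 : ‖(1 - R) * p‖ ^ 2 = tr (p * (1 - R)) := by
      rw [hR.compl.norm_mul_proj_sq hp, tr_mul_comm]
    have h5 : ‖R * p * R - p‖ ^ 2 = ‖(1 - R) * p‖ ^ 2 + ‖R * (p * (1 - R))‖ ^ 2 := by
      rw [h2, norm_add_sq_of_adj_mul, norm_neg, norm_neg]
      simp only [conjTranspose_neg, conjTranspose_mul, hR.compl.1, Matrix.neg_mul, Matrix.mul_neg,
        neg_neg, Matrix.mul_assoc]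
      rw [← Matrix.mul_assoc (1 - R), hR.compl_mul]; simp
    linarith [hR.ctr.norm_mul_sq_le (p * (1 - R))]

end Pool.Agent.P.MP_7f9919_an.NH
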