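import Pool.Agent.P.MP_7f9919_an.NH.B3

set_option autoImplicit false
set_option linter.unusedSectionVars false

namespace Pool.Agent.P.MP_7f9919_an.NH

open Matrix
open scoped MatrixOrder ComplexOrder

variable {k l m n S : Type} [Fintype k] [Fintype l] [Fintype m] [Fintype n] [Fintype S]
variable [DecidableEq k] [DecidableEq l] [DecidableEq m] [DecidableEq n]

/-- L9 -/
theorem IsProj.exists_isom {r : Mat n n} (hr : IsProj r) {d : ℕ} (hd : tr r = d) :
    ∃ x : Mat n (Fin d), xᴴ * x = 1 ∧ x * xᴴ = r := by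
  classical
  obtain ⟨U, hU, h⟩ := exists_diag hr.1
  have hs : ∀ i, eig r i = 0 ∨ eig r i = 1 := fun i => hr.spec (eig_mem hr.1 i)
  have hc : Fintype.card {i // eig r i = 1} = d := by
    have h1 : tr r = ∑ i, eig r i := by
      conv_lhs => rw [← fc_id hr.1, tr_fc hr.1]
    have h2 : ∑ i, eig r i = Fintype.card {i // eig r i = 1} := by
      rw [Fintype.card_subtype, Finset.card_filter]
      push_cast
      exact Finset.sum_congr rfl fun i _ => by rcases hs i with h | h <;> simp [h]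
    exact_mod_cast h2.symm.trans (h1.symm.trans hd)
  obtain ⟨e⟩ : Nonempty (Fin d ≃ {i // eig r i = 1}) := ⟨(Fintype.equivFinOfCardEq hc).symm⟩
  obtain ⟨J, hJ⟩ : ∃ J : Mat n (Fin d), J = Matrix.of fun i j => if i = (e j).1 then 1 else 0 :=
    ⟨_, rfl⟩
  have h1 : Jᴴ * J = 1 := by
    ext i j
    simp only [hJ, mul_apply, conjTranspose_apply, of_apply, one_apply, mul_ite, mul_one, mul_zero,
      Finset.sum_ite_eq', Finset.mem_univ, if_true, Subtype.val_inj, e.apply_eq_iff_eq]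
    by_cases hij : i = j
    · simp [hij]
    · simp [hij, Ne.symm hij]
  have h2 : J * Jᴴ = dg fun i => eig r i := by
    ext i j
    simp only [hJ, mul_apply, conjTranspose_apply, of_apply, dg, diagonal_apply]
    rw [← e.symm.sum_comp]
    simp only [Equiv.apply_symm_apply]
    rcases hs i with h0 | h0
    · rw [Finset.sum_eq_zero]
      · simp [h0]
      · rintro ⟨a, ha⟩ -
        have : i ≠ a := by rintro rfl; rw [h0] at ha; exact zero_ne_one ha
        simp [this]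
    · rw [Finset.sum_eq_single ⟨i, h0⟩]
      · by_cases hij : i = j
        · subst hij; simp [h0]
        · simp [hij, Ne.symm hij]
      · rintro ⟨a, ha⟩ - hne
        have : i ≠ a := by rintro rfl; exact hne rfl
        simp [this]
      · simp
  refine ⟨U * J, ?_, ?_⟩
  · rw [conjTranspose_mul, Matrix.mul_assoc, ← Matrix.mul_assoc Uᴴ, hU.1, Matrix.one_mul, h1]
  · rw [conjTranspose_mul, Matrix.mul_assoc, ← Matrix.mul_assoc J, h2, ← Matrix.mul_assoc,
      ← h fun x => x, fc_id hr.1]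

theorem mul_supp (z : Mat m n) : z * fc (gtI 0) (zᴴ * z) = z := by
  have hA : (zᴴ * z)ᴴ = zᴴ * z := by simp
  have h1 : ‖z * (1 - fc (gtI 0) (zᴴ * z))‖ ^ 2 = 0 := by
    rw [(isProj_gtI _ _).compl.norm_mul_sq, ← fc_one_sub hA, ← fc_id_mul hA,
      fc_congr (g := fun _ => 0), fc_zero, tr_zero]
    intro x hx
    rcases (spec_nonneg (adj_mul_self_nonneg z) hx).eq_or_lt with h | h
    · simp [← h]
    · simp [gtI_of_lt h]
  have h2 : z * (1 - fc (gtI 0) (zᴴ * z)) = 0 := by simpa using h1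
  rwa [Matrix.mul_sub, Matrix.mul_one, sub_eq_zero, eq_comm] at h2

/-- polar decomposition of a square matrix -/
theorem exists_polar (a : Mat n n) : ∃ v : Mat n n, IsUni v ∧ a = v * absR a := by
  have hA : (aᴴ * a)ᴴ = aᴴ * a := by simp
  have hA0 := adj_mul_self_nonneg a
  obtain ⟨w, hw⟩ : ∃ w, w = a * fc (fun x => (Real.sqrt x)⁻¹) (aᴴ * a) := ⟨_, rfl⟩
  obtain ⟨p, hp⟩ : ∃ p, p = fc (gtI 0) (aᴴ * a) := ⟨_, rfl⟩
  have hpp : IsProj p := hp ▸ isProj_gtI _ _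
  have h1 : wᴴ * w = p := by
    rw [hw, conjTranspose_mul, fc_herm, Matrix.mul_assoc, ← Matrix.mul_assoc aᴴ, ← fc_id_mul hA,
      ← fc_mul, hp]
    refine fc_congr fun x hx => ?_
    rcases (spec_nonneg hA0 hx).eq_or_lt with h | h
    · simp [← h, gtI]
    · have := Real.sqrt_pos.mpr h
      rw [gtI_of_lt h]; field_simp; rw [Real.sq_sqrt h.le]
  have h2 : w * p = w := by rw [← h1]; simpa [hp, h1] using (by
    have := mul_supp w
    rw [h1] at this
    have h3 : fc (gtI 0) p = p := by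
      conv_rhs => rw [← fc_id hpp.1]
      exact fc_congr fun x hx => by rcases hpp.spec hx with h | h <;> simp [h, gtI]
    rwa [h3, hp] at this)
  have hq : IsProj (w * wᴴ) := ⟨by simp, by
    rw [Matrix.mul_assoc, ← Matrix.mul_assoc wᴴ, h1, ← Matrix.mul_assoc, h2]⟩
  obtain ⟨d, hd⟩ := hpp.compl.exists_nat
  have hd' : tr (1 - w * wᴴ) = d := by rw [← hd, tr_sub, tr_sub, tr_mul_comm, h1]
  obtain ⟨x, hx1, hx2⟩ := hpp.compl.exists_isom hd
  obtain ⟨y, hy1, hy2⟩ := hq.compl.exists_isom hd'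
  have h4 : wᴴ * y = 0 := by
    have e1 : wᴴ * (y * yᴴ) = 0 := by
      have := congrArg conjTranspose h2
      rw [conjTranspose_mul, hpp.1] at this
      rw [hy2, Matrix.mul_sub, ← Matrix.mul_assoc, h1, this]; simp
    calc wᴴ * y = wᴴ * (y * yᴴ) * y := by simp only [Matrix.mul_assoc, hy1, Matrix.mul_one]
      _ = 0 := by rw [e1, Matrix.zero_mul]
  have h5 : yᴴ * w = 0 := by simpa using congrArg conjTranspose h4
  refine ⟨w + y * xᴴ, isUni_of_adj_mul ?_, ?_⟩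
  · simp only [conjTranspose_add, conjTranspose_mul, conjTranspose_conjTranspose, Matrix.add_mul,
      Matrix.mul_add, Matrix.mul_assoc]
    rw [← Matrix.mul_assoc wᴴ, h4, h5, ← Matrix.mul_assoc yᴴ, hy1, Matrix.one_mul, h1, hx2]
    simp
  · have h6 : p * absR a = absR a := by
      rw [hp, absR, ← fc_mul]
      refine fc_congr fun x hx => ?_
      rcases (spec_nonneg hA0 hx).eq_or_lt with h | h
      · simp [← h]
      · simp [gtI_of_lt h]
    have h7 : xᴴ * absR a = 0 := by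
      calc xᴴ * absR a = xᴴ * ((x * xᴴ) * absR a) := by
            rw [← Matrix.mul_assoc, ← Matrix.mul_assoc, hx1, Matrix.one_mul]
        _ = 0 := by rw [hx2, Matrix.sub_mul, h6]; simp
    have h8 : w * absR a = a := by
      rw [hw, absR, Matrix.mul_assoc, ← fc_mul]
      conv_rhs => rw [← mul_supp a]
      congr 1
      refine fc_congr fun x hx => ?_
      rcases (spec_nonneg hA0 hx).eq_or_lt with h | h
      · simp [← h, gtI]
      · rw [gtI_of_lt h, inv_mul_cancel₀ (Real.sqrt_pos.mpr h).ne']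
    rw [Matrix.add_mul, Matrix.mul_assoc, h7, h8]; simp

/-- L8 -/
theorem Ctr.exists_uni {a : Mat n n} (ha : Ctr a) :
    ∃ v : Mat n n, IsUni v ∧ ‖a - v‖ ^ 2 ≤ Fintype.card n - ‖a‖ ^ 2 := by
  obtain ⟨v, hv, h⟩ := exists_polar a
  refine ⟨v, hv, ?_⟩
  have hA : (aᴴ * a)ᴴ = aᴴ * a := by simp
  have h1 : a - v = v * fc (fun x => Real.sqrt x - 1) (aᴴ * a) := by
    rw [fc_sub, fc_one hA, Matrix.mul_sub, Matrix.mul_one]; congr 1
  rw [h1, hv.norm_mul, norm_fc_sq_eq_tr, norm_sq_eq_tr a, ← tr_one, ← tr_sub]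
  conv_rhs => rw [← fc_id hA, ← fc_one_sub hA]
  refine tr_fc_mono fun x hx => ?_
  have h2 := spec_nonneg (adj_mul_self_nonneg a) hx
  have h3 := Real.sqrt_le_one.mpr (spec_le_one hA ha.le_one hx)
  nlinarith [Real.sq_sqrt h2, Real.sqrt_nonneg x]

/-- L10 (transport), with the defect `ρ = tr (Vᴴ Uᴴ (1 - V Vᴴ) U V)` bounded by a given `ρ` -/
theorem exists_transport {V : Mat n k} (hV : Ctr V) {U : Mat n n} (hU : IsUni U) {ρ : ℝ}
    (hρ : tr ((U * V)ᴴ * (1 - V * Vᴴ) * (U * V)) ≤ ρ) :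
    ∃ v : Mat k k, IsUni v ∧ ‖Vᴴ * U * V - v‖ ^ 2 ≤ (Fintype.card k - ‖V‖ ^ 2) + ρ ∧
      ‖U * V - V * v‖ ^ 2 ≤ 2 * (Fintype.card k - ‖V‖ ^ 2) + 4 * ρ := by
  obtain ⟨v, hv, h⟩ := ((hV.adj.mul hU.ctr).mul hV).exists_uni
  have h1 : ‖Vᴴ * U * V‖ ^ 2 = ‖V‖ ^ 2 - tr ((U * V)ᴴ * (1 - V * Vᴴ) * (U * V)) := by
    rw [Matrix.mul_assoc, norm_mul_sq, ← hU.norm_mul V, norm_sq_eq_tr, Matrix.mul_sub,
      Matrix.sub_mul, tr_sub, conjTranspose_conjTranspose, Matrix.mul_one]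
    ring
  have h2 : ‖Vᴴ * U * V - v‖ ^ 2 ≤ (Fintype.card k - ‖V‖ ^ 2) + ρ := by linarith
  refine ⟨v, hv, h2, ?_⟩
  have h3 : U * V - V * v = (1 - V * Vᴴ) * (U * V) + V * (Vᴴ * U * V - v) := by
    simp only [Matrix.sub_mul, Matrix.mul_sub, Matrix.one_mul, Matrix.mul_assoc]; abel
  have h4 : ‖(1 - V * Vᴴ) * (U * V)‖ ^ 2 ≤ ρ := by
    refine le_trans ?_ hρ
    rw [norm_mul_sq]
    refine tr_mono (conj_le ?_ _)
    have : (1 - V * Vᴴ)ᴴ = 1 - V * Vᴴ := by simp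
    rw [this]
    exact sq_le_self (sub_nonneg.mpr hV.le_one') (sub_le_self _ (self_mul_adj_nonneg V))
  rw [h3]
  linarith [norm_add_sq_le ((1 - V * Vᴴ) * (U * V)) (V * (Vᴴ * U * V - v)),
    hV.norm_mul_sq_le (Vᴴ * U * V - v)]

/-- L10 for an almost unitary contraction -/
theorem exists_transport_ctr {V : Mat n k} (hV : Ctr V) {U : Mat n n} (hU : IsUni U) :
    ∃ v : Mat k k, IsUni v ∧
      ‖U * V - V * v‖ ^ 2 ≤ 2 * (Fintype.card k - ‖V‖ ^ 2) + 4 * (Fintype.card n - ‖V‖ ^ 2) := by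
  obtain ⟨v, hv, -, h⟩ := exists_transport hV hU (ρ := Fintype.card n - ‖V‖ ^ 2) (by
    have := tr_mul_le_right (sub_nonneg.mpr hV.le_one') (hU.ctr.mul hV).le_one'
    rw [Matrix.mul_one, tr_sub, tr_one, ← norm_sq_eq_tr'] at this
    rwa [tr_cycle, tr_mul_comm])
  exact ⟨v, hv, h⟩

/-- L10 for an isometry `x` onto the projection `x xᴴ` -/
theorem exists_transport_isom {x : Mat n k} (hx : xᴴ * x = 1) {U : Mat n n} (hU : IsUni U) :
    ∃ v : Mat k k, IsUni v ∧ ‖xᴴ * U * x - v‖ ^ 2 ≤ ‖(1 - x * xᴴ) * U * (x * xᴴ)‖ ^ 2 ∧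
      ‖U * x - x * v‖ ^ 2 ≤ 4 * ‖(1 - x * xᴴ) * U * (x * xᴴ)‖ ^ 2 := by
  have hp : IsProj (x * xᴴ) := by simpa using isProj_one.conj_isom hx
  obtain ⟨v, hv, h1, h2⟩ := exists_transport (le_of_eq hx) hU
    (ρ := ‖(1 - x * xᴴ) * U * (x * xᴴ)‖ ^ 2) (le_of_eq (by
      rw [← Matrix.mul_assoc _ x, norm_mul_coisom (by simpa using hx), Matrix.mul_assoc (1 - _),
        norm_mul_sq, hp.compl.1, hp.compl.2]))
  have h3 : ‖x‖ ^ 2 = Fintype.card k := by rw [norm_sq_eq_tr, hx, tr_one]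
  rw [h3] at h1 h2
  exact ⟨v, hv, by linarith, by linarith⟩

/-- the clamp `z min(1, |z|⁻¹)` -/
theorem exists_clamp (z : Mat m n) :
    ∃ z₁ : Mat m n, Ctr z₁ ∧ ‖z₁ - z‖ ^ 2 ≤ ‖absR z - 1‖ ^ 2 := by
  have hA : (zᴴ * z)ᴴ = zᴴ * z := by simp
  have hA0 := adj_mul_self_nonneg z
  let ψ : ℝ → ℝ := fun x => if x ≤ 1 then 1 else (Real.sqrt x)⁻¹
  refine ⟨z * fc ψ (zᴴ * z), ?_, ?_⟩
  · unfold Ctr
    rw [conjTranspose_mul, fc_herm, Matrix.mul_assoc, ← Matrix.mul_assoc zᴴ, ← fc_id_mul hA,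
      ← fc_mul]
    refine fc_le_one hA fun x _ => ?_
    by_cases h : x ≤ 1
    · simp [ψ, h]
    · have h0 : 0 < x := by linarith
      have := Real.sqrt_pos.mpr h0
      simp only [ψ, if_neg h]
      field_simp
      rw [Real.sq_sqrt h0.le]
  · have h1 : z * fc ψ (zᴴ * z) - z = z * fc (fun x => ψ x - 1) (zᴴ * z) := by
      rw [fc_sub, fc_one hA, Matrix.mul_sub, Matrix.mul_one]
    have h2 : absR z - 1 = fc (fun x => Real.sqrt x - 1) (zᴴ * z) := by
      rw [fc_sub, fc_one hA, absR]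
    rw [h1, h2, ← norm_absR_mul, absR, ← fc_mul, norm_fc_sq_eq_tr, norm_fc_sq_eq_tr]
    refine tr_fc_mono fun x _ => ?_
    by_cases h : x ≤ 1
    · simp only [ψ, if_pos h]; nlinarith [sq_nonneg (Real.sqrt x - 1)]
    · have h0 : 0 < x := by linarith
      have := Real.sqrt_pos.mpr h0
      simp only [ψ, if_neg h]
      rw [mul_sub, mul_inv_cancel₀ this.ne']
      nlinarith

end Pool.Agent.P.MP_7f9919_an.NH
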