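import Pool.Agent.P.MP_7f9919_an.NH.St

set_option autoImplicit false
set_option linter.unusedSectionVars false

namespace Pool.Agent.P.MP_7f9919_an.NH

open Matrix
open scoped MatrixOrder ComplexOrder

variable {k l m n S : Type} [Fintype k] [Fintype l] [Fintype m] [Fintype n] [Fintype S]
variable [DecidableEq k] [DecidableEq l] [DecidableEq m] [DecidableEq n]

/-! ### representations of the free group -/

theorem IsRep.uni {U : FreeGroup S → Mat n n} (h : IsRep U) (g : FreeGroup S) : IsUni (U g) := h.1 g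
theorem IsRep.mul {U : FreeGroup S → Mat n n} (h : IsRep U) (g g' : FreeGroup S) :
    U (g * g') = U g * U g' := h.2 g g'
theorem IsRep.gen_uni {U : FreeGroup S → Mat n n} (h : IsRep U) (s : S) : IsUni (gen U s) := h.1 _
theorem IsRep.gen_ctr {U : FreeGroup S → Mat n n} (h : IsRep U) (s : S) : Ctr (gen U s) :=
  (h.1 _).ctr

theorem IsRep.one {U : FreeGroup S → Mat n n} (h : IsRep U) : U 1 = 1 := by
  have h1 := h.mul 1 1
  rw [one_mul] at h1
  calc U 1 = (U 1)ᴴ * U 1 * U 1 := by rw [(h.uni 1).1, Matrix.one_mul]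
    _ = 1 := by rw [Matrix.mul_assoc, ← h1, (h.uni 1).1]

theorem IsRep.inv {U : FreeGroup S → Mat n n} (h : IsRep U) (g : FreeGroup S) :
    U g⁻¹ = (U g)ᴴ := by
  calc U g⁻¹ = U g⁻¹ * (U g * (U g)ᴴ) := by rw [(h.uni g).2, Matrix.mul_one]
    _ = (U g)ᴴ := by rw [← Matrix.mul_assoc, ← h.mul, inv_mul_cancel, h.one, Matrix.one_mul]

theorem exists_isRep {u : S → Mat n n} (hu : ∀ s, IsUni (u s)) :
    ∃ U : FreeGroup S → Mat n n, IsRep U ∧ gen U = u := by
  let v : S → Matrix.unitaryGroup n ℂ := fun s => ⟨u s, (hu s).1, (hu s).2⟩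
  refine ⟨fun g => (FreeGroup.lift v g : Matrix.unitaryGroup n ℂ), ⟨fun g => isUni_coe _, ?_⟩, ?_⟩
  · intro g h; simp
  · funext s; simp [gen, v]

theorem norm_comm_mul_le {a a' : Mat m m} {b b' : Mat n n} (ha : Ctr a) (hb' : Ctr b')
    (x : Mat m n) : ‖a * a' * x - x * (b * b')‖ ≤ ‖a * x - x * b‖ + ‖a' * x - x * b'‖ := by
  have : a * a' * x - x * (b * b') = (a * x - x * b) * b' + a * (a' * x - x * b') := by
    simp only [Matrix.sub_mul, Matrix.mul_sub, Matrix.mul_assoc]; abel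
  rw [this]
  exact (norm_add_le _ _).trans (add_le_add (hb'.mul_norm_le _) (ha.norm_mul_le _))

theorem bad_nonneg (U : FreeGroup S → Mat m m) (V : FreeGroup S → Mat n n)
    (W : Finset (FreeGroup S)) (x : Mat m n) : 0 ≤ bad U V W x := by unfold bad; positivity

theorem bad_mono (U : FreeGroup S → Mat m m) (V : FreeGroup S → Mat n n)
    {W W' : Finset (FreeGroup S)} (h : W ⊆ W') (x : Mat m n) : bad U V W x ≤ bad U V W' x :=
  Finset.sum_le_sum_of_subset_of_nonneg h fun _ _ _ => sq_nonneg _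

theorem exists_wordBd (W : Finset (FreeGroup S)) : ∃ L, 0 ≤ L ∧ WordBd W L := by
  have key : ∀ w : FreeGroup S, ∃ L, 0 ≤ L ∧ WordBd {w} L := by
    intro w
    induction w using FreeGroup.induction_on with
    | C1 => exact ⟨0, le_rfl, fun m n _ _ _ _ U V hU hV x => by simp [bad, hU.one, hV.one]⟩
    | of s => exact ⟨1, zero_le_one, fun m n _ _ _ _ U V hU hV x => by
        simpa [bad, gen] using norm_sq_le_D (gen U) (gen V) x s⟩
    | inv_of s ih =>
      obtain ⟨L, hL, h⟩ := ih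
      refine ⟨L, hL, fun m n _ _ _ _ U V hU hV x => ?_⟩
      have := h m n U V hU hV x
      simp only [bad, Finset.sum_singleton] at this ⊢
      rwa [hU.inv, hV.inv, norm_comm_adj (hU.uni _) (hV.uni _)]
    | mul g h ihg ihh =>
      obtain ⟨L, hL, h1⟩ := ihg
      obtain ⟨L', hL', h2⟩ := ihh
      refine ⟨2 * L + 2 * L', by positivity, fun m n _ _ _ _ U V hU hV x => ?_⟩
      have h3 := h1 m n U V hU hV x
      have h4 := h2 m n U V hU hV x
      simp only [bad, Finset.sum_singleton] at h3 h4 ⊢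
      rw [hU.mul, hV.mul]
      have h5 := norm_comm_mul_le (a' := U h) (b := V g) (hU.uni g).ctr (hV.uni h).ctr x
      have h6 := pow_le_pow_left₀ (norm_nonneg _) h5 2
      nlinarith [sq_nonneg (‖U g * x - x * V g‖ - ‖U h * x - x * V h‖)]
  choose L hL h using key
  refine ⟨∑ w ∈ W, L w, Finset.sum_nonneg fun w _ => hL w, fun m n _ _ _ _ U V hU hV x => ?_⟩
  rw [Finset.sum_mul]
  exact Finset.sum_le_sum fun w _ => by simpa [bad] using h w m n U V hU hV x

theorem BW_nonneg (U : FreeGroup S → Mat n n) (W : Finset (FreeGroup S)) : 0 ≤ BW U W :=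
  Finset.sum_nonneg fun _ _ => adj_mul_self_nonneg _

theorem BW_mono (U : FreeGroup S → Mat n n) {W W' : Finset (FreeGroup S)} (h : W ⊆ W') :
    BW U W ≤ BW U W' :=
  Finset.sum_le_sum_of_subset_of_nonneg h fun _ _ _ => adj_mul_self_nonneg _

theorem BW_le {U : FreeGroup S → Mat n n} (hU : IsRep U) (W : Finset (FreeGroup S)) :
    BW U W ≤ (4 * W.card : ℝ) • (1 : Mat n n) := by
  refine (Finset.sum_le_sum fun w _ => (hU.uni w).ctr.sub_le_four ctr_one).trans (le_of_eq ?_)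
  rw [Finset.sum_const, ← Nat.cast_smul_eq_nsmul ℝ, smul_smul, mul_comm]

theorem tr_BW (U : FreeGroup S → Mat n n) (W : Finset (FreeGroup S)) :
    tr (BW U W) = ∑ w ∈ W, ‖U w - 1‖ ^ 2 := by simp only [BW, tr_sum, norm_sq_eq_tr]

theorem tr_BW_mul (U : FreeGroup S → Mat m m) (W : Finset (FreeGroup S)) (x : Mat m n) :
    tr (BW U W * (x * xᴴ)) = ∑ w ∈ W, ‖(U w - 1) * x‖ ^ 2 := by
  simp only [BW, Matrix.sum_mul, tr_sum, norm_mul_sq']

theorem bad_proj_le {U : FreeGroup S → Mat n n} (hU : IsRep U) (W : Finset (FreeGroup S))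
    {T : Mat n n} (hT : IsProj T) : bad U U W T ≤ 4 * tr (BW U W * T) := by
  have h0 := tr_BW_mul U W T
  rw [hT.1, hT.2] at h0
  rw [h0, Finset.mul_sum]
  refine Finset.sum_le_sum fun w _ => ?_
  have h1 : U w * T - T * U w = (U w - 1) * T - T * (U w - 1) := by
    simp [Matrix.sub_mul, Matrix.mul_sub]
  have h2 : ‖T * (U w - 1)‖ = ‖(U w - 1) * T‖ := by
    have h3 := norm_comm_adj' (hU.uni w) isUni_one T
    rw [hT.1, Matrix.one_mul, Matrix.mul_one] at h3
    rw [Matrix.mul_sub, Matrix.sub_mul, Matrix.mul_one, Matrix.one_mul, norm_sub_rev, h3]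
  have := norm_sub_sq_le ((U w - 1) * T) (T * (U w - 1))
  rw [h1]; rw [h2] at this; linarith

theorem ctr_avg_words {N : ℕ} (g : Fin N → FreeGroup S) {U : FreeGroup S → Mat m m}
    {V : FreeGroup S → Mat n n} (hU : IsRep U) (hV : IsRep V) {x : Mat m n} (hx : Ctr x) :
    Ctr (avg g U V x) := by
  have := ctr_avg (x := fun i => U (g i) * x * (V (g i))ᴴ)
    fun i => ((hU.uni _).ctr.mul hx).mul (hV.uni _).adj.ctr
  simpa [avg] using this

/-! ### commutants -/

theorem mem_Com {a : S → Mat n n} {y : Mat n n} :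
    y ∈ Com a ↔ ∀ s, a s * y = y * a s ∧ (a s)ᴴ * y = y * (a s)ᴴ := Iff.rfl

theorem one_mem_Com (a : S → Mat n n) : (1 : Mat n n) ∈ Com a := fun s => by simp

theorem mul_mem_Com {a : S → Mat n n} {x y : Mat n n} (hx : x ∈ Com a) (hy : y ∈ Com a) :
    x * y ∈ Com a := fun s => by
  constructor
  · rw [← Matrix.mul_assoc, (hx s).1, Matrix.mul_assoc, (hy s).1, Matrix.mul_assoc]
  · rw [← Matrix.mul_assoc, (hx s).2, Matrix.mul_assoc, (hy s).2, Matrix.mul_assoc]

theorem adj_mem_Com {a : S → Mat n n} {x : Mat n n} (hx : x ∈ Com a) : xᴴ ∈ Com a := fun s => by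
  constructor
  · simpa using (congrArg conjTranspose (hx s).2).symm
  · simpa using (congrArg conjTranspose (hx s).1).symm

theorem real_smul_mem_Com {a : S → Mat n n} {x : Mat n n} (c : ℝ) (hx : x ∈ Com a) :
    c • x ∈ Com a := (Com a).smul_of_tower_mem c hx

theorem fc_mem_Com {a : S → Mat n n} {x : Mat n n} (hx : x ∈ Com a) (h : xᴴ = x) (f : ℝ → ℝ) :
    fc f x ∈ Com a := fun s =>
  ⟨(fc_commute h (hx s).1.symm f).symm, (fc_commute h (hx s).2.symm f).symm⟩

theorem D2_eq_zero_of_mem {a : S → Mat n n} {x : Mat n n} (hx : x ∈ Com a) : D2 a a x = 0 := by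
  simp [D2, D, (hx _).1, (adj_mem_Com hx _).1]

/-! ### resolvents -/

theorem herm_ps {V : ℕ → Mat n n} {J : ℕ} (h : ∀ l < J, IsProj (V l)) : (ps V J)ᴴ = ps V J := by
  rw [ps, conjTranspose_sum]
  exact Finset.sum_congr rfl fun l hl => (h l (Finset.mem_range.mp hl)).1

theorem ps_nonneg {V : ℕ → Mat n n} {J : ℕ} (h : ∀ l < J, IsProj (V l)) : 0 ≤ ps V J :=
  Finset.sum_nonneg fun l hl => (h l (Finset.mem_range.mp hl)).nonneg

@[simp] theorem ps_zero (V : ℕ → Mat n n) : ps V 0 = 0 := by simp [ps]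
theorem ps_succ (V : ℕ → Mat n n) (j : ℕ) : ps V (j + 1) = ps V j + V j := Finset.sum_range_succ _ _

theorem rg_herm (a : ℝ) (A : Mat n n) : (rg a A)ᴴ = rg a A := fc_herm _ _

theorem rg_nonneg {a : ℝ} (ha : 0 < a) {A : Mat n n} (hA : 0 ≤ A) : 0 ≤ rg a A :=
  fc_nonneg fun x hx => by have := spec_nonneg hA hx; positivity

theorem rg_le_one {a : ℝ} (ha : 0 < a) {A : Mat n n} (hA : 0 ≤ A) : rg a A ≤ 1 :=
  fc_le_one (herm_of_nonneg hA) fun x hx => by
    have := spec_nonneg hA hx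
    rw [div_le_one (by positivity)]; linarith

theorem rg_ctr {a : ℝ} (ha : 0 < a) {A : Mat n n} (hA : 0 ≤ A) : Ctr (rg a A) :=
  ctr_of_nonneg_le_one (rg_nonneg ha hA) (rg_le_one ha hA)

theorem rg_mul {a : ℝ} (ha : 0 < a) {A : Mat n n} (hA : 0 ≤ A) :
    rg a A * (A + a • (1 : Mat n n)) = a • (1 : Mat n n) := by
  have h := herm_of_nonneg hA
  rw [← fc_const h]
  conv_lhs => rw [rg]; arg 2; arg 1; rw [← fc_id h]
  rw [← fc_add, ← fc_mul]
  exact fc_congr fun x hx => by have := spec_nonneg hA hx; field_simp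

theorem mul_rg {a : ℝ} (ha : 0 < a) {A : Mat n n} (hA : 0 ≤ A) :
    (A + a • (1 : Mat n n)) * rg a A = a • (1 : Mat n n) := by
  simpa [rg_herm, herm_of_nonneg hA] using congrArg conjTranspose (rg_mul ha hA)

theorem Pot_eq {a : ℝ} (ha : 0 < a) {A : Mat n n} (hA : 0 ≤ A) :
    Pot a A = Fintype.card n - tr (rg a A) := by
  rw [Pot, rg, ← tr_one, ← tr_sub, ← fc_one_sub (herm_of_nonneg hA)]
  congr 1
  exact fc_congr fun x hx => by have := spec_nonneg hA hx; field_simp; ring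

@[simp] theorem Pot_zero (a : ℝ) : Pot a (0 : Mat n n) = 0 := by simp [Pot, fc_zero_mat]

theorem rg_zero {a : ℝ} (ha : 0 < a) : rg a (0 : Mat n n) = 1 := by
  simp [rg, fc_zero_mat, ha.ne']

theorem Pot_anti {a b : ℝ} (hb : 0 < b) (h : b ≤ a) {A : Mat n n} (hA : 0 ≤ A) :
    Pot a A ≤ Pot b A :=
  tr_fc_mono fun x hx => by
    have := spec_nonneg hA hx
    exact div_le_div_of_nonneg_left this (by positivity) (by linarith)

theorem isProj_Rle (t : ℝ) (A : Mat n n) : IsProj (Rle t A) := (isProj_gtI _ _).compl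

theorem Rle_eq {A : Mat n n} (hA : Aᴴ = A) (t : ℝ) : Rle t A = fc (fun l => 1 - gtI t l) A :=
  (fc_one_sub hA _).symm

theorem one_sub_Rle (t : ℝ) (A : Mat n n) : 1 - Rle t A = fc (gtI t) A := by simp [Rle]

/-- a projection below `Rle t A` sees `A ≤ t` -/
theorem tr_mul_le_of_Rle {A T : Mat n n} (hA : Aᴴ = A) (hT : IsProj T) {t : ℝ}
    (h : Rle t A * T = T) : tr (A * T) ≤ t * tr T := by
  have h1 : A * Rle t A ≤ t • Rle t A := by
    rw [Rle_eq hA, ← fc_id_mul hA, ← fc_smul]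
    refine fc_le_fc fun x _ => ?_
    by_cases hx : t < x
    · simp [gtI_of_lt hx]
    · simpa [gtI_of_le (not_lt.mp hx)] using not_lt.mp hx
  have := tr_mul_le_left h1 hT.nonneg
  rwa [Matrix.mul_assoc, Matrix.smul_mul, h, tr_smul] at this

end Pool.Agent.P.MP_7f9919_an.NH
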