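import Pool.Agent.P.MP_7f9919_an.NH.B5

set_option autoImplicit false
set_option linter.unusedSectionVars false

namespace Pool.Agent.P.MP_7f9919_an.NH

open Matrix
open scoped MatrixOrder ComplexOrder

namespace BlockAux

/-- a system of isometries with orthogonal ranges that fill the space -/
structure Sys {κ ι : Type} [Fintype κ] [DecidableEq κ] [Fintype ι] {R F : ι → Type}
    [∀ i, Fintype (R i)] [∀ i, Fintype (F i)] [∀ i, DecidableEq (F i)]
    (E : ∀ i, R i → Mat κ (F i)) : Prop where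
  h1 : ∀ i p, (E i p)ᴴ * E i p = 1
  h2 : ∀ i p p', p ≠ p' → (E i p)ᴴ * E i p' = 0
  h3 : ∀ i i' p p', i ≠ i' → (E i p)ᴴ * E i' p' = 0
  h4 : ∑ i, ∑ p, E i p * (E i p)ᴴ = 1

section
variable {κ ι m n S : Type} [Fintype κ] [DecidableEq κ] [Fintype ι] [Fintype m] [Fintype n]
  [Fintype S] {R F : ι → Type}
  [∀ i, Fintype (R i)] [∀ i, Fintype (F i)] [∀ i, DecidableEq (F i)]
  {E : ∀ i, R i → Mat κ (F i)}

omit [Fintype m] in
theorem Sys.left (h : Sys E) (z : ∀ i, R i → Mat (F i) m) (i : ι) (p : R i) :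
    (E i p)ᴴ * (∑ i', ∑ p', E i' p' * z i' p') = z i p := by
  classical
  rw [Matrix.mul_sum, Finset.sum_eq_single i, Matrix.mul_sum, Finset.sum_eq_single p]
  · rw [← Matrix.mul_assoc, h.h1, Matrix.one_mul]
  · intro p' _ hp
    rw [← Matrix.mul_assoc, h.h2 _ _ _ hp.symm, Matrix.zero_mul]
  · simp
  · intro i' _ hi
    rw [Matrix.mul_sum]
    refine Finset.sum_eq_zero fun p' _ => ?_
    rw [← Matrix.mul_assoc, h.h3 _ _ _ _ hi.symm, Matrix.zero_mul]
  · simp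

omit [Fintype m] in
theorem Sys.right (h : Sys E) (z : ∀ i, R i → Mat m (F i)) (i : ι) (p : R i) :
    (∑ i', ∑ p', z i' p' * (E i' p')ᴴ) * E i p = z i p := by
  have := congrArg conjTranspose (h.left (fun i p => (z i p)ᴴ) i p)
  simpa [conjTranspose_sum] using this

theorem Sys.norm_left (h : Sys E) (y : Mat κ m) :
    ‖y‖ ^ 2 = ∑ i, ∑ p, ‖(E i p)ᴴ * y‖ ^ 2 := by
  have h0 : yᴴ * y = yᴴ * (∑ i, ∑ p, E i p * (E i p)ᴴ) * y := by rw [h.h4, Matrix.mul_one]
  rw [norm_sq_eq_tr, h0, Matrix.mul_sum, Matrix.sum_mul, tr_sum]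
  refine Finset.sum_congr rfl fun i _ => ?_
  rw [Matrix.mul_sum, Matrix.sum_mul, tr_sum]
  refine Finset.sum_congr rfl fun p _ => ?_
  rw [norm_sq_eq_tr]
  simp [Matrix.mul_assoc]

theorem Sys.norm_right (h : Sys E) (y : Mat m κ) :
    ‖y‖ ^ 2 = ∑ i, ∑ p, ‖y * E i p‖ ^ 2 := by
  have h0 : y * yᴴ = y * (∑ i, ∑ p, E i p * (E i p)ᴴ) * yᴴ := by rw [h.h4, Matrix.mul_one]
  rw [norm_sq_eq_tr', h0, Matrix.mul_sum, Matrix.sum_mul, tr_sum]
  refine Finset.sum_congr rfl fun i _ => ?_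
  rw [Matrix.mul_sum, Matrix.sum_mul, tr_sum]
  refine Finset.sum_congr rfl fun p _ => ?_
  rw [norm_sq_eq_tr']
  simp [Matrix.mul_assoc]

/-- the block diagonal tuple -/
noncomputable def VV (E : ∀ i, R i → Mat κ (F i)) (a : ∀ i, S → Mat (F i) (F i)) (s : S) :
    Mat κ κ := ∑ i, ∑ p, E i p * (a i s * (E i p)ᴴ)

omit [Fintype S] in
theorem Sys.adj_VV (h : Sys E) (a : ∀ i, S → Mat (F i) (F i)) (s : S) (i : ι) (p : R i) :
    (E i p)ᴴ * VV E a s = a i s * (E i p)ᴴ := h.left (fun i p => a i s * (E i p)ᴴ) i p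

omit [Fintype S] in
theorem Sys.VV_mul (h : Sys E) (a : ∀ i, S → Mat (F i) (F i)) (s : S) (i : ι) (p : R i) :
    VV E a s * E i p = E i p * a i s := by
  have := h.right (fun i p => E i p * a i s) i p
  simpa [VV, Matrix.mul_assoc] using this

theorem Sys.D_right (h : Sys E) (u : S → Mat m m) (a : ∀ i, S → Mat (F i) (F i)) (y : Mat m κ) :
    D u (VV E a) y = ∑ i, ∑ p, D u (a i) (y * E i p) := by
  unfold D
  simp only [h.norm_right (_ - _)]
  rw [Finset.sum_comm]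
  refine Finset.sum_congr rfl fun i _ => ?_
  rw [Finset.sum_comm]
  refine Finset.sum_congr rfl fun p _ => Finset.sum_congr rfl fun s _ => ?_
  rw [Matrix.sub_mul, Matrix.mul_assoc y, h.VV_mul, Matrix.mul_assoc, Matrix.mul_assoc]

theorem Sys.D_left (h : Sys E) (u : S → Mat m m) (a : ∀ i, S → Mat (F i) (F i)) (y : Mat κ m) :
    D (VV E a) u y = ∑ i, ∑ p, D (a i) u ((E i p)ᴴ * y) := by
  unfold D
  simp only [h.norm_left (_ - _)]
  rw [Finset.sum_comm]
  refine Finset.sum_congr rfl fun i _ => ?_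
  rw [Finset.sum_comm]
  refine Finset.sum_congr rfl fun p _ => Finset.sum_congr rfl fun s _ => ?_
  rw [Matrix.mul_sub, ← Matrix.mul_assoc, h.adj_VV, Matrix.mul_assoc, Matrix.mul_assoc]

theorem Sys.D2_right (h : Sys E) (u : S → Mat m m) (a : ∀ i, S → Mat (F i) (F i)) (y : Mat m κ) :
    D2 u (VV E a) y = ∑ i, ∑ p, D2 u (a i) (y * E i p) := by
  unfold D2
  rw [h.D_right, h.D_left, ← Finset.sum_add_distrib]
  refine Finset.sum_congr rfl fun i _ => ?_
  rw [← Finset.sum_add_distrib]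
  refine Finset.sum_congr rfl fun p _ => ?_
  rw [conjTranspose_mul]

theorem Sys.D2_left (h : Sys E) (u : S → Mat m m) (a : ∀ i, S → Mat (F i) (F i)) (y : Mat κ m) :
    D2 (VV E a) u y = ∑ i, ∑ p, D2 (a i) u ((E i p)ᴴ * y) := by
  unfold D2
  rw [h.D_right, h.D_left, ← Finset.sum_add_distrib]
  refine Finset.sum_congr rfl fun i _ => ?_
  rw [← Finset.sum_add_distrib]
  refine Finset.sum_congr rfl fun p _ => ?_
  rw [conjTranspose_mul, conjTranspose_conjTranspose]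

omit [Fintype S] in
theorem Sys.ctr (h : Sys E) {a : ∀ i, S → Mat (F i) (F i)} (ha : ∀ i s, Ctr (a i s)) (s : S) :
    Ctr (VV E a s) := by
  refine ctr_of_norm fun y => ?_
  refine (pow_le_pow_iff_left₀ (norm_nonneg _) (norm_nonneg _) two_ne_zero).mp ?_
  rw [h.norm_left, h.norm_left y]
  refine Finset.sum_le_sum fun i _ => Finset.sum_le_sum fun p _ => ?_
  rw [← Matrix.mul_assoc, h.adj_VV, Matrix.mul_assoc]
  exact (ha i s).norm_mul_sq_le _

theorem Sys.unit_mem (h : Sys E) (a : ∀ i, S → Mat (F i) (F i)) (i : ι) (p p' : R i) :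
    E i p * (E i p')ᴴ ∈ Com (VV E a) := by
  intro s
  have e1 : (VV E a s)ᴴ * E i p = E i p * (a i s)ᴴ := by
    have := congrArg conjTranspose (h.adj_VV a s i p)
    simpa using this
  have e2 : (E i p')ᴴ * (VV E a s)ᴴ = (a i s)ᴴ * (E i p')ᴴ := by
    have := congrArg conjTranspose (h.VV_mul a s i p')
    simpa using this
  constructor
  · rw [← Matrix.mul_assoc, h.VV_mul, Matrix.mul_assoc, Matrix.mul_assoc, h.adj_VV]
  · rw [← Matrix.mul_assoc, e1, Matrix.mul_assoc, Matrix.mul_assoc, e2]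

/-- matrices with scalar blocks inside each type -/
noncomputable def Bz (E : ∀ i, R i → Mat κ (F i)) (ζ : ∀ i, R i → R i → ℂ) : Mat κ κ :=
  ∑ i, ∑ p, E i p * ∑ p', ζ i p p' • (E i p')ᴴ

theorem Sys.Bz_mem (h : Sys E) (a : ∀ i, S → Mat (F i) (F i)) (ζ : ∀ i, R i → R i → ℂ) :
    Bz E ζ ∈ Com (VV E a) := by
  refine Submodule.sum_mem _ fun i _ => Submodule.sum_mem _ fun p _ => ?_
  rw [Matrix.mul_sum]
  refine Submodule.sum_mem _ fun p' _ => ?_
  rw [Matrix.mul_smul]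
  exact Submodule.smul_mem _ _ (h.unit_mem a i p p')

theorem Sys.Bz_same (h : Sys E) (ζ : ∀ i, R i → R i → ℂ) (i : ι) (p p' : R i) :
    (E i p)ᴴ * Bz E ζ * E i p' = ζ i p p' • (1 : Mat (F i) (F i)) := by
  classical
  rw [Bz, h.left (fun i p => ∑ p', ζ i p p' • (E i p')ᴴ), Matrix.sum_mul, Finset.sum_eq_single p']
  · rw [Matrix.smul_mul, h.h1]
  · intro q _ hq
    rw [Matrix.smul_mul, h.h2 _ _ _ hq, smul_zero]
  · simp

theorem Sys.Bz_diff (h : Sys E) (ζ : ∀ i, R i → R i → ℂ) {i i' : ι} (hi : i ≠ i') (p : R i)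
    (p' : R i') : (E i p)ᴴ * Bz E ζ * E i' p' = 0 := by
  rw [Bz, h.left (fun i p => ∑ p', ζ i p p' • (E i p')ᴴ), Matrix.sum_mul]
  refine Finset.sum_eq_zero fun q _ => ?_
  rw [Matrix.smul_mul, h.h3 _ _ _ _ hi, smul_zero]

theorem Sys.core (h : Sys E) {a : ∀ i, S → Mat (F i) (F i)} {c : ℝ} (hg : ∀ i, Gap (a i) c)
    (hs : ∀ i j, i ≠ j → Sep (a i) (a j) c) (y : Mat κ κ) :
    ∃ ζ, c * ‖y - Bz E ζ‖ ^ 2 ≤ D2 (VV E a) (VV E a) y := by
  classical
  choose ζ hζ using fun i (p p' : R i) => hg i ((E i p)ᴴ * y * E i p')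
  refine ⟨ζ, ?_⟩
  rw [h.D2_left, h.norm_left, Finset.mul_sum]
  refine Finset.sum_le_sum fun i _ => ?_
  rw [Finset.mul_sum]
  refine Finset.sum_le_sum fun p _ => ?_
  rw [h.D2_right, h.norm_right, Finset.mul_sum]
  refine Finset.sum_le_sum fun i' _ => ?_
  rw [Finset.mul_sum]
  refine Finset.sum_le_sum fun p' _ => ?_
  rw [Matrix.mul_sub, Matrix.sub_mul]
  by_cases hi : i = i'
  · subst hi
    rw [h.Bz_same]
    exact hζ i p p'
  · rw [h.Bz_diff ζ hi, sub_zero]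
    exact hs i i' hi _

theorem Sys.eq_Bz (h : Sys E) {a : ∀ i, S → Mat (F i) (F i)} {c : ℝ} (hc : 0 < c)
    (hg : ∀ i, Gap (a i) c) (hs : ∀ i j, i ≠ j → Sep (a i) (a j) c) {b : Mat κ κ}
    (hb : b ∈ Com (VV E a)) : ∃ ζ, b = Bz E ζ := by
  obtain ⟨ζ, hζ⟩ := h.core hg hs b
  rw [D2_eq_zero_of_mem hb] at hζ
  refine ⟨ζ, sub_eq_zero.mp (norm_eq_zero.mp ?_)⟩
  have h0 : ‖b - Bz E ζ‖ ^ 2 ≤ 0 := by
    by_contra hne
    have := mul_pos hc (lt_of_not_ge hne)
    linarith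
  exact pow_eq_zero_iff (two_ne_zero) |>.mp (le_antisymm h0 (sq_nonneg _))

end

/-- the coordinate embeddings -/
noncomputable def Emb {ι : Type} [DecidableEq ι] (r d : ι → ℕ) (i : ι) (p : Fin (r i)) :
    Mat (Σ i, Fin (r i) × Fin (d i)) (Fin (d i)) :=
  Matrix.of fun k q => if k = ⟨i, (p, q)⟩ then 1 else 0

theorem emb_mul {ι : Type} [Fintype ι] [DecidableEq ι] (r d : ι → ℕ) (i i' : ι) (p : Fin (r i))
    (p' : Fin (r i')) (q : Fin (d i)) (q' : Fin (d i')) :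
    ((Emb r d i p)ᴴ * Emb r d i' p') q q' =
      if (⟨i, (p, q)⟩ : Σ i, Fin (r i) × Fin (d i)) = ⟨i', (p', q')⟩ then 1 else 0 := by
  rw [Matrix.mul_apply, Finset.sum_eq_single (⟨i, (p, q)⟩ : Σ i, Fin (r i) × Fin (d i))]
  · simp [Emb]
  · intro k _ hk
    simp [Emb, hk]
  · simp

theorem sys_emb {ι : Type} [Fintype ι] [DecidableEq ι] (r d : ι → ℕ) : Sys (Emb r d) := by
  refine ⟨fun i p => ?_, fun i p p' hp => ?_, fun i i' p p' hi => ?_, ?_⟩
  · ext q q'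
    rw [emb_mul]
    simp [Matrix.one_apply]
  · ext q q'
    rw [emb_mul]
    simp [hp]
  · ext q q'
    rw [emb_mul]
    simp [hi]
  · ext ⟨i, p, q⟩ k'
    simp only [Matrix.sum_apply, Matrix.mul_apply]
    rw [Finset.sum_eq_single i, Finset.sum_eq_single p, Finset.sum_eq_single q]
    · simp [Emb, Matrix.one_apply, eq_comm]
    · intro q' _ hq
      simp [Emb, hq.symm]
    · simp
    · intro p' _ hp
      simp [Emb, hp.symm]
    · simp
    · intro i' _ hi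
      simp [Emb, hi.symm]
    · simp

end BlockAux

open BlockAux in
theorem block : S_Block := by
  intro n S ι _ _ _ _ u T c η hc hd ha hg hs hx hD
  classical
  have h := sys_emb (fun i => (T i).r) (fun i => (T i).d)
  generalize Emb (fun i => (T i).r) (fun i => (T i).d) = E at h
  have hcard : Fintype.card (Σ i, Fin (T i).r × Fin (T i).d) = ∑ i, (T i).r * (T i).d := by simp
  obtain ⟨V, hV⟩ : ∃ V : Mat n (Σ i, Fin (T i).r × Fin (T i).d),
      ∀ i p, V * E i p = Real.sqrt (T i).d • (T i).x p :=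
    ⟨_, h.right (fun i p => Real.sqrt (T i).d • (T i).x p)⟩
  have hsq : ∀ i, Real.sqrt (T i).d ^ 2 = (T i).d := fun i => Real.sq_sqrt (Nat.cast_nonneg _)
  refine ⟨{ κ := Σ i, Fin (T i).r × Fin (T i).d, J := Σ i, Fin (T i).r,
            VV := VV E (fun i => (T i).a), V := V,
            e := fun j => E j.1 j.2 * (E j.1 j.2)ᴴ }, hcard, ⟨h.ctr ha, ?_, ?_, ?_, ?_, ?_⟩,
          ?_, ?_, ?_⟩
  · intro y
    obtain ⟨ζ, hζ⟩ := h.core hg hs y
    exact ⟨_, h.Bz_mem _ ζ, hζ⟩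
  · intro j
    have := isProj_one.conj_isom (h.h1 j.1 j.2)
    simpa using this
  · change ∑ j : (Σ i, Fin (T i).r), E j.1 j.2 * (E j.1 j.2)ᴴ = 1
    rw [Fintype.sum_sigma]
    exact h.h4
  · intro j
    exact h.unit_mem _ _ _ _
  · intro j b hb
    obtain ⟨ζ, rfl⟩ := h.eq_Bz hc hg hs hb
    refine ⟨ζ j.1 j.2 j.2, ?_⟩
    change E j.1 j.2 * (E j.1 j.2)ᴴ * Bz E ζ * (E j.1 j.2 * (E j.1 j.2)ᴴ) =
      ζ j.1 j.2 j.2 • (E j.1 j.2 * (E j.1 j.2)ᴴ)
    have e1 : E j.1 j.2 * (E j.1 j.2)ᴴ * Bz E ζ * (E j.1 j.2 * (E j.1 j.2)ᴴ) =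
        E j.1 j.2 * ((E j.1 j.2)ᴴ * Bz E ζ * E j.1 j.2) * (E j.1 j.2)ᴴ := by
      simp only [Matrix.mul_assoc]
    rw [e1, h.Bz_same, Matrix.mul_smul, Matrix.smul_mul, Matrix.mul_one]
  · change D2 u (VV E (fun i => (T i).a)) V ≤
      η * (Fintype.card (Σ i, Fin (T i).r × Fin (T i).d) : ℝ)
    rw [h.D2_right, hcard, Nat.cast_sum, Finset.mul_sum]
    refine Finset.sum_le_sum fun i _ => ?_
    calc ∑ p, D2 u (T i).a (V * E i p) ≤ ∑ _p : Fin (T i).r, ((T i).d : ℝ) * η := by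
          refine Finset.sum_le_sum fun p _ => ?_
          rw [hV, D2_smul, hsq]
          exact mul_le_mul_of_nonneg_left (hD i p) (Nat.cast_nonneg _)
      _ = η * (((T i).r * (T i).d : ℕ) : ℝ) := by
          simp only [Finset.sum_const, Finset.card_univ, Fintype.card_fin, nsmul_eq_mul]
          push_cast; ring
  · intro b hb
    obtain ⟨ζ, rfl⟩ := h.eq_Bz hc hg hs hb
    change trace (Bz E ζ * (Vᴴ * V)) = trace (Bz E ζ)
    simp only [Bz, Matrix.sum_mul, Matrix.mul_sum, trace_sum, Matrix.mul_smul, Matrix.smul_mul,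
      trace_smul]
    refine Finset.sum_congr rfl fun i _ => Finset.sum_congr rfl fun p _ =>
      Finset.sum_congr rfl fun p' _ => ?_
    congr 1
    have e1 : trace (E i p * (E i p')ᴴ * (Vᴴ * V)) = trace ((V * E i p')ᴴ * (V * E i p)) := by
      rw [Matrix.mul_assoc, trace_mul_comm]
      simp only [conjTranspose_mul, Matrix.mul_assoc]
    have e2 : trace ((Real.sqrt (T i).d • (T i).x p')ᴴ * (Real.sqrt (T i).d • (T i).x p)) =
        ((T i).d : ℂ) * inner ℂ ((T i).x p') ((T i).x p) := by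
      rw [inner_def, conjTranspose_smul, Matrix.smul_mul, Matrix.mul_smul, smul_smul, trace_smul,
        star_trivial, ← sq, hsq]
      simp
    rw [e1, hV, hV, e2, trace_mul_comm, orthonormal_iff_ite.mp (hx i)]
    by_cases hp : p' = p
    · subst hp
      simp [h.h1]
    · simp [h.h2 _ _ _ hp, hp]
  · intro i y
    change _ ≤ ‖Vᴴ * y‖ ^ 2
    rw [h.norm_left]
    refine le_trans (le_of_eq ?_) (Finset.single_le_sum
      (f := fun i => ∑ p, ‖(E i p)ᴴ * (Vᴴ * y)‖ ^ 2)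
      (fun i _ => Finset.sum_nonneg fun p _ => sq_nonneg _) (Finset.mem_univ i))
    refine Finset.sum_congr rfl fun p _ => ?_
    rw [← Matrix.mul_assoc, ← conjTranspose_mul, hV, conjTranspose_smul, Matrix.smul_mul,
      star_trivial, norm_real_smul, mul_pow, sq_abs, hsq]

end Pool.Agent.P.MP_7f9919_an.NH
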