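import Pool.Agent.P.MP_7f9919_an.NH.B5

set_option autoImplicit false

namespace Pool.Agent.P.MP_7f9919_an.NH

open Matrix
open scoped MatrixOrder ComplexOrder

theorem cand : S_L13 → S_Cand := by
  intro hL n S _ _ _ _ u V J α t γ δ hu hn hα ht ht1 hγ hδ hV htr hD
  have hA := ps_nonneg hV
  have hAh := herm_ps hV
  have hσ : (0 : ℝ) < Fintype.card S := by exact_mod_cast Fintype.card_pos
  have hN : (0 : ℝ) < Fintype.card n := by exact_mod_cast hn
  have h1 : D u u (rg t (ps V J)) ≤ t⁻¹ * (3 * δ * Fintype.card n) := by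
    refine le_trans (Finset.sum_le_sum fun s _ => (hL n V J t hV ht ht1).1 (u s)) ?_
    rw [← Finset.mul_sum, Finset.sum_comm]
    exact mul_le_mul_of_nonneg_left hD (by positivity)
  obtain ⟨s, ⟨hs1, hs2⟩, hcut⟩ := exists_cut (rg_herm t (ps V J)) (fun s => (hu s).ctr)
    (a := 1 / 2) (b := 3 / 4) (by norm_num) (isProj_gtI _ _).tr_le
  have hp : IsProj (fc (gtI s) (rg t (ps V J))) := isProj_gtI _ _
  have he : fc (gtI s) (rg t (ps V J)) = fc (fun l => gtI s (t / (l + t))) (ps V J) := by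
    rw [rg, fc_comp hAh]
  have h2 : tr (1 - fc (gtI s) (rg t (ps V J))) ≤ (1 - α / 2) * Fintype.card n := by
    rw [he, ← fc_one_sub hAh]
    refine (tr_fc_sum_le (Finset.range J) (fun i hi => hV i (Finset.mem_range.mp hi)) ?_
      fun x => ?_).trans htr
    · rw [zero_add, div_self ht.ne', gtI_of_lt (by linarith), sub_self]
    · linarith [gtI_nonneg s (t / (x + t))]
  have h3 : Rle t (ps V J) * fc (gtI s) (rg t (ps V J)) = fc (gtI s) (rg t (ps V J)) := by
    rw [he, Rle_eq hAh, ← fc_mul]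
    refine fc_congr fun x hx => ?_
    by_cases h : t < x
    · have : t / (x + t) ≤ s := by
        rw [div_le_iff₀ (by linarith)]; nlinarith
      rw [gtI_of_le this, mul_zero]
    · rw [gtI_of_le (not_lt.mp h)]; ring
  rw [tr_sub, tr_one] at h2
  generalize fc (gtI s) (rg t (ps V J)) = p at *
  have h4 : α * Fintype.card n / 2 ≤ tr p := by linarith
  refine ⟨p, hp, ne_zero_of_tr_pos (lt_of_lt_of_le (by positivity) h4), h3, ?_⟩
  have h5 : D u u p ^ 2 ≤ (γ * (α * Fintype.card n / 2)) ^ 2 := by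
    have h6 : 2 * (Fintype.card S : ℝ) * Fintype.card n * D u u (rg t (ps V J)) ≤
        2 * Fintype.card S * Fintype.card n * (t⁻¹ * (3 * δ * Fintype.card n)) :=
      mul_le_mul_of_nonneg_left h1 (by positivity)
    have h7 : 2 * (Fintype.card S : ℝ) * Fintype.card n * (t⁻¹ * (3 * δ * Fintype.card n)) ≤
        2 * Fintype.card S * Fintype.card n *
          (t⁻¹ * (3 * (γ ^ 2 * α ^ 2 * t / (384 * Fintype.card S)) * Fintype.card n)) := by gcongr
    have h8 : 2 * (Fintype.card S : ℝ) * Fintype.card n *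
          (t⁻¹ * (3 * (γ ^ 2 * α ^ 2 * t / (384 * Fintype.card S)) * Fintype.card n)) =
        (γ * (α * Fintype.card n / 2)) ^ 2 / 16 := by field_simp; ring
    nlinarith
  have h6 := (pow_le_pow_iff_left₀ (D_nonneg _ _ _) (by positivity) two_ne_zero).mp h5
  exact h6.trans (mul_le_mul_of_nonneg_left h4 hγ.le)

end Pool.Agent.P.MP_7f9919_an.NH
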