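import Pool.Agent.P.MP_7f9919_an.NH.B5

set_option autoImplicit false

namespace Pool.Agent.P.MP_7f9919_an.NH

open Matrix
open scoped MatrixOrder ComplexOrder

namespace CheegerAux

/-- combinatorial Cheeger inequality for a weight matrix with bounded row and column sums -/
theorem comb {n : Type} [Fintype n] (w : n → n → ℝ) {σ γ : ℝ} (hw : ∀ i j, 0 ≤ w i j)
    (hr : ∀ i, ∑ j, w i j ≤ σ) (hc : ∀ j, ∑ i, w i j ≤ σ) (hσ : 0 ≤ σ) (hγ : 0 ≤ γ) (f : n → ℝ)
    (h : ∀ s, 0 ≤ s → γ * ∑ i, gtI s (f i ^ 2) ≤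
      ∑ i, ∑ j, w i j * (gtI s (f i ^ 2) - gtI s (f j ^ 2)) ^ 2) :
    γ ^ 2 * ∑ i, f i ^ 2 ≤ 4 * σ * ∑ i, ∑ j, w i j * (f i - f j) ^ 2 := by
  obtain ⟨B, hB⟩ : ∃ B, B = ∑ i, f i ^ 2 := ⟨_, rfl⟩
  have hB0 : 0 ≤ B := by rw [hB]; positivity
  have hcl : ∀ i, cl 0 B (f i ^ 2) = f i ^ 2 := fun i => by
    have h1 : f i ^ 2 ≤ B := by
      rw [hB]
      exact Finset.single_le_sum (f := fun i => f i ^ 2) (fun _ _ => sq_nonneg _) (Finset.mem_univ i)
    unfold cl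
    rw [min_eq_right h1, max_eq_right (sq_nonneg _)]
  obtain ⟨s, hs, h1⟩ := exists_level_pair (ι := n × n) (κ := n) hB0 (fun p => w p.1 p.2)
    (fun p => f p.1 ^ 2) (fun p => f p.2 ^ 2) (fun _ => -γ) (fun j => f j ^ 2)
  simp only [hcl, sub_zero] at h1
  rw [← Finset.mul_sum, ← Finset.mul_sum, ← hB] at h1
  have h2 := h s hs.1
  rw [← Fintype.sum_prod_type'] at h2
  have h3 : γ * B ≤ ∑ p : n × n, w p.1 p.2 * |f p.1 ^ 2 - f p.2 ^ 2| := by
    have h4 := mul_nonneg hB0 (sub_nonneg.mpr h2)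
    linarith
  have h5 := Finset.sum_sq_le_sum_mul_sum_of_sq_le_mul (Finset.univ : Finset (n × n))
    (r := fun p => w p.1 p.2 * |f p.1 ^ 2 - f p.2 ^ 2|)
    (f := fun p => w p.1 p.2 * (2 * f p.1 ^ 2 + 2 * f p.2 ^ 2))
    (g := fun p => w p.1 p.2 * (f p.1 - f p.2) ^ 2)
    (fun p _ => mul_nonneg (hw _ _) (by positivity))
    (fun p _ => mul_nonneg (hw _ _) (sq_nonneg _)) (fun p _ => by
      have h6 : |f p.1 ^ 2 - f p.2 ^ 2| ^ 2 ≤
          (2 * f p.1 ^ 2 + 2 * f p.2 ^ 2) * (f p.1 - f p.2) ^ 2 := by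
        rw [sq_abs]
        nlinarith [sq_nonneg ((f p.1 - f p.2) ^ 2)]
      rw [mul_pow]
      nlinarith [mul_le_mul_of_nonneg_left h6 (sq_nonneg (w p.1 p.2))])
  have h7 : ∑ p : n × n, w p.1 p.2 * (2 * f p.1 ^ 2 + 2 * f p.2 ^ 2) ≤ 4 * σ * B := by
    simp only [mul_add, Finset.sum_add_distrib, Fintype.sum_prod_type]
    have h8 : ∑ i, ∑ j, w i j * (2 * f i ^ 2) ≤ σ * (2 * B) := by
      rw [hB, Finset.mul_sum, Finset.mul_sum]
      refine Finset.sum_le_sum fun i _ => ?_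
      rw [← Finset.sum_mul]
      exact mul_le_mul_of_nonneg_right (hr i) (by positivity)
    have h9 : ∑ i, ∑ j, w i j * (2 * f j ^ 2) ≤ σ * (2 * B) := by
      rw [Finset.sum_comm, hB, Finset.mul_sum, Finset.mul_sum]
      refine Finset.sum_le_sum fun i _ => ?_
      rw [← Finset.sum_mul]
      exact mul_le_mul_of_nonneg_right (hc i) (by positivity)
    linarith
  rw [← hB, ← Fintype.sum_prod_type']
  obtain ⟨E, hE⟩ : ∃ E, E = ∑ p : n × n, w p.1 p.2 * (f p.1 - f p.2) ^ 2 := ⟨_, rfl⟩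
  have hE0 : 0 ≤ E := by
    rw [hE]; exact Finset.sum_nonneg fun p _ => mul_nonneg (hw _ _) (sq_nonneg _)
  rw [← hE] at h5 ⊢
  have h10 : (γ * B) ^ 2 ≤ 4 * σ * B * E :=
    ((pow_le_pow_left₀ (mul_nonneg hγ hB0) h3 2).trans h5).trans
      (mul_le_mul_of_nonneg_right h7 hE0)
  rcases hB0.eq_or_lt with h11 | h11
  · rw [← h11, mul_zero]; positivity
  · refine le_of_mul_le_mul_left ?_ h11
    nlinarith

/-- a median -/
theorem exists_median {n : Type} [Fintype n] (l : n → ℝ) :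
    ∃ μ : ℝ, ∑ i, gtI μ (l i) ≤ (Fintype.card n : ℝ) / 2 ∧
      ∑ i, gtI (-μ) (-l i) ≤ (Fintype.card n : ℝ) / 2 := by
  classical
  rcases isEmpty_or_nonempty n with hn | hn
  · exact ⟨0, by simp, by simp⟩
  obtain ⟨i0, -, hi0⟩ := Finset.exists_max_image Finset.univ l Finset.univ_nonempty
  have h0 : ∑ i, gtI (l i0) (l i) ≤ (Fintype.card n : ℝ) / 2 := by
    rw [Finset.sum_eq_zero fun i _ => gtI_of_le (hi0 i (Finset.mem_univ _))]; positivity
  obtain ⟨i1, hi1, hmin⟩ := Finset.exists_min_image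
    (Finset.univ.filter fun k => ∑ i, gtI (l k) (l i) ≤ (Fintype.card n : ℝ) / 2) l
    ⟨i0, Finset.mem_filter.mpr ⟨Finset.mem_univ _, h0⟩⟩
  refine ⟨l i1, (Finset.mem_filter.mp hi1).2, ?_⟩
  by_cases hne : ∃ k, l k < l i1
  · obtain ⟨k, hk⟩ := hne
    obtain ⟨i2, hi2, hmax⟩ := Finset.exists_max_image (Finset.univ.filter fun k => l k < l i1) l
      ⟨k, Finset.mem_filter.mpr ⟨Finset.mem_univ _, hk⟩⟩
    have h2 : l i2 < l i1 := (Finset.mem_filter.mp hi2).2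
    have h3 : (Fintype.card n : ℝ) / 2 < ∑ i, gtI (l i2) (l i) := by
      by_contra h
      have := hmin i2 (Finset.mem_filter.mpr ⟨Finset.mem_univ _, not_lt.mp h⟩)
      linarith
    have h4 : ∑ i, gtI (-l i1) (-l i) + ∑ i, gtI (l i2) (l i) ≤ Fintype.card n := by
      rw [← Finset.sum_add_distrib]
      calc _ ≤ ∑ _i : n, (1 : ℝ) := Finset.sum_le_sum fun i _ => by
            by_cases h : l i < l i1
            · rw [gtI_of_le (hmax i (Finset.mem_filter.mpr ⟨Finset.mem_univ _, h⟩))]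
              linarith [gtI_le_one (-l i1) (-l i)]
            · rw [gtI_of_le (neg_le_neg (not_lt.mp h))]
              linarith [gtI_le_one (l i2) (l i)]
        _ = Fintype.card n := by simp
    linarith
  · rw [Finset.sum_eq_zero fun i _ => gtI_of_le (neg_le_neg (not_lt.mp fun h => hne ⟨i, h⟩))]
    positivity

theorem gtI_pos_sq_le {s μ x : ℝ} (hs : 0 ≤ s) : gtI s (max (x - μ) 0 ^ 2) ≤ gtI μ x := by
  by_cases h : μ < x
  · rw [gtI_of_lt h]; exact gtI_le_one _ _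
  · rw [max_eq_right (by linarith [not_lt.mp h]), gtI_of_le (by simpa using hs)]
    exact gtI_nonneg _ _

theorem pos_neg_sq (x : ℝ) : max x 0 ^ 2 + max (-x) 0 ^ 2 = x ^ 2 := by
  rcases le_total x 0 with h | h
  · rw [max_eq_right h, max_eq_left (neg_nonneg.mpr h)]; ring
  · rw [max_eq_left h, max_eq_right (neg_nonpos.mpr h)]; ring

theorem pos_neg_sub_sq (x y : ℝ) :
    (max x 0 - max y 0) ^ 2 + (max (-x) 0 - max (-y) 0) ^ 2 ≤ (x - y) ^ 2 := by
  rcases le_total x 0 with h | h <;> rcases le_total y 0 with h' | h'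
  · rw [max_eq_right h, max_eq_left (neg_nonneg.mpr h), max_eq_right h',
      max_eq_left (neg_nonneg.mpr h')]; nlinarith
  · rw [max_eq_right h, max_eq_left (neg_nonneg.mpr h), max_eq_left h',
      max_eq_right (neg_nonpos.mpr h')]; nlinarith [mul_nonneg (neg_nonneg.mpr h) h']
  · rw [max_eq_left h, max_eq_right (neg_nonpos.mpr h), max_eq_right h',
      max_eq_left (neg_nonneg.mpr h')]; nlinarith [mul_nonneg (neg_nonneg.mpr h') h]
  · rw [max_eq_left h, max_eq_right (neg_nonpos.mpr h), max_eq_left h',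
      max_eq_right (neg_nonpos.mpr h')]; nlinarith

variable {n S : Type} [Fintype n] [DecidableEq n] [Fintype S]

/-- the Hermitian case -/
theorem herm {b : S → Mat n n} {γ : ℝ} (hb : ∀ s, Ctr (b s)) (hγ : 0 ≤ γ)
    (h : ∀ q, IsProj q → tr q ≤ Fintype.card n / 2 → γ * tr q ≤ D b b q)
    {A : Mat n n} (hA : Aᴴ = A) :
    ∃ μ : ℝ, γ ^ 2 * ‖A - μ • (1 : Mat n n)‖ ^ 2 ≤ 4 * Fintype.card S * D b b A := by
  obtain ⟨w, hw, hr, hc, hD⟩ := exists_weights_D hA hb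
  obtain ⟨μ, h1, h2⟩ := exists_median (eig A)
  have key : ∀ g : ℝ → ℝ,
      (∀ s, 0 ≤ s → ∑ i, gtI s (g (eig A i) ^ 2) ≤ (Fintype.card n : ℝ) / 2) →
      γ ^ 2 * ∑ i, g (eig A i) ^ 2 ≤
        4 * Fintype.card S * ∑ i, ∑ j, w i j * (g (eig A i) - g (eig A j)) ^ 2 := by
    intro g hg
    refine comb w hw hr hc (by positivity) hγ (fun i => g (eig A i)) fun s hs => ?_
    have h3 := h (fc (fun l => gtI s (g l ^ 2)) A) (isProj_fc fun x => gtI_cases _ _)
      (by rw [tr_fc hA]; exact hg s hs)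
    rwa [tr_fc hA, hD] at h3
  have k1 := key (fun l => max (l - μ) 0) fun s hs =>
    (Finset.sum_le_sum fun i _ => gtI_pos_sq_le hs).trans h1
  have k2 := key (fun l => max (-(l - μ)) 0) fun s hs => by
    refine (Finset.sum_le_sum fun i _ => ?_).trans h2
    have h4 := gtI_pos_sq_le (μ := -μ) (x := -eig A i) hs
    rwa [show -eig A i - -μ = -(eig A i - μ) by ring] at h4
  refine ⟨μ, ?_⟩
  have e1 : ‖A - μ • (1 : Mat n n)‖ ^ 2 =
      ∑ i, max (eig A i - μ) 0 ^ 2 + ∑ i, max (-(eig A i - μ)) 0 ^ 2 := by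
    have h5 := norm_fc_sq hA fun l => l - μ
    rw [fc_sub, fc_id hA, fc_const hA] at h5
    rw [h5, ← Finset.sum_add_distrib]
    exact Finset.sum_congr rfl fun i _ => (pos_neg_sq _).symm
  have e2 : ∑ i, ∑ j, w i j * (max (eig A i - μ) 0 - max (eig A j - μ) 0) ^ 2 +
      ∑ i, ∑ j, w i j * (max (-(eig A i - μ)) 0 - max (-(eig A j - μ)) 0) ^ 2 ≤ D b b A := by
    have h6 := hD fun x => x
    rw [fc_id hA] at h6
    rw [h6, ← Finset.sum_add_distrib]
    refine Finset.sum_le_sum fun i _ => ?_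
    rw [← Finset.sum_add_distrib]
    refine Finset.sum_le_sum fun j _ => ?_
    rw [← mul_add]
    refine mul_le_mul_of_nonneg_left ?_ (hw i j)
    have h7 := pos_neg_sub_sq (eig A i - μ) (eig A j - μ)
    rwa [show eig A i - μ - (eig A j - μ) = eig A i - eig A j by ring] at h7
  have e3 := mul_le_mul_of_nonneg_left e2 (show (0 : ℝ) ≤ 4 * Fintype.card S by positivity)
  rw [e1]
  linarith

omit [DecidableEq n] in
theorem para (X Y : Mat n n) :
    ‖X + Complex.I • Y‖ ^ 2 + ‖X - Complex.I • Y‖ ^ 2 = 2 * ‖X‖ ^ 2 + 2 * ‖Y‖ ^ 2 := by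
  have h : ‖Complex.I • Y‖ = ‖Y‖ := by rw [norm_smul]; simp
  rw [norm_add_sq, norm_sub_sq, h]; ring

omit [Fintype n] [DecidableEq n] in
theorem adj_add {X Y : Mat n n} (hX : Xᴴ = X) (hY : Yᴴ = Y) :
    (X + Complex.I • Y)ᴴ = X - Complex.I • Y := by
  rw [conjTranspose_add, conjTranspose_smul, hX, hY, sub_eq_add_neg]
  simp

omit [DecidableEq n] in
theorem norm_add_I {X Y : Mat n n} (hX : Xᴴ = X) (hY : Yᴴ = Y) :
    ‖X + Complex.I • Y‖ ^ 2 = ‖X‖ ^ 2 + ‖Y‖ ^ 2 := by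
  have h := para X Y
  rw [← adj_add hX hY, norm_adj] at h
  linarith

omit [DecidableEq n] in
theorem D2_add_I (b : S → Mat n n) {X Y : Mat n n} (hX : Xᴴ = X) (hY : Yᴴ = Y) :
    D2 b b (X + Complex.I • Y) = 2 * D b b X + 2 * D b b Y := by
  unfold D2 D
  rw [adj_add hX hY, Finset.mul_sum, Finset.mul_sum, ← Finset.sum_add_distrib,
    ← Finset.sum_add_distrib]
  refine Finset.sum_congr rfl fun s _ => ?_
  rw [← para]
  congr 3
  · simp only [Matrix.mul_add, Matrix.add_mul, Matrix.mul_smul, Matrix.smul_mul, smul_sub]; abel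
  · simp only [Matrix.mul_sub, Matrix.sub_mul, Matrix.mul_smul, Matrix.smul_mul, smul_sub]; abel

omit [Fintype n] [DecidableEq n] in
theorem exists_re_im (y : Mat n n) :
    ∃ X Y : Mat n n, Xᴴ = X ∧ Yᴴ = Y ∧ y = X + Complex.I • Y := by
  refine ⟨(1 / 2 : ℂ) • (y + yᴴ), (Complex.I / 2) • (yᴴ - y), ?_, ?_, ?_⟩
  · ext i j; simp; ring
  · ext i j; simp; ring
  · ext i j
    simp only [Matrix.add_apply, Matrix.smul_apply, Matrix.sub_apply, smul_eq_mul]
    linear_combination (-(yᴴ i j - y i j) / 2) * Complex.I_mul_I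

end CheegerAux

open CheegerAux in
theorem cheeger : S_Cheeger := by
  intro n S _ _ _ _ b γ hb hγ h y
  obtain ⟨X, Y, hX, hY, rfl⟩ := exists_re_im y
  obtain ⟨μ, hμ⟩ := herm hb hγ h hX
  obtain ⟨ν, hν⟩ := herm hb hγ h hY
  refine ⟨μ + Complex.I * ν, ?_⟩
  have e : X + Complex.I • Y - ((μ : ℂ) + Complex.I * ν) • (1 : Mat n n) =
      (X - μ • (1 : Mat n n)) + Complex.I • (Y - ν • (1 : Mat n n)) := by
    ext i j
    simp only [Matrix.add_apply, Matrix.smul_apply, Matrix.sub_apply, smul_eq_mul,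
      Complex.real_smul]
    ring
  have hσ : (0 : ℝ) < Fintype.card S := by exact_mod_cast Fintype.card_pos
  rw [e, norm_add_I (by simp [hX]) (by simp [hY]), D2_add_I b hX hY, div_mul_eq_mul_div,
    div_le_iff₀ (by positivity)]
  linarith

end Pool.Agent.P.MP_7f9919_an.NH
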