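import Pool.Agent.P.MP_7f9919_an.NH.B5

set_option autoImplicit false
set_option linter.unusedSectionVars false

namespace Pool.Agent.P.MP_7f9919_an.NH

open Matrix
open scoped MatrixOrder ComplexOrder

namespace CoverAux

variable {n d f S : Type} [Fintype n] [Fintype d] [Fintype f] [Fintype S]
variable [DecidableEq n] [DecidableEq d] [DecidableEq f]

/-- distance of a Hermitian matrix from the scalars -/
theorem dist_scalar {y : Mat n n} (hy : yᴴ = y) (ζ : ℂ) :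
    Fintype.card n * ‖y‖ ^ 2 - tr y ^ 2 ≤ Fintype.card n * ‖y - ζ • (1 : Mat n n)‖ ^ 2 := by
  have h1 : tr (yᴴ * ζ • (1 : Mat n n)) = ζ.re * tr y := by
    rw [hy, Matrix.mul_smul, Matrix.mul_one]
    unfold tr
    rw [trace_smul, trace_eq_tr_of_herm hy]
    simp [tr]
  have h2 : ‖ζ • (1 : Mat n n)‖ ^ 2 = ‖ζ‖ ^ 2 * Fintype.card n := by
    rw [norm_smul, mul_pow, norm_one_sq]
  have h3 : ζ.re ^ 2 ≤ ‖ζ‖ ^ 2 := by
    rw [← sq_abs]
    exact pow_le_pow_left₀ (abs_nonneg _) (Complex.abs_re_le_norm ζ) 2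
  rw [norm_sub_sq, h1, h2]
  have hN : (0 : ℝ) ≤ Fintype.card n := Nat.cast_nonneg _
  generalize (Fintype.card n : ℝ) = N at *
  generalize tr y = t at *
  generalize ‖y‖ ^ 2 = Y at *
  generalize ‖ζ‖ ^ 2 = Z at *
  generalize ζ.re = ρ at *
  nlinarith [sq_nonneg (N * ρ - t), mul_nonneg (mul_nonneg hN hN) (sub_nonneg.mpr h3)]

theorem tr_le_card {y : Mat n n} (h : ‖y‖ ^ 2 = Fintype.card n) : tr y ≤ Fintype.card n := by
  have h1 := norm_sub_sq y (1 : Mat n n)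
  rw [Matrix.mul_one, tr_adj, norm_one_sq, h] at h1
  nlinarith [sq_nonneg ‖y - 1‖]

/-- consequences of the two gap inequalities -/
theorem polar_data (z : Mat d f) {e : ℝ} {τ τ' : ℂ} (hF : (0 : ℝ) < Fintype.card f)
    (hz : ‖z‖ ^ 2 = Fintype.card f) (he : e ≤ 1 / 2)
    (h1 : ‖absR z - τ • (1 : Mat f f)‖ ^ 2 ≤ e * Fintype.card f)
    (h2 : ‖absL z - τ' • (1 : Mat d d)‖ ^ 2 ≤ e * Fintype.card f) :
    ‖absR z - 1‖ ^ 2 ≤ 2 * e * Fintype.card f ∧ (Fintype.card d : ℝ) ≤ 2 * Fintype.card f := by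
  have hR : ‖absR z‖ ^ 2 = Fintype.card f := by rw [norm_absR, hz]
  have hL : ‖absL z‖ ^ 2 = Fintype.card f := by rw [norm_absL, hz]
  have t0 : 0 ≤ tr (absR z) := tr_nonneg (absR_nonneg z)
  have t1 := tr_le_card hR
  have a1 := dist_scalar (absR_herm z) τ
  have a2 := dist_scalar (absL_herm z) τ'
  have a3 := norm_sub_sq (absR z) (1 : Mat f f)
  rw [Matrix.mul_one, tr_adj, norm_one_sq, hR] at a3
  rw [hR] at a1
  rw [hL, tr_absL] at a2
  have hD : (0 : ℝ) ≤ Fintype.card d := Nat.cast_nonneg _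
  rw [a3]
  generalize ‖absR z - τ • (1 : Mat f f)‖ ^ 2 = p at *
  generalize ‖absL z - τ' • (1 : Mat d d)‖ ^ 2 = q at *
  generalize tr (absR z) = t at *
  generalize (Fintype.card f : ℝ) = F at *
  generalize (Fintype.card d : ℝ) = Dd at *
  constructor
  · have b1 : F * (F - t) ≤ F * (e * F) := by
      nlinarith [mul_le_mul_of_nonneg_left h1 hF.le, mul_nonneg t0 (sub_nonneg.mpr t1)]
    have := le_of_mul_le_mul_left b1 hF
    linarith
  · have b1 : F * Dd ≤ F * (2 * F) := by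
      have c1 := mul_le_mul_of_nonneg_left h2 hD
      have c2 : t ^ 2 ≤ F ^ 2 := pow_le_pow_left₀ t0 t1 2
      have c3 := mul_le_mul_of_nonneg_left he (mul_nonneg hD hF.le)
      nlinarith
    exact le_of_mul_le_mul_left b1 hF

theorem norm_isom_defect {x : Mat n d} (hx : xᴴ * x = 1) (u : Mat n n) :
    ‖u * x - x * (xᴴ * u * x)‖ ^ 2 ≤ ‖u * (x * xᴴ) - x * xᴴ * u‖ ^ 2 := by
  have hc : Ctr x := le_of_eq hx
  have h1 : u * x - x * (xᴴ * u * x) = (u * (x * xᴴ) - x * xᴴ * u) * x := by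
    rw [Matrix.sub_mul, Matrix.mul_assoc u, Matrix.mul_assoc x xᴴ x, hx, Matrix.mul_one]
    simp only [Matrix.mul_assoc]
  rw [h1]
  exact hc.mul_norm_sq_le _

theorem D_comp_le (u : S → Mat n n) (a v : S → Mat f f) {x : Mat n d} (hx : xᴴ * x = 1)
    {z : Mat d f} (hz : Ctr z) :
    D u v (x * z) ≤ 3 * (D u u (x * xᴴ) + D (fun s => xᴴ * u s * x) a z +
      ∑ s, ‖a s - v s‖ ^ 2) := by
  have hc : Ctr x := le_of_eq hx
  unfold D
  rw [← Finset.sum_add_distrib, ← Finset.sum_add_distrib, Finset.mul_sum]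
  refine Finset.sum_le_sum fun s _ => ?_
  have h1 : u s * (x * z) - x * z * v s = (u s * x - x * (xᴴ * u s * x)) * z +
      x * (xᴴ * u s * x * z - z * a s) + x * z * (a s - v s) := by
    simp only [Matrix.mul_sub, Matrix.sub_mul, Matrix.mul_assoc]
    abel
  rw [h1]
  refine (norm_add3_sq_le _ _ _).trans ?_
  have h2 := hz.mul_norm_sq_le (u s * x - x * (xᴴ * u s * x))
  have h3 := norm_isom_defect hx (u s)
  have h4 := hc.norm_mul_sq_le (xᴴ * u s * x * z - z * a s)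
  have h5 := (hc.mul hz).norm_mul_sq_le (a s - v s)
  linarith

theorem bad_comp_le (U : FreeGroup S → Mat n n) (v : FreeGroup S → Mat f f)
    (W : Finset (FreeGroup S)) {x : Mat n d} (hx : Ctr x) {z : Mat d f} (hz : Ctr z) :
    bad U v W (x * z) ≤ 2 * tr (BW U W * (x * xᴴ)) + 2 * ∑ w ∈ W, ‖v w - 1‖ ^ 2 := by
  rw [tr_BW_mul]
  unfold bad
  rw [Finset.mul_sum, Finset.mul_sum, ← Finset.sum_add_distrib]
  refine Finset.sum_le_sum fun w _ => ?_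
  have h1 : U w * (x * z) - x * z * v w = (U w - 1) * x * z - x * z * (v w - 1) := by
    simp only [Matrix.mul_sub, Matrix.sub_mul, Matrix.mul_assoc, Matrix.one_mul, Matrix.mul_one]
    abel
  rw [h1]
  refine (norm_sub_sq_le _ _).trans ?_
  have h2 := hz.mul_norm_sq_le ((U w - 1) * x)
  have h3 := (hx.mul hz).norm_mul_sq_le (v w - 1)
  linarith

theorem D2_tuple_le {u : S → Mat n n} {v : S → Mat f f} (hu : ∀ s, IsUni (u s))
    (hv : ∀ s, IsUni (v s)) (a : S → Mat f f) {y : Mat n f} (hy : Ctr y) :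
    D2 u a y ≤ 6 * (D u v y + ∑ s, ‖a s - v s‖ ^ 2) := by
  have h1 := D_le_of_tuple u u v a hy
  have h2 := D_le_of_tuple v a u u hy.adj
  rw [D_adj hu hv] at h2
  simp only [sub_self, norm_zero, ne_eq, OfNat.ofNat_ne_zero, not_false_eq_true, zero_pow,
    Finset.sum_const_zero, add_zero] at h1 h2
  unfold D2
  linarith

theorem frame_le {r : ℕ} {fr : Fin r → Mat n f} (ho : Orthonormal ℂ fr) {P0 : Mat n n}
    (y : Mat n f)
    (h : ∑ j, Fintype.card f * ‖(fr j)ᴴ * ((1 - P0) * y)‖ ^ 2 ≤ ‖y‖ ^ 2 / 2) :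
    ∑ j, ‖(inner ℂ (fr j) y : ℂ)‖ ^ 2 ≤ 3 / 4 * ‖y‖ ^ 2 + 3 * ‖P0 * y‖ ^ 2 := by
  have h1 := ho.sum_inner_products_le (P0 * y) (s := Finset.univ)
  have h2 : ∀ j, ‖(inner ℂ (fr j) y : ℂ)‖ ^ 2 ≤
      3 / 2 * (Fintype.card f * ‖(fr j)ᴴ * ((1 - P0) * y)‖ ^ 2) +
        3 * ‖(inner ℂ (fr j) (P0 * y) : ℂ)‖ ^ 2 := by
    intro j
    have e1 : (inner ℂ (fr j) y : ℂ) =
        (inner ℂ (fr j) ((1 - P0) * y) : ℂ) + (inner ℂ (fr j) (P0 * y) : ℂ) := by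
      rw [← inner_add_right, ← Matrix.add_mul, sub_add_cancel, Matrix.one_mul]
    have e2 : ‖(inner ℂ (fr j) ((1 - P0) * y) : ℂ)‖ ^ 2 ≤
        Fintype.card f * ‖(fr j)ᴴ * ((1 - P0) * y)‖ ^ 2 := by
      have e3 := norm_trace_le (1 : Mat f f) ((fr j)ᴴ * ((1 - P0) * y))
      rw [conjTranspose_one, Matrix.one_mul] at e3
      rw [inner_def, ← norm_one_sq, ← mul_pow]
      exact pow_le_pow_left₀ (norm_nonneg _) e3 2
    have e4 := norm_add_le (inner ℂ (fr j) ((1 - P0) * y) : ℂ) (inner ℂ (fr j) (P0 * y) : ℂ)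
    rw [← e1] at e4
    have e5 := pow_le_pow_left₀ (norm_nonneg _) e4 2
    generalize ‖(inner ℂ (fr j) ((1 - P0) * y) : ℂ)‖ = p at *
    generalize ‖(inner ℂ (fr j) (P0 * y) : ℂ)‖ = q at *
    nlinarith [sq_nonneg (p - 2 * q)]
  have h3 := Finset.sum_le_sum fun j (_ : j ∈ Finset.univ) => h2 j
  rw [Finset.sum_add_distrib, ← Finset.mul_sum _ _ (3 / 2 : ℝ), ← Finset.mul_sum _ _ (3 : ℝ)] at h3
  linarith

theorem norm_add_sq_le' (p q : Mat n f) : ‖p + q‖ ^ 2 ≤ 5 / 4 * ‖p‖ ^ 2 + 5 * ‖q‖ ^ 2 := by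
  have h := pow_le_pow_left₀ (norm_nonneg _) (norm_add_le p q) 2
  nlinarith [sq_nonneg (‖p‖ - 4 * ‖q‖)]

/-- normalisation of a counterexample to separation -/
theorem exists_normal {b : S → Mat d d} {a : S → Mat f f} {c' : ℝ}
    (hF : (0 : ℝ) < Fintype.card f) (h : ¬ Sep b a c') :
    ∃ z : Mat d f, ‖z‖ ^ 2 = Fintype.card f ∧ D2 b a z ≤ c' * Fintype.card f := by
  unfold Sep at h
  push Not at h
  obtain ⟨z, hz⟩ := h
  have h0 : ‖z‖ ≠ 0 := by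
    intro h0
    rw [h0] at hz
    have := D2_nonneg b a z
    nlinarith
  have h1 : (Real.sqrt (Fintype.card f) / ‖z‖) ^ 2 * ‖z‖ ^ 2 = Fintype.card f := by
    rw [div_pow, Real.sq_sqrt hF.le]
    field_simp
  refine ⟨(Real.sqrt (Fintype.card f) / ‖z‖) • z, ?_, ?_⟩
  · rw [norm_real_smul, mul_pow, sq_abs, h1]
  · rw [D2_smul]
    have h2 := mul_le_mul_of_nonneg_left hz.le (sq_nonneg (Real.sqrt (Fintype.card f) / ‖z‖))
    calc _ ≤ _ := h2
      _ = c' * ((Real.sqrt (Fintype.card f) / ‖z‖) ^ 2 * ‖z‖ ^ 2) := by ring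
      _ = _ := by rw [h1]

/-- the bound for `K` times the defect of `x z₁` -/
theorem num1 {K σ c c' e ζ ζ0 F Dd DX Dr Dz1 Dz ez A : ℝ} (hK : 1 ≤ K) (hσ : 1 ≤ σ)
    (hc1 : c ≤ 1) (hc' : c' * (10 ^ 5 * σ * K) = c) (hc'0 : 0 ≤ c')
    (he : e * (10 ^ 5 * σ * K) = 2)
    (hζ0 : ζ0 ≤ 1 / (4000 * K)) (hζ : 0 ≤ ζ) (hζ1 : ζ ≤ 1 / (8000 * K)) (hF : 0 < F)
    (hD : Dd ≤ 2 * F) (h1 : DX ≤ 3 * (Dr + Dz1 + A)) (h2 : Dr ≤ ζ * Dd)
    (h3 : Dz1 ≤ 2 * Dz + 8 * σ * ez) (h4 : Dz ≤ c' * F) (h5 : ez ≤ 2 * e * F) (h6 : A ≤ ζ0 * F) :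
    K * DX ≤ 3 / 1000 * F := by
  have hK0 : 0 < K := by linarith
  have a1 : K * ζ0 ≤ 1 / 4000 := by
    rw [le_div_iff₀ (by positivity)] at hζ0
    linarith
  have a2 : K * ζ ≤ 1 / 8000 := by
    rw [le_div_iff₀ (by positivity)] at hζ1
    linarith
  have a3 : K * c' ≤ 1 / 10 ^ 5 := by
    have : 0 ≤ K * c' * (σ - 1) := mul_nonneg (mul_nonneg hK0.le hc'0) (by linarith)
    nlinarith
  have a4 : K * (σ * e) = 2 / 10 ^ 5 := by linarith
  have b1 : Dr ≤ ζ * (2 * F) := h2.trans (mul_le_mul_of_nonneg_left hD hζ)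
  have b2 : σ * ez ≤ σ * (2 * e * F) := mul_le_mul_of_nonneg_left h5 (by linarith)
  have b3 : DX ≤ 3 * (2 * ζ + 2 * c' + 16 * (σ * e) + ζ0) * F := by linarith
  have b4 := mul_le_mul_of_nonneg_left b3 hK0.le
  have b5 : K * (3 * (2 * ζ + 2 * c' + 16 * (σ * e) + ζ0)) ≤ 3 / 1000 := by linarith
  have b6 := mul_le_mul_of_nonneg_right b5 hF.le
  linarith

theorem num2 {C' β0 β1 η' F Dd B T Wv : ℝ} (hC : 1 ≤ C') (h0 : 4 * C' * β0 ≤ η')
    (h1 : 4 * β1 ≤ β0) (h2 : 0 ≤ β1) (hF : 0 < F) (hD : Dd ≤ 2 * F) (h3 : B ≤ 2 * T + 2 * Wv)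
    (h4 : T ≤ β1 * Dd) (h5 : Wv ≤ β0 * F) : C' * B ≤ η' * F := by
  have a1 : T ≤ β1 * (2 * F) := h4.trans (mul_le_mul_of_nonneg_left hD h2)
  have a2 := mul_le_mul_of_nonneg_right h1 hF.le
  have a3 : 0 ≤ β1 * F := mul_nonneg h2 hF.le
  have a4 : B ≤ 4 * β0 * F := by linarith
  have a5 := mul_le_mul_of_nonneg_left a4 (by linarith : 0 ≤ C')
  have a6 := mul_le_mul_of_nonneg_right h0 hF.le
  linarith

end CoverAux

open CoverAux in
theorem cover : S_Cover := by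
  intro n d f S _ _ _ _ _ _ _ _ U P0 x a r fr N g W K c c' η η' C' ζ ζ0 β0 β1 hU hK hc hc1 hc'
    hη hη' hη1 hη2 hC hT hζ0 hζ1 hβ0 hβ1 hβ2 hζ hζ2 hTy hLow hx hGap hDr hB hP0 hPr hfr
  obtain ⟨hf, ha, hGa, v, hv, hav, hvW⟩ := hTy
  have hF : (0 : ℝ) < Fintype.card f := by exact_mod_cast hf
  have hσ : (1 : ℝ) ≤ Fintype.card S := by exact_mod_cast Fintype.card_pos
  have hxc : Ctr x := le_of_eq hx
  have hb : ∀ s, Ctr (xᴴ * gen U s * x) := fun s => (hxc.adj.mul (hU.gen_ctr s)).mul hxc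
  have hM : (10 : ℝ) ^ 5 ≤ 10 ^ 5 * Fintype.card S * K := by nlinarith
  have hM0 : (0 : ℝ) < 10 ^ 5 * Fintype.card S * K := by linarith
  obtain ⟨e, he⟩ : ∃ e : ℝ, e = 2 / (10 ^ 5 * Fintype.card S * K) := ⟨_, rfl⟩
  have he1 : e * (10 ^ 5 * Fintype.card S * K) = 2 := by rw [he]; field_simp
  have hc2 : c' * (10 ^ 5 * Fintype.card S * K) = c := by rw [hc']; field_simp
  have he0 : 0 < e := by rw [he]; positivity
  have hc0 : 0 < c' := by rw [hc']; positivity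
  have he2 : e ≤ 2 / 10 ^ 5 := by nlinarith
  have hce : 2 * c' = c * e := by rw [he, hc']; ring
  by_contra hcon
  obtain ⟨z, hz, hz2⟩ := exists_normal hF hcon
  have habs := D_abs_le (fun s => xᴴ * gen U s * x) a z
  obtain ⟨τ, hτ⟩ := hGa (absR z)
  obtain ⟨τ', hτ'⟩ := hGap (absL z)
  rw [D2_herm _ (absR_herm z)] at hτ
  rw [D2_herm _ (absL_herm z)] at hτ'
  have hn1 := D_nonneg (fun s => xᴴ * gen U s * x) (fun s => xᴴ * gen U s * x) (absL z)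
  have hn2 := D_nonneg a a (absR z)
  have hceF : 2 * (c' * Fintype.card f) = c * (e * Fintype.card f) := by
    rw [← mul_assoc, hce, mul_assoc]
  have g1 : ‖absR z - τ • (1 : Mat f f)‖ ^ 2 ≤ e * Fintype.card f :=
    le_of_mul_le_mul_left (by linarith) hc
  have g2 : ‖absL z - τ' • (1 : Mat d d)‖ ^ 2 ≤ e * Fintype.card f :=
    le_of_mul_le_mul_left (by linarith) hc
  obtain ⟨g3, hD⟩ := polar_data z hF hz (by linarith) g1 g2
  obtain ⟨z1, hz1, g4⟩ := exists_clamp z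
  have g5 : ‖z1 - z‖ ^ 2 ≤ 2 * e * Fintype.card f := g4.trans g3
  have hX : Ctr (x * z1) := hxc.mul hz1
  have k1 : K * D (gen U) (gen v) (x * z1) ≤ 3 / 1000 * Fintype.card f :=
    num1 hK hσ hc1 hc2 hc0.le he1 hζ1 hζ hζ2 hF hD (D_comp_le (gen U) a (gen v) hx hz1) hDr
      (D_le_of_near hb ha z z1) ((D_le_D2 _ _ _).trans hz2) g5 hav
  have k2 : C' * bad U v W (x * z1) ≤ η' * Fintype.card f :=
    num2 hC hβ0 hβ1 hβ2 hF hD (bad_comp_le U v W hxc hz1) hB hvW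
  have k3 : η' * ‖x * z1‖ ^ 2 ≤ η' * Fintype.card f :=
    mul_le_mul_of_nonneg_left hX.norm_sq_le_right hη'.le
  obtain ⟨t1, t2⟩ := hT n f U v hU hv (x * z1)
  have hy : Ctr (avg g U v (x * z1)) := ctr_avg_words g hU hv hX
  obtain ⟨y, hyy⟩ : ∃ y, y = avg g U v (x * z1) := ⟨_, rfl⟩
  rw [← hyy] at t1 t2 hy
  have m1 := mul_le_mul_of_nonneg_right hη1 hF.le
  have m2 := mul_le_mul_of_nonneg_right hη2 hF.le
  have m3 := mul_le_mul_of_nonneg_right hζ0 hF.le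
  have m4 := mul_le_mul_of_nonneg_right he2 hF.le
  have p1 : ‖y - x * z1‖ ^ 2 ≤ 5 / 1000 * Fintype.card f := by linarith
  have p2 := D2_tuple_le hU.gen_uni hv.gen_uni a hy
  have p3 := hLow.2.2 y
  have p4 : ‖y‖ ^ 2 - ∑ j, ‖(inner ℂ (fr j) y : ℂ)‖ ^ 2 ≤ 12 / 1000 * Fintype.card f :=
    le_of_mul_le_mul_left (by linarith) hη
  have p5 := frame_le hLow.1 y (hfr y)
  have p6 : ‖P0 * y‖ ^ 2 ≤ 2 * ‖P0 * x * z1‖ ^ 2 + 2 * ‖P0 * (y - x * z1)‖ ^ 2 := by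
    have : P0 * y = P0 * x * z1 + P0 * (y - x * z1) := by
      rw [Matrix.mul_sub, Matrix.mul_assoc]; abel
    rw [this]
    exact norm_add_sq_le _ _
  have p7 := hz1.mul_norm_sq_le (P0 * x)
  have p8 := hP0.mul_norm_sq x
  have p9 := hP0.ctr.norm_mul_sq_le (y - x * z1)
  have q1 : x * z = y + -((y - x * z1) + x * (z1 - z)) := by
    rw [Matrix.mul_sub]; abel
  have q2 := norm_add_sq_le' y (-((y - x * z1) + x * (z1 - z)))
  rw [← q1, norm_isom_mul hx, hz, norm_neg] at q2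
  have q3 := norm_add_sq_le (y - x * z1) (x * (z1 - z))
  rw [norm_isom_mul hx] at q3
  linarith

end Pool.Agent.P.MP_7f9919_an.NH
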