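import Mathlib

set_option autoImplicit false

namespace Pool.Agent.P.MP_7f9919_an.NH

open Matrix
open scoped MatrixOrder ComplexOrder

/-- complex rectangular matrices -/
abbrev Mat (m n : Type) : Type := Matrix m n ℂ

section inst
variable {m n : Type} [Fintype m] [Fintype n]

/-- the unnormalised Frobenius norm -/
@[reducible] noncomputable def matNACG : NormedAddCommGroup (Matrix m n ℂ) :=
  Matrix.frobeniusNormedAddCommGroup

attribute [local instance] matNACG

@[reducible] noncomputable def matNSR : NormedSpace ℝ (Matrix m n ℂ) := Matrix.frobeniusNormedSpace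

theorem norm_sq_eq_sum (x : Mat m n) : ‖x‖ ^ 2 = ∑ i, ∑ j, ‖x i j‖ ^ 2 := by
  have h : ‖x‖ = (∑ i, ∑ j, ‖x i j‖ ^ (2 : ℝ)) ^ (1 / 2 : ℝ) := Matrix.frobenius_norm_def x
  have h0 : 0 ≤ ∑ i, ∑ j, ‖x i j‖ ^ (2 : ℝ) := by positivity
  rw [h, ← Real.sqrt_eq_rpow, Real.sq_sqrt h0]
  simp

/-- the Hilbert-Schmidt inner product -/
@[reducible] noncomputable def matIPS : InnerProductSpace ℂ (Matrix m n ℂ) :=
  { (Matrix.frobeniusNormedSpace : NormedSpace ℂ (Matrix m n ℂ)) with
    inner := fun x y => trace (xᴴ * y)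
    norm_sq_eq_re_inner := by
      intro x
      rw [norm_sq_eq_sum, Finset.sum_comm]
      simp only [trace, diag, mul_apply, conjTranspose_apply, map_sum]
      refine Finset.sum_congr rfl fun i _ => Finset.sum_congr rfl fun j _ => ?_
      simp [Complex.sq_norm, Complex.normSq_apply]
    conj_inner_symm := by
      intro x y
      change (starRingEnd ℂ) (trace (yᴴ * x)) = trace (xᴴ * y)
      rw [starRingEnd_apply, ← trace_conjTranspose, conjTranspose_mul, conjTranspose_conjTranspose]
    add_left := by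
      intro x y z
      simp [Matrix.add_mul]
    smul_left := by
      intro x y r
      simp }

end inst

scoped[Pool.Agent.P.MP_7f9919_an.NH] attribute [instance] Pool.Agent.P.MP_7f9919_an.NH.matNACG
  Pool.Agent.P.MP_7f9919_an.NH.matNSR Pool.Agent.P.MP_7f9919_an.NH.matIPS

section defs
variable {m n S : Type} [Fintype m] [Fintype n] [Fintype S]

/-- real part of the trace -/
noncomputable def tr (x : Mat n n) : ℝ := (trace x).re

/-- contraction -/
def Ctr [DecidableEq n] (x : Mat m n) : Prop := xᴴ * x ≤ 1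

/-- orthogonal projection -/
def IsProj (p : Mat n n) : Prop := pᴴ = p ∧ p * p = p

/-- unitary matrix -/
def IsUni [DecidableEq n] (u : Mat n n) : Prop := uᴴ * u = 1 ∧ u * uᴴ = 1

/-- intertwining defect -/
noncomputable def D (a : S → Mat m m) (b : S → Mat n n) (x : Mat m n) : ℝ :=
  ∑ s, ‖a s * x - x * b s‖ ^ 2

/-- two-sided intertwining defect -/
noncomputable def D2 (a : S → Mat m m) (b : S → Mat n n) (x : Mat m n) : ℝ :=
  D a b x + D b a xᴴ

/-- edge energy between two projections -/
noncomputable def ed (u : S → Mat n n) (p q : Mat n n) : ℝ :=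
  ∑ s, (‖p * u s * q‖ ^ 2 + ‖q * u s * p‖ ^ 2)

/-- functional calculus of a Hermitian matrix -/
noncomputable def fc [DecidableEq n] (f : ℝ → ℝ) (A : Mat n n) : Mat n n := cfc f A

/-- indicator function of `(s, ∞)` -/
noncomputable def gtI (s : ℝ) : ℝ → ℝ := fun l => if s < l then 1 else 0

end defs

end Pool.Agent.P.MP_7f9919_an.NH
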