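import Pool.Agent.P.MP_7f9919_an.NH.B5

set_option autoImplicit false

namespace Pool.Agent.P.MP_7f9919_an.NH

open Matrix Filter Asymptotics

theorem sm_iff (ι : ℕ → Type) [∀ k, Fintype (ι k)] {f : ℕ → ℝ} (hf : ∀ k, 0 ≤ f k) :
    Sm ι f ↔ ∀ ε > (0 : ℝ), ∀ᶠ k in atTop, f k ≤ ε * Fintype.card (ι k) := by
  unfold Sm
  rw [isLittleO_iff]
  refine forall_congr' fun ε => forall_congr' fun _ => eventually_congr (.of_forall fun k => ?_)
  rw [Real.norm_of_nonneg (hf k), Real.norm_natCast]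

/-- Theorem NH without any definition of this folder -/
def S_NHeps : Prop :=
  ∃ (H : Type) (_ : Group H) (_ : Countable H) (w : H), w ≠ 1 ∧
    ∀ (n : ℕ → ℕ) (u : ∀ k, H → Matrix (Fin (n k)) (Fin (n k)) ℂ),
      (∀ k g, u k g ∈ Matrix.unitaryGroup (Fin (n k)) ℂ) →
      (∀ g h, ∀ ε > (0 : ℝ), ∀ᶠ k in atTop,
        (trace ((u k (g * h) - u k g * u k h)ᴴ * (u k (g * h) - u k g * u k h))).re ≤ ε * n k) →
      ∀ ε > (0 : ℝ), ∀ᶠ k in atTop, (trace ((u k w - 1)ᴴ * (u k w - 1))).re ≤ ε * n k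

theorem nh_eps_of (h : S_NH) : S_NHeps := by
  obtain ⟨H, _, _, w, hw, h⟩ := h
  refine ⟨H, inferInstance, inferInstance, w, hw, fun n u hu hm => ?_⟩
  have := h (fun k => Fin (n k)) u ⟨fun k g => ⟨(hu k g).1, (hu k g).2⟩, fun g g' => ?_⟩
  · rw [sm_iff _ fun k => sq_nonneg _] at this
    simpa only [norm_sq_eq_tr, tr, Fintype.card_fin] using this
  · rw [sm_iff _ fun k => sq_nonneg _]
    simpa only [norm_sq_eq_tr, tr, Fintype.card_fin] using hm g g'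

end Pool.Agent.P.MP_7f9919_an.NH
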