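import Pool.Agent.P.MP_7f9919_an.NH.B5

set_option autoImplicit false

namespace Pool.Agent.P.MP_7f9919_an.NH

open Matrix
open scoped MatrixOrder ComplexOrder

namespace ImpAux

variable {n S : Type} [Fintype n] [DecidableEq n]

theorem conj_BW [Fintype S] [DecidableEq (FreeGroup S)] {U : FreeGroup S → Mat n n} (hU : IsRep U)
    (W : Finset (FreeGroup S)) (g : FreeGroup S) :
    (U g)ᴴ * BW U W * U g = BW U (W.image fun w => g⁻¹ * w * g) := by
  unfold BW
  rw [Finset.sum_image (fun a _ b _ h => by simpa using h), Matrix.mul_sum, Matrix.sum_mul]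
  refine Finset.sum_congr rfl fun w _ => ?_
  have e : U (g⁻¹ * w * g) - 1 = (U g)ᴴ * (U w - 1) * U g := by
    rw [hU.mul, hU.mul, hU.inv, Matrix.mul_sub, Matrix.sub_mul, Matrix.mul_one, (hU.uni g).1]
  rw [e]
  simp only [conjTranspose_mul, conjTranspose_conjTranspose, Matrix.mul_assoc]
  rw [← Matrix.mul_assoc (U g) (U g)ᴴ, (hU.uni g).2, Matrix.one_mul]

omit [DecidableEq n] in
theorem avg_nonneg {N : ℕ} (g : Fin N → FreeGroup S) (U : FreeGroup S → Mat n n) {T : Mat n n}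
    (hT : 0 ≤ T) : 0 ≤ avg g U U T :=
  smul_nonneg' (by positivity) (Finset.sum_nonneg fun _ _ => conj_nonneg' hT _)

omit [DecidableEq n] in
theorem tr_mul_avg_le {N : ℕ} (hN : 0 < N) (g : Fin N → FreeGroup S) (U : FreeGroup S → Mat n n)
    (T B : Mat n n) {c : ℝ} (h : ∀ i, tr ((U (g i))ᴴ * B * U (g i) * T) ≤ c) :
    tr (B * avg g U U T) ≤ c := by
  unfold avg
  rw [Matrix.mul_smul, tr_smul, Matrix.mul_sum, tr_sum]
  have h1 : ∑ i, tr (B * (U (g i) * T * (U (g i))ᴴ)) ≤ N * c := by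
    refine (Finset.sum_le_sum (g := fun _ => c) fun i _ => ?_).trans (by simp)
    rw [← Matrix.mul_assoc, tr_mul_comm]
    simpa only [Matrix.mul_assoc] using h i
  have h2 : (0 : ℝ) < N := by exact_mod_cast hN
  rw [inv_mul_le_iff₀ h2]
  exact h1

theorem gt_le {X : Mat n n} (hX : 0 ≤ X) {s : ℝ} (hs : 1 / 4 ≤ s) :
    fc (gtI s) X ≤ (4 : ℝ) • X := by
  have h := herm_of_nonneg hX
  conv_rhs => rw [← fc_id h, ← fc_smul]
  refine fc_le_fc fun x hx => ?_
  have h0 := spec_nonneg hX hx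
  unfold gtI
  split_ifs with h1
  · linarith
  · linarith

theorem num1 {a b K d η σ t C x y : ℝ} (h1 : (1 / 4) ^ 2 * a ≤ b)
    (h2 : b ≤ K * d + η / (32 * σ) * t + C * x) (hx : x ≤ 4 * y) (hσ : 1 ≤ σ) (hη : 0 < η)
    (ht : 0 ≤ t) (hC : 1 ≤ C) (hy : 0 ≤ y) :
    a ≤ 16 * K * d + η * t + 128 * σ * C * y := by
  have e1 : η / (32 * σ) ≤ η / 32 := div_le_div_of_nonneg_left hη.le (by norm_num) (by linarith)
  have e2 : η / (32 * σ) * t ≤ η / 32 * t := mul_le_mul_of_nonneg_right e1 ht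
  have e3 : C * x ≤ C * (4 * y) := mul_le_mul_of_nonneg_left hx (by linarith)
  have e4 : 0 ≤ C * y := mul_nonneg (by linarith) hy
  have e5 : C * y ≤ σ * (C * y) := le_mul_of_one_le_left e4 hσ
  have e6 : 0 ≤ η * t := mul_nonneg hη.le ht
  nlinarith

theorem num2 {a d η σ t C x y : ℝ} (h1 : ((3 / 4 - 1 / 4) * a) ^ 2 ≤ 2 * σ * (4 * t) * d)
    (h2 : d ≤ η / (32 * σ) * t + C * x) (hx : x ≤ 4 * y) (hσ : 1 ≤ σ)
    (ht : 0 ≤ t) (hC : 1 ≤ C) : a ^ 2 ≤ t * (η * t + 128 * σ * C * y) := by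
  have e3 : C * x ≤ C * (4 * y) := mul_le_mul_of_nonneg_left hx (by linarith)
  have e1 : d ≤ η / (32 * σ) * t + C * (4 * y) := by linarith
  have e2 : 32 * σ * t * d ≤ 32 * σ * t * (η / (32 * σ) * t + C * (4 * y)) :=
    mul_le_mul_of_nonneg_left e1 (by positivity)
  have e4 : 32 * σ * t * (η / (32 * σ) * t + C * (4 * y)) = t * (η * t + 128 * σ * C * y) := by
    field_simp
    ring
  nlinarith

end ImpAux

open ImpAux in
theorem imp : S_Imp := by
  intro S _ _ Nr hNr K hT η hη W' hW'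
  classical
  have hσ : (1 : ℝ) ≤ Fintype.card S := by exact_mod_cast Fintype.card_pos
  obtain ⟨N, g, W'', C, hN, hC, hW'', hA⟩ := hT (η / (32 * Fintype.card S)) (by positivity)
  have hW1 : ∀ w ∈ W' ∪ W'', w ∈ Nr := fun w hw =>
    (Finset.mem_union.mp hw).elim (hW' w) (hW'' w)
  refine ⟨W' ∪ W'', (W' ∪ W'') ∪ Finset.univ.biUnion fun i =>
    (W' ∪ W'').image fun w => (g i)⁻¹ * w * g i, 128 * Fintype.card S * C, by nlinarith,
    Finset.subset_union_left, Finset.subset_union_left, ?_, ?_⟩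
  · intro w hw
    rcases Finset.mem_union.mp hw with h | h
    · exact hW1 w h
    · obtain ⟨i, -, h⟩ := Finset.mem_biUnion.mp h
      obtain ⟨v, hv, rfl⟩ := Finset.mem_image.mp h
      exact hNr.conj_mem' v (hW1 v hv) (g i)
  intro n _ _ U hU T hP
  obtain ⟨h1, h2⟩ := hA n n U U hU hU T
  have hX0 := avg_nonneg g U hP.nonneg
  have hXt : tr (avg g U U T) ≤ tr T := by
    have := tr_mul_avg_le hN g U T 1 (c := tr T) fun i => by
      rw [Matrix.mul_one, (hU.uni _).1, Matrix.one_mul]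
    rwa [Matrix.one_mul] at this
  have hB := fun (W : Finset (FreeGroup S)) (c : ℝ) => tr_mul_avg_le hN g U T (BW U W) (c := c)
  obtain ⟨X, hX⟩ : ∃ X, X = avg g U U T := ⟨_, rfl⟩
  rw [← hX] at h1 h2 hX0 hXt hB
  have hXh := herm_of_nonneg hX0
  have hN4 : tr (fc (gtI (1 / 4)) X) ≤ 4 * tr T := by
    have := tr_mono (gt_le hX0 le_rfl)
    rw [tr_smul] at this
    linarith
  obtain ⟨s, hs, hcut⟩ := exists_cut hXh hU.gen_ctr (a := 1 / 4) (b := 3 / 4) (by norm_num) hN4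
  have hround := norm_round_le hXh hP (s0 := 1 / 4) (s := s) (by norm_num) hs.1
    (by linarith [hs.2])
  have hbad : bad U U W'' T ≤ 4 * tr (BW U (W' ∪ W'') * T) := by
    have a1 := bad_proj_le hU W'' hP
    have a2 := tr_mul_le_left (BW_mono U (Finset.subset_union_right (s₁ := W') (s₂ := W'')))
      hP.nonneg
    linarith
  rw [hP.norm_sq] at h1 h2
  refine ⟨fc (gtI s) X, isProj_gtI _ _,
    num1 hround h1 hbad hσ hη hP.tr_nonneg hC (tr_mul_nonneg (BW_nonneg _ _) hP.nonneg),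
    num2 hcut h2 hbad hσ hP.tr_nonneg hC, ?_⟩
  have a1 := tr_mul_le_right (BW_nonneg U (W' ∪ W'')) (gt_le hX0 hs.1)
  rw [Matrix.mul_smul, tr_smul] at a1
  refine a1.trans (mul_le_mul_of_nonneg_left (hB _ _ fun i => ?_) (by norm_num))
  rw [conj_BW hU]
  refine tr_mul_le_left (BW_mono U fun w hw => ?_) hP.nonneg
  exact Finset.mem_union_right _ (Finset.mem_biUnion.mpr ⟨i, Finset.mem_univ _, hw⟩)

end Pool.Agent.P.MP_7f9919_an.NH
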