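import Pool.Agent.P.MP_7f9919_an.NH.B5

set_option autoImplicit false

namespace Pool.Agent.P.MP_7f9919_an.NH

open Matrix
open scoped MatrixOrder ComplexOrder

namespace KeyAux

variable {n S : Type} [Fintype n] [DecidableEq n] [Fintype S]

theorem D_self_mul {u : S → Mat n n} (hu : ∀ s, IsUni (u s)) {y : Mat n n} (hy : Ctr y) :
    D u u (y * yᴴ) ≤ 4 * D u u y := by
  rw [D, D, Finset.mul_sum]
  refine Finset.sum_le_sum fun s _ => ?_
  have e : u s * (y * yᴴ) - y * yᴴ * u s =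
      (u s * y - y * u s) * yᴴ + y * (u s * yᴴ - yᴴ * u s) := by noncomm_ring
  have h1 := norm_add_sq_le ((u s * y - y * u s) * yᴴ) (y * (u s * yᴴ - yᴴ * u s))
  have h2 := hy.adj.mul_norm_sq_le (u s * y - y * u s)
  have h3 := hy.norm_mul_sq_le (u s * yᴴ - yᴴ * u s)
  rw [norm_comm_adj' (hu s) (hu s)] at h3
  rw [e]
  linarith

theorem gtI_le {Y : Mat n n} (hY : 0 ≤ Y) {b s : ℝ} (hb : 0 < b) (hs : b ≤ s) :
    fc (gtI s) Y ≤ b⁻¹ • Y := by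
  have h := fc_smul b⁻¹ (fun x => x) Y
  rw [fc_id (herm_of_nonneg hY)] at h
  rw [← h]
  refine fc_le_fc fun x hx => ?_
  have h0 := spec_nonneg hY hx
  rcases le_or_gt x s with h1 | h1
  · rw [gtI_of_le h1]; positivity
  · rw [gtI_of_lt h1, inv_mul_eq_div, one_le_div hb]; linarith

theorem tail_le {A : Mat n n} (hA : 0 ≤ A) {a t : ℝ} (ha : 0 < a) (ht : 0 < t) (x : Mat n n) :
    ‖(1 - Rle t A) * (rg a A * x)‖ ^ 2 ≤ (a / t) ^ 2 * ‖x‖ ^ 2 := by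
  rw [← Matrix.mul_assoc, one_sub_Rle, rg, ← fc_mul]
  refine norm_mul_sq_le ?_ x
  rw [fc_herm, ← fc_mul]
  refine fc_le_smul_one (herm_of_nonneg hA) fun l hl => ?_
  rcases le_or_gt l t with h1 | h1
  · rw [gtI_of_le h1, zero_mul, zero_mul]; positivity
  · rw [gtI_of_lt h1, one_mul, ← sq]
    have h2 : 0 < l + a := by linarith
    exact pow_le_pow_left₀ (by positivity) (div_le_div_of_nonneg_left ha.le ht (by linarith)) 2

theorem num1 {σ γ ϑ ω v d DY Dy : ℝ} (hσ : 1 ≤ σ) (hγ : 0 < γ) (hϑ : 0 < ϑ) (hv : 0 < v)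
    (hω : ω = γ ^ 2 * ϑ ^ 2 / (2 * σ * 256 ^ 2)) (h1 : ((ϑ / 4 - ϑ / 8) * d) ^ 2 ≤ 2 * σ * v * DY)
    (h2 : DY ≤ 4 * Dy) (h3 : Dy < ω * v) : d ≤ γ / 16 * v := by
  have h4 : 2 * σ * v * DY ≤ 2 * σ * v * (4 * (ω * v)) :=
    mul_le_mul_of_nonneg_left (by linarith) (by positivity)
  have h5 : 2 * σ * v * (4 * (ω * v)) = (ϑ / 8 * (γ / 16 * v)) ^ 2 := by
    rw [hω]; field_simp; ring
  have h6 := le_of_sq_le_sq (h1.trans (h4.trans_eq h5)) (by positivity)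
  rw [show ϑ / 4 - ϑ / 8 = ϑ / 8 by ring] at h6
  exact le_of_mul_le_mul_left h6 (by positivity)

theorem num2 {σ γ ϑ t v e : ℝ} (hσ : 1 ≤ σ) (hγ : 0 < γ) (ht : 0 < t)
    (hϑ : ϑ = γ * t ^ 2 / (4096 * σ)) (h : e ≤ 8 * ((ϑ / 8)⁻¹ * ((ϑ / t) ^ 2 * v))) :
    σ * e ≤ γ * v / 64 := by
  refine (mul_le_mul_of_nonneg_left h (by positivity)).trans_eq ?_
  rw [hϑ]; field_simp; ring

end KeyAux

open KeyAux in
theorem key : S_L12 → S_Key := by
  intro h12 n S _ _ _ _ u A V t γ ϑ ω hu hA hV hV0 ht hγ hγ1 hϑ hω hT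
  have hσ : (1 : ℝ) ≤ Fintype.card S := by exact_mod_cast Fintype.card_pos
  have hϑ0 : 0 < ϑ := by rw [hϑ]; positivity
  by_cases h1 : tr (fc (gtI (ϑ / 4)) (rg ϑ A * V * rg ϑ A)) < tr V / 2
  · exact Or.inl ((h12 n A V ϑ hA hV hϑ0).2.2 h1)
  refine Or.inr (le_of_not_gt fun h2 => ?_)
  have hv := hV.tr_pos hV0
  have hu' : ∀ s, Ctr (u s) := fun s => (hu s).ctr
  have hy : Ctr (rg ϑ A * V) := (rg_ctr hϑ0 hA).mul hV.ctr
  have eY : rg ϑ A * V * (rg ϑ A * V)ᴴ = rg ϑ A * V * rg ϑ A := by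
    rw [conjTranspose_mul, hV.1, rg_herm, ← Matrix.mul_assoc, Matrix.mul_assoc _ V V, hV.2]
  have hD := D_self_mul hu hy
  have hY : 0 ≤ rg ϑ A * V * rg ϑ A := eY ▸ self_mul_adj_nonneg _
  have htail := tail_le hA hϑ0 ht V
  rw [(isProj_Rle t A).compl.mul_norm_sq, hV.norm_sq, tr_mul_comm] at htail
  rw [eY] at hD htail
  have hrk : ∀ s, 0 ≤ s → tr (fc (gtI s) (rg ϑ A * V * rg ϑ A)) ≤ tr V := fun s hs =>
    tr_fc_le_of_factor (herm_of_nonneg hY) (gtI_of_le hs) (gtI_le_one s) hV rfl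
  generalize rg ϑ A * V * rg ϑ A = Y at h1 hD hY htail hrk
  obtain ⟨s, ⟨hs1, hs2⟩, hs⟩ := exists_cut (herm_of_nonneg hY) hu' (a := ϑ / 8) (b := ϑ / 4)
    (by linarith) (hrk _ (by positivity))
  have hd := num1 hσ hγ hϑ0 hv hω hs hD h2
  have hp := isProj_gtI s Y
  have hP1 : tr V / 2 ≤ tr (fc (gtI s) Y) :=
    (not_lt.1 h1).trans (tr_fc_mono fun x _ => gtI_anti hs2 x)
  have hP2 := hrk s (by linarith)
  have hR := tr_mul_le_left (gtI_le hY (by positivity) hs1) (isProj_Rle t A).compl.nonneg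
  rw [Matrix.smul_mul, tr_smul] at hR
  generalize fc (gtI s) Y = p at hd hp hP1 hP2 hR
  obtain ⟨p', hp', hRp, htr, he⟩ := exists_compress hp (isProj_Rle t A)
  have he2 := num2 hσ hγ ht hϑ (he.trans (mul_le_mul_of_nonneg_left
    (hR.trans (mul_le_mul_of_nonneg_left htail (by positivity))) (by norm_num)))
  have h3 := (le_abs_self _).trans (hp.abs_tr_sub_le hp')
  rw [norm_sub_rev] at h3
  have h4 := D_le_of_near hu' hu' p p'
  have h5 : 0 ≤ ‖p' - p‖ ^ 2 := sq_nonneg _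
  generalize ‖p' - p‖ ^ 2 = e at he2 h3 h4 h5
  have h6 : e ≤ tr V / 64 := by nlinarith
  have h7 : tr V / 4 ≤ tr p' := by linarith
  refine absurd (hT p' ⟨hp', ne_zero_of_tr_pos (by linarith), hRp, ?_⟩) (not_lt.2 (htr.trans hP2))
  nlinarith

end Pool.Agent.P.MP_7f9919_an.NH
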