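import Pool.Agent.P.MP_7f9919_an.NH.B5

set_option autoImplicit false

namespace Pool.Agent.P.MP_7f9919_an.NH

open Matrix
open scoped MatrixOrder ComplexOrder

namespace L12Aux

variable {n : Type} [Fintype n] [DecidableEq n] {A V : Mat n n} {a : ℝ}

theorem incr (hA : 0 ≤ A) (hV : IsProj V) (ha : 0 < a) :
    Pot a (A + V) - Pot a A = tr (rg a A - rg a (A + V)) := by
  rw [Pot_eq ha hA, Pot_eq ha (add_nonneg hA hV.nonneg), tr_sub]
  ring

theorem res (hA : 0 ≤ A) (hV : IsProj V) (ha : 0 < a) :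
    a • (rg a A - rg a (A + V)) = rg a A * V * rg a (A + V) := by
  have h1 := rg_mul ha hA
  have h2 := mul_rg ha (add_nonneg hA hV.nonneg)
  generalize rg a A = g at *
  generalize rg a (A + V) = g' at *
  have h3 : g * V * g' = g * ((A + V + a • 1) * g') - g * (A + a • 1) * g' := by noncomm_ring
  rw [h3, h1, h2, smul_sub, Matrix.mul_smul, Matrix.smul_mul, Matrix.mul_one, Matrix.one_mul]

theorem res' (hA : 0 ≤ A) (hV : IsProj V) (ha : 0 < a) :
    a • (rg a A - rg a (A + V)) = rg a (A + V) * V * rg a A := by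
  have := congrArg conjTranspose (res hA hV ha)
  simpa only [conjTranspose_smul, star_trivial, conjTranspose_sub, conjTranspose_mul, rg_herm, hV.1,
    ← Matrix.mul_assoc] using this

theorem norm_gV (hV : IsProj V) : ‖rg a A * V‖ ^ 2 = tr (rg a A * V * rg a A) := by
  rw [norm_sq_eq_tr', conjTranspose_mul, hV.1, rg_herm, ← Matrix.mul_assoc,
    Matrix.mul_assoc _ V V, hV.2]

theorem second (hA : 0 ≤ A) (hV : IsProj V) (ha : 0 < a) :
    a * (a * (Pot a (A + V) - Pot a A)) = a * ‖rg a A * V‖ ^ 2 -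
      tr ((V * rg a A)ᴴ * rg a (A + V) * (V * rg a A)) := by
  rw [incr hA hV ha, norm_gV hV, ← tr_smul, ← tr_smul, ← tr_smul, ← tr_sub, res hA hV ha,
    conjTranspose_mul, hV.1, rg_herm]
  have h := res' hA hV ha
  generalize rg a A = g at *
  generalize rg a (A + V) = g' at *
  congr 1
  rw [Matrix.mul_assoc (g * V) g', ← Matrix.mul_assoc g', ← h, Matrix.mul_smul, Matrix.mul_sub,
    smul_sub, sub_sub_cancel]

theorem lower (hA : 0 ≤ A) (hV : IsProj V) (ha : 0 < a) :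
    ‖rg a A * V‖ ^ 2 / (1 + a) ≤ Pot a (A + V) - Pot a A := by
  have h0 := second hA hV ha
  have h2 := mul_rg ha (add_nonneg hA hV.nonneg)
  have hg := rg_herm a A
  have hg' := rg_herm a (A + V)
  generalize rg a A = g at *
  generalize rg a (A + V) = g' at *
  obtain ⟨X, hX⟩ : ∃ X, X = g' * (V * g) := ⟨_, rfl⟩
  have e1 : Xᴴ * (A + V + a • 1) * X = a • ((V * g)ᴴ * g' * (V * g)) := by
    rw [Matrix.mul_assoc, hX, ← Matrix.mul_assoc _ g', h2, conjTranspose_mul g', hg']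
    simp only [Matrix.smul_mul, Matrix.mul_smul, Matrix.one_mul]
  have e2 : tr (Xᴴ * (A + V + a • 1) * X) = tr (Xᴴ * A * X) + ‖V * X‖ ^ 2 + a * ‖X‖ ^ 2 := by
    rw [norm_mul_sq, hV.1, hV.2, norm_sq_eq_tr, ← tr_smul, ← tr_add, ← tr_add]
    simp only [Matrix.mul_add, Matrix.add_mul, Matrix.smul_mul, Matrix.mul_smul, Matrix.mul_one]
  have e3 : (V * g)ᴴ * g' * (V * g) = (V * g)ᴴ * (V * X) := by
    rw [hX, conjTranspose_mul, hV.1, Matrix.mul_assoc gᴴ V (V * _), ← Matrix.mul_assoc V V, hV.2]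
    simp only [Matrix.mul_assoc]
  have e4 : ‖V * g‖ = ‖g * V‖ := by rw [← norm_adj, conjTranspose_mul, hg, hV.1]
  have h3 := tr_nonneg (conj_nonneg hA X)
  have h4 := hV.ctr.norm_mul_sq_le X
  have h5 := (le_abs_self _).trans (abs_tr_le (V * g) (V * X))
  rw [e1, tr_smul] at e2
  rw [← e3, e4] at h5
  generalize tr ((V * g)ᴴ * g' * (V * g)) = z at *
  generalize Pot a (A + V) - Pot a A = d at *
  generalize ‖g * V‖ = s at *
  generalize ‖V * X‖ = t at *
  have h6 : (1 + a) * t ^ 2 ≤ a * z := by nlinarith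
  have h7 : (1 + a) * z ≤ a * s ^ 2 := by
    have h8 := mul_le_mul_of_nonneg_left h5 (by positivity : 0 ≤ 2 * a * (1 + a))
    have h9 := mul_le_mul_of_nonneg_left h6 (by positivity : 0 ≤ 1 + a)
    refine le_of_mul_le_mul_left ?_ ha
    nlinarith [sq_nonneg ((1 + a) * t - a * s)]
  rw [div_le_iff₀ (by positivity)]
  refine le_of_mul_le_mul_left (le_of_mul_le_mul_left ?_ ha) ha
  have h10 : a * (a * (d * (1 + a))) = (1 + a) * (a * s ^ 2 - z) := by rw [← h0]; ring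
  rw [h10]
  nlinarith

theorem upper1 (hA : 0 ≤ A) (hV : IsProj V) (ha : 0 < a) : Pot a (A + V) - Pot a A ≤ tr V := by
  rw [incr hA hV ha]
  refine tr_le_of_factor (by rw [conjTranspose_sub, rg_herm, rg_herm])
    ((sub_le_self _ (rg_nonneg ha (add_nonneg hA hV.nonneg))).trans (rg_le_one ha hA)) hV
    (y := a⁻¹ • rg a A) (z := rg a (A + V)) ?_
  rw [Matrix.smul_mul, Matrix.smul_mul, ← res hA hV ha, smul_smul, inv_mul_cancel₀ ha.ne', one_smul]

theorem upper2 (hA : 0 ≤ A) (hV : IsProj V) (ha : 0 < a) :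
    a * (Pot a (A + V) - Pot a A) ≤ ‖rg a A * V‖ ^ 2 := by
  have h := tr_nonneg (conj_nonneg (rg_nonneg ha (add_nonneg hA hV.nonneg)) (V * rg a A))
  refine le_of_mul_le_mul_left ?_ ha
  rw [second hA hV ha]
  linarith

theorem upper3 (hA : 0 ≤ A) (hV : IsProj V) (ha : 0 < a)
    (h : tr (fc (gtI (a / 4)) (rg a A * V * rg a A)) < tr V / 2) :
    Pot a (A + V) - Pot a A ≤ 5 / 8 * tr V := by
  have hg := rg_herm a A
  obtain ⟨B, hB⟩ : ∃ B, B = (rg a A * V)ᴴ * (rg a A * V) := ⟨_, rfl⟩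
  have hBh : Bᴴ = B := by rw [hB, conjTranspose_mul, conjTranspose_conjTranspose]
  have h0 : gtI (a / 4) 0 = 0 := gtI_of_le (by positivity)
  have e1 : tr (fc (gtI (a / 4)) B) = tr (fc (gtI (a / 4)) (rg a A * V * rg a A)) := by
    rw [hB, ← tr_fc_transfer _ h0, conjTranspose_mul, hV.1, hg, ← Matrix.mul_assoc,
      Matrix.mul_assoc _ V V, hV.2]
  have e2 : V * fc (gtI (a / 4)) B = fc (gtI (a / 4)) B := hV.mul_fc hBh (by
    rw [hB, conjTranspose_mul, hV.1, ← Matrix.mul_assoc V, ← Matrix.mul_assoc V V, hV.2]) h0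
  have h1 := isProj_gtI (a / 4) B
  have h2 := hV.sub h1 e2
  have h3 := tr_mul_le_of_Rle hBh h2 (t := a / 4) (by
    rw [Rle, Matrix.mul_sub, h1.compl_mul, sub_zero, Matrix.sub_mul, Matrix.one_mul,
      hV.mul_eq_of h1 e2])
  rw [← e1] at h
  generalize fc (gtI (a / 4)) B = V1 at *
  have e3 : V * (V - V1) = V - V1 := by rw [Matrix.mul_sub, hV.2, e2]
  have e4 : tr (B * (V - V1)) = ‖rg a A * (V - V1)‖ ^ 2 := by
    rw [h2.norm_mul_sq, hB, conjTranspose_mul, hV.1, Matrix.mul_assoc, Matrix.mul_assoc _ V, e3,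
      Matrix.mul_assoc, tr_mul_comm]
    simp only [Matrix.mul_assoc, hV.mul_eq_of h2 e3]
  have h4 := upper2 hA h2 ha
  have h5 := upper1 (add_nonneg hA h2.nonneg) h1 ha
  rw [add_assoc, sub_add_cancel] at h5
  rw [e4, tr_sub] at h3
  have h6 : Pot a (A + (V - V1)) - Pot a A ≤ (tr V - tr V1) / 4 :=
    le_of_mul_le_mul_left (by linarith) ha
  linarith

end L12Aux

theorem l12 : S_L12 := fun _ _ _ _ _ _ hA hV ha =>
  ⟨L12Aux.lower hA hV ha, L12Aux.upper1 hA hV ha, L12Aux.upper3 hA hV ha⟩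

end Pool.Agent.P.MP_7f9919_an.NH
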