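import Pool.Agent.P.MP_7f9919_an.NH.B5

set_option autoImplicit false
set_option linter.unusedSectionVars false

namespace Pool.Agent.P.MP_7f9919_an.NH

open Matrix
open scoped MatrixOrder ComplexOrder

namespace L13Aux

variable {m n : Type} [Fintype m] [Fintype n] [DecidableEq n]

/-- the resolvent -/
noncomputable def rh (a : ℝ) (A : Mat n n) : Mat n n := a⁻¹ • rg a A

variable {a : ℝ} {A : Mat n n}

theorem rh_herm : (rh a A)ᴴ = rh a A := by simp [rh, rg_herm]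

theorem rg_eq (ha : 0 < a) : rg a A = a • rh a A := by
  rw [rh, smul_smul, mul_inv_cancel₀ ha.ne', one_smul]

theorem rh_mul (ha : 0 < a) (hA : 0 ≤ A) : rh a A * (A + a • (1 : Mat n n)) = 1 := by
  rw [rh, Matrix.smul_mul, rg_mul ha hA, smul_smul, inv_mul_cancel₀ ha.ne', one_smul]

theorem mul_rh (ha : 0 < a) (hA : 0 ≤ A) : (A + a • (1 : Mat n n)) * rh a A = 1 := by
  rw [rh, Matrix.mul_smul, mul_rg ha hA, smul_smul, inv_mul_cancel₀ ha.ne', one_smul]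

theorem rh_nonneg (ha : 0 < a) (hA : 0 ≤ A) : 0 ≤ rh a A :=
  smul_nonneg' (inv_nonneg.2 ha.le) (rg_nonneg ha hA)

theorem tr_rh_nonneg (ha : 0 < a) (hA : 0 ≤ A) (N : Mat m n) : 0 ≤ tr (N * rh a A * Nᴴ) :=
  tr_nonneg (conj_nonneg' (rh_nonneg ha hA) N)

theorem tr_rh_le (ha : 0 < a) (hA : 0 ≤ A) (N : Mat m n) :
    tr (N * rh a A * Nᴴ) ≤ a⁻¹ * ‖N‖ ^ 2 := by
  have h := tr_mono (conj_le' (smul_le_smul' (inv_nonneg.2 ha.le) (rg_le_one ha hA)) N)
  rwa [Matrix.mul_smul N a⁻¹ (1 : Mat n n), Matrix.mul_one, Matrix.smul_mul, tr_smul,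
    ← norm_sq_eq_tr'] at h

theorem rg_conj_le (ha : 0 < a) (hA : 0 ≤ A) :
    rg a A * A * rg a A ≤ (a / 4) • (1 : Mat n n) := by
  have h := herm_of_nonneg hA
  rw [rg, ← fc_mul_id h, ← fc_mul]
  refine fc_le_smul_one h fun x hx => ?_
  have h0 := spec_nonneg hA hx
  have h1 : a / (x + a) * x * (a / (x + a)) = a * (a * x / (x + a) ^ 2) := by
    field_simp
  rw [h1, div_eq_mul_one_div a 4]
  refine mul_le_mul_of_nonneg_left ?_ ha.le
  rw [div_le_iff₀ (by positivity)]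
  nlinarith [sq_nonneg (x - a)]

theorem rh_conj_le (ha : 0 < a) (hA : 0 ≤ A) :
    rh a A * A * rh a A ≤ (a⁻¹ / 4) • (1 : Mat n n) := by
  have h := smul_le_smul' (c := a⁻¹ * a⁻¹) (by positivity) (rg_conj_le ha hA)
  rw [smul_smul, show a⁻¹ * a⁻¹ * (a / 4) = a⁻¹ / 4 by field_simp] at h
  simpa only [rh, Matrix.smul_mul, Matrix.mul_smul, smul_smul] using h

/-- the variational inequality for the inverse -/
theorem var {P h : Mat n n} (hP : 0 ≤ P) (hh : hᴴ = h) (h1 : h * P = 1) (h2 : P * h = 1)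
    (B : Mat m n) (Y : Mat n m) : 2 * tr (B * Y) - tr (Yᴴ * P * Y) ≤ tr (B * h * Bᴴ) := by
  have h0 := tr_nonneg (conj_nonneg hP (Y - h * Bᴴ))
  have e1 : (Y - h * Bᴴ)ᴴ * P * (Y - h * Bᴴ)
      = Yᴴ * P * Y - (B * Y)ᴴ - B * Y + B * h * Bᴴ := by
    have e2 : Yᴴ * P * (h * Bᴴ) = Yᴴ * Bᴴ := by
      rw [Matrix.mul_assoc, ← Matrix.mul_assoc P, h2, Matrix.one_mul]
    have e3 : B * h * P = B := by rw [Matrix.mul_assoc, h1, Matrix.mul_one]
    rw [conjTranspose_sub, conjTranspose_mul, conjTranspose_conjTranspose, hh, Matrix.sub_mul,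
      e3, Matrix.sub_mul, Matrix.mul_sub, Matrix.mul_sub, e2, conjTranspose_mul,
      Matrix.mul_assoc B h]
    abel
  rw [e1, tr_add, tr_sub, tr_sub, tr_adj] at h0
  linarith

/-- one step of the telescoping estimate -/
theorem tel (ha : 0 < a) (ha1 : a ≤ 1) (hA : 0 ≤ A) {V : Mat n n} (hV : IsProj V)
    (N C : Mat m n) :
    a / 3 * ‖N * rh a A * V‖ ^ 2 + tr ((N + C * V) * rh a (A + V) * (N + C * V)ᴴ)
      ≤ tr (N * rh a A * Nᴴ) + 2 * ‖C‖ ^ 2 := by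
  have hA' : 0 ≤ A + V := add_nonneg hA hV.nonneg
  have hP : 0 ≤ A + a • (1 : Mat n n) := add_nonneg hA (smul_nonneg' ha.le one_nonneg)
  obtain ⟨E, hE⟩ : ∃ E, E = N * rh a A * V := ⟨_, rfl⟩
  obtain ⟨N', hN'⟩ : ∃ N', N' = N + C * V := ⟨_, rfl⟩
  obtain ⟨Y, hY⟩ : ∃ Y, Y = rh a (A + V) * N'ᴴ := ⟨_, rfl⟩
  rw [← hE, ← hN']
  have hEV : E * V = E := by rw [hE, Matrix.mul_assoc, hV.2]
  have e1 : tr (N' * rh a (A + V) * N'ᴴ) = tr (N' * Y) := by rw [hY, Matrix.mul_assoc]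
  have e2 : tr (Yᴴ * (A + a • (1 : Mat n n)) * Y) + ‖V * Y‖ ^ 2 = tr (N' * Y) := by
    rw [norm_mul_sq, hV.1, hV.2, ← tr_add, ← Matrix.add_mul, ← Matrix.mul_add, add_right_comm]
    congr 2
    rw [hY, conjTranspose_mul, conjTranspose_conjTranspose, rh_herm, Matrix.mul_assoc,
      rh_mul ha hA', Matrix.mul_one]
  have e3 : tr (N' * Y) = tr ((N - (a / 3) • E) * Y) + tr ((C + (a / 3) • E) * (V * Y)) := by
    rw [← tr_add, ← Matrix.mul_assoc, ← Matrix.add_mul, Matrix.add_mul C, Matrix.smul_mul, hEV,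
      hN']
    congr 2
    abel
  have h1 := var hP rh_herm (rh_mul ha hA) (mul_rh ha hA) (N - (a / 3) • E) Y
  have h2 := (le_abs_self _).trans (abs_tr_mul_le (C + (a / 3) • E) (V * Y))
  have h3 := norm_add_sq_le C ((a / 3) • E)
  rw [norm_real_smul, mul_pow, sq_abs] at h3
  have e4 : tr (N * rh a A * Eᴴ) = ‖E‖ ^ 2 := by
    rw [norm_sq_eq_tr']
    conv_lhs => rw [← hEV, conjTranspose_mul, hV.1, ← Matrix.mul_assoc, ← hE]
  have e5 : tr (E * rh a A * Nᴴ) = ‖E‖ ^ 2 := by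
    rw [← tr_adj, conjTranspose_mul, conjTranspose_mul, conjTranspose_conjTranspose, rh_herm,
      ← Matrix.mul_assoc, e4]
  have e6 : tr ((N - (a / 3) • E) * rh a A * (N - (a / 3) • E)ᴴ) = tr (N * rh a A * Nᴴ)
      - 2 * (a / 3) * ‖E‖ ^ 2 + (a / 3) ^ 2 * tr (E * rh a A * Eᴴ) := by
    have : ((a / 3) • E)ᴴ = (a / 3) • Eᴴ := by simp
    simp only [conjTranspose_sub, this, Matrix.sub_mul, Matrix.mul_sub, Matrix.smul_mul,
      Matrix.mul_smul, tr_sub, tr_smul, e4, e5]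
    ring
  have h4 : (a / 3) ^ 2 * tr (E * rh a A * Eᴴ) ≤ a / 9 * ‖E‖ ^ 2 := by
    refine (mul_le_mul_of_nonneg_left (tr_rh_le ha hA E) (sq_nonneg _)).trans (le_of_eq ?_)
    field_simp
    ring
  have h5 : (a / 3) ^ 2 * ‖E‖ ^ 2 ≤ a / 9 * ‖E‖ ^ 2 :=
    mul_le_mul_of_nonneg_right (by nlinarith) (sq_nonneg _)
  rw [e6] at h1
  nlinarith [sq_nonneg (‖C + (a / 3) • E‖ - ‖V * Y‖)]

variable {V : ℕ → Mat n n} {J : ℕ}

theorem proj_mono (hV : ∀ l < J, IsProj (V l)) {j : ℕ} (hj : j ≤ J) : ∀ l < j, IsProj (V l) :=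
  fun l hl => hV l (hl.trans_le hj)

theorem tele (ha : 0 < a) (ha1 : a ≤ 1) (hV : ∀ l < J, IsProj (V l)) (N C : ℕ → Mat m n)
    (hN : ∀ j, N (j + 1) = N j + C j * V j) :
    a / 3 * ∑ j ∈ Finset.range J, ‖N j * rh a (ps V j) * V j‖ ^ 2
      + tr (N J * rh a (ps V J) * (N J)ᴴ)
      ≤ tr (N 0 * rh a (ps V 0) * (N 0)ᴴ) + 2 * ∑ j ∈ Finset.range J, ‖C j‖ ^ 2 := by
  induction J with
  | zero => simp
  | succ J ih =>
    have h1 := ih (proj_mono hV (Nat.le_succ J))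
    have h2 := tel ha ha1 (ps_nonneg (proj_mono hV (Nat.le_succ J))) (hV J (Nat.lt_succ_self J))
      (N J) (C J)
    rw [Finset.sum_range_succ, Finset.sum_range_succ, hN, ps_succ]
    linarith

theorem tele_const (ha : 0 < a) (ha1 : a ≤ 1) (hV : ∀ l < J, IsProj (V l)) (E : Mat m n) :
    a ^ 2 * ∑ j ∈ Finset.range J, ‖E * rh a (ps V j) * V j‖ ^ 2 ≤ 3 * ‖E‖ ^ 2 := by
  have h1 := tele ha ha1 hV (fun _ => E) (fun _ => 0) fun j => by simp
  have h2 := tr_rh_nonneg ha (ps_nonneg hV) E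
  have h3 := tr_rh_le ha (ps_nonneg (proj_mono hV (Nat.zero_le J))) E
  simp only [norm_zero, ne_eq, OfNat.ofNat_ne_zero, not_false_eq_true, zero_pow,
    Finset.sum_const_zero, mul_zero, add_zero] at h1
  generalize ∑ j ∈ Finset.range J, ‖E * rh a (ps V j) * V j‖ ^ 2 = s at h1 ⊢
  have h4 : a / 3 * s ≤ a⁻¹ * ‖E‖ ^ 2 := by linarith
  have h5 := mul_le_mul_of_nonneg_left h4 (show 0 ≤ 3 * a by positivity)
  rw [show 3 * a * (a⁻¹ * ‖E‖ ^ 2) = 3 * ‖E‖ ^ 2 by field_simp] at h5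
  linarith

/-- the commutators -/
def cm (u : Mat n n) (V : ℕ → Mat n n) (l : ℕ) : Mat n n := u * V l - V l * u

noncomputable def NN (u : Mat n n) (V : ℕ → Mat n n) (j : ℕ) : Mat n n :=
  ∑ l ∈ Finset.range j, cm u V l * V l

noncomputable def MM (u : Mat n n) (V : ℕ → Mat n n) (j : ℕ) : Mat n n :=
  ∑ l ∈ Finset.range j, V l * cm u V l

theorem comm_ps (hV : ∀ l < J, IsProj (V l)) (u : Mat n n) :
    u * ps V J - ps V J * u = NN u V J + MM u V J := by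
  rw [ps, NN, MM, Matrix.mul_sum, Matrix.sum_mul, ← Finset.sum_sub_distrib,
    ← Finset.sum_add_distrib]
  refine Finset.sum_congr rfl fun l hl => ?_
  have h := (hV l (Finset.mem_range.1 hl)).2
  rw [cm, Matrix.sub_mul, Matrix.mul_sub, Matrix.mul_assoc u, h, ← Matrix.mul_assoc (V l) (V l), h,
    Matrix.mul_assoc]
  abel

theorem comm_rh (ha : 0 < a) (hV : ∀ l < J, IsProj (V l)) (u : Mat n n) :
    u * rh a (ps V J) - rh a (ps V J) * u
      = -(rh a (ps V J) * NN u V J * rh a (ps V J)) - rh a (ps V J) * MM u V J * rh a (ps V J) := by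
  have h1 := rh_mul ha (ps_nonneg hV)
  have h2 := mul_rh ha (ps_nonneg hV)
  have h3 : u * (ps V J + a • (1 : Mat n n)) - (ps V J + a • (1 : Mat n n)) * u
      = NN u V J + MM u V J := by
    rw [← comm_ps hV, Matrix.mul_add, Matrix.add_mul, Matrix.mul_smul, Matrix.smul_mul,
      Matrix.mul_one, Matrix.one_mul]
    abel
  rw [← neg_add', ← Matrix.add_mul, ← Matrix.mul_add, ← h3, Matrix.mul_sub, Matrix.sub_mul,
    ← Matrix.mul_assoc _ _ u, h1, Matrix.one_mul, Matrix.mul_assoc, Matrix.mul_assoc, h2,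
    Matrix.mul_one, neg_sub]

theorem sum_conj (hV : ∀ l < J, IsProj (V l)) {h : Mat n n} (hh : hᴴ = h) :
    ∑ l ∈ Finset.range J, h * V l * (h * V l)ᴴ = h * ps V J * h := by
  rw [ps, Matrix.mul_sum, Matrix.sum_mul]
  refine Finset.sum_congr rfl fun l hl => ?_
  have h1 := hV l (Finset.mem_range.1 hl)
  rw [conjTranspose_mul, hh, h1.1, Matrix.mul_assoc, ← Matrix.mul_assoc (V l), h1.2,
    Matrix.mul_assoc]

theorem part_a (ha : 0 < a) (hV : ∀ l < J, IsProj (V l)) (u : Mat n n) :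
    ‖u * rg a (ps V J) - rg a (ps V J) * u‖ ^ 2 ≤ a⁻¹ * ∑ l ∈ Finset.range J, ‖cm u V l‖ ^ 2 := by
  have hS := ps_nonneg hV
  have hc := (sum_conj hV rh_herm).trans_le (rh_conj_le ha hS)
  have e1 : u * rg a (ps V J) - rg a (ps V J) * u
      = -(rg a (ps V J) * (NN u V J * rh a (ps V J)))
        - rh a (ps V J) * MM u V J * rg a (ps V J) := by
    rw [rg_eq ha, Matrix.mul_smul, Matrix.smul_mul, ← smul_sub, comm_rh ha hV, Matrix.smul_mul,
      Matrix.mul_smul, smul_sub, smul_neg, Matrix.mul_assoc]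
  have h1 := norm_sum_mul_adj_sq_le _ (by positivity) hc (cm u V)
  have h2 := norm_sum_mul_sq_le _ (by positivity) hc (cm u V)
  have e2 : ∑ l ∈ Finset.range J, cm u V l * (rh a (ps V J) * V l)ᴴ = NN u V J * rh a (ps V J) := by
    rw [NN, Matrix.sum_mul]
    refine Finset.sum_congr rfl fun l hl => ?_
    rw [conjTranspose_mul, rh_herm, (hV l (Finset.mem_range.1 hl)).1, Matrix.mul_assoc]
  have e3 : ∑ l ∈ Finset.range J, rh a (ps V J) * V l * cm u V l = rh a (ps V J) * MM u V J := by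
    rw [MM, Matrix.mul_sum]
    exact Finset.sum_congr rfl fun l _ => Matrix.mul_assoc _ _ _
  rw [e2] at h1
  rw [e3] at h2
  have h3 := (rg_ctr ha hS).norm_mul_sq_le (NN u V J * rh a (ps V J))
  have h4 := (rg_ctr ha hS).mul_norm_sq_le (rh a (ps V J) * MM u V J)
  have h5 := norm_sub_sq_le (-(rg a (ps V J) * (NN u V J * rh a (ps V J))))
    (rh a (ps V J) * MM u V J * rg a (ps V J))
  rw [norm_neg] at h5
  rw [e1]
  linarith

theorem step_b (ha : 0 < a) (hV : ∀ l < J, IsProj (V l)) (u : Mat n n) {j : ℕ} (hj : j ≤ J) :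
    ‖u * (rg a (ps V j) * V j) - rg a (ps V j) * V j * u‖ ^ 2
      ≤ 3 * (‖cm u V j‖ ^ 2 + ‖NN u V j * rh a (ps V j) * V j‖ ^ 2
        + a / 4 * ∑ l ∈ Finset.range J, ‖cm u V l * rh a (ps V j) * V j‖ ^ 2) := by
  have hV' := proj_mono hV hj
  have hS := ps_nonneg hV'
  have hc := (sum_conj hV' (rg_herm _ _)).trans_le (rg_conj_le ha hS)
  have e0 : u * rg a (ps V j) - rg a (ps V j) * u
      = -(rg a (ps V j) * NN u V j * rh a (ps V j)) - rg a (ps V j) * MM u V j * rh a (ps V j) := by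
    rw [rg_eq ha, Matrix.mul_smul, Matrix.smul_mul, ← smul_sub, comm_rh ha hV', smul_sub, smul_neg]
    simp only [Matrix.smul_mul]
  have e2 : ∑ l ∈ Finset.range j, rg a (ps V j) * V l * (cm u V l * rh a (ps V j) * V j)
      = rg a (ps V j) * MM u V j * rh a (ps V j) * V j := by
    rw [MM, Matrix.mul_sum, Matrix.sum_mul, Matrix.sum_mul]
    exact Finset.sum_congr rfl fun l _ => by simp only [Matrix.mul_assoc]
  have e1 : u * (rg a (ps V j) * V j) - rg a (ps V j) * V j * u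
      = rg a (ps V j) * cm u V j + -(rg a (ps V j) * (NN u V j * rh a (ps V j) * V j))
        + -(rg a (ps V j) * MM u V j * rh a (ps V j) * V j) := by
    have : u * (rg a (ps V j) * V j) - rg a (ps V j) * V j * u = rg a (ps V j) * cm u V j
        + (u * rg a (ps V j) - rg a (ps V j) * u) * V j := by
      simp only [cm, Matrix.mul_sub, Matrix.sub_mul, Matrix.mul_assoc]
      abel
    rw [this, e0]
    simp only [Matrix.sub_mul, Matrix.neg_mul, Matrix.mul_assoc]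
    abel
  have h1 := norm_sum_mul_sq_le _ (by positivity) hc fun l => cm u V l * rh a (ps V j) * V j
  rw [e2] at h1
  have h2 : ∑ l ∈ Finset.range j, ‖cm u V l * rh a (ps V j) * V j‖ ^ 2
      ≤ ∑ l ∈ Finset.range J, ‖cm u V l * rh a (ps V j) * V j‖ ^ 2 :=
    Finset.sum_le_sum_of_subset_of_nonneg (Finset.range_mono hj) fun _ _ _ => sq_nonneg _
  have h3 := mul_le_mul_of_nonneg_left h2 (show 0 ≤ a / 4 by positivity)
  have h4 := (rg_ctr ha hS).norm_mul_sq_le (cm u V j)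
  have h5 := (rg_ctr ha hS).norm_mul_sq_le (NN u V j * rh a (ps V j) * V j)
  rw [e1]
  refine (norm_add3_sq_le _ _ _).trans ?_
  rw [norm_neg, norm_neg]
  linarith

theorem part_b (ha : 0 < a) (ha1 : a ≤ 1) (hV : ∀ l < J, IsProj (V l)) (u : Mat n n) :
    ∑ j ∈ Finset.range J, ‖u * (rg a (ps V j) * V j) - rg a (ps V j) * V j * u‖ ^ 2
      ≤ 24 / a * ∑ l ∈ Finset.range J, ‖cm u V l‖ ^ 2 := by
  refine (Finset.sum_le_sum fun j hj => step_b ha hV u (Finset.mem_range.1 hj).le).trans ?_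
  rw [← Finset.mul_sum, Finset.sum_add_distrib, Finset.sum_add_distrib, ← Finset.mul_sum,
    Finset.sum_comm]
  have h1 := tele ha ha1 hV (NN u V) (cm u V) fun j => Finset.sum_range_succ _ _
  have h2 := tr_rh_nonneg ha (ps_nonneg hV) (NN u V J)
  have h3 : NN u V 0 = 0 := by simp [NN]
  have h4 := Finset.sum_le_sum fun l (_ : l ∈ Finset.range J) => tele_const ha ha1 hV (cm u V l)
  rw [← Finset.mul_sum, ← Finset.mul_sum] at h4
  have h5 : tr (NN u V 0 * rh a (ps V 0) * (NN u V 0)ᴴ) = 0 := by simp [h3]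
  have h6 : 0 ≤ ∑ l ∈ Finset.range J, ‖cm u V l‖ ^ 2 := by positivity
  rw [h5] at h1
  generalize ∑ l ∈ Finset.range J, ‖cm u V l‖ ^ 2 = s at h1 h4 h6 ⊢
  generalize ∑ j ∈ Finset.range J, ‖NN u V j * rh a (ps V j) * V j‖ ^ 2 = x at h1 ⊢
  generalize ∑ l ∈ Finset.range J, ∑ j ∈ Finset.range J,
    ‖cm u V l * rh a (ps V j) * V j‖ ^ 2 = y at h4 ⊢
  rw [div_mul_eq_mul_div 24, le_div_iff₀ ha]
  nlinarith [mul_le_mul_of_nonneg_right ha1 h6]

end L13Aux

open L13Aux in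
theorem l13 : S_L13 := by
  intro n _ _ V J a hV ha ha1
  refine ⟨part_a ha hV, part_b ha ha1 hV, fun E => ?_⟩
  refine le_trans (le_of_eq ?_) (tele_const ha ha1 hV E)
  rw [Finset.mul_sum]
  refine Finset.sum_congr rfl fun j _ => ?_
  rw [rg_eq ha, Matrix.mul_smul, Matrix.smul_mul, norm_real_smul, mul_pow, sq_abs]

end Pool.Agent.P.MP_7f9919_an.NH
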