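import Pool.Agent.P.MP_7f9919_an.NH.B5

set_option autoImplicit false

namespace Pool.Agent.P.MP_7f9919_an.NH

open Matrix
open scoped MatrixOrder ComplexOrder

namespace LowAux

section abs
variable {E : Type} [NormedAddCommGroup E] [InnerProductSpace ℂ E] [FiniteDimensional ℂ E]
  {ι : Type} [Fintype ι]

/-- the positive operator of a sum of squares -/
noncomputable def Op (L : ι → E →ₗ[ℂ] E) : E →ₗ[ℂ] E := ∑ i, LinearMap.adjoint (L i) ∘ₗ L i

theorem inner_Op (L : ι → E →ₗ[ℂ] E) (x y : E) :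
    inner ℂ x (Op L y) = ∑ i, inner ℂ (L i x) (L i y) := by
  simp only [Op, LinearMap.sum_apply, inner_sum, LinearMap.comp_apply,
    LinearMap.adjoint_inner_right]

theorem Op_symm (L : ι → E →ₗ[ℂ] E) : (Op L).IsSymmetric := by
  intro x y
  rw [inner_Op, ← inner_conj_symm, inner_Op, map_sum]
  exact Finset.sum_congr rfl fun i _ => inner_conj_symm _ _

theorem re_inner_Op (L : ι → E →ₗ[ℂ] E) (y : E) :
    (inner ℂ y (Op L y) : ℂ).re = ∑ i, ‖L i y‖ ^ 2 := by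
  rw [inner_Op, Complex.re_sum]
  exact Finset.sum_congr rfl fun i _ => inner_self_eq_norm_sq (𝕜 := ℂ) (L i y)

theorem exists_low (L : ι → E →ₗ[ℂ] E) (η : ℝ) :
    ∃ (r : ℕ) (x : Fin r → E), Orthonormal ℂ x ∧ (∀ j, ∑ i, ‖L i (x j)‖ ^ 2 ≤ η) ∧
      ∀ y, η * (‖y‖ ^ 2 - ∑ j, ‖(inner ℂ (x j) y : ℂ)‖ ^ 2) ≤ ∑ i, ‖L i y‖ ^ 2 := by
  classical
  have hT := Op_symm L
  obtain ⟨N, hN⟩ : ∃ N, Module.finrank ℂ E = N := ⟨_, rfl⟩
  set b := hT.eigenvectorBasis hN with hb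
  set lam := hT.eigenvalues hN with hlam
  have hev : ∀ k, Op L (b k) = (lam k : ℂ) • b k := fun k => hT.apply_eigenvectorBasis hN k
  have hval : ∀ k, ∑ i, ‖L i (b k)‖ ^ 2 = lam k := by
    intro k
    rw [← re_inner_Op, hev, inner_smul_right, inner_self_eq_norm_sq_to_K, b.orthonormal.1 k]
    simp
  have hpos : ∀ k, 0 ≤ lam k := fun k => by
    rw [← hval]; positivity
  have hform : ∀ y, ∑ i, ‖L i y‖ ^ 2 = ∑ k, lam k * ‖(inner ℂ (b k) y : ℂ)‖ ^ 2 := by
    intro y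
    rw [← re_inner_Op, ← b.sum_inner_mul_inner y (Op L y), Complex.re_sum]
    refine Finset.sum_congr rfl fun k _ => ?_
    rw [← hT (b k) y, hev, inner_smul_left, ← inner_conj_symm y (b k), Complex.conj_ofReal,
      mul_left_comm, Complex.conj_mul', ← Complex.ofReal_pow, ← Complex.ofReal_mul,
      Complex.ofReal_re]
  have hnorm : ∀ y : E, ‖y‖ ^ 2 = ∑ k, ‖(inner ℂ (b k) y : ℂ)‖ ^ 2 := fun y =>
    (b.sum_sq_norm_inner_right y).symm
  let s : Finset (Fin N) := Finset.univ.filter fun k => lam k ≤ η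
  let e : Fin s.card ≃ s := s.equivFin.symm
  refine ⟨s.card, fun j => b (e j), ?_, ?_, ?_⟩
  · exact b.orthonormal.comp (fun j => (e j : Fin N))
      (Subtype.val_injective.comp e.injective)
  · intro j
    rw [hval]
    exact (Finset.mem_filter.mp (e j).2).2
  · intro y
    have h1 : ∑ j, ‖(inner ℂ (b (e j)) y : ℂ)‖ ^ 2 = ∑ k ∈ s, ‖(inner ℂ (b k) y : ℂ)‖ ^ 2 := by
      rw [Equiv.sum_comp e (fun k : s => ‖(inner ℂ (b k) y : ℂ)‖ ^ 2)]
      exact Finset.sum_coe_sort s fun k => ‖(inner ℂ (b k) y : ℂ)‖ ^ 2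
    rw [h1, hnorm, hform, Finset.sum_filter, ← Finset.sum_sub_distrib, Finset.mul_sum]
    refine Finset.sum_le_sum fun k _ => ?_
    have h0 : 0 ≤ ‖(inner ℂ (b k) y : ℂ)‖ ^ 2 := by positivity
    split_ifs with h
    · rw [sub_self, mul_zero]
      exact mul_nonneg (hpos k) h0
    · rw [sub_zero]
      exact mul_le_mul_of_nonneg_right (le_of_lt (not_le.mp h)) h0

end abs

variable {m n S : Type} [Fintype m] [Fintype n] [Fintype S]

/-- the linear map `y ↦ p y - y q` -/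
def cm (p : Mat m m) (q : Mat n n) : Mat m n →ₗ[ℂ] Mat m n where
  toFun y := p * y - y * q
  map_add' x y := by
    rw [Matrix.mul_add, Matrix.add_mul]; abel
  map_smul' c x := by
    rw [Matrix.mul_smul, Matrix.smul_mul, RingHom.id_apply, smul_sub]

theorem cm_apply (p : Mat m m) (q : Mat n n) (y : Mat m n) : cm p q y = p * y - y * q := rfl

theorem D2_eq (u : S → Mat m m) (a : S → Mat n n) (y : Mat m n) :
    D2 u a y = ∑ i : S ⊕ S,
      ‖Sum.elim (fun s => cm (u s) (a s)) (fun s => cm (u s)ᴴ (a s)ᴴ) i y‖ ^ 2 := by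
  rw [Fintype.sum_sum_type, D2, D, D]
  congr 1
  refine Finset.sum_congr rfl fun s _ => ?_
  rw [Sum.elim_inr, cm_apply, ← norm_adj (a s * yᴴ - yᴴ * u s), conjTranspose_sub,
    conjTranspose_mul, conjTranspose_mul, conjTranspose_conjTranspose, norm_sub_rev]

end LowAux

theorem low : S_Low := by
  intro m n S _ _ _ _ _ u a η
  obtain ⟨r, x, h1, h2, h3⟩ := LowAux.exists_low
    (Sum.elim (fun s => LowAux.cm (u s) (a s)) (fun s => LowAux.cm (u s)ᴴ (a s)ᴴ)) η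
  refine ⟨r, x, h1, fun j => ?_, fun y => ?_⟩
  · rw [LowAux.D2_eq]; exact h2 j
  · rw [LowAux.D2_eq]; exact h3 y

end Pool.Agent.P.MP_7f9919_an.NH
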