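import Pool.Agent.P.MP_7f9919_an.NH.B5

set_option autoImplicit false
set_option linter.unusedSectionVars false

namespace Pool.Agent.P.MP_7f9919_an.NH

open Matrix
open scoped MatrixOrder ComplexOrder

namespace MassAux

variable {n S : Type} [Fintype n] [DecidableEq n] [Fintype S]

theorem heavy (V : ℕ → Mat n n) (P : ℕ → Prop) [DecidablePred P] (t : ℝ) (J : ℕ)
    (hV : ∀ l < J + 1, IsProj (V l))
    (h : ∀ j < J, P j → tr (ps V (j + 1) * V (j + 1)) ≤ t * tr (V (j + 1))) :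
    0 ≤ (∑ j ∈ Finset.range J, if P j then V (j + 1) else 0) ∧
    (∑ j ∈ Finset.range J, if P j then V (j + 1) else 0) ≤ ps V (J + 1) ∧
    ‖∑ j ∈ Finset.range J, if P j then V (j + 1) else 0‖ ^ 2 ≤
      (1 + 2 * t) * ∑ j ∈ Finset.range J, if P j then tr (V (j + 1)) else 0 := by
  induction J with
  | zero => simpa using ps_nonneg hV
  | succ J ih =>
    obtain ⟨h0, h1, h2⟩ := ih (fun l hl => hV l (by omega)) fun j hj => h j (by omega)
    have hW := hV (J + 1) (by omega)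
    rw [Finset.sum_range_succ, Finset.sum_range_succ, ps_succ V (J + 1)]
    generalize (∑ j ∈ Finset.range J, if P j then V (j + 1) else 0) = X at h0 h1 h2
    by_cases hP : P J
    · simp only [if_pos hP]
      refine ⟨add_nonneg h0 hW.nonneg, add_le_add h1 le_rfl, ?_⟩
      have h3 := tr_mul_le_left h1 hW.nonneg
      have h4 := h J (by omega) hP
      rw [norm_add_sq, herm_of_nonneg h0, hW.norm_sq]
      linarith
    · simp only [if_neg hP, add_zero]
      exact ⟨h0, h1.trans (le_add_of_nonneg_right hW.nonneg), h2⟩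

theorem heavy_num {β M Λ ε N b x y : ℝ} (hβ : 0 < β) (hM : 0 ≤ M) (hK : 0 ≤ Λ * ε * N)
    (hx : 0 ≤ x) (hy : 0 ≤ y) (h1 : β * M ≤ b) (h2 : b ≤ x * y) (h3 : x ^ 2 ≤ Λ * ε * N)
    (h4 : y ^ 2 ≤ 2 * M) : M ≤ 2 * Λ * ε / β ^ 2 * N := by
  rw [div_mul_eq_mul_div, le_div_iff₀ (by positivity)]
  rcases hM.eq_or_lt with h0 | h0
  · rw [← h0]; linarith
  · have h5 : (β * M) ^ 2 ≤ (x * y) ^ 2 := pow_le_pow_left₀ (by positivity) (h1.trans h2) 2
    have h6 : x ^ 2 * y ^ 2 ≤ Λ * ε * N * (2 * M) := mul_le_mul h3 h4 (sq_nonneg _) hK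
    have h7 : M * (M * β ^ 2) ≤ M * (2 * Λ * ε * N) := by nlinarith
    exact le_of_mul_le_mul_left h7 h0

theorem rg_sq_ge {a : ℝ} (ha : 0 < a) {A : Mat n n} (hA : 0 ≤ A) :
    ((100 / 101 : ℝ) ^ 2) • Rle (a / 100) A ≤ rg a A * rg a A := by
  rw [Rle_eq (herm_of_nonneg hA), ← fc_smul, rg, ← fc_mul]
  refine fc_le_fc fun x hx => ?_
  have h0 := spec_nonneg hA hx
  by_cases h : a / 100 < x
  · rw [gtI_of_lt h]
    have : 0 ≤ a / (x + a) := by positivity
    nlinarith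
  · rw [gtI_of_le (not_lt.mp h)]
    have : 100 / 101 ≤ a / (x + a) := by
      rw [le_div_iff₀ (by positivity)]
      linarith [not_lt.mp h]
    nlinarith

theorem low {a : ℝ} (ha : 0 < a) (ha' : a ≤ 1 / 400) {A W : Mat n n} (hA : 0 ≤ A) (hW : IsProj W)
    (h : tr (W * (1 - Rle (a / 100) A)) ≤ tr W / 40) :
    9 / 10 * tr W ≤ ‖rg a A * W‖ ^ 2 / (1 + a) := by
  have h1 := tr_mul_le_left (rg_sq_ge ha hA) hW.nonneg
  rw [Matrix.smul_mul, tr_smul, tr_mul_comm] at h1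
  rw [Matrix.mul_sub, Matrix.mul_one, tr_sub] at h
  rw [hW.norm_mul_sq, rg_herm, le_div_iff₀ (by positivity)]
  have h2 := hW.tr_nonneg
  nlinarith

theorem final {α a N M Mh X Y DD e k γ δ μ T0 Pa Pt : ℝ} (hα : 0 < α) (hα1 : α ≤ 1)
    (ha : a = α / 400) (hN : 0 ≤ N) (hM : 0 ≤ M) (hk : 0 < k) (hγ : 0 < γ) (hδ : 0 < δ)
    (h1 : 6 * δ * k ≤ α / 400) (h2 : (1 / 4 + 6 * γ * k) * μ ≤ α / 400) (h3 : γ * μ ≤ δ)
    (he : e ≤ α * N / 500000) (hh : Mh ≤ μ * N) (hX : X ≤ 3600 * e) (hY : Y ≤ 24 * k * DD)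
    (hD : DD ≤ δ * N + δ * M + γ * Mh) (lo : T0 - a * N + 9 / 10 * M ≤ Pa) (mid : Pa ≤ Pt)
    (hi : Pt ≤ T0 + 3 / 4 * M + (Mh + X + Y) / 4) :
    M ≤ α * N / 10 ∧ DD ≤ 3 * δ * N := by
  have a1 : 6 * k * DD ≤ 6 * k * (δ * N + δ * M + γ * Mh) :=
    mul_le_mul_of_nonneg_left hD (by positivity)
  have a2 : 6 * δ * k * N ≤ α / 400 * N := mul_le_mul_of_nonneg_right h1 hN
  have a3 : 6 * δ * k * M ≤ 1 / 400 * M := mul_le_mul_of_nonneg_right (by linarith) hM
  have a4 : (1 / 4 + 6 * γ * k) * Mh ≤ (1 / 4 + 6 * γ * k) * (μ * N) :=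
    mul_le_mul_of_nonneg_left hh (by positivity)
  have a5 : (1 / 4 + 6 * γ * k) * μ * N ≤ α / 400 * N := mul_le_mul_of_nonneg_right h2 hN
  have a6 : 0 ≤ α * N := by positivity
  have hM' : M ≤ α * N / 10 := by
    subst ha
    nlinarith
  refine ⟨hM', ?_⟩
  have b1 : α * N ≤ 1 * N := mul_le_mul_of_nonneg_right hα1 hN
  have b2 : δ * M ≤ δ * N := mul_le_mul_of_nonneg_left (by linarith) hδ.le
  have b3 : γ * Mh ≤ γ * (μ * N) := mul_le_mul_of_nonneg_left hh hγ.le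
  have b4 : γ * μ * N ≤ δ * N := mul_le_mul_of_nonneg_right h3 hN
  nlinarith

theorem tel (c : ℝ) (V : ℕ → Mat n n) (J : ℕ) :
    ∑ j ∈ Finset.range J, (Pot c (ps V (j + 1) + V (j + 1)) - Pot c (ps V (j + 1))) =
      Pot c (ps V (J + 1)) - Pot c (V 0) := by
  simp only [← ps_succ]
  rw [Finset.sum_range_sub (fun j => Pot c (ps V (j + 1))), ps_succ V 0, ps_zero, zero_add]

theorem shift_le {f : ℕ → ℝ} (h : 0 ≤ f 0) (J : ℕ) :
    ∑ j ∈ Finset.range J, f (j + 1) ≤ ∑ j ∈ Finset.range (J + 1), f j := by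
  rw [Finset.sum_range_succ']; linarith

end MassAux

open MassAux in
theorem mass : S_L12 → S_L13 → S_Key → S_Mass := by
  intro h12 h13 hKey n S _ _ _ _ u B E V J α a γ ϑ ω δ β Λ ε μ hu hB hBΛ hBε hα hα1 ha hγ hγ1
    hϑ hω hδ hδ1 hβ hΛ hε hμ hμ1 hμ2 hE hV0 hD0 hst
  classical
  have hσ : (1 : ℝ) ≤ Fintype.card S := by exact_mod_cast Fintype.card_pos
  have ha0 : 0 < a := by rw [ha]; positivity
  have ha1 : a ≤ 1 / 400 := by rw [ha]; linarith
  have hϑ0 : 0 < ϑ := by rw [hϑ]; positivity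
  have hω0 : 0 < ω := by rw [hω]; positivity
  have hϑa : ϑ ≤ a := by
    rw [hϑ, div_le_iff₀ (by positivity)]
    have : γ * (a / 100) ^ 2 ≤ 1 * (a / 100) ^ 2 := mul_le_mul_of_nonneg_right hγ1 (sq_nonneg _)
    nlinarith
  have hV : ∀ l < J + 1, IsProj (V l) := fun l hl => by
    cases l with
    | zero => exact hV0
    | succ l => exact (hst l (by omega)).1
  have hA : ∀ j ≤ J, 0 ≤ ps V (j + 1) := fun j hj => ps_nonneg fun l hl => hV l (by omega)
  have hN : (0 : ℝ) ≤ Fintype.card n := by positivity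
  obtain ⟨P, hP⟩ : ∃ P : ℕ → Prop, ∀ j, P j ↔ (Rle (a / 100) (ps V (j + 1)) * V (j + 1) =
      V (j + 1) ∧ D u u (V (j + 1)) ≤ γ * tr (V (j + 1)) ∧
      β * tr (V (j + 1)) ≤ tr (B * V (j + 1))) := ⟨_, fun _ => Iff.rfl⟩
  -- heavy mass
  obtain ⟨-, -, hX⟩ := heavy V P (a / 100) J hV fun j hj h =>
    tr_mul_le_of_Rle (herm_of_nonneg (hA j hj.le)) (hV _ (by omega)) ((hP j).1 h).1
  have hMh0 : 0 ≤ ∑ j ∈ Finset.range J, if P j then tr (V (j + 1)) else 0 :=
    Finset.sum_nonneg fun j hj => by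
      split_ifs
      · exact (hV _ (by simpa using hj)).tr_nonneg
      · exact le_rfl
  have hh : (∑ j ∈ Finset.range J, if P j then tr (V (j + 1)) else 0) ≤ μ * Fintype.card n := by
    rw [hμ]
    refine heavy_num (b := tr (B * ∑ j ∈ Finset.range J, if P j then V (j + 1) else 0))
      hβ hMh0 (by positivity) (norm_nonneg B) (norm_nonneg _) ?_
      ((le_abs_self _).trans (abs_tr_mul_le _ _)) ?_ (hX.trans ?_)
    · rw [Finset.mul_sum, Matrix.mul_sum, tr_sum]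
      refine Finset.sum_le_sum fun j _ => ?_
      split_ifs with h
      · exact ((hP j).1 h).2.2
      · simp
    · have h1 := tr_mul_le_left hBΛ hB
      rw [Matrix.smul_mul, Matrix.one_mul, tr_smul] at h1
      rw [norm_sq_eq_tr, herm_of_nonneg hB, mul_assoc]
      exact h1.trans (mul_le_mul_of_nonneg_left hBε hΛ.le)
    · exact mul_le_mul_of_nonneg_right (by linarith) hMh0
  -- type 3
  have h3 : ∑ j ∈ Finset.range J, 1200 * ‖E * rg a (ps V (j + 1)) * V (j + 1)‖ ^ 2 ≤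
      3600 * ‖E‖ ^ 2 := by
    have h1 := (h13 n V (J + 1) a hV ha0 (by linarith)).2.2 E
    have h2 := shift_le (f := fun j => ‖E * rg a (ps V j) * V j‖ ^ 2) (sq_nonneg _) J
    rw [← Finset.mul_sum]
    linarith
  -- type ii
  have h2 : ∑ j ∈ Finset.range J, ω⁻¹ * D u u (rg ϑ (ps V (j + 1)) * V (j + 1)) ≤
      24 * (ϑ * ω)⁻¹ * ∑ l ∈ Finset.range (J + 1), D u u (V l) := by
    have h1 : ∑ j ∈ Finset.range (J + 1), D u u (rg ϑ (ps V j) * V j) ≤
        24 / ϑ * ∑ l ∈ Finset.range (J + 1), D u u (V l) := by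
      unfold D
      rw [Finset.sum_comm, Finset.sum_comm (s := Finset.range (J + 1)), Finset.mul_sum]
      exact Finset.sum_le_sum fun s _ => (h13 n V (J + 1) ϑ hV hϑ0 (by linarith)).2.1 (u s)
    have h2 := shift_le (f := fun j => D u u (rg ϑ (ps V j) * V j)) (D_nonneg _ _ _) J
    rw [← Finset.mul_sum]
    refine (mul_le_mul_of_nonneg_left (h2.trans h1) (inv_pos.2 hω0).le).trans (le_of_eq ?_)
    field_simp
  -- defects
  have hD : ∑ l ∈ Finset.range (J + 1), D u u (V l) ≤ δ * Fintype.card n +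
      δ * ∑ j ∈ Finset.range J, tr (V (j + 1)) +
      γ * ∑ j ∈ Finset.range J, if P j then tr (V (j + 1)) else 0 := by
    rw [Finset.sum_range_succ', Finset.mul_sum, Finset.mul_sum, add_assoc,
      ← Finset.sum_add_distrib, add_comm]
    refine add_le_add hD0 (Finset.sum_le_sum fun j hj => ?_)
    have hj' := Finset.mem_range.1 hj
    have h0 : 0 ≤ δ * tr (V (j + 1)) := mul_nonneg hδ.le (hV _ (by omega)).tr_nonneg
    split_ifs with h
    · linarith [((hP j).1 h).2.1]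
    · rcases (hst j hj').2.2.2 with h' | h' | h'
      · exact absurd ((hP j).2 h') h
      · linarith [h'.1]
      · linarith [h'.1]
  -- lower potential
  have lo : tr (V 0) - a * Fintype.card n + 9 / 10 * ∑ j ∈ Finset.range J, tr (V (j + 1)) ≤
      Pot a (ps V (J + 1)) := by
    have h1 : ∑ j ∈ Finset.range J, 9 / 10 * tr (V (j + 1)) ≤ _ :=
      (Finset.sum_le_sum fun j hj => by
        have hj' := Finset.mem_range.1 hj
        exact (low ha0 ha1 (hA j hj'.le) (hst j hj').1 (hst j hj').2.2.1).trans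
          (h12 n _ _ a (hA j hj'.le) (hst j hj').1 ha0).1).trans_eq (tel a V J)
    have h4 := (h12 n 0 (V 0) a le_rfl hV0 ha0).1
    rw [rg_zero ha0, Matrix.one_mul, hV0.norm_sq, zero_add, Pot_zero, sub_zero,
      div_le_iff₀ (by positivity)] at h4
    have h5 := hV0.tr_le
    have h6 : tr (V 0) - a * Fintype.card n ≤ Pot a (V 0) := by
      refine le_of_mul_le_mul_right (le_trans ?_ h4) (show 0 < 1 + a by positivity)
      have : 0 ≤ a * a * Fintype.card n := by positivity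
      nlinarith
    rw [← Finset.mul_sum] at h1
    linarith
  -- upper potential
  have hi : Pot ϑ (ps V (J + 1)) ≤ tr (V 0) + 3 / 4 * ∑ j ∈ Finset.range J, tr (V (j + 1)) +
      ((∑ j ∈ Finset.range J, if P j then tr (V (j + 1)) else 0) +
        ∑ j ∈ Finset.range J, 1200 * ‖E * rg a (ps V (j + 1)) * V (j + 1)‖ ^ 2 +
        ∑ j ∈ Finset.range J, ω⁻¹ * D u u (rg ϑ (ps V (j + 1)) * V (j + 1))) / 4 := by
    have h4 := (h12 n 0 (V 0) ϑ le_rfl hV0 hϑ0).2.1
    rw [zero_add, Pot_zero, sub_zero] at h4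
    have h1 := (tel ϑ V J).symm.trans_le (Finset.sum_le_sum
      (g := fun j => 3 / 4 * tr (V (j + 1)) + ((if P j then tr (V (j + 1)) else 0) +
        1200 * ‖E * rg a (ps V (j + 1)) * V (j + 1)‖ ^ 2 +
        ω⁻¹ * D u u (rg ϑ (ps V (j + 1)) * V (j + 1))) / 4) fun j hj => by
      have hj' := Finset.mem_range.1 hj
      obtain ⟨hW, hW0, -, hc⟩ := hst j hj'
      have e0 := hW.tr_nonneg
      have e1 := (h12 n _ _ ϑ (hA j hj'.le) hW hϑ0).2.1
      have e2 : 0 ≤ 1200 * ‖E * rg a (ps V (j + 1)) * V (j + 1)‖ ^ 2 := by positivity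
      have e3 : 0 ≤ ω⁻¹ * D u u (rg ϑ (ps V (j + 1)) * V (j + 1)) :=
        mul_nonneg (inv_pos.2 hω0).le (D_nonneg _ _ _)
      have e4 : 0 ≤ if P j then tr (V (j + 1)) else 0 := by
        split_ifs
        · exact e0
        · exact le_rfl
      rcases hc with h' | h' | h'
      · rw [if_pos ((hP j).2 h')]
        linarith
      · linarith [h'.2]
      · rcases hKey n S u _ _ (a / 100) γ ϑ ω hu (hA j hj'.le) hW hW0 (by positivity) hγ hγ1
          hϑ hω h'.2 with h5 | h5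
        · linarith
        · have := (le_inv_mul_iff₀ hω0).2 h5
          linarith)
    rw [Finset.sum_add_distrib, ← Finset.sum_div, Finset.sum_add_distrib, Finset.sum_add_distrib,
      ← Finset.mul_sum] at h1
    linarith
  refine final hα hα1 ha hN
    (Finset.sum_nonneg fun j hj => (hV _ (by simpa using hj)).tr_nonneg)
    (inv_pos.2 (mul_pos hϑ0 hω0)) hγ hδ ?_ ?_ hμ2 hE hh h3 h2 hD lo
    (Pot_anti hϑ0 hϑa (hA J le_rfl)) hi
  · rw [← div_eq_mul_inv, div_le_iff₀ (mul_pos hϑ0 hω0)]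
    linarith
  · rwa [← div_eq_mul_inv]

end Pool.Agent.P.MP_7f9919_an.NH
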