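import Pool.Agent.P.MP_7f9919_an.NH.B5

set_option autoImplicit false

namespace Pool.Agent.P.MP_7f9919_an.NH

open Matrix
open scoped MatrixOrder ComplexOrder

namespace NewAux

variable {k n S : Type} [Fintype k] [Fintype n] [Fintype S] [DecidableEq k] [DecidableEq n]

theorem norm_conj {x : Mat n k} (hx : xᴴ * x = 1) (y : Mat k k) : ‖x * y * xᴴ‖ = ‖y‖ := by
  rw [norm_mul_coisom (by simpa using hx), norm_isom_mul hx]

theorem ed_conj {x : Mat n k} (hx : xᴴ * x = 1) (u : S → Mat n n) (p q : Mat k k) :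
    ed u (x * p * xᴴ) (x * q * xᴴ) = ed (fun s => xᴴ * u s * x) p q := by
  refine Finset.sum_congr rfl fun s _ => ?_
  rw [← norm_conj hx (p * _ * q), ← norm_conj hx (q * _ * p)]
  simp only [Matrix.mul_assoc]

theorem D2_isom {x : Mat n k} (hx : xᴴ * x = 1) (u : S → Mat n n) :
    D2 u (fun s => xᴴ * u s * x) x = D u u (x * xᴴ) := by
  have hp : IsProj (x * xᴴ) := by simpa using isProj_one.conj_isom hx
  rw [D_proj hp, D2, D, D, ed, ← Finset.sum_add_distrib]
  refine Finset.sum_congr rfl fun s _ => ?_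
  have h1 : (1 - x * xᴴ) * u s * (x * xᴴ) = (u s * x - x * (xᴴ * u s * x)) * xᴴ := by
    simp only [Matrix.sub_mul, Matrix.one_mul, Matrix.mul_assoc]
  have h2 : x * xᴴ * u s * (1 - x * xᴴ) = x * -(xᴴ * u s * x * xᴴ - xᴴ * u s) := by
    simp only [neg_sub, Matrix.mul_sub, Matrix.mul_one, Matrix.mul_assoc]
  rw [h1, h2, norm_isom_mul hx, norm_mul_coisom (x := xᴴ) (by simpa using hx), norm_neg, add_comm]

theorem sum_le_D {p : Mat n n} (hp : IsProj p) (u : S → Mat n n) :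
    ∑ s, ‖(1 - p) * u s * p‖ ^ 2 ≤ D u u p := by
  rw [D_proj hp]
  exact Finset.sum_le_sum fun s _ => le_add_of_nonneg_left (sq_nonneg _)

theorem sum_sub_one_le {x : Mat n k} (hx : xᴴ * x = 1) (U : FreeGroup S → Mat n n)
    (v : FreeGroup S → Mat k k) (W : Finset (FreeGroup S)) :
    ∑ w ∈ W, ‖v w - 1‖ ^ 2 ≤ 2 * tr (BW U W * (x * xᴴ)) + 2 * bad U v W x := by
  rw [tr_BW_mul, bad, Finset.mul_sum, Finset.mul_sum, ← Finset.sum_add_distrib]
  refine Finset.sum_le_sum fun w _ => ?_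
  have h : x * (v w - 1) = (U w - 1) * x - (U w * x - x * v w) := by
    simp only [Matrix.mul_sub, Matrix.sub_mul, Matrix.mul_one, Matrix.one_mul]
    abel
  rw [← norm_isom_mul hx, h]
  exact norm_sub_sq_le _ _

end NewAux

open NewAux in
theorem newType (hC : S_Cheeger) : S_New := by
  intro n S _ _ _ _ U B1 P0 r W γ1 ζ β1 ζ0 β0 L hU hB ⟨hr, hr0, h1, h2, h3, _⟩ hγ hW hL hζ hLζ hβ
  obtain ⟨d, hd⟩ := hr.exists_nat
  obtain ⟨x, hx, hxr⟩ := hr.exists_isom hd
  have hd1 : (1 : ℝ) ≤ d := hd ▸ hr.one_le_tr hr0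
  have hxc : Ctr x := le_of_eq hx
  have hb : ∀ s, Ctr (xᴴ * gen U s * x) := fun s => (hxc.adj.mul (hU.gen_ctr s)).mul hxc
  choose v hv hv1 hv2 using fun s => exists_transport_isom hx (hU.gen_uni s)
  obtain ⟨V, hV, rfl⟩ := exists_isRep hv
  have h4 := sum_le_D hr (gen U)
  rw [hxr] at hv1 hv2
  rw [hd] at h2 h3
  refine ⟨d, x, hd, hx, hxr, ⟨?_, hb, hC _ S _ γ1 hb hγ fun q hq hq2 => ?_, V, hV, ?_, ?_⟩,
    hxr ▸ D2_isom hx _⟩
  · rw [Fintype.card_fin]
    exact_mod_cast zero_lt_one.trans_le hd1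
  · have e1 : tr (x * q * xᴴ) = tr q := by rw [tr_cycle, hx, Matrix.one_mul]
    have e2 : r - x * q * xᴴ = x * (1 - q) * xᴴ := by
      rw [Matrix.mul_sub, Matrix.sub_mul, Matrix.mul_one, hxr]
    have := h1 _ (hq.conj_isom hx) (by
      rw [← hxr, Matrix.mul_assoc x xᴴ, ← Matrix.mul_assoc xᴴ, ← Matrix.mul_assoc xᴴ, hx,
        Matrix.one_mul, Matrix.mul_assoc]) (by rw [e1, hd]; simpa using hq2)
    rwa [e1, e2, ed_conj hx, ← D_proj hq] at this
  · rw [Fintype.card_fin]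
    have := Finset.sum_le_sum fun s (_ : s ∈ Finset.univ) => hv1 s
    nlinarith
  · rw [Fintype.card_fin]
    have a1 := sum_sub_one_le hx U V W
    have a2 := hW _ _ U V hU hV x
    have a3 : D (gen U) (gen V) x ≤ 4 * (ζ * d) := by
      have := Finset.sum_le_sum fun s (_ : s ∈ Finset.univ) => hv2 s
      rw [← Finset.mul_sum] at this
      unfold D
      linarith
    have a4 := tr_mul_le_left hB hr.nonneg
    rw [hxr] at a1
    have a5 := mul_le_mul_of_nonneg_left a3 hL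
    nlinarith

end Pool.Agent.P.MP_7f9919_an.NH
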