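import Pool.Agent.P.MP_7f9919_an.NH.B5

set_option autoImplicit false
set_option linter.unusedSectionVars false

namespace Pool.Agent.P.MP_7f9919_an.NH

open Matrix
open scoped MatrixOrder ComplexOrder

namespace PreAux

variable {k n S : Type} [Fintype k] [Fintype n] [Fintype S] [DecidableEq k] [DecidableEq n]

/-- orthogonal decomposition of a Hermitian matrix along the commutant -/
theorem exists_split (a : S → Mat k k) {R : Mat k k} (hR : Rᴴ = R) :
    ∃ b ∈ Com a, ∃ e : Mat k k, bᴴ = b ∧ eᴴ = e ∧ R = b + e ∧ ∀ w ∈ Com a, trace (w * e) = 0 := by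
  obtain ⟨b, hb, e, he, h⟩ := (Com a).exists_add_mem_mem_orthogonal R
  have h1 : ∀ w ∈ Com a, trace (w * e) = 0 := fun w hw => by
    have := (Submodule.mem_orthogonal _ _).mp he _ (adj_mem_Com hw)
    rwa [inner_def, conjTranspose_conjTranspose] at this
  have h2 : ∀ w ∈ Com a, trace (w * eᴴ) = 0 := fun w hw => by
    have := congrArg star (h1 _ (adj_mem_Com hw))
    rwa [← trace_conjTranspose, conjTranspose_mul, conjTranspose_conjTranspose, trace_mul_comm,
      star_zero] at this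
  have h3 : b - bᴴ = eᴴ - e := by
    have := congrArg conjTranspose h
    rw [hR, conjTranspose_add, h] at this
    rw [sub_eq_sub_iff_add_eq_add, this, add_comm]
  have h4 : b - bᴴ = 0 := by
    have hm : (b - bᴴ)ᴴ ∈ Com a := adj_mem_Com (sub_mem hb (adj_mem_Com hb))
    have : ‖b - bᴴ‖ ^ 2 = 0 := by
      rw [norm_sq_eq_tr]
      generalize (b - bᴴ)ᴴ = w at hm
      rw [h3, Matrix.mul_sub, tr, trace_sub, h1 w hm, h2 w hm]
      simp
    simpa using this
  exact ⟨b, hb, e, (sub_eq_zero.mp h4).symm, sub_eq_zero.mp (h3 ▸ h4), h, h1⟩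

/-- (S4), in terms of the distance to the commutant -/
theorem norm_sub_one_le (a : S → Mat k k) {R b0 : Mat k k} (hR : 0 ≤ R) (hb0 : b0 ∈ Com a)
    (ht : ∀ b ∈ Com a, trace (b * (R * R)) = trace b) : ‖R - 1‖ ^ 2 ≤ 4 * ‖R - b0‖ ^ 2 := by
  obtain ⟨b, hb, e, hbh, heh, h, ho⟩ := exists_split a (herm_of_nonneg hR)
  have h1 : ‖e‖ ^ 2 ≤ ‖R - b0‖ ^ 2 := by
    have e1 : R - b0 = (b - b0) + e := by rw [h]; abel
    rw [e1, norm_add_sq, tr, ho _ (adj_mem_Com (sub_mem hb hb0))]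
    simp only [Complex.zero_re, mul_zero, add_zero]
    nlinarith [sq_nonneg ‖b - b0‖]
  have h2 : ‖R - fc (fun x => |x|) b‖ ^ 2 ≤ ‖e‖ ^ 2 := by
    have := norm_fc_sub_le (herm_of_nonneg hR) hbh (f := fun x => x) (g := fun x => |x|) (c := 1)
      fun x hx z _ => by
        have h0 := spec_nonneg hR hx
        nlinarith [sq_abs z, le_abs_self z]
    rwa [fc_id (herm_of_nonneg hR), one_mul, show R - b = e by rw [h]; abel] at this
  have h3 : ‖fc (fun x => |x|) b - 1‖ ^ 2 ≤ ‖e‖ ^ 2 := by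
    let φ : ℝ → ℝ := fun x => if x * x ≤ 1 then 1 else -1
    have hs : fc φ b ∈ Com a := fc_mem_Com hb hbh φ
    have hs1 : fc φ b ≤ 1 := fc_le_one hbh fun x _ => by
      simp only [φ]; split_ifs <;> norm_num
    have e1 : tr (fc φ b) = tr (fc φ b * b * b) + tr (fc φ b * (e * e)) := by
      have e2 := ht _ hs
      have e3 := ho _ (mul_mem_Com hs hb)
      have e4 := ho _ (mul_mem_Com hb hs)
      generalize fc φ b = s at e2 e3 e4
      rw [← trace_mul_cycle] at e4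
      have e5 : s * (R * R) = s * b * b + s * (e * e) + s * b * e + s * e * b := by
        rw [h]; simp only [Matrix.mul_add, Matrix.add_mul, Matrix.mul_assoc]; abel
      rw [e5, trace_add, trace_add, e3, e4, add_zero, add_zero] at e2
      rw [← tr_add, tr, tr, e2]
    have e2 : tr (fc φ b * (e * e)) ≤ ‖e‖ ^ 2 := by
      have := tr_mul_le_left hs1 (herm_sq_nonneg heh)
      rwa [Matrix.one_mul, ← congrArg (· * e) heh, ← norm_sq_eq_tr, congrArg (· * e) heh] at this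
    have e3 : ‖fc (fun x => |x|) b - 1‖ ^ 2 ≤ tr (fc φ b) - tr (fc φ b * b * b) := by
      rw [← fc_one hbh, ← fc_sub, norm_fc_sq_eq_tr, ← fc_mul_id hbh, ← fc_mul_id hbh, ← tr_sub,
        ← fc_sub]
      refine tr_fc_mono fun x _ => ?_
      have h5 := abs_mul_abs_self x
      have h6 := abs_nonneg x
      simp only [φ]
      split_ifs with h4
      · have : |x| ≤ 1 := by nlinarith
        nlinarith
      · have : 1 ≤ |x| := by nlinarith
        nlinarith
    linarith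
  have h4 := norm_add_sq_le (R - fc (fun x => |x|) b) (fc (fun x => |x|) b - 1)
  rw [sub_add_sub_cancel] at h4
  linarith

theorem norm_absR_sub_one (z : Mat n k) :
    ‖absR z - 1‖ ^ 2 = tr (fc (fun x => (Real.sqrt x - 1) ^ 2) (zᴴ * z)) := by
  rw [← norm_fc_sq_eq_tr, fc_sub, fc_one (by simp), absR]

/-- (S5) -/
theorem card_le (z : Mat n k) :
    (Fintype.card k : ℝ) - ‖absR z - 1‖ ^ 2 ≤ Fintype.card n := by
  have h1 := tr_fc_transfer z (φ := fun x => 1 - (Real.sqrt x - 1) ^ 2) (by simp)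
  have h2 := tr_mono (fc_le_one (A := z * zᴴ) (f := fun x => 1 - (Real.sqrt x - 1) ^ 2) (by simp)
    fun x _ => sub_le_self _ (sq_nonneg _))
  rwa [h1, fc_one_sub (by simp), tr_sub, tr_one, tr_one, ← norm_absR_sub_one] at h2

/-- (S6), the distance from the projection to the absolute value -/
theorem norm_cut_le (z : Mat n k) :
    ‖fc (gtI (1 / 2)) (z * zᴴ) - absL z‖ ^ 2 ≤ 6 * ‖absR z - 1‖ ^ 2 := by
  rw [absL, ← fc_sub, norm_fc_sq_eq_tr, tr_fc_transfer z (by rw [gtI_of_le] <;> norm_num),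
    norm_absR_sub_one, ← tr_smul, ← fc_smul]
  refine tr_fc_mono fun x hx => ?_
  by_cases h : 1 / 2 < x
  · rw [gtI_of_lt h]; nlinarith [sq_nonneg (Real.sqrt x - 1)]
  · rw [gtI_of_le (not_lt.mp h)]
    have h1 : Real.sqrt x ≤ 71 / 100 := Real.sqrt_le_iff.mpr ⟨by norm_num, by linarith⟩
    nlinarith [mul_nonneg (sub_nonneg.mpr h1) (show 0 ≤ 169 / 100 - Real.sqrt x by linarith)]

theorem norm_low_le (z : Mat n k) {l : Type} [Fintype l] (y : Mat n l) :
    ‖zᴴ * ((1 - fc (gtI (1 / 2)) (z * zᴴ)) * y)‖ ^ 2 ≤ ‖y‖ ^ 2 / 2 := by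
  have hA : (z * zᴴ)ᴴ = z * zᴴ := by simp
  have h : (zᴴ * (1 - fc (gtI (1 / 2)) (z * zᴴ)))ᴴ * (zᴴ * (1 - fc (gtI (1 / 2)) (z * zᴴ))) ≤
      (1 / 2 : ℝ) • (1 : Mat n n) := by
    rw [← fc_one_sub hA, conjTranspose_mul, fc_herm, conjTranspose_conjTranspose, Matrix.mul_assoc,
      ← Matrix.mul_assoc z, ← fc_id_mul hA, ← fc_mul]
    refine fc_le_smul_one hA fun x _ => ?_
    by_cases h : 1 / 2 < x
    · rw [gtI_of_lt h]; norm_num
    · rw [gtI_of_le (not_lt.mp h)]; linarith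
  have h1 := norm_mul_sq_le h y
  rw [Matrix.mul_assoc] at h1
  linarith

theorem num {a b d K η : ℝ} (ha : 0 ≤ a) (hb : 0 ≤ b) (hη : 0 ≤ η) (h : b ≤ a + d)
    (hK : b ^ 2 = K) (hd : d ^ 2 ≤ η * K) : K - a ^ 2 ≤ 2 * Real.sqrt η * K := by
  have h0 := Real.sqrt_nonneg η
  have h1 : d ≤ Real.sqrt η * b := by
    refine le_of_sq_le_sq ?_ (mul_nonneg h0 hb)
    rwa [mul_pow, Real.sq_sqrt hη, hK]
  subst hK
  rcases le_total b a with h2 | h2
  · nlinarith [mul_nonneg h0 (sq_nonneg b)]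
  · nlinarith [mul_nonneg h0 hb]

end PreAux

open PreAux in
theorem pre : S_Pre := by
  intro n k S _ _ _ _ _ u VV V0 c η η1 hu hVV hc hη h1 h2 hG hD ht
  have hk : (0 : ℝ) ≤ Fintype.card k := Nat.cast_nonneg _
  have hσ : (0 : ℝ) ≤ Fintype.card S := Nat.cast_nonneg _
  have hη1 : 0 ≤ η1 := by rw [h1]; positivity
  have ha := D_abs_le u VV V0
  have hL := D_nonneg u u (absL V0)
  have hR := D_nonneg VV VV (absR V0)
  have h4 : ‖absR V0 - 1‖ ^ 2 ≤ η1 * Fintype.card k := by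
    obtain ⟨b0, hb0, h⟩ := hG (absR V0)
    have h3 := norm_sub_one_le VV (absR_nonneg V0) hb0 (by rwa [absR_sq])
    rw [D2_herm _ (absR_herm V0)] at h
    rw [h1, div_mul_eq_mul_div, le_div_iff₀ hc]
    nlinarith
  refine ⟨?_, ⟨fc (gtI (1 / 2)) (V0 * V0ᴴ), isProj_gtI _ _, ?_, ?_, fun l _ y => norm_low_le V0 y⟩,
    ?_⟩
  · have h5 := card_le V0
    have : (Fintype.card k : ℝ) ≤ 2 * Fintype.card n := by nlinarith
    exact_mod_cast this
  · rw [tr_fc_transfer V0 (gtI_of_le (by norm_num))]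
    exact (isProj_gtI _ _).tr_le
  · have h5 := D_le_of_near hu hu (absL V0) (fc (gtI (1 / 2)) (V0 * V0ᴴ))
    have h6 := mul_le_mul_of_nonneg_left ((norm_cut_le V0).trans
      (mul_le_mul_of_nonneg_left h4 (by norm_num))) hσ
    nlinarith
  · obtain ⟨V, hV, h5⟩ := exists_clamp V0
    have h6 := h5.trans h4
    refine ⟨V, hV, ?_, num (norm_nonneg V) (norm_nonneg V0) hη1 ?_ ?_ h6⟩
    · have h7 := D2_le_of_near hu hVV V0 V
      have h8 := mul_le_mul_of_nonneg_left h6 hσ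
      nlinarith
    · simpa using norm_sub_le V (V - V0)
    · have := ht 1 (one_mem_Com VV)
      rw [Matrix.one_mul] at this
      rw [norm_sq_eq_tr, tr, this, ← tr, tr_one]

end Pool.Agent.P.MP_7f9919_an.NH
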