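import Pool.Agent.P.MP_7f9919_an.NH.B5

set_option autoImplicit false

namespace Pool.Agent.P.MP_7f9919_an.NH

open Matrix
open scoped MatrixOrder ComplexOrder

namespace PropPAux

/-- the choice of `ε` -/
theorem ex_eps {η C Λ β κ γ δ x : ℝ} (hη : 0 < η) (hC : 0 < C) (hΛ : 0 < Λ) (hβ : 0 < β)
    (hκ : 0 < κ) (hγ : 0 < γ) (hδ : 0 < δ) (hx : 0 < x) :
    ∃ ε > 0, C * ε ≤ η ∧ κ * (2 * Λ * ε / β ^ 2) ≤ x ∧ γ * (2 * Λ * ε / β ^ 2) ≤ δ := by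
  obtain ⟨μ, h0, h1, h2⟩ : ∃ μ > 0, κ * μ ≤ x ∧ γ * μ ≤ δ :=
    ⟨min (x / κ) (δ / γ), by positivity, (le_div_iff₀' hκ).1 (min_le_left _ _),
      (le_div_iff₀' hγ).1 (min_le_right _ _)⟩
  have h3 : 2 * Λ * min (η / C) (μ * β ^ 2 / (2 * Λ)) / β ^ 2 ≤ μ :=
    (div_le_iff₀ (by positivity)).2 ((le_div_iff₀' (by positivity)).1 (min_le_right _ _))
  exact ⟨_, by positivity, (le_div_iff₀' hC).1 (min_le_left _ _),
    (mul_le_mul_of_nonneg_left h3 hκ.le).trans h1, (mul_le_mul_of_nonneg_left h3 hγ.le).trans h2⟩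

/-- the numeric part of the start of the process -/
theorem start {N K α η δ C ε d p b e d0 : ℝ} (hN : 0 ≤ N) (hK : 0 < K) (hη : 0 < η) (hδ : 0 < δ)
    (hC : 0 < C) (h1 : 3 * η ≤ δ ^ 2) (h2 : η ≤ α / (2 * 10 ^ 6)) (h3 : C * ε ≤ η)
    (hd : d ≤ α * N / (10 ^ 6 * K)) (hp0 : 0 ≤ p) (hp : p ≤ N) (hb : b ≤ ε * N)
    (he : e ≤ K * d + η * p + C * b) (hd0 : d0 ^ 2 ≤ p * (η * p + C * b)) :
    e ≤ α * N / 500000 ∧ d0 ≤ δ * N := by
  have a1 : η * p ≤ η * N := mul_le_mul_of_nonneg_left hp hη.le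
  have a2 : C * b ≤ η * N := (mul_le_mul_of_nonneg_left hb hC.le).trans (by
    rw [← mul_assoc]
    exact mul_le_mul_of_nonneg_right h3 hN)
  have a3 : K * d ≤ α * N / 10 ^ 6 := (mul_le_mul_of_nonneg_left hd hK.le).trans_eq (by field_simp)
  have a4 : η * N ≤ α / (2 * 10 ^ 6) * N := mul_le_mul_of_nonneg_right h2 hN
  have a5 : 0 ≤ η * N := by positivity
  refine ⟨by linarith, le_of_sq_le_sq ?_ (by positivity)⟩
  calc d0 ^ 2 ≤ p * (3 * η * N) := hd0.trans (mul_le_mul_of_nonneg_left (by linarith) hp0)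
    _ ≤ N * (δ ^ 2 * N) :=
      mul_le_mul hp (mul_le_mul_of_nonneg_right h1 hN) (by positivity) hN
    _ = (δ * N) ^ 2 := by ring

variable {n : Type}

theorem ps_update (V : ℕ → Mat n n) (X : Mat n n) {J j : ℕ} (h : j ≤ J) :
    ps (Function.update V J X) j = ps V j :=
  Finset.sum_congr rfl fun l hl => Function.update_of_ne
    (by have := Finset.mem_range.1 hl; omega) _ _

/-- a process which can always be continued has any length -/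
theorem iterate {P : Mat n n → Mat n n → Prop} {V0 : Mat n n}
    (h : ∀ (V : ℕ → Mat n n) (J : ℕ), V 0 = V0 → (∀ j < J, P (ps V (j + 1)) (V (j + 1))) →
      ∃ X, P (ps V (J + 1)) X) (J : ℕ) :
    ∃ V : ℕ → Mat n n, V 0 = V0 ∧ ∀ j < J, P (ps V (j + 1)) (V (j + 1)) := by
  induction J with
  | zero => exact ⟨fun _ => V0, rfl, fun j hj => absurd hj (Nat.not_lt_zero j)⟩
  | succ J ih =>
    obtain ⟨V, h0, hV⟩ := ih
    obtain ⟨X, hX⟩ := h V J h0 hV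
    refine ⟨Function.update V (J + 1) X, by rw [Function.update_of_ne (by omega), h0],
      fun j hj => ?_⟩
    rw [ps_update V X (by omega)]
    rcases (Nat.lt_succ_iff.1 hj).lt_or_eq with h1 | rfl
    · rw [Function.update_of_ne (by omega)]
      exact hV j h1
    · rwa [Function.update_self]

end PropPAux

open PropPAux in
theorem propP (hS : S_Step) (hM : S_Mass) (hCa : S_Cand) : S_P := by
  intro S _ _ K1 α ζ β1 hK hα hα1 hζ hβ1
  have hσ : (0 : ℝ) < Fintype.card S := Nat.cast_pos.2 Fintype.card_pos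
  have hK0 : 0 < K1 := by linarith
  obtain ⟨θ, θ0, θ1, θ2⟩ : ∃ θ > 0, θ ≤ 1 / 10 ∧ θ ≤ 100 * K1 * ζ :=
    ⟨min _ _, by positivity, min_le_left _ _, min_le_right _ _⟩
  obtain ⟨a, ha⟩ : ∃ a, a = α / 400 := ⟨_, rfl⟩
  obtain ⟨γ, hγ⟩ : ∃ γ, γ = θ / (2000 * K1) := ⟨_, rfl⟩
  obtain ⟨ϑ, hϑ⟩ : ∃ ϑ, ϑ = γ * (a / 100) ^ 2 / (4096 * Fintype.card S) := ⟨_, rfl⟩
  obtain ⟨ω, hω⟩ : ∃ ω, ω = γ ^ 2 * ϑ ^ 2 / (2 * Fintype.card S * 256 ^ 2) := ⟨_, rfl⟩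
  have a0 : 0 < a := by rw [ha]; positivity
  have a1 : a ≤ 1 / 400 := by linarith
  have γ0 : 0 < γ := by rw [hγ]; positivity
  have γ1 : γ ≤ 1 := by rw [hγ, div_le_one (by positivity)]; linarith
  have ϑ0 : 0 < ϑ := by rw [hϑ]; positivity
  have ω0 : 0 < ω := by rw [hω]; positivity
  obtain ⟨δ, δ0, ⟨δ1, δ2⟩, δ3, δ4⟩ : ∃ δ > 0, (δ ≤ α * ϑ * ω / 2400 ∧
      δ ≤ γ ^ 2 * α ^ 2 * (a / 100) / (384 * Fintype.card S)) ∧ δ ≤ ζ / 4 ∧ δ ≤ θ / (400 * K1) :=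
    ⟨min (min _ _) (min _ _), by positivity, le_min_iff.1 (min_le_left _ _),
      le_min_iff.1 (min_le_right _ _)⟩
  obtain ⟨η, η0, ⟨η1, η2⟩, η3⟩ : ∃ η > 0, (η ≤ δ ^ 2 / 3 ∧ η ≤ K1 * γ / 2) ∧
      η ≤ α / (2 * 10 ^ 6) :=
    ⟨min (min _ _) _, by positivity, le_min_iff.1 (min_le_left _ _), min_le_right _ _⟩
  refine ⟨η, η0, fun C Λ hC hΛ => ?_⟩
  have hC0 : 0 < C := by linarith
  obtain ⟨β, β0, β2, β3⟩ : ∃ β > 0, 8 * C * β ≤ η * θ ∧ 5 * β ≤ β1 :=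
    ⟨min (η * θ / (8 * C)) (β1 / 5), by positivity,
      (le_div_iff₀' (by positivity)).1 (min_le_left _ _),
      (le_div_iff₀' (by positivity)).1 (min_le_right _ _)⟩
  obtain ⟨ε, ε0, ε1, ε2, ε3⟩ := ex_eps (κ := 1 / 4 + 6 * γ / (ϑ * ω)) (x := α / 400) η0 hC0 hΛ β0
    (by positivity) γ0 δ0 (by positivity)
  refine ⟨ε, ε0, fun n _ _ u B1 B P0 hn hu hB1 hB hBΛ htB hI hP0 htP hDP => ?_⟩
  by_contra hr
  obtain ⟨V0, hV0, e1, e2, -⟩ := hI P0 hP0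
  have hN : (0 : ℝ) < Fintype.card n := Nat.cast_pos.2 hn
  have hb : tr (B1 * P0) ≤ ε * Fintype.card n := by
    have := tr_mul_le_right hB1 hP0.le_one
    rw [Matrix.mul_one] at this
    exact (this.trans (tr_mono hB)).trans htB
  obtain ⟨s1, s2⟩ := start hN.le hK0 η0 δ0 hC0 (by linarith) η3 ε1 hDP hP0.tr_nonneg hP0.tr_le hb
    e1 e2
  have s3 : tr V0 ≤ tr P0 + α * Fintype.card n / 500000 := by
    have := (le_abs_self _).trans (hV0.abs_tr_sub_le hP0)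
    linarith
  rw [norm_sub_rev] at s1
  have mass : ∀ (V : ℕ → Mat n n) (J : ℕ), V 0 = V0 →
      (∀ j < J, StepOK u B (P0 - V0) a γ δ β (ps V (j + 1)) (V (j + 1))) → _ := fun V J h0 hV =>
    hM n S u B (P0 - V0) V J α a γ ϑ ω δ β Λ ε _ hu (hB1.trans hB) hBΛ htB hα hα1 ha γ0 γ1 hϑ hω
      δ0 δ1 β0 hΛ ε0 rfl ε2 ε3 s1 (h0 ▸ hV0) (h0 ▸ s2) hV
  have hαN : 0 < α * Fintype.card n := mul_pos hα hN
  obtain ⟨V, h0, hV⟩ := iterate (P := StepOK u B (P0 - V0) a γ δ β) (V0 := V0)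
    (fun V J h0 hV => by
      obtain ⟨m1, m2⟩ := mass V J h0 hV
      have hp : ∀ l < J + 1, IsProj (V l) := fun l hl => by
        rcases l with _ | l
        · exact h0 ▸ hV0
        · exact (hV l (by omega)).1
      have hle : V0 ≤ ps V (J + 1) := h0 ▸ Finset.single_le_sum (f := V)
        (fun l hl => (hp l (Finset.mem_range.1 hl)).nonneg) (Finset.mem_range.2 J.succ_pos)
      refine (hS n S u B1 B P0 V0 _ K1 a θ γ δ η C β ζ β1 hu hB1 hB hP0 hV0 hle hK a0 a1 θ0 θ1 θ2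
        hγ δ0 δ3 δ4 η0 (by linarith) (by linarith) hC β0 β2 β3 hI
        (hCa n S u V (J + 1) α (a / 100) γ δ hu hn hα (by positivity) (by linarith) γ0 δ2 hp ?_
          m2)).resolve_left hr
      rw [Finset.sum_range_succ', h0]
      linarith) (Fintype.card n)
  have m1 := (mass V _ h0 hV).1
  have m2 : ∑ _j ∈ Finset.range (Fintype.card n), (1 : ℝ) ≤
      ∑ j ∈ Finset.range (Fintype.card n), tr (V (j + 1)) := Finset.sum_le_sum fun j hj =>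
    (hV j (Finset.mem_range.1 hj)).1.one_le_tr (hV j (Finset.mem_range.1 hj)).2.1
  rw [Finset.sum_const, Finset.card_range, nsmul_eq_mul, mul_one] at m2
  have := mul_le_of_le_one_left hN.le hα1
  linarith

end Pool.Agent.P.MP_7f9919_an.NH
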