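import Pool.Agent.P.MP_7f9919_an.NH.B5

set_option autoImplicit false

namespace Pool.Agent.P.MP_7f9919_an.NH

open Matrix
open scoped MatrixOrder ComplexOrder

namespace StepAux

variable {n S : Type} [Fintype n] [DecidableEq n] [Fintype S]

theorem fin_tr (P : Mat n n → Prop) : {x : ℝ | ∃ p, (IsProj p ∧ P p) ∧ tr p = x}.Finite := by
  refine ((Set.finite_Iic (Fintype.card n)).image (Nat.cast : ℕ → ℝ)).subset ?_
  rintro _ ⟨p, ⟨hp, -⟩, rfl⟩
  obtain ⟨d, hd⟩ := hp.exists_nat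
  exact ⟨d, Nat.cast_le.1 (hd ▸ hp.tr_le : (d : ℝ) ≤ _), hd.symm⟩

theorem exists_max_tr (P : Mat n n → Prop) (h : ∃ p, IsProj p ∧ P p) :
    ∃ p, (IsProj p ∧ P p) ∧ ∀ q, IsProj q → P q → tr q ≤ tr p := by
  obtain ⟨p, hp⟩ := h
  obtain ⟨_, ⟨p, hp, rfl⟩, h⟩ := Set.exists_max_image _ id (fin_tr P) ⟨_, p, hp, rfl⟩
  exact ⟨p, hp, fun q h1 h2 => h _ ⟨q, ⟨h1, h2⟩, rfl⟩⟩

theorem exists_min_tr (P : Mat n n → Prop) (h : ∃ p, IsProj p ∧ P p) :
    ∃ p, (IsProj p ∧ P p) ∧ ∀ q, IsProj q → P q → tr p ≤ tr q := by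
  obtain ⟨p, hp⟩ := h
  obtain ⟨_, ⟨p, hp, rfl⟩, h⟩ := Set.exists_min_image _ id (fin_tr P) ⟨_, p, hp, rfl⟩
  exact ⟨p, hp, fun q h1 h2 => h _ ⟨q, ⟨h1, h2⟩, rfl⟩⟩

theorem sq_bound {x τ b η δ : ℝ} (hτ : 0 ≤ τ) (hδ : 0 < δ) (h3 : 3 * η ≤ δ ^ 2)
    (hb : b ≤ η * τ) (h : x ^ 2 ≤ τ * (η * τ + b)) : x ≤ 5 / 6 * (δ * τ) := by
  refine le_of_sq_le_sq (h.trans ?_) (by positivity)
  have h1 : τ * b ≤ τ * (η * τ) := mul_le_mul_of_nonneg_left hb hτ
  have h2 : 3 * η * τ ^ 2 ≤ δ ^ 2 * τ ^ 2 := mul_le_mul_of_nonneg_right h3 (sq_nonneg τ)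
  have h4 : 0 ≤ δ ^ 2 * τ ^ 2 := by positivity
  nlinarith

theorem imp_use {u : S → Mat n n} {K1 η C δ c : ℝ} {B1 B T : Mat n n} (h : IMP u K1 η C B1 B)
    (hT : IsProj T) (hδ : 0 < δ) (h3 : 3 * η ≤ δ ^ 2) (hb : C * tr (B1 * T) ≤ η * tr T)
    (hc : K1 * D u u T + 2 * (η * tr T) ≤ c) :
    ∃ U, IsProj U ∧ ‖U - T‖ ^ 2 ≤ c ∧ D u u U ≤ 5 / 6 * (δ * tr T) ∧
      tr (B1 * U) ≤ 4 * tr (B * T) ∧ tr T - c ≤ tr U ∧ tr U ≤ tr T + c := by
  obtain ⟨U, hU, h1, h2, h4⟩ := h T hT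
  have h5 := abs_le.1 (hU.abs_tr_sub_le hT)
  exact ⟨U, hU, by linarith, sq_bound hT.tr_nonneg hδ h3 hb h2, h4, by linarith [h5.1],
    by linarith [h5.2]⟩

theorem tr_compl_le {U T R : Mat n n} (hU : IsProj U) (hT : IsProj T) (hR : IsProj R)
    (h : R * T = T) : tr (U * (1 - R)) ≤ ‖U - T‖ ^ 2 := by
  have e : U * (1 - R) = (U - T) * (1 - R) := by
    rw [Matrix.sub_mul, Matrix.mul_sub T, hR.mul_eq_of hT h, Matrix.mul_one, sub_self, sub_zero]
  rw [← hU.norm_mul_proj_sq hR.compl, e]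
  exact hR.compl.ctr.mul_norm_sq_le _

theorem tr_compl_le' {V W R : Mat n n} (hV : IsProj V) (hW : IsProj W) (hR : IsProj R) :
    tr (V * (1 - R)) ≤ 2 * ‖V - W‖ ^ 2 + 2 * tr (W * (1 - R)) := by
  have e : V * (1 - R) = (V - W) * (1 - R) + W * (1 - R) := by
    rw [← Matrix.add_mul, sub_add_cancel]
  rw [← hV.norm_mul_proj_sq hR.compl, ← hW.norm_mul_proj_sq hR.compl, e]
  have h1 := norm_add_sq_le ((V - W) * (1 - R)) (W * (1 - R))
  have h2 := hR.compl.ctr.mul_norm_sq_le (V - W)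
  linarith

theorem res_le {A U : Mat n n} {a : ℝ} (ha : 0 < a) (hA : 0 ≤ A) (hU : IsProj U) :
    ‖(1 - rg a A) * U‖ ^ 2 ≤ 1 / 10000 * tr U + tr (U * (1 - Rle (a / 100) A)) := by
  have hH := herm_of_nonneg hA
  have h1 : (1 - rg a A)ᴴ * (1 - rg a A) ≤
      (1 / 10000 : ℝ) • (1 : Mat n n) + (1 - Rle (a / 100) A) := by
    rw [one_sub_Rle, rg, ← fc_one_sub hH, fc_herm, ← fc_mul, ← fc_const hH, ← fc_add]
    refine fc_le_fc fun x hx => ?_
    have h0 := spec_nonneg hA hx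
    have hp : 0 < x + a := by linarith
    have e : 1 - a / (x + a) = x / (x + a) := by field_simp; ring
    have h2 : 0 ≤ x / (x + a) := div_nonneg h0 hp.le
    rw [e]
    rcases lt_or_ge (a / 100) x with h | h
    · have : x / (x + a) ≤ 1 := (div_le_one hp).2 (by linarith)
      rw [gtI_of_lt h]
      nlinarith
    · have : x / (x + a) ≤ 1 / 100 := (div_le_iff₀ hp).2 (by linarith)
      rw [gtI_of_le h]
      nlinarith
  have h2 := tr_mul_le_left h1 hU.nonneg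
  rwa [← hU.norm_mul_sq, Matrix.add_mul, tr_add, Matrix.smul_mul, Matrix.one_mul, tr_smul,
    tr_mul_comm (1 - Rle (a / 100) A)] at h2

theorem three {E G U : Mat n n} (hE : Ctr E) :
    ‖E * U‖ ^ 2 ≤ 2 * ‖E * G * U‖ ^ 2 + 2 * ‖(1 - G) * U‖ ^ 2 := by
  have e : E * U = E * G * U + E * ((1 - G) * U) := by
    rw [Matrix.mul_assoc, ← Matrix.mul_add, ← Matrix.add_mul, add_sub_cancel, Matrix.one_mul]
  have h1 := norm_add_sq_le (E * G * U) (E * ((1 - G) * U))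
  have h2 := hE.norm_mul_sq_le ((1 - G) * U)
  rw [← e] at h1
  linarith

theorem four {P0 V0 U T : Mat n n} (hP : IsProj P0) (hV : IsProj V0) (hU : IsProj U)
    (hT : IsProj T) :
    tr (P0 * U) ≤ 3 * (‖(P0 - V0) * U‖ ^ 2 + tr (V0 * T) + ‖U - T‖ ^ 2) := by
  have e : P0 * U = (P0 - V0) * U + V0 * T + V0 * (U - T) := by
    rw [Matrix.sub_mul, Matrix.mul_sub]; abel
  have h1 := norm_add3_sq_le ((P0 - V0) * U) (V0 * T) (V0 * (U - T))
  have h2 := hV.ctr.norm_mul_sq_le (U - T)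
  rw [← e, hP.norm_mul_proj_sq hU, hV.norm_mul_proj_sq hT] at h1
  linarith

/-- expansion inside the complement of a maximal sparse cut -/
theorem expand {u : S → Mat n n} {U W : Mat n n} {g : ℝ} (hg : 0 < g) (hU : IsProj U)
    (hW : IsProj W) (h1 : U * W = W) (h2 : ed u W (U - W) ≤ g * tr W)
    (h3 : tr W ≤ 1 / 10 * tr U)
    (hm : ∀ q, IsProj q → U * q = q ∧ ed u q (U - q) ≤ g * tr q ∧ tr q ≤ 3 / 5 * tr U →
      tr q ≤ tr W) (q : Mat n n) (hq : IsProj q) (h4 : (U - W) * q = q)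
    (h5 : tr q ≤ tr (U - W) / 2) : g * tr q ≤ ed u q (U - W - q) := by
  by_contra h
  rw [not_le] at h
  have hr := hU.sub hW h1
  have h6 : 0 < tr q := (mul_pos_iff_of_pos_left hg).1 ((ed_nonneg _ _ _).trans_lt h)
  have h7 : W * q = 0 := by
    rw [← h4, ← Matrix.mul_assoc, Matrix.mul_sub, hU.mul_eq_of hW h1, hW.2, sub_self,
      Matrix.zero_mul]
  have h8 : U * q = q := by
    conv_lhs => rw [← h4, ← Matrix.mul_assoc, Matrix.mul_sub, hU.2, h1, h4]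
  have h9 : ed u W (U - W - q) ≤ ed u W (U - W) :=
    ed_mono_right u hr (hr.sub hq h4) (by rw [Matrix.mul_sub, hr.2, h4]) W
  have h10 := hW.tr_nonneg
  rw [tr_sub] at h5
  have := hm (W + q) (hW.add hq h7) ⟨by rw [Matrix.mul_add, h1, h8], by
    rw [ed_add_left u hW hq h7, ← sub_sub, tr_add, mul_add]; linarith, by rw [tr_add]; linarith⟩
  rw [tr_add] at this
  linarith

end StepAux

open StepAux

theorem step : S_Step := by
  intro n S _ _ _ u B1 B P0 V0 A K1 a θ γ δ η C β ζ β1 _ hB1 hB hP hV0 hA hK ha ha' hθ hθ' hζ hγ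
    hδ hδζ hδθ hη h3 h2η hC hβ hCβ hβ1 himp ⟨T0, hT0⟩
  have hA0 : 0 ≤ A := hV0.nonneg.trans hA
  have hR := isProj_Rle (a / 100) A
  obtain ⟨g, hg⟩ : ∃ g, g = 1 / (400 * K1) := ⟨_, rfl⟩
  have hK0 : 0 < K1 := by linarith
  have g0 : 0 < g := by rw [hg]; positivity
  have gK : K1 * g = 1 / 400 := by rw [hg]; field_simp
  have kγ : K1 * γ = θ / 2000 := by rw [hγ]; field_simp
  have δg : δ ≤ θ * g := by rw [hg, mul_one_div]; exact hδθ
  have gζ : θ * g ≤ ζ / 4 := by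
    rw [hg, mul_one_div, div_le_iff₀ (by positivity)]; linarith
  rw [← hg]
  obtain ⟨T, ⟨hT, hc⟩, hmin⟩ := exists_min_tr (Cand u (Rle (a / 100) A) γ) ⟨T0, hT0.1, hT0⟩
  obtain ⟨-, hT1, hT2, hT3⟩ := hc
  have τ0 := hT.tr_pos hT1
  by_cases hh : β * tr T ≤ tr (B * T)
  · refine Or.inr ⟨T, hT, hT1, ?_, Or.inl ⟨hT2, hT3, hh⟩⟩
    have := tr_compl_le hT hT hR hT2
    rw [sub_self, norm_zero] at this
    linarith
  rw [not_le] at hh
  have C0 : 0 ≤ C := by linarith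
  have b1 : C * (β * tr T) ≤ η * (θ * tr T) / 8 := by
    have := mul_le_mul_of_nonneg_right hCβ τ0.le
    linarith
  have θτ : θ * tr T ≤ 1 / 10 * tr T := mul_le_mul_of_nonneg_right hθ' τ0.le
  have θτ0 : 0 < θ * tr T := mul_pos hθ τ0
  obtain ⟨U, hU, u1, u2, u3, u4, u5⟩ := imp_use (c := θ * tr T / 1000) himp hT hδ h3 (by
    have h1 := mul_le_mul_of_nonneg_left ((tr_mul_le_left hB hT.nonneg).trans hh.le) C0
    have h2 : η * (θ * tr T) ≤ η * tr T := mul_le_mul_of_nonneg_left (by linarith) hη.le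
    have h4 : 0 ≤ η * tr T := by positivity
    linarith) (by
    have h1 := mul_le_mul_of_nonneg_left hT3 hK0.le
    have h2 := mul_le_mul_of_nonneg_right h2η τ0.le
    rw [← mul_assoc, kγ] at h1
    rw [kγ] at h2
    linarith)
  have υ0 : 0 < tr U := by linarith
  have u6 := (tr_compl_le hU hT hR hT2).trans u1
  have u7 : D u u U ≤ δ * tr U := by
    have : δ * (5 / 6 * tr T) ≤ δ * tr U := mul_le_mul_of_nonneg_left (by linarith) hδ.le
    linarith
  by_cases h3' : tr U / 400 ≤ ‖(P0 - V0) * U‖ ^ 2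
  · refine Or.inr ⟨U, hU, ne_zero_of_tr_pos υ0, by linarith, Or.inr (Or.inl ⟨u7, ?_⟩)⟩
    have h1 := three (G := rg a A) (U := U) (hP.ctr_sub hV0)
    have h2 := res_le ha hA0 hU
    linarith
  rw [not_le] at h3'
  obtain ⟨W, ⟨hW, w1, w2, w3⟩, hmax⟩ := exists_max_tr
    (fun W => U * W = W ∧ ed u W (U - W) ≤ g * tr W ∧ tr W ≤ 3 / 5 * tr U)
    ⟨0, isProj_zero, Matrix.mul_zero _, by simp, by rw [tr_zero]; linarith⟩
  have ω0 := hW.tr_nonneg
  have θυ : θ * tr U ≤ 1 / 10 * tr U := mul_le_mul_of_nonneg_right hθ' υ0.le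
  have δυ : δ * tr U ≤ g * (θ * tr U) := by
    have := mul_le_mul_of_nonneg_right δg υ0.le
    linarith
  rcases lt_or_ge (tr W) (θ * tr U) with hw | hw
  · have hr := hU.sub hW w1
    have r0 : tr (U - W) = tr U - tr W := tr_sub _ _
    have r1 : U - W ≤ U := sub_le_self _ hW.nonneg
    refine Or.inl ⟨U - W, hr, ne_zero_of_tr_pos (by linarith),
      expand g0 hU hW w1 w2 (by linarith) hmax, ?_, ?_, ?_⟩
    · have h1 := D_sub_le_ed_add u hU hW w1
      have h2 : g * tr W ≤ g * (θ * tr U) := mul_le_mul_of_nonneg_left hw.le g0.le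
      have h4 := mul_le_mul_of_nonneg_right gζ υ0.le
      have h5 : ζ * (tr U / 2) ≤ ζ * tr (U - W) :=
        mul_le_mul_of_nonneg_left (by linarith) (by linarith)
      linarith
    · have h1 := tr_mul_le_right hB1 r1
      have h2 : β * (4 / 5 * tr T) ≤ β * tr (U - W) :=
        mul_le_mul_of_nonneg_left (by linarith) hβ.le
      have h4 := mul_le_mul_of_nonneg_right hβ1 hr.tr_nonneg
      linarith
    · have h1 := tr_mul_le_right hP.nonneg r1
      have h2 := four hP hV0 hU hT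
      have h4 := tr_mul_le_left hA hT.nonneg
      have h5 := tr_mul_le_of_Rle (herm_of_nonneg hA0) hT hT2
      have h6 := mul_le_mul_of_nonneg_right ha' τ0.le
      linarith
  · have r1 : W ≤ U := hU.le_of_mul hW w1
    have θυ0 : 0 < θ * tr U := mul_pos hθ υ0
    have θ2 : θ * (tr T / 2) ≤ θ * tr U := mul_le_mul_of_nonneg_left (by linarith) hθ.le
    obtain ⟨V, hV, v1, v2, -, v4, v5⟩ := imp_use (c := tr W / 100) himp hW hδ h3 (by
      have h1 := mul_le_mul_of_nonneg_left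
        ((tr_mul_le_right hB1 r1).trans (u3.trans (by linarith : _ ≤ 4 * (β * tr T)))) C0
      have h2 : η * (θ * tr T / 2) ≤ η * tr W := mul_le_mul_of_nonneg_left (by linarith) hη.le
      linarith) (by
      have h1 := D_le_ed_add u hU hW w1
      have h2 : g * (θ * tr U) ≤ g * tr W := mul_le_mul_of_nonneg_left hw g0.le
      have h4 : K1 * D u u W ≤ K1 * (g * (2 * tr W)) :=
        mul_le_mul_of_nonneg_left (by linarith) hK0.le
      have h5 : η * tr W ≤ 1 / 1000 * tr W := mul_le_mul_of_nonneg_right (by linarith) ω0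
      rw [← mul_assoc, gK] at h4
      linarith)
    refine Or.inr ⟨V, hV, ne_zero_of_tr_pos (by linarith), ?_, Or.inr (Or.inr ⟨?_, fun T' h => ?_⟩)⟩
    · have h1 := tr_compl_le' hV hW hR
      have h2 := tr_mul_le_left r1 hR.compl.nonneg
      linarith
    · have : δ * (5 / 6 * tr W) ≤ δ * tr V := mul_le_mul_of_nonneg_left (by linarith) hδ.le
      linarith
    · have := hmin T' h.1 h
      linarith

end Pool.Agent.P.MP_7f9919_an.NH
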