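import Pool.Agent.P.MP_7f9919_an.NH.B5

set_option autoImplicit false

namespace Pool.Agent.P.MP_7f9919_an.NH

open Matrix
open scoped MatrixOrder ComplexOrder

namespace T1Aux

section abstract
variable {E : Type} [SeminormedAddCommGroup E] [InnerProductSpace ℂ E]

/-- real part of the inner product -/
noncomputable def br (a b : E) : ℝ := (inner ℂ a b : ℂ).re

theorem br_self (a : E) : br a a = ‖a‖ ^ 2 := by
  have := inner_self_eq_norm_sq (𝕜 := ℂ) a
  simpa [br] using this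

theorem br_comm (a b : E) : br a b = br b a := by
  have := inner_re_symm (𝕜 := ℂ) a b
  simpa [br] using this

theorem br_add_left (a b c : E) : br (a + b) c = br a c + br b c := by
  simp [br, inner_add_left]

theorem br_add_right (a b c : E) : br a (b + c) = br a b + br a c := by
  simp [br, inner_add_right]

theorem br_sub_left (a b c : E) : br (a - b) c = br a c - br b c := by
  simp [br, inner_sub_left]

theorem br_sub_right (a b c : E) : br a (b - c) = br a b - br a c := by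
  simp [br, inner_sub_right]

theorem br_smul_right (t : ℝ) (a b : E) : br a ((t : ℂ) • b) = t * br a b := by
  unfold br
  rw [inner_smul_right, Complex.re_ofReal_mul]

theorem br_smul_left (t : ℝ) (a b : E) : br ((t : ℂ) • a) b = t * br a b := by
  rw [br_comm, br_smul_right, br_comm]

theorem br_zero_right (a : E) : br a 0 = 0 := by simp [br]

theorem br_le (a b : E) : br a b ≤ ‖a‖ * ‖b‖ := by
  have := re_inner_le_norm (𝕜 := ℂ) a b
  simpa [br] using this

/-- symmetric idempotent -/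
structure SP (P : Module.End ℂ E) : Prop where
  idem : ∀ a, P (P a) = P a
  symm : ∀ a b, br (P a) b = br a (P b)

theorem part0 {P R : Module.End ℂ E} (hP : SP P) (hR : SP R) (a : E) (h : P (R a) = R (P a)) :
    0 ≤ br (a - P a) (a - R a) := by
  obtain ⟨w, hw⟩ : ∃ w, w = (a - P a) - R (a - P a) := ⟨_, rfl⟩
  have h1 : R w = 0 := by rw [hw, map_sub, hR.idem, sub_self]
  have h2 : P w = 0 := by
    rw [hw, map_sub, map_sub, map_sub, map_sub, hP.idem, h, ← h, hP.idem]; simp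
  have h3 : br w w = br w (a - P a) := by
    conv_lhs => rw [show br w w = br w ((a - P a) - R (a - P a)) by rw [← hw]]
    rw [br_sub_right w (a - P a), ← hR.symm, h1, br_comm 0, br_zero_right, sub_zero]
  have h4 : a - R a = w + P (a - R a) := by
    rw [hw, map_sub, map_sub, h]; abel
  have h5 : br (a - P a) (P (a - R a)) = 0 := by
    rw [← hP.symm, map_sub, hP.idem, sub_self, br_comm, br_zero_right]
  rw [h4, br_add_right, h5, add_zero, br_comm, ← h3, br_self]
  positivity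

theorem part1 {P R : Module.End ℂ E} (hP : SP P) (hR : SP R) (a : E)
    (h : P (R (P a)) = ((101⁻¹ : ℝ) : ℂ) • P a) :
    -(1 / 20) * (‖a - P a‖ ^ 2 + ‖a - R a‖ ^ 2) ≤ br (a - P a) (a - R a) := by
  have a1 : br a (P a) = ‖P a‖ ^ 2 := by rw [← br_self, hP.symm, hP.idem]
  have a2 : br a (R a) = ‖R a‖ ^ 2 := by rw [← br_self, hR.symm, hR.idem]
  have a3 : br (P a) a = ‖P a‖ ^ 2 := by rw [br_comm, a1]
  have a4 : br (R a) a = ‖R a‖ ^ 2 := by rw [br_comm, a2]
  have b1 : ‖R (P a)‖ ^ 2 = 101⁻¹ * ‖P a‖ ^ 2 := by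
    rw [← br_self, hR.symm, hR.idem, hP.symm, h, br_smul_right, a1]
  have b2 : br (P a) (R a) ≤ ‖R (P a)‖ * ‖R a‖ := by
    have : br (P a) (R a) = br (R (P a)) (R a) := by rw [hR.symm, hR.idem]
    rw [this]; exact br_le _ _
  have b3 : br (P a) (R a) ≤ (‖P a‖ ^ 2 + ‖R a‖ ^ 2) / 20 := by
    have : ‖R (P a)‖ * ‖R a‖ ≤ 5 * ‖R (P a)‖ ^ 2 + ‖R a‖ ^ 2 / 20 := by
      nlinarith [sq_nonneg (10 * ‖R (P a)‖ - ‖R a‖)]
    have h0 : 0 ≤ ‖P a‖ ^ 2 := by positivity
    rw [b1] at this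
    linarith
  have c1 : 0 ≤ br (a - ((10 / 11 : ℝ) : ℂ) • (P a + R a)) (a - ((10 / 11 : ℝ) : ℂ) • (P a + R a)) := by
    rw [br_self]; positivity
  rw [← br_self (a - P a), ← br_self (a - R a)]
  simp only [br_sub_left, br_sub_right, br_add_left, br_add_right, br_smul_left,
    br_smul_right] at c1 ⊢
  rw [br_comm (R a) (P a)] at c1
  simp only [a1, a2, a3, a4, br_self] at c1 ⊢
  linarith

theorem split {Z : Module.End ℂ E} (hZ : SP Z) (a b : E) :
    br a b = br (Z a) (Z b) + br (a - Z a) (b - Z b) := by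
  have h1 : br (Z a) (Z b) = br a (Z b) := by rw [hZ.symm, hZ.idem]
  have h2 : br (Z a) b = br a (Z b) := hZ.symm a b
  simp only [br_sub_left, br_sub_right, h1, h2]
  ring

theorem main {P R Z : Module.End ℂ E} (hP : SP P) (hR : SP R) (hZ : SP Z)
    (cP : ∀ a, Z (P a) = P (Z a)) (cR : ∀ a, Z (R a) = R (Z a))
    (h0 : ∀ a, P (R (Z a)) = R (P (Z a)))
    (h1 : ∀ a, P (R (P (a - Z a))) = ((101⁻¹ : ℝ) : ℂ) • P (a - Z a)) (a : E) :
    -(1 / 20) * (‖a - P a‖ ^ 2 + ‖a - R a‖ ^ 2) ≤ br (a - P a) (a - R a) := by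
  have e1 : Z (a - P a) = Z a - P (Z a) := by rw [map_sub, cP]
  have e2 : Z (a - R a) = Z a - R (Z a) := by rw [map_sub, cR]
  have e3 : a - P a - Z (a - P a) = (a - Z a) - P (a - Z a) := by rw [e1, map_sub]; abel
  have e4 : a - R a - Z (a - R a) = (a - Z a) - R (a - Z a) := by rw [e2, map_sub]; abel
  have p0 := part0 hP hR (Z a) (h0 a)
  have p1 := part1 hP hR (a - Z a) (h1 a)
  rw [← br_self (a - P a), ← br_self (a - R a), split hZ (a - P a) (a - P a),
    split hZ (a - R a) (a - R a), split hZ (a - P a) (a - R a), e3, e4, e1, e2]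
  simp only [br_self]
  have n1 : 0 ≤ ‖Z a - P (Z a)‖ ^ 2 := by positivity
  have n2 : 0 ≤ ‖Z a - R (Z a)‖ ^ 2 := by positivity
  linarith

end abstract

section group
variable {Γ : Type} [Group Γ]

theorem comm_pow1 {x y z : Γ} (h : x * y = y * x * z) (hy : Commute z y) (j : ℕ) :
    x * y ^ j = y ^ j * x * z ^ j := by
  induction j with
  | zero => simp
  | succ j ih =>
    have hc : z ^ j * y = y * z ^ j := (hy.pow_left j).eq
    calc x * y ^ (j + 1) = (x * y ^ j) * y := by rw [pow_succ, mul_assoc]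
      _ = y ^ j * x * (z ^ j * y) := by rw [ih]; simp only [mul_assoc]
      _ = y ^ j * (x * y) * z ^ j := by rw [hc]; simp only [mul_assoc]
      _ = y ^ (j + 1) * x * z ^ (j + 1) := by
        rw [h, pow_succ y, pow_succ' z]; simp only [mul_assoc]

theorem comm_pow {x y z : Γ} (h : x * y = y * x * z) (hx : Commute z x) (hy : Commute z y)
    (i j : ℕ) : x ^ i * y ^ j = y ^ j * x ^ i * z ^ (i * j) := by
  induction i with
  | zero => simp
  | succ i ih =>
    have hc : z ^ j * x ^ i = x ^ i * z ^ j := ((hx.pow_left j).pow_right i).eq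
    calc x ^ (i + 1) * y ^ j = x * (x ^ i * y ^ j) := by rw [pow_succ', mul_assoc]
      _ = (x * y ^ j) * x ^ i * z ^ (i * j) := by rw [ih]; simp only [mul_assoc]
      _ = y ^ j * x * (z ^ j * x ^ i) * z ^ (i * j) := by
        rw [comm_pow1 h hy]; simp only [mul_assoc]
      _ = y ^ j * x ^ (i + 1) * z ^ ((i + 1) * j) := by
        rw [hc, pow_succ' x, add_mul, one_mul, add_comm (i * j), pow_add]; simp only [mul_assoc]

theorem z_pow {x y z : Γ} (h : x * y = y * x * z) (hy : Commute z y) (h1 : y ^ 101 = 1) :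
    z ^ 101 = 1 := by
  have := comm_pow1 h hy 101
  rw [h1, mul_one, one_mul] at this
  exact (left_eq_mul.1 this)

end group

section rep
variable {Γ E : Type} [Group Γ] [SeminormedAddCommGroup E] [InnerProductSpace ℂ E]
  (ρ : Γ →* (E ≃ₗᵢ[ℂ] E))

/-- the averaging operator -/
noncomputable def PA (g : Γ) : Module.End ℂ E :=
  (101 : ℂ)⁻¹ • ∑ i ∈ Finset.range 101, (ρ (g ^ i)).toLinearEquiv.toLinearMap

theorem PA_apply (g : Γ) (a : E) :
    PA ρ g a = (101 : ℂ)⁻¹ • ∑ i ∈ Finset.range 101, ρ (g ^ i) a := by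
  simp [PA, LinearMap.sum_apply]

theorem rho_mul (g h : Γ) (a : E) : ρ (g * h) a = ρ g (ρ h a) := by
  rw [map_mul]; rfl

theorem avg_const (a : E) : (101 : ℂ)⁻¹ • ∑ _i ∈ Finset.range 101, a = a := by
  rw [Finset.sum_const, Finset.card_range, ← Nat.cast_smul_eq_nsmul ℂ, smul_smul]
  norm_num

theorem PA_of_fix {g : Γ} {a : E} (h : ρ g a = a) : PA ρ g a = a := by
  have : ∀ i : ℕ, ρ (g ^ i) a = a := by
    intro i
    induction i with
    | zero => simp
    | succ i ih => rw [pow_succ, rho_mul, h, ih]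
  rw [PA_apply]; simp only [this]; exact avg_const a

theorem comm_PA {g h : Γ} (hc : Commute g h) (a : E) : ρ g (PA ρ h a) = PA ρ h (ρ g a) := by
  rw [PA_apply, PA_apply, map_smul, map_sum]
  congr 1
  refine Finset.sum_congr rfl fun i _ => ?_
  rw [← rho_mul, ← rho_mul, (hc.pow_right i).eq]

theorem PA_comm {g h : Γ} (hc : Commute g h) (a : E) :
    PA ρ g (PA ρ h a) = PA ρ h (PA ρ g a) := by
  rw [PA_apply ρ g (PA ρ h a), PA_apply ρ g a, map_smul, map_sum]
  congr 1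
  exact Finset.sum_congr rfl fun i _ => comm_PA ρ (hc.pow_left i) a

theorem rho_PA {g : Γ} (hg : g ^ 101 = 1) (a : E) : ρ g (PA ρ g a) = PA ρ g a := by
  rw [PA_apply, map_smul, map_sum]
  congr 1
  have h1 := Finset.sum_range_succ (fun i => ρ (g ^ i) a) 101
  have h2 := Finset.sum_range_succ' (fun i => ρ (g ^ i) a) 101
  rw [h1, hg, pow_zero] at h2
  rw [add_right_cancel h2]
  refine Finset.sum_congr rfl fun i _ => ?_
  rw [← rho_mul, pow_succ']

theorem rho_pow_PA {g : Γ} (hg : g ^ 101 = 1) (i : ℕ) (a : E) :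
    ρ (g ^ i) (PA ρ g a) = PA ρ g a := by
  induction i with
  | zero => simp
  | succ i ih => rw [pow_succ, rho_mul, rho_PA ρ hg, ih]

theorem PA_rho {g : Γ} (hg : g ^ 101 = 1) (a : E) : PA ρ g (ρ g a) = PA ρ g a := by
  rw [← comm_PA ρ (Commute.refl g), rho_PA ρ hg]

theorem sp {g : Γ} (hg : g ^ 101 = 1) : SP (PA ρ g) := by
  have h1 : ∀ a b, br (PA ρ g a) (PA ρ g b) = br (PA ρ g a) b := by
    intro a b
    have : ∀ i : ℕ, (inner ℂ (PA ρ g a) (ρ (g ^ i) b) : ℂ) = inner ℂ (PA ρ g a) b := by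
      intro i
      conv_lhs => rw [← rho_pow_PA ρ hg i a]
      exact (ρ (g ^ i)).inner_map_map _ _
    unfold br
    rw [PA_apply ρ g b, inner_smul_right, inner_sum]
    simp only [this]
    rw [Finset.sum_const, Finset.card_range, nsmul_eq_mul, ← mul_assoc]
    norm_num
  refine ⟨fun a => PA_of_fix ρ (rho_PA ρ hg a), fun a b => ?_⟩
  rw [← h1 a b, br_comm, h1 b a, br_comm]

theorem key0 {x y z : Γ} (h : x * y = y * x * z) (hx : Commute z x) (hy : Commute z y)
    (hz : z ^ 101 = 1) (a : E) :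
    PA ρ x (PA ρ y (PA ρ z a)) = PA ρ y (PA ρ x (PA ρ z a)) := by
  have h1 : ∀ i j : ℕ, ρ (x ^ i) (ρ (y ^ j) (PA ρ z a)) = ρ (y ^ j) (ρ (x ^ i) (PA ρ z a)) := by
    intro i j
    rw [← rho_mul, comm_pow h hx hy, rho_mul, rho_pow_PA ρ hz, rho_mul]
  rw [PA_apply ρ x (PA ρ y _), PA_apply ρ x (PA ρ z a), map_smul, map_sum]
  congr 1
  refine Finset.sum_congr rfl fun i _ => ?_
  rw [PA_apply ρ y (PA ρ z a), PA_apply ρ y (ρ (x ^ i) _), map_smul, map_sum]
  congr 1
  exact Finset.sum_congr rfl fun j _ => h1 i j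

theorem inv_mod : ∀ j < 101, 0 < j → ∃ k < 101, (j * k) % 101 = 1 := by decide +kernel

theorem keyj {x y z : Γ} (h : x * y = y * x * z) (hx : Commute z x) (hy : Commute z y)
    (hx1 : x ^ 101 = 1) (hz : z ^ 101 = 1) {j : ℕ} (hj : j < 101) (hj0 : 0 < j) (a : E) :
    PA ρ x (ρ (y ^ j) (PA ρ x (a - PA ρ z a))) = 0 := by
  obtain ⟨b, hb⟩ : ∃ b, b = PA ρ x (ρ (y ^ j) (PA ρ x (a - PA ρ z a))) := ⟨_, rfl⟩
  rw [← hb]
  have h1 : ρ (z ^ j) b = b := by
    rw [hb, comm_PA ρ (hx.pow_left j), ← rho_mul]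
    conv_rhs => rw [← PA_rho ρ hx1, ← rho_mul, comm_pow1 h hy, mul_assoc, ← (hx.pow_left j).eq,
      ← mul_assoc, rho_mul, rho_PA ρ hx1]
    rw [((hy.pow_left j).pow_right j).eq]
  have h2 : ∀ k : ℕ, ρ (z ^ (j * k)) b = b := by
    intro k
    induction k with
    | zero => simp
    | succ k ih => rw [mul_add, mul_one, pow_add, rho_mul, h1, ih]
  obtain ⟨k, -, hk⟩ := inv_mod j hj hj0
  have h3 : ρ z b = b := by
    have := h2 k
    rwa [← Nat.div_add_mod (j * k) 101, hk, pow_add, pow_mul, hz, one_pow, one_mul, pow_one] at this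
  have h4 : PA ρ z (a - PA ρ z a) = 0 := by rw [map_sub, (sp ρ hz).idem, sub_self]
  rw [← PA_of_fix ρ h3, hb, PA_comm ρ hx, ← comm_PA ρ (hy.symm.pow_left j), PA_comm ρ hx, h4]
  simp

theorem key1 {x y z : Γ} (h : x * y = y * x * z) (hx : Commute z x) (hy : Commute z y)
    (hx1 : x ^ 101 = 1) (hz : z ^ 101 = 1) (a : E) :
    PA ρ x (PA ρ y (PA ρ x (a - PA ρ z a))) = ((101⁻¹ : ℝ) : ℂ) • PA ρ x (a - PA ρ z a) := by
  rw [PA_apply ρ y, map_smul, map_sum, Finset.sum_eq_single 0]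
  · rw [pow_zero, map_one]
    have : ((1 : E ≃ₗᵢ[ℂ] E)) (PA ρ x (a - PA ρ z a)) = PA ρ x (a - PA ρ z a) := rfl
    rw [this, (sp ρ hx1).idem]
    have e : ((101⁻¹ : ℝ) : ℂ) = (101 : ℂ)⁻¹ := by push_cast; rfl
    rw [e]
  · intro j hj hj0
    exact keyj ρ h hx hy hx1 hz (Finset.mem_range.1 hj) (Nat.pos_of_ne_zero hj0) a
  · intro h0
    exact absurd (Finset.mem_range.2 (by norm_num)) h0

end rep

end T1Aux

theorem t1 : S_T1 := by
  intro Γ E _ _ _ ρ x y z hx1 hy1 h hx hy ξ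
  have hz := T1Aux.z_pow h hy hy1
  have := T1Aux.main (T1Aux.sp ρ hx1) (T1Aux.sp ρ hy1) (T1Aux.sp ρ hz) (T1Aux.PA_comm ρ hx)
    (T1Aux.PA_comm ρ hy) (T1Aux.key0 ρ h hx hy hz) (T1Aux.key1 ρ h hx hy hx1 hz) ξ
  rw [T1Aux.PA_apply, T1Aux.PA_apply] at this
  exact this

end Pool.Agent.P.MP_7f9919_an.NH
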