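import Pool.Agent.P.MP_7f9919_an.NH.B5

set_option autoImplicit false

namespace Pool.Agent.P.MP_7f9919_an.NH

open Matrix
open scoped MatrixOrder ComplexOrder commutatorElement

namespace T3Aux

section

variable {Γ E : Type} [Group Γ] [SeminormedAddCommGroup E] [InnerProductSpace ℂ E]
  (ρ : Γ →* (E ≃ₗᵢ[ℂ] E))

theorem rho_mul (g h : Γ) (ξ : E) : ρ (g * h) ξ = ρ g (ρ h ξ) := by
  rw [map_mul]; rfl

theorem rho_one (ξ : E) : ρ 1 ξ = ξ := by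
  rw [map_one]; rfl

theorem Pav_sub (g : Γ) (ξ η : E) : Pav ρ g (ξ - η) = Pav ρ g ξ - Pav ρ g η := by
  simp only [Pav, map_sub, Finset.sum_sub_distrib, smul_sub]

theorem Pav_smul (g : Γ) (c : ℂ) (ξ : E) : Pav ρ g (c • ξ) = c • Pav ρ g ξ := by
  simp only [Pav, map_smul, ← Finset.smul_sum]
  exact smul_comm _ _ _

theorem rho_Pav {g : Γ} (hg : g ^ 101 = 1) (ξ : E) : ρ g (Pav ρ g ξ) = Pav ρ g ξ := by
  simp only [Pav, map_smul, map_sum, ← rho_mul, ← pow_succ']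
  congr 1
  have h1 := Finset.sum_range_succ' (fun i => ρ (g ^ i) ξ) 101
  have h2 := Finset.sum_range_succ (fun i => ρ (g ^ i) ξ) 101
  rw [h2, hg, pow_zero] at h1
  exact (add_right_cancel h1).symm

theorem rho_pow_Pav {g : Γ} (hg : g ^ 101 = 1) (ξ : E) (i : ℕ) :
    ρ (g ^ i) (Pav ρ g ξ) = Pav ρ g ξ := by
  induction i with
  | zero => rw [pow_zero, rho_one]
  | succ i ih => rw [pow_succ', rho_mul, ih, rho_Pav ρ hg]

/-- the complement is orthogonal to the averages -/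
theorem inner_Q_P {g : Γ} (hg : g ^ 101 = 1) (ξ η : E) :
    (inner ℂ (ξ - Pav ρ g ξ) (Pav ρ g η) : ℂ) = 0 := by
  have h : ∀ i, (inner ℂ (ρ (g ^ i) ξ) (Pav ρ g η) : ℂ) = inner ℂ ξ (Pav ρ g η) := fun i => by
    conv_lhs => rw [← rho_pow_Pav ρ hg η i]
    exact (ρ (g ^ i)).inner_map_map _ _
  have h2 : (inner ℂ (Pav ρ g ξ) (Pav ρ g η) : ℂ) = inner ℂ ξ (Pav ρ g η) := by
    conv_lhs => arg 2; rw [Pav]
    rw [inner_smul_left, sum_inner, Finset.sum_congr rfl fun i _ => h i, map_inv₀, map_ofNat,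
      Finset.sum_const, Finset.card_range, nsmul_eq_mul, ← mul_assoc]
    norm_num
  rw [inner_sub_left, h2, sub_self]

theorem inner_Q_Q {g : Γ} (hg : g ^ 101 = 1) (ξ η : E) :
    (inner ℂ (ξ - Pav ρ g ξ) (η - Pav ρ g η) : ℂ) = inner ℂ (ξ - Pav ρ g ξ) η := by
  rw [inner_sub_right, inner_Q_P ρ hg, sub_zero]

theorem norm_Q_le {g : Γ} (hg : g ^ 101 = 1) (ξ : E) : ‖ξ - Pav ρ g ξ‖ ^ 2 ≤ ‖ξ‖ ^ 2 := by
  have h := _root_.norm_add_sq (𝕜 := ℂ) (ξ - Pav ρ g ξ) (Pav ρ g ξ)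
  rw [inner_Q_P ρ hg, sub_add_cancel, map_zero] at h
  nlinarith [sq_nonneg ‖Pav ρ g ξ‖]

theorem norm_pow_sub (g : Γ) (ξ : E) (i : ℕ) : ‖ξ - ρ (g ^ i) ξ‖ ≤ i * ‖ρ g ξ - ξ‖ := by
  induction i with
  | zero => simp
  | succ i ih =>
    have e : ξ - ρ (g ^ (i + 1)) ξ = (ξ - ρ (g ^ i) ξ) - ρ (g ^ i) (ρ g ξ - ξ) := by
      rw [pow_succ, rho_mul, map_sub]; abel
    have h := norm_sub_le (ξ - ρ (g ^ i) ξ) (ρ (g ^ i) (ρ g ξ - ξ))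
    rw [LinearIsometryEquiv.norm_map] at h
    rw [e]
    push_cast
    linarith

theorem norm_Q_le' (g : Γ) (ξ : E) : ‖ξ - Pav ρ g ξ‖ ≤ 101 * ‖ρ g ξ - ξ‖ := by
  have e : ξ - Pav ρ g ξ = (101 : ℂ)⁻¹ • ∑ i ∈ Finset.range 101, (ξ - ρ (g ^ i) ξ) := by
    rw [Finset.sum_sub_distrib, smul_sub, Pav, Finset.sum_const, Finset.card_range,
      ← Nat.cast_smul_eq_nsmul ℂ, smul_smul]
    norm_num
  have h : ‖∑ i ∈ Finset.range 101, (ξ - ρ (g ^ i) ξ)‖ ≤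
      ∑ _i ∈ Finset.range 101, 101 * ‖ρ g ξ - ξ‖ :=
    (norm_sum_le _ _).trans (Finset.sum_le_sum fun i hi => (norm_pow_sub ρ g ξ i).trans
      (mul_le_mul_of_nonneg_right (by exact_mod_cast (Finset.mem_range.mp hi).le)
        (norm_nonneg _)))
  rw [Finset.sum_const, Finset.card_range, nsmul_eq_mul] at h
  rw [e, norm_smul, norm_inv]
  have h101 : ‖(101 : ℂ)‖ = 101 := by simp
  rw [h101]
  push_cast at h
  linarith

theorem norm_rho_sub_le {g : Γ} (hg : g ^ 101 = 1) (ξ : E) :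
    ‖ρ g ξ - ξ‖ ^ 2 ≤ 4 * ‖ξ - Pav ρ g ξ‖ ^ 2 := by
  have e : ρ g ξ - ξ = ρ g (ξ - Pav ρ g ξ) - (ξ - Pav ρ g ξ) := by
    rw [map_sub, rho_Pav ρ hg]; abel
  have h := norm_sub_le (ρ g (ξ - Pav ρ g ξ)) (ξ - Pav ρ g ξ)
  rw [LinearIsometryEquiv.norm_map, ← e] at h
  nlinarith [norm_nonneg (ρ g ξ - ξ), norm_nonneg (ξ - Pav ρ g ξ)]

variable (x : Fin 7 → Γ)

/-- the energy -/
noncomputable def dd (ξ : E) : ℝ := ∑ s, ‖ξ - Pav ρ (x s) ξ‖ ^ 2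

/-- the Laplacian -/
noncomputable def Del (ξ : E) : E := ∑ s, (ξ - Pav ρ (x s) ξ)

/-- the Markov operator -/
noncomputable def Mk (ξ : E) : E := ξ - (7 : ℂ)⁻¹ • Del ρ x ξ

theorem dd_nonneg (ξ : E) : 0 ≤ dd ρ x ξ := Finset.sum_nonneg fun _ _ => sq_nonneg _

theorem Del_le (ξ : E) : ‖Del ρ x ξ‖ ^ 2 ≤ 7 * dd ρ x ξ := by
  have h1 : ‖Del ρ x ξ‖ ≤ ∑ s, ‖ξ - Pav ρ (x s) ξ‖ := norm_sum_le _ _
  have h2 := sq_sum_le_card_mul_sum_sq (s := Finset.univ) (f := fun s => ‖ξ - Pav ρ (x s) ξ‖)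
  rw [Finset.card_univ, Fintype.card_fin] at h2
  exact (pow_le_pow_left₀ (norm_nonneg _) h1 2).trans (by exact_mod_cast h2)

variable {x}

theorem dd_le (hx : G73.Good x) (ξ : E) : dd ρ x ξ ≤ 7 * ‖ξ‖ ^ 2 := by
  refine (Finset.sum_le_sum fun s _ => norm_Q_le ρ (hx.1 s) ξ).trans ?_
  simp

theorem le_Del (h1 : S_T1) (hx : G73.Good x) (ξ : E) : 2 / 5 * dd ρ x ξ ≤ ‖Del ρ x ξ‖ ^ 2 := by
  have key : ∀ s s', -(1 / 20) * (‖ξ - Pav ρ (x s) ξ‖ ^ 2 + ‖ξ - Pav ρ (x s') ξ‖ ^ 2) +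
      (if s = s' then 11 / 10 * ‖ξ - Pav ρ (x s) ξ‖ ^ 2 else 0) ≤
      (inner ℂ (ξ - Pav ρ (x s) ξ) (ξ - Pav ρ (x s') ξ) : ℂ).re := fun s s' => by
    split_ifs with h
    · subst h
      have := InnerProductSpace.norm_sq_eq_re_inner (𝕜 := ℂ) (ξ - Pav ρ (x s) ξ)
      rw [RCLike.re_to_complex] at this
      rw [← this]
      linarith
    · rw [add_zero]
      refine h1 Γ E ρ (x s) (x s') ⁅x s, x s'⁆ (hx.1 s) (hx.1 s') ?_ (hx.2 s s').1 (hx.2 s s').2 ξ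
      rw [← ((hx.2 s s').2.mul_right (hx.2 s s').1).eq, commutatorElement_def]
      group
  have e : ‖Del ρ x ξ‖ ^ 2 =
      ∑ s, ∑ s', (inner ℂ (ξ - Pav ρ (x s) ξ) (ξ - Pav ρ (x s') ξ) : ℂ).re := by
    have := InnerProductSpace.norm_sq_eq_re_inner (𝕜 := ℂ) (Del ρ x ξ)
    rw [RCLike.re_to_complex] at this
    rw [this, Del, sum_inner, Complex.re_sum]
    exact Finset.sum_congr rfl fun s _ => by rw [inner_sum, Complex.re_sum]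
  rw [e]
  refine le_trans (le_of_eq ?_) (Finset.sum_le_sum fun s _ => Finset.sum_le_sum fun s' _ => key s s')
  simp only [Finset.sum_add_distrib, Finset.sum_ite_eq, Finset.mem_univ, if_true, mul_add,
    ← Finset.mul_sum, Finset.sum_const, Finset.card_univ, Fintype.card_fin, nsmul_eq_mul, dd]
  push_cast
  ring

theorem dd_Mk (h1 : S_T1) (hx : G73.Good x) (ξ : E) :
    dd ρ x (Mk ρ x ξ) ≤ 33 / 35 * dd ρ x ξ := by
  have e : ∀ s, ‖Mk ρ x ξ - Pav ρ (x s) (Mk ρ x ξ)‖ ^ 2 = ‖ξ - Pav ρ (x s) ξ‖ ^ 2 -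
      2 / 7 * (inner ℂ (ξ - Pav ρ (x s) ξ) (Del ρ x ξ) : ℂ).re +
      1 / 49 * ‖Del ρ x ξ - Pav ρ (x s) (Del ρ x ξ)‖ ^ 2 := fun s => by
    have e1 : Mk ρ x ξ - Pav ρ (x s) (Mk ρ x ξ) = (ξ - Pav ρ (x s) ξ) -
        (7 : ℂ)⁻¹ • (Del ρ x ξ - Pav ρ (x s) (Del ρ x ξ)) := by
      rw [Mk, Pav_sub, Pav_smul, smul_sub]; abel
    have h7 : ‖(7 : ℂ)‖ = 7 := by simp
    rw [e1, _root_.norm_sub_sq (𝕜 := ℂ), inner_smul_right, inner_Q_Q ρ (hx.1 s), norm_smul,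
      norm_inv, h7, RCLike.re_to_complex]
    have : ((7 : ℂ)⁻¹ * inner ℂ (ξ - Pav ρ (x s) ξ) (Del ρ x ξ)).re =
        1 / 7 * (inner ℂ (ξ - Pav ρ (x s) ξ) (Del ρ x ξ) : ℂ).re := by
      rw [show (7 : ℂ)⁻¹ = ((1 / 7 : ℝ) : ℂ) by norm_num, Complex.re_ofReal_mul]
    rw [this]
    ring
  have e2 : ∑ s, (inner ℂ (ξ - Pav ρ (x s) ξ) (Del ρ x ξ) : ℂ).re = ‖Del ρ x ξ‖ ^ 2 := by
    have := InnerProductSpace.norm_sq_eq_re_inner (𝕜 := ℂ) (Del ρ x ξ)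
    rw [RCLike.re_to_complex] at this
    rw [this, ← Complex.re_sum, ← sum_inner]
    rfl
  have e3 : dd ρ x (Mk ρ x ξ) =
      dd ρ x ξ - 2 / 7 * ‖Del ρ x ξ‖ ^ 2 + 1 / 49 * dd ρ x (Del ρ x ξ) := by
    simp only [dd, e, Finset.sum_add_distrib, Finset.sum_sub_distrib, ← Finset.mul_sum, e2]
  have h2 := dd_le ρ hx (Del ρ x ξ)
  have h3 := le_Del ρ h1 hx ξ
  linarith

theorem norm_Mk_sub (ξ : E) : ‖Mk ρ x ξ - ξ‖ ^ 2 ≤ 1 / 7 * dd ρ x ξ := by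
  have h7 : ‖(7 : ℂ)‖ = 7 := by simp
  have h := Del_le ρ x ξ
  rw [Mk, sub_sub_cancel_left, norm_neg, norm_smul, norm_inv, h7]
  nlinarith

theorem dd_iter (h1 : S_T1) (hx : G73.Good x) (L : ℕ) (ξ : E) :
    dd ρ x ((Mk ρ x)^[L] ξ) ≤ (33 / 35) ^ L * dd ρ x ξ := by
  induction L with
  | zero => simp
  | succ L ih =>
    rw [Function.iterate_succ_apply', pow_succ]
    have := dd_Mk ρ h1 hx ((Mk ρ x)^[L] ξ)
    linarith

theorem norm_iter (h1 : S_T1) (hx : G73.Good x) (L : ℕ) :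
    ∀ (ξ : E) (c : ℝ), 0 ≤ c → dd ρ x ξ ≤ 7 * c ^ 2 → ‖(Mk ρ x)^[L] ξ - ξ‖ ≤ 35 * c := by
  induction L with
  | zero => intro ξ c hc _; simpa using hc
  | succ L ih =>
    intro ξ c hc h
    have h2 := dd_Mk ρ h1 hx ξ
    have h3 := ih (Mk ρ x ξ) (34 / 35 * c) (by positivity) (by nlinarith [sq_nonneg c])
    have h4 : ‖Mk ρ x ξ - ξ‖ ≤ c :=
      (pow_le_pow_iff_left₀ (norm_nonneg _) hc two_ne_zero).mp
        ((norm_Mk_sub ρ ξ).trans (by linarith))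
    have h5 := norm_sub_le_norm_sub_add_norm_sub ((Mk ρ x)^[L] (Mk ρ x ξ)) (Mk ρ x ξ) ξ
    rw [Function.iterate_succ_apply]
    linarith

theorem norm_iter_sq (h1 : S_T1) (hx : G73.Good x) (L : ℕ) (ξ : E) :
    ‖(Mk ρ x)^[L] ξ - ξ‖ ^ 2 ≤ 175 * dd ρ x ξ := by
  have h0 : 0 ≤ dd ρ x ξ / 7 := div_nonneg (dd_nonneg ρ x ξ) (by norm_num)
  have hs := Real.sq_sqrt h0
  have h := norm_iter ρ h1 hx L ξ _ (Real.sqrt_nonneg _) (by rw [hs]; linarith)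
  have h2 := pow_le_pow_left₀ (norm_nonneg _) h 2
  rw [mul_pow, hs] at h2
  linarith

theorem Mk_eq (x : Fin 7 → Γ) (ξ : E) :
    Mk ρ x ξ = (707 : ℂ)⁻¹ • ∑ p : Fin 7 × Fin 101, ρ (x p.1 ^ (p.2 : ℕ)) ξ := by
  have e : ∀ s, ∑ j : Fin 101, ρ (x s ^ (j : ℕ)) ξ = (101 : ℂ) • Pav ρ (x s) ξ := fun s => by
    rw [Pav, smul_smul, Finset.sum_range]
    norm_num
  rw [Fintype.sum_prod_type]
  simp only [e]
  rw [Mk, Del, Finset.sum_sub_distrib, Finset.sum_const, Finset.card_univ, Fintype.card_fin,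
    ← Nat.cast_smul_eq_nsmul ℂ, ← Finset.smul_sum, smul_sub, smul_smul, smul_smul]
  norm_num

end

/-- the iterates are averages over words -/
theorem exists_words (L : ℕ) : ∃ (ι : Type) (_ : Fintype ι) (g : ι → FreeGroup (Fin 7)),
    0 < Fintype.card ι ∧ ∀ (Γ E : Type) [Group Γ] [SeminormedAddCommGroup E]
      [InnerProductSpace ℂ E] (ρ : Γ →* (E ≃ₗᵢ[ℂ] E)) (x : Fin 7 → Γ) (ξ : E),
      (Mk ρ x)^[L] ξ = (Fintype.card ι : ℂ)⁻¹ • ∑ i, ρ (FreeGroup.lift x (g i)) ξ := by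
  induction L with
  | zero => exact ⟨Unit, inferInstance, fun _ => 1, by simp, fun Γ E _ _ _ ρ x ξ => by simp⟩
  | succ L ih =>
    obtain ⟨ι, _, g, h0, h⟩ := ih
    refine ⟨ι × Fin 7 × Fin 101, inferInstance,
      fun p => g p.1 * FreeGroup.of p.2.1 ^ (p.2.2 : ℕ), by simpa using h0,
      fun Γ E _ _ _ ρ x ξ => ?_⟩
    have e : ∀ p : ι × Fin 7 × Fin 101,
        ρ (FreeGroup.lift x (g p.1 * FreeGroup.of p.2.1 ^ (p.2.2 : ℕ))) ξ =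
          ρ (FreeGroup.lift x (g p.1)) (ρ (x p.2.1 ^ (p.2.2 : ℕ)) ξ) := fun p => by
      rw [map_mul, map_pow, FreeGroup.lift_apply_of, rho_mul]
    rw [Function.iterate_succ_apply, h, Mk_eq, Finset.sum_congr rfl fun p _ => e p,
      Fintype.sum_prod_type (α₁ := ι)]
    simp only [map_smul, map_sum, ← Finset.smul_sum, smul_smul, Fintype.card_prod,
      Fintype.card_fin]
    congr 1
    push_cast
    rw [mul_inv]

end T3Aux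

open T3Aux in
theorem t3 : S_T1 → S_T3 := by
  intro h1 η hη
  obtain ⟨L, hL⟩ := exists_pow_lt_of_lt_one (show 0 < η / 28 by positivity)
    (show (33 / 35 : ℝ) < 1 by norm_num)
  obtain ⟨ι, _, g, h0, h⟩ := exists_words L
  refine ⟨Fintype.card ι, fun i => g ((Fintype.equivFin ι).symm i), h0,
    fun Γ E _ _ _ ρ x hx ξ ξ' e => ?_⟩
  have e' : ξ' = (Mk ρ x)^[L] ξ := by
    rw [e, h, (Fintype.equivFin ι).symm.sum_comp fun i => ρ (FreeGroup.lift x (g i)) ξ]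
  rw [e']
  constructor
  · have h2 : dd ρ x ξ ≤ 101 ^ 2 * ∑ s, ‖ρ (x s) ξ - ξ‖ ^ 2 := by
      rw [Finset.mul_sum]
      refine Finset.sum_le_sum fun s _ => ?_
      rw [← mul_pow]
      exact pow_le_pow_left₀ (norm_nonneg _) (norm_Q_le' ρ (x s) ξ) 2
    have h3 := norm_iter_sq ρ h1 hx L ξ
    linarith
  · have h2 : ∑ s, ‖ρ (x s) ((Mk ρ x)^[L] ξ) - (Mk ρ x)^[L] ξ‖ ^ 2 ≤
        4 * dd ρ x ((Mk ρ x)^[L] ξ) := by
      rw [dd, Finset.mul_sum]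
      exact Finset.sum_le_sum fun s _ => norm_rho_sub_le ρ (hx.1 s) _
    have h3 := dd_iter ρ h1 hx L ξ
    have h4 := mul_le_mul_of_nonneg_left (dd_le ρ hx ξ) (show (0 : ℝ) ≤ (33 / 35) ^ L by positivity)
    have h5 := mul_le_mul_of_nonneg_right hL.le (sq_nonneg ‖ξ‖)
    nlinarith

end Pool.Agent.P.MP_7f9919_an.NH
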