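import Pool.Agent.P.MP_7f9919_an.NH.B5

set_option autoImplicit false

namespace Pool.Agent.P.MP_7f9919_an.NH

open Matrix
open scoped MatrixOrder ComplexOrder

namespace T4Aux

open Filter Topology

variable {G : Type} [Group G]

/-- the sesquilinear form of a function on a group -/
noncomputable def Bf (φ : G → ℂ) (A B : G →₀ ℂ) : ℂ :=
  A.sum fun g z => B.sum fun h w => (starRingEnd ℂ) z * w * φ (g⁻¹ * h)

theorem Bf_add (φ : G → ℂ) (A A' B : G →₀ ℂ) : Bf φ (A + A') B = Bf φ A B + Bf φ A' B := by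
  unfold Bf
  refine Finsupp.sum_add_index' (fun g => by simp) fun g z z' => ?_
  simp only [map_add, add_mul, Finsupp.sum_add]

theorem Bf_smul (φ : G → ℂ) (r : ℂ) (A B : G →₀ ℂ) :
    Bf φ (r • A) B = (starRingEnd ℂ) r * Bf φ A B := by
  unfold Bf
  rw [Finsupp.sum_smul_index' (fun g => by simp), Finsupp.mul_sum]
  refine Finsupp.sum_congr fun g _ => ?_
  rw [Finsupp.mul_sum]
  refine Finsupp.sum_congr fun h _ => ?_
  simp only [smul_eq_mul, map_mul]
  ring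

theorem Bf_conj {φ : G → ℂ} (hφ : ∀ g, φ g⁻¹ = (starRingEnd ℂ) (φ g)) (A B : G →₀ ℂ) :
    (starRingEnd ℂ) (Bf φ B A) = Bf φ A B := by
  unfold Bf
  rw [Finsupp.sum_comm A B]
  simp only [Finsupp.sum, map_sum, map_mul, Complex.conj_conj]
  refine Finset.sum_congr rfl fun g _ => Finset.sum_congr rfl fun h _ => ?_
  rw [← hφ, _root_.mul_inv_rev, inv_inv]
  ring

theorem Bf_map {H : Type} [Group H] (φ : G → ℂ) (ψ : H → ℂ) (f : G → H)
    (hf : ∀ g h, ψ ((f g)⁻¹ * f h) = φ (g⁻¹ * h)) (A B : G →₀ ℂ) :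
    Bf ψ (A.mapDomain f) (B.mapDomain f) = Bf φ A B := by
  unfold Bf
  rw [Finsupp.sum_mapDomain_index (fun g => by simp)
    (fun g z z' => by simp only [map_add, add_mul, Finsupp.sum_add])]
  refine Finsupp.sum_congr fun g _ => ?_
  rw [Finsupp.sum_mapDomain_index (fun h => by simp) (fun h w w' => by ring)]
  exact Finsupp.sum_congr fun h _ => by rw [hf]

theorem Bf_single (φ : G → ℂ) (g h : G) :
    Bf φ (Finsupp.single g 1) (Finsupp.single h 1) = φ (g⁻¹ * h) := by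
  simp [Bf]

theorem norm_sum_sq {E : Type} [SeminormedAddCommGroup E] [InnerProductSpace ℂ E] (φ : G → ℂ)
    (v : G → E) (hv : ∀ g h, (inner ℂ (v g) (v h) : ℂ) = φ (g⁻¹ * h)) (A : G →₀ ℂ) :
    ‖A.sum fun g z => z • v g‖ ^ 2 = (Bf φ A A).re := by
  rw [← inner_self_eq_norm_sq (𝕜 := ℂ)]
  change (inner ℂ _ _ : ℂ).re = _
  congr 1
  simp only [Bf, Finsupp.sum, sum_inner, inner_sum, inner_smul_left, inner_smul_right, hv]
  rw [Finset.sum_comm]
  simp only [Finset.mul_sum]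
  refine Finset.sum_congr rfl fun g _ => Finset.sum_congr rfl fun h _ => ?_
  ring

theorem tendsto_Bf {J : Type} {l : Filter J} {φ : J → G → ℂ} {ψ : G → ℂ}
    (h : ∀ g, Tendsto (fun j => φ j g) l (𝓝 (ψ g))) (A : G →₀ ℂ) :
    Tendsto (fun j => (Bf (φ j) A A).re) l (𝓝 (Bf ψ A A).re) := by
  refine (Complex.continuous_re.tendsto _).comp ?_
  simp only [Bf, Finsupp.sum]
  exact tendsto_finsetSum _ fun g _ => tendsto_finsetSum _ fun k _ => (h _).const_mul _

/-- a positive definite function -/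
structure PD (φ : G → ℂ) : Prop where
  herm : ∀ g, φ g⁻¹ = (starRingEnd ℂ) (φ g)
  pos : ∀ A, 0 ≤ (Bf φ A A).re

/-- the space of the representation -/
def GE {φ : G → ℂ} (_h : PD φ) : Type := G →₀ ℂ

noncomputable instance {φ : G → ℂ} (h : PD φ) : AddCommGroup (GE h) :=
  inferInstanceAs (AddCommGroup (G →₀ ℂ))

noncomputable instance {φ : G → ℂ} (h : PD φ) : Module ℂ (GE h) :=
  inferInstanceAs (Module ℂ (G →₀ ℂ))

@[reducible] noncomputable def core {φ : G → ℂ} (h : PD φ) :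
    PreInnerProductSpace.Core ℂ (GE h) where
  inner A B := Bf φ A B
  conj_inner_symm A B := Bf_conj h.herm A B
  re_inner_nonneg A := h.pos A
  add_left A A' B := Bf_add φ A A' B
  smul_left A B r := Bf_smul φ r A B

noncomputable instance {φ : G → ℂ} (h : PD φ) : SeminormedAddCommGroup (GE h) :=
  InnerProductSpace.Core.toSeminormedAddCommGroup (𝕜 := ℂ) (c := core h)

noncomputable instance {φ : G → ℂ} (h : PD φ) : InnerProductSpace ℂ (GE h) :=
  InnerProductSpace.ofCore (core h)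

theorem inner_GE {φ : G → ℂ} (h : PD φ) (A B : GE h) : (inner ℂ A B : ℂ) = Bf φ A B := rfl

/-- left translation -/
noncomputable def tl {φ : G → ℂ} (h : PD φ) (g : G) : GE h ≃ₗ[ℂ] GE h :=
  Finsupp.domLCongr (R := ℂ) (M := ℂ) (Equiv.mulLeft g)

theorem tl_apply {φ : G → ℂ} (h : PD φ) (g : G) (A : GE h) :
    tl h g A = Finsupp.mapDomain (fun k => g * k) (show G →₀ ℂ from A) := by
  change Finsupp.equivMapDomain (Equiv.mulLeft g) (show G →₀ ℂ from A) = _
  rw [Finsupp.equivMapDomain_eq_mapDomain]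
  rfl

/-- the representation by left translations -/
noncomputable def rho {φ : G → ℂ} (h : PD φ) : G →* (GE h ≃ₗᵢ[ℂ] GE h) :=
  MonoidHom.mk' (fun g => (tl h g).isometryOfInner fun A B => by
      rw [inner_GE, inner_GE, tl_apply, tl_apply]
      exact Bf_map φ φ _ (fun a b => by congr 1; group) _ _)
    fun g g' => LinearIsometryEquiv.ext fun A => by
      change tl h (g * g') A = tl h g (tl h g' A)
      rw [tl_apply, tl_apply, tl_apply]
      simp only [mul_assoc]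
      exact Finsupp.mapDomain_comp (f := fun k => g' * k) (g := fun k => g * k)

theorem gns {φ : G → ℂ} (h : PD φ) : ∃ (E : Type) (_ : SeminormedAddCommGroup E)
    (_ : InnerProductSpace ℂ E) (ρ : G →* (E ≃ₗᵢ[ℂ] E)) (ξ : E),
    ∀ g k, (inner ℂ (ρ g ξ) (ρ k ξ) : ℂ) = φ (g⁻¹ * k) := by
  refine ⟨GE h, inferInstance, inferInstance, rho h, (Finsupp.single 1 1 : G →₀ ℂ), fun g k => ?_⟩
  change Bf φ (tl h g _) (tl h k _) = _
  rw [tl_apply, tl_apply, Finsupp.mapDomain_single, Finsupp.mapDomain_single, Bf_single, mul_one,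
    mul_one]

/-- a positive definite function that is constant on cosets gives a representation of the
quotient -/
theorem gns_quot (N : Subgroup G) [N.Normal] {φ : G → ℂ} (h : PD φ)
    (hN : ∀ g, ∀ w ∈ N, φ (g * w) = φ g) : ∃ (E : Type) (_ : SeminormedAddCommGroup E)
    (_ : InnerProductSpace ℂ E) (ρ : (G ⧸ N) →* (E ≃ₗᵢ[ℂ] E)) (ξ : E),
    ∀ g k : G, (inner ℂ (ρ (QuotientGroup.mk g) ξ) (ρ (QuotientGroup.mk k) ξ) : ℂ)
      = φ (g⁻¹ * k) := by
  have hψ : ∀ g : G, φ (QuotientGroup.mk g : G ⧸ N).out = φ g := fun g => by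
    obtain ⟨w, hw⟩ := QuotientGroup.mk_out_eq_mul N g
    rw [hw, hN g w w.2]
  have hp : PD fun q : G ⧸ N => φ q.out := by
    refine ⟨fun q => ?_, fun A => ?_⟩
    · obtain ⟨g, rfl⟩ := QuotientGroup.mk_surjective q
      rw [← QuotientGroup.mk_inv, hψ, hψ, h.herm]
    · rw [← Bf_map (fun q : G ⧸ N => φ q.out) φ Quotient.out (fun a b => by
        rw [← hψ, QuotientGroup.mk_mul, QuotientGroup.mk_inv, QuotientGroup.out_eq',
          QuotientGroup.out_eq']) A A]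
      exact h.pos _
  obtain ⟨E, i1, i2, ρ, ξ, hρ⟩ := gns hp
  refine ⟨E, i1, i2, ρ, ξ, fun g k => ?_⟩
  rw [hρ, ← QuotientGroup.mk_inv, ← QuotientGroup.mk_mul, hψ]

/-- the function of an orbit of unit vectors -/
theorem orbit {E : Type} [SeminormedAddCommGroup E] [InnerProductSpace ℂ E] (v : G → E)
    (hv : ∀ g k, (inner ℂ (v g) (v k) : ℂ) = inner ℂ (v 1) (v (g⁻¹ * k))) (h1 : ‖v 1‖ = 1) :
    ∃ φ : G → ℂ, PD φ ∧ (∀ g, ‖φ g‖ ≤ 1) ∧
      (∀ A : G →₀ ℂ, (Bf φ A A).re = ‖A.sum fun g z => z • v g‖ ^ 2) ∧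
      ∀ g w, ‖φ (g * w) - φ g‖ ≤ ‖v w - v 1‖ := by
  have hn : ∀ g, ‖v g‖ = 1 := fun g => by
    have h2 : ‖v g‖ ^ 2 = ‖v 1‖ ^ 2 := by
      rw [← inner_self_eq_norm_sq (𝕜 := ℂ), ← inner_self_eq_norm_sq (𝕜 := ℂ), hv g g,
        inv_mul_cancel]
    rw [← h1]
    exact (pow_left_inj₀ (norm_nonneg _) (norm_nonneg _) two_ne_zero).mp h2
  have hB := norm_sum_sq (fun g => inner ℂ (v 1) (v g)) v hv
  refine ⟨fun g => inner ℂ (v 1) (v g), ⟨fun g => ?_, fun A => ?_⟩, fun g => ?_,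
    fun A => (hB A).symm, fun g w => ?_⟩
  · rw [inner_conj_symm, hv g 1, mul_one]
  · rw [← hB]
    positivity
  · simpa [hn] using norm_inner_le_norm (𝕜 := ℂ) (v 1) (v g)
  · have e1 := hv g⁻¹ w
    have e2 := hv g⁻¹ 1
    rw [inv_inv] at e1 e2
    rw [mul_one] at e2
    change ‖(inner ℂ (v 1) (v (g * w)) : ℂ) - inner ℂ (v 1) (v g)‖ ≤ _
    rw [← e1, ← e2, ← inner_sub_right]
    simpa [hn] using norm_inner_le_norm (𝕜 := ℂ) (v g⁻¹) (v w - v 1)

/-- the limit along an ultrafilter -/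
theorem limit (N : Subgroup G) {ι : Type} [Fintype ι] (c : ι → ℝ) (A : ι → G →₀ ℂ) {η : ℝ}
    (H : ∀ (W : Finset N) (k : ℕ), ∃ φ : G → ℂ, PD φ ∧ (∀ g, ‖φ g‖ ≤ 1) ∧
      ∑ l, c l * (Bf φ (A l) (A l)).re ≤ -η ∧
      ∀ w ∈ W, ∀ g, ((k : ℝ) + 1) * ‖φ (g * w) - φ g‖ ^ 2 ≤ -∑ l, c l * (Bf φ (A l) (A l)).re) :
    ∃ φ : G → ℂ, PD φ ∧ (∀ g, ∀ w ∈ N, φ (g * w) = φ g) ∧
      ∑ l, c l * (Bf φ (A l) (A l)).re ≤ -η := by
  classical
  choose φ h1 h2 h3 h4 using H
  let U : Ultrafilter (Finset N × ℕ) := Ultrafilter.of atTop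
  have hU : (U : Filter (Finset N × ℕ)) ≤ atTop := Ultrafilter.of_le _
  have hex : ∀ g, ∃ z : ℂ, Tendsto (fun j : Finset N × ℕ => φ j.1 j.2 g) U (𝓝 z) := fun g => by
    obtain ⟨z, -, hz⟩ := (isCompact_closedBall (0 : ℂ) 1).ultrafilter_le_nhds
      (U.map fun j => φ j.1 j.2 g) (by
        rw [Ultrafilter.coe_map, le_principal_iff, mem_map]
        exact univ_mem' fun j => by simpa using h2 j.1 j.2 g)
    exact ⟨z, hz⟩
  choose ψ hψ using hex
  have hS : Tendsto (fun j : Finset N × ℕ => ∑ l, c l * (Bf (φ j.1 j.2) (A l) (A l)).re) U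
      (𝓝 (∑ l, c l * (Bf ψ (A l) (A l)).re)) :=
    tendsto_finsetSum _ fun l _ => (tendsto_Bf hψ _).const_mul _
  refine ⟨ψ, ⟨fun g => ?_, fun B => ?_⟩, fun g w hw => ?_,
    le_of_tendsto' hS fun j => h3 j.1 j.2⟩
  · refine tendsto_nhds_unique (hψ g⁻¹) ?_
    simp only [(h1 _ _).herm]
    exact (Complex.continuous_conj.tendsto _).comp (hψ g)
  · exact ge_of_tendsto' (tendsto_Bf hψ B) fun j => (h1 j.1 j.2).pos B
  · have hk : Tendsto (fun j : Finset N × ℕ => 1 / ((j.2 : ℝ) + 1)) U (𝓝 0) :=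
      (tendsto_one_div_add_atTop_nhds_zero_nat.comp
        (by rw [← prod_atTop_atTop_eq]; exact tendsto_snd)).mono_left hU
    have hR := hk.mul hS.neg
    rw [zero_mul] at hR
    have hL := ((hψ (g * w)).sub (hψ g)).norm.pow 2
    have hle := le_of_tendsto_of_tendsto hL hR (by
      filter_upwards [hU (eventually_ge_atTop (({⟨w, hw⟩} : Finset N), 0))] with j hj
      have h5 := h4 j.1 j.2 ⟨w, hw⟩ (hj.1 (Finset.mem_singleton_self _)) g
      have h6 : (0 : ℝ) < (j.2 : ℝ) + 1 := by positivity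
      rw [one_div, ← div_eq_inv_mul, le_div_iff₀ h6, mul_comm]
      exact h5)
    have h0 : ‖ψ (g * w) - ψ g‖ = 0 := pow_eq_zero_iff two_ne_zero |>.mp
      (le_antisymm hle (by positivity))
    exact sub_eq_zero.mp (norm_eq_zero.mp h0)

variable {m n S : Type} [Fintype m] [Fintype n] [Fintype S] [DecidableEq m] [DecidableEq n]

theorem inner_act {U : FreeGroup S → Mat m m} {V : FreeGroup S → Mat n n} (hU : IsRep U)
    (hV : IsRep V) (x : Mat m n) (g k : FreeGroup S) :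
    (inner ℂ (U g * x * (V g)ᴴ) (U k * x * (V k)ᴴ) : ℂ)
      = inner ℂ (U 1 * x * (V 1)ᴴ) (U (g⁻¹ * k) * x * (V (g⁻¹ * k))ᴴ) := by
  rw [inner_def, inner_def, hU.one, hV.one, hU.mul, hV.mul, hU.inv, hV.inv]
  simp only [conjTranspose_mul, conjTranspose_conjTranspose, conjTranspose_one, Matrix.one_mul,
    Matrix.mul_one, Matrix.mul_assoc]
  rw [trace_mul_comm]
  simp only [Matrix.mul_assoc]

end T4Aux

open T4Aux in
theorem t4 : S_T4 := by
  intro S _ Nr _ ι _ c A hA η hη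
  classical
  by_contra hc
  push Not at hc
  obtain ⟨φ, h1, h2, h3⟩ := limit Nr c A (η := η) fun W k => by
    obtain ⟨m, n, _, _, _, _, U, V, hU, hV, x, hx⟩ := hc (W.image Subtype.val) ((k : ℝ) + 1)
      (by simp) (fun w hw => by
        obtain ⟨w', -, rfl⟩ := Finset.mem_image.mp hw
        exact w'.2)
    have hx0 : x ≠ 0 := by
      rintro rfl
      simp [bad] at hx
    have hn : 0 < ‖x‖ := norm_pos_iff.mpr hx0
    have ht : ‖((‖x‖⁻¹ : ℝ) : ℂ)‖ = ‖x‖⁻¹ := by simp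
    obtain ⟨φ, p1, p2, p3, p4⟩ := orbit (fun g => ((‖x‖⁻¹ : ℝ) : ℂ) • (U g * x * (V g)ᴴ))
      (fun g k => by simp only [inner_smul_left, inner_smul_right, inner_act hU hV x g k])
      (by
        rw [norm_smul, ht, hU.one, hV.one, conjTranspose_one, Matrix.one_mul, Matrix.mul_one]
        exact inv_mul_cancel₀ hn.ne')
    have p5 : ∑ l, c l * (Bf φ (A l) (A l)).re
        = ‖x‖⁻¹ ^ 2 * ∑ l, c l * ‖(A l).sum fun g z => z • (U g * x * (V g)ᴴ)‖ ^ 2 := by
      rw [Finset.mul_sum]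
      refine Finset.sum_congr rfl fun l _ => ?_
      have e : ((A l).sum fun g z => z • (((‖x‖⁻¹ : ℝ) : ℂ) • (U g * x * (V g)ᴴ)))
          = ((‖x‖⁻¹ : ℝ) : ℂ) • (A l).sum fun g z => z • (U g * x * (V g)ᴴ) := by
        rw [Finsupp.smul_sum]
        exact Finsupp.sum_congr fun g _ => smul_comm _ _ _
      rw [p3, e, norm_smul, ht]
      ring
    have hb := bad_nonneg U V (W.image Subtype.val) x
    have hk : (0 : ℝ) ≤ (k : ℝ) + 1 := by positivity
    have hi : (0 : ℝ) ≤ ‖x‖⁻¹ ^ 2 := by positivity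
    have p6 : ∑ l, c l * (Bf φ (A l) (A l)).re
        ≤ -η - ((k : ℝ) + 1) * (‖x‖⁻¹ ^ 2 * bad U V (W.image Subtype.val) x) := by
      rw [p5]
      refine (mul_le_mul_of_nonneg_left hx.le hi).trans (le_of_eq ?_)
      field_simp
    have hkb := mul_nonneg hk (mul_nonneg hi hb)
    refine ⟨φ, p1, p2, by linarith, fun w hw g => ?_⟩
    have q1 : ‖φ (g * w) - φ g‖ ≤ ‖x‖⁻¹ * ‖U w * x - x * V w‖ := by
      refine (p4 g w).trans ?_
      rw [← smul_sub, norm_smul, ht, hU.one, hV.one, conjTranspose_one, Matrix.one_mul,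
        Matrix.mul_one]
      refine mul_le_mul_of_nonneg_left ?_ (by positivity)
      have e : U w * x * (V w)ᴴ - x = (U w * x - x * V w) * (V w)ᴴ := by
        rw [Matrix.sub_mul, Matrix.mul_assoc x, (hV.uni w).2, Matrix.mul_one]
      rw [e]
      exact (hV.uni w).adj.ctr.mul_norm_le _
    have q2 : ‖U w * x - x * V w‖ ^ 2 ≤ bad U V (W.image Subtype.val) x :=
      Finset.single_le_sum (f := fun w => ‖U w * x - x * V w‖ ^ 2) (fun _ _ => by positivity)
        (Finset.mem_image_of_mem _ hw)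
    have q3 : ‖φ (g * w) - φ g‖ ^ 2 ≤ ‖x‖⁻¹ ^ 2 * bad U V (W.image Subtype.val) x := by
      refine (pow_le_pow_left₀ (norm_nonneg _) q1 2).trans ?_
      rw [mul_pow]
      exact mul_le_mul_of_nonneg_left q2 hi
    have q4 := mul_le_mul_of_nonneg_left q3 hk
    linarith
  obtain ⟨E, i1, i2, ρ, ξ, hρ⟩ := gns_quot Nr h1 h2
  have h4 := hA E ρ ξ
  simp only [norm_sum_sq φ (fun g => ρ (QuotientGroup.mk g) ξ) hρ] at h4
  linarith

end Pool.Agent.P.MP_7f9919_an.NH
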