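import Pool.Agent.P.MP_7f9919_an.NH.B5

set_option autoImplicit false

namespace Pool.Agent.P.MP_7f9919_an.NH

open Matrix
open scoped MatrixOrder ComplexOrder

namespace TStarAux

open Finsupp

variable {F E : Type} [AddCommGroup E] [Module ℂ E]

/-- the average of a family of words as an element of the group algebra -/
noncomputable def av {N : ℕ} (g : Fin N → F) : F →₀ ℂ := (N : ℂ)⁻¹ • ∑ i, single (g i) 1

theorem ev_sub (A B : F →₀ ℂ) (f : F → E) : ((A - B).sum fun g z => z • f g) =
    (A.sum fun g z => z • f g) - B.sum fun g z => z • f g :=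
  map_sub (linearCombination ℂ f) A B

theorem ev_single (a : F) (f : F → E) : ((single a (1 : ℂ)).sum fun g z => z • f g) = f a :=
  (linearCombination_single ℂ (1 : ℂ) a).trans (one_smul _ _)

theorem ev_av {N : ℕ} (g : Fin N → F) (f : F → E) :
    ((av g).sum fun g z => z • f g) = (N : ℂ)⁻¹ • ∑ i, f (g i) := by
  change linearCombination ℂ f _ = _
  simp [av]

theorem good_quot {Γ : Type} [Group Γ] {x : Fin 7 → Γ} (h : G73.Good x) :
    G73.Good fun s => (QuotientGroup.mk (FreeGroup.of s) :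
      FreeGroup (Fin 7) ⧸ (FreeGroup.lift x).ker) := by
  have hi := QuotientGroup.kerLift_injective (FreeGroup.lift x)
  have e : ∀ s, QuotientGroup.kerLift (FreeGroup.lift x) (QuotientGroup.mk (FreeGroup.of s)) =
      x s := fun s => by simp
  refine ⟨fun s => hi ?_, fun s s' => ⟨hi ?_, hi ?_⟩⟩
  · rw [map_pow, e, h.1, map_one]
  · simp only [map_mul, map_commutatorElement, e]
    exact (h.2 s s').1
  · simp only [map_mul, map_commutatorElement, e]
    exact (h.2 s s').2

theorem lift_mk {S : Type} (Nr : Subgroup (FreeGroup S)) [Nr.Normal] (g : FreeGroup S) :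
    FreeGroup.lift (fun s => (QuotientGroup.mk (FreeGroup.of s) : FreeGroup S ⧸ Nr)) g =
      QuotientGroup.mk g :=
  (FreeGroup.lift_unique (QuotientGroup.mk' Nr) fun _ => rfl).symm

variable {m n S : Type} [Fintype m] [Fintype n]

theorem avg_eq {N : ℕ} (g : Fin N → FreeGroup S) (U : FreeGroup S → Mat m m)
    (V : FreeGroup S → Mat n n) (x : Mat m n) :
    (N : ℂ)⁻¹ • ∑ i, U (g i) * x * (V (g i))ᴴ = avg g U V x := by
  rw [avg, ← Complex.coe_smul]
  simp

end TStarAux

open TStarAux Finsupp in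
theorem tstar : S_T3 → S_T4 → S_TStar := by
  classical
  intro h3 h4 Γ _ x hx η hη
  obtain ⟨N, g, hN, h⟩ := h3 (η / 2) (half_pos hη)
  have h' := fun (E : Type) [SeminormedAddCommGroup E] [InnerProductSpace ℂ E] ρ (ξ : E) =>
    h _ E ρ _ (good_quot hx) ξ _ rfl
  simp only [lift_mk] at h'
  obtain ⟨W1, C1, c1, w1, k1⟩ := h4 (Fin 7) (FreeGroup.lift x).ker (Option (Fin 7))
    (fun l => l.elim (-1) fun _ => 175 * 101 ^ 2)
    (fun l => l.elim (av g - single 1 1) fun s => single (FreeGroup.of s) 1 - single 1 1)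
    (fun E _ _ ρ ξ => by
      have := (h' E ρ ξ).1
      simp only [Fintype.sum_option, Option.elim, ev_sub, ev_single, ev_av, ← Finset.mul_sum,
        QuotientGroup.mk_one, map_one, LinearIsometryEquiv.coe_one, id]
      linarith) η hη
  obtain ⟨W2, C2, c2, w2, k2⟩ := h4 (Fin 7) (FreeGroup.lift x).ker (Option (Fin 7))
    (fun l => l.elim (η / 2) fun _ => -1)
    (fun l => l.elim (single 1 1) fun s => (av fun i => FreeGroup.of s * g i) - av g)
    (fun E _ _ ρ ξ => by
      have := (h' E ρ ξ).2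
      simp only [map_smul, map_sum] at this
      simp only [Fintype.sum_option, Option.elim, ev_sub, ev_single, ev_av, ← Finset.mul_sum,
        QuotientGroup.mk_one, map_one, LinearIsometryEquiv.coe_one, id, QuotientGroup.mk_mul,
        map_mul, LinearIsometryEquiv.coe_mul, Function.comp_apply]
      linarith) (η / 2) (half_pos hη)
  refine ⟨N, g, W1 ∪ W2, max C1 C2, hN, le_max_of_le_left c1,
    fun w hw => (Finset.mem_union.mp hw).elim (w1 w) (w2 w), fun m n _ _ _ _ U V hU hV y => ?_⟩
  have a1 := k1 m n U V hU hV y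
  have a2 := k2 m n U V hU hV y
  have b1 : C1 * bad U V W1 y ≤ max C1 C2 * bad U V (W1 ∪ W2) y :=
    mul_le_mul (le_max_left _ _) (bad_mono _ _ Finset.subset_union_left _) (bad_nonneg _ _ _ _)
      (by positivity)
  have b2 : C2 * bad U V W2 y ≤ max C1 C2 * bad U V (W1 ∪ W2) y :=
    mul_le_mul (le_max_right _ _) (bad_mono _ _ Finset.subset_union_right _) (bad_nonneg _ _ _ _)
      (by positivity)
  have e : ∀ s, (N : ℂ)⁻¹ • ∑ i, U (FreeGroup.of s * g i) * y * (V (FreeGroup.of s * g i))ᴴ =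
      U (FreeGroup.of s) * avg g U V y * (V (FreeGroup.of s))ᴴ := fun s => by
    simp only [← avg_eq, hU.mul, hV.mul, conjTranspose_mul, Matrix.mul_smul, Matrix.smul_mul,
      Matrix.mul_sum, Matrix.sum_mul, Matrix.mul_assoc]
  simp only [Fintype.sum_option, Option.elim, ev_sub, ev_single, ev_av, ← Finset.mul_sum, e,
    avg_eq, hU.one, hV.one, conjTranspose_one, Matrix.one_mul, Matrix.mul_one,
    norm_conj_sub (hV.uni _)] at a1 a2
  constructor
  · change _ ≤ _ * ∑ s, ‖U (FreeGroup.of s) * y - y * V (FreeGroup.of s)‖ ^ 2 + _ + _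
    linarith
  · change ∑ s, ‖U (FreeGroup.of s) * avg g U V y - avg g U V y * V (FreeGroup.of s)‖ ^ 2 ≤ _
    linarith

end Pool.Agent.P.MP_7f9919_an.NH
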