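import Pool.Agent.P.MP_7f9919_an.NH.B5

set_option autoImplicit false

namespace Pool.Agent.P.MP_7f9919_an.NH

open Matrix
open scoped MatrixOrder ComplexOrder

namespace ThmIAux

/-- the choice of the frame threshold -/
theorem consts {σ K1 c ηs α : ℝ} (hσ : 1 ≤ σ) (hK : 1 ≤ K1) (hc : 0 < c) (hc1 : c ≤ 1)
    (hα : 0 < α) (hαη : α ≤ ηs / 2) : ∃ η η1 : ℝ, 0 < η ∧ η1 = 8 * η / c ∧ η1 ≤ 1 / 2 ∧
      2 * (2 * η + 48 * σ * η1) ≤ α / (10 ^ 6 * K1) ∧ 2 * (2 * η + 16 * σ * η1) ≤ ηs ∧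
      4 * Real.sqrt η1 ≤ ηs / 2 := by
  obtain ⟨A, hA⟩ : ∃ A, A = α / (10 ^ 6 * K1) := ⟨_, rfl⟩
  have hA0 : 0 < A := by rw [hA]; positivity
  have hA1 : A ≤ α := by rw [hA]; exact div_le_self hα.le (by nlinarith)
  have hη : 0 < ηs := by linarith
  obtain ⟨e, he⟩ : ∃ e, e = min (1 / 2) (min ((ηs / 8) ^ 2) (A / (100 * σ))) := ⟨_, rfl⟩
  have e0 : 0 < e := by rw [he]; positivity
  have e1 : e ≤ 1 / 2 := he ▸ min_le_left _ _
  have e2 : e ≤ (ηs / 8) ^ 2 := he ▸ (min_le_right _ _).trans (min_le_left _ _)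
  have e3 : e ≤ A / (100 * σ) := he ▸ (min_le_right _ _).trans (min_le_right _ _)
  rw [le_div_iff₀ (by positivity)] at e3
  have e4 : c * e ≤ e := mul_le_of_le_one_left e0.le hc1
  have e5 : e ≤ σ * e := le_mul_of_one_le_left e0.le hσ
  have e6 : Real.sqrt e ≤ ηs / 8 := Real.sqrt_le_iff.mpr ⟨by positivity, e2⟩
  refine ⟨c * e / 8, e, by positivity, by field_simp, e1, ?_, ?_, by linarith⟩
  · rw [← hA]; nlinarith
  · nlinarith

variable {m n S : Type} [Fintype m] [Fintype n] [Fintype S] [DecidableEq m] [DecidableEq n]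

theorem gap_mono {a : S → Mat n n} {c c' : ℝ} (h : Gap a c) (hc : c' ≤ c) : Gap a c' := fun y => by
  obtain ⟨ζ, hζ⟩ := h y
  exact ⟨ζ, (mul_le_mul_of_nonneg_right hc (sq_nonneg _)).trans hζ⟩

omit [DecidableEq m] [DecidableEq n] in
theorem sep_symm {a : S → Mat m m} {b : S → Mat n n} {c : ℝ} (h : Sep a b c) : Sep b a c :=
  fun z => by
    classical
    have := h zᴴ
    rwa [norm_adj, D2_adj] at this

/-- a family of pairwise separated types with low frames -/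
structure Str (u : S → Mat n n) (c c' η ζ0 β0 : ℝ) (W : Finset (FreeGroup S)) {ι : Type}
    (T : ι → TF n S) : Prop where
  ty : ∀ i, TyOK (T i).a c ζ0 β0 W
  low : ∀ i, LowFrame u (T i).a η (T i).x
  sep : ∀ i j, i ≠ j → Sep (T i).a (T j).a c'

omit [DecidableEq n] in
theorem Str.add {u : S → Mat n n} {c c' η ζ0 β0 : ℝ} {W : Finset (FreeGroup S)} {ι : Type}
    {T : ι → TF n S} (h : Str u c c' η ζ0 β0 W T) (t : TF n S) (h1 : TyOK t.a c ζ0 β0 W)
    (h2 : LowFrame u t.a η t.x) (h3 : ∀ i, Sep t.a (T i).a c') :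
    Str u c c' η ζ0 β0 W fun o : Option ι => o.elim t T where
  ty o := by
    cases o with
    | none => exact h1
    | some i => exact h.ty i
  low o := by
    cases o with
    | none => exact h2
    | some i => exact h.low i
  sep o o' hne := by
    cases o with
    | none =>
      cases o' with
      | none => exact absurd rfl hne
      | some j => exact h3 j
    | some i =>
      cases o' with
      | none => exact sep_symm (h3 i)
      | some j => exact h.sep i j fun e => hne (congrArg some e)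

theorem Str.block (hBl : S_Block) {u : S → Mat n n} {c c' η ζ0 β0 : ℝ} {W : Finset (FreeGroup S)}
    {ι : Type} [Fintype ι] {T : ι → TF n S} (h : Str u c c' η ζ0 β0 W T) (h0 : 0 < c')
    (hc : c' ≤ c) : ∃ d : KD n S, Fintype.card d.κ = ∑ i, (T i).r * (T i).d ∧ d.Alg c' ∧
      D2 u d.VV d.V ≤ η * Fintype.card d.κ ∧
      (∀ b ∈ Com d.VV, trace (b * (d.Vᴴ * d.V)) = trace b) ∧
      ∀ (i : ι) (y : Mat n (Fin (T i).d)),
        ∑ j, ((T i).d : ℝ) * ‖((T i).x j)ᴴ * y‖ ^ 2 ≤ ‖d.Vᴴ * y‖ ^ 2 :=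
  hBl n S ι u T c' η h0 (fun i => by simpa using (h.ty i).1) (fun i => (h.ty i).2.1)
    (fun i => gap_mono (h.ty i).2.2.1 hc) h.sep (fun i => (h.low i).1) fun i => (h.low i).2.1

omit [DecidableEq n] in
/-- a structure of maximal size -/
theorem exists_max {u : S → Mat n n} {c c' η ζ0 β0 : ℝ} {W : Finset (FreeGroup S)} (N : ℕ)
    (hN : ∀ (ι : Type) [Fintype ι] (T : ι → TF n S), Str u c c' η ζ0 β0 W T →
      ∑ i, (T i).r * (T i).d ≤ N) :
    ∃ (ι : Type) (_ : Fintype ι) (T : ι → TF n S), Str u c c' η ζ0 β0 W T ∧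
      ∀ t : TF n S, TyOK t.a c ζ0 β0 W → LowFrame u t.a η t.x → (∀ i, Sep t.a (T i).a c') →
        t.r = 0 := by
  obtain ⟨k, ⟨ι, _, T, hT, rfl⟩, hk⟩ := Set.exists_max_image
    {k : ℕ | ∃ (ι : Type) (_ : Fintype ι) (T : ι → TF n S), Str u c c' η ζ0 β0 W T ∧
      ∑ i, (T i).r * (T i).d = k} id
    ((Set.finite_le_nat N).subset (by
      rintro _ ⟨ι, _, T, hT, rfl⟩
      exact hN ι T hT))
    ⟨_, Empty, inferInstance, fun i => i.elim, ⟨fun i => i.elim, fun i => i.elim, fun i => i.elim⟩,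
      rfl⟩
  refine ⟨ι, inferInstance, T, hT, fun t h1 h2 h3 => ?_⟩
  have h4 := hk _ ⟨Option ι, inferInstance, _, hT.add t h1 h2 h3, rfl⟩
  rw [Fintype.sum_option] at h4
  have h5 : t.r * t.d + ∑ i, (T i).r * (T i).d ≤ ∑ i, (T i).r * (T i).d := h4
  have h6 : 0 < t.d := by simpa using h1.1
  exact (Nat.mul_eq_zero.mp (by omega)).resolve_right h6.ne'

end ThmIAux

open ThmIAux

theorem thmI (hImp : S_Imp) (hP : S_P) (hLow : S_Low) (hNew : S_New) (hCov : S_Cover)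
    (hBl : S_Block) (hPre : S_Pre) : S_ThmI := by
  intro S _ _ Nr _ K hK hT
  have hσ : (1 : ℝ) ≤ Fintype.card S := by exact_mod_cast Fintype.card_pos
  have hK1 : 1 ≤ 16 * K := by linarith
  obtain ⟨c, hc⟩ : ∃ c : ℝ, c = (1 / (400 * (16 * K))) ^ 2 / (2 * Fintype.card S) := ⟨_, rfl⟩
  have hγ : 1 / (400 * (16 * K)) ≤ 1 := by rw [div_le_one (by positivity)]; linarith
  have hγ0 : 0 < 1 / (400 * (16 * K)) := by positivity
  have hc0 : 0 < c := by rw [hc]; positivity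
  have hc1 : c ≤ 1 := by
    rw [hc, div_le_one (by positivity)]
    exact (pow_le_one₀ hγ0.le hγ).trans (by linarith)
  obtain ⟨c', hc'⟩ : ∃ c' : ℝ, c' = c / (10 ^ 5 * Fintype.card S * K) := ⟨_, rfl⟩
  have hc0' : 0 < c' := by rw [hc']; positivity
  have hcc : c' ≤ c := by
    rw [hc']
    exact div_le_self hc0.le (one_le_mul_of_one_le_of_one_le (by linarith) hK)
  refine ⟨c', hc0', fun ηs hηs => ?_⟩
  obtain ⟨α, hα0, hα1, hα2⟩ : ∃ α : ℝ, 0 < α ∧ α ≤ 1 ∧ α ≤ ηs / 2 :=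
    ⟨min 1 (ηs / 2), by positivity, min_le_left _ _, min_le_right _ _⟩
  obtain ⟨η, η1, hη, hη1, b1, b2, b3, b4⟩ := consts hσ hK1 hc0' (hcc.trans hc1) hα0 hα2
  obtain ⟨η', hη', f1, f2⟩ : ∃ η' : ℝ, 0 < η' ∧ η' ≤ η / 2000 ∧ η' ≤ 1 / 1000 :=
    ⟨min (η / 2000) (1 / 1000), by positivity, min_le_left _ _, min_le_right _ _⟩
  obtain ⟨N, g, W', C', -, hC', hW', hAt⟩ := hT η' hη'
  obtain ⟨ζ0, hζ0, f3, f4⟩ : ∃ ζ0 : ℝ, 0 < ζ0 ∧ ζ0 ≤ η / 1000 ∧ ζ0 ≤ 1 / (4000 * K) :=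
    ⟨min (η / 1000) (1 / (4000 * K)), by positivity, min_le_left _ _, min_le_right _ _⟩
  obtain ⟨β0, hβ0, f5⟩ : ∃ β0 : ℝ, 0 < β0 ∧ 4 * C' * β0 ≤ η' :=
    ⟨η' / (4 * C'), by positivity, le_of_eq (by field_simp)⟩
  obtain ⟨β1, hβ1, f6⟩ : ∃ β1 : ℝ, 0 < β1 ∧ 4 * β1 ≤ β0 :=
    ⟨β0 / 4, by positivity, le_of_eq (by field_simp)⟩
  obtain ⟨L, hL, hWL⟩ := exists_wordBd W'
  obtain ⟨ζ, hζ, f7, f8, f9⟩ : ∃ ζ : ℝ, 0 < ζ ∧ ζ ≤ ζ0 ∧ ζ ≤ 1 / (8000 * K) ∧ 16 * L * ζ ≤ β0 := by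
    refine ⟨min ζ0 (min (1 / (8000 * K)) (β0 / (16 * L + 1))), by positivity, min_le_left _ _,
      (min_le_right _ _).trans (min_le_left _ _), ?_⟩
    have h1 := (min_le_right ζ0 _).trans (min_le_right (1 / (8000 * K)) (β0 / (16 * L + 1)))
    have h2 : 0 < min ζ0 (min (1 / (8000 * K)) (β0 / (16 * L + 1))) := by positivity
    rw [le_div_iff₀ (by positivity)] at h1
    nlinarith
  obtain ⟨η2, hη2, hP2⟩ := hP S (16 * K) α ζ β1 hK1 hα0 hα1 hζ hβ1
  obtain ⟨W1, Wp, C, hC, s1, s2, hWp, hI⟩ := hImp S Nr K hT η2 hη2 W' hW'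
  obtain ⟨ε, hε, hP3⟩ := hP2 C (4 * Wp.card + 1) hC (by positivity)
  refine ⟨Wp, ε, hε, hWp, fun n _ _ U hU hW => ?_⟩
  obtain ⟨ι, _, T, hT, hmax⟩ := exists_max (u := gen U) (c := c) (c' := c') (η := η) (ζ0 := ζ0)
    (β0 := β0) (W := W') (2 * Fintype.card n) fun ι _ T hT => by
      obtain ⟨d, d1, d2, d3, d4, -⟩ := hT.block hBl hc0' hcc
      rw [← d1]
      exact (hPre n d.κ S (gen U) d.VV d.V c' η η1 hU.gen_ctr d2.1 hc0' hη.le hη1 b1 d2.2.1 d3
        d4).1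
  obtain ⟨d, -, d2, d3, d4, d5⟩ := hT.block hBl hc0' hcc
  obtain ⟨k2, ⟨P0, p1, p2, p3, p4⟩, V, v1, v2, v3⟩ :=
    hPre n d.κ S (gen U) d.VV d.V c' η η1 hU.gen_ctr d2.1 hc0' hη.le hη1 b1 d2.2.1 d3 d4
  have k2' : (Fintype.card d.κ : ℝ) ≤ 2 * Fintype.card n := by exact_mod_cast k2
  have hn0 : (0 : ℝ) ≤ Fintype.card n := Nat.cast_nonneg _
  have hη10 : 0 ≤ η1 := by rw [hη1]; positivity
  have claim : (1 - α) * Fintype.card n ≤ tr P0 := by
    by_contra hlt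
    rw [not_le] at hlt
    have hn : 0 < Fintype.card n := by
      rcases Nat.eq_zero_or_pos (Fintype.card n) with h | h
      · rw [h, Nat.cast_zero, mul_zero] at hlt
        exact absurd p1.tr_nonneg (not_le.mpr hlt)
      · exact h
    obtain ⟨r, hr⟩ := hP3 n (gen U) (BW U W1) (BW U Wp) P0 hn hU.gen_uni (BW_nonneg U W1)
      (BW_mono U s2)
      ((BW_le hU Wp).trans (by
        rw [add_smul, one_smul]
        exact le_add_of_nonneg_right isProj_one.nonneg))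
      (by rw [tr_BW]; exact hW) (hI n U hU) p1 hlt.le
      (p3.trans (by
        have h1 : (0 : ℝ) ≤ 2 * η + 48 * Fintype.card S * η1 := by positivity
        calc _ ≤ (2 * η + 48 * Fintype.card S * η1) * (2 * Fintype.card n) :=
              mul_le_mul_of_nonneg_left k2' h1
          _ = 2 * (2 * η + 48 * Fintype.card S * η1) * Fintype.card n := by ring
          _ ≤ α / (10 ^ 6 * (16 * K)) * Fintype.card n := mul_le_mul_of_nonneg_right b2 hn0
          _ = _ := by ring))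
    obtain ⟨e, x, x1, x2, x3, x4, x5⟩ := hNew n S U (BW U W1) P0 r W' _ ζ β1 ζ0 β0 L hU
      (BW_mono U s1) hr hγ0.le hWL hL f7 f9 f6
    rw [← hc] at x4
    obtain ⟨r1, -, -, r2, r3, r4⟩ := hr
    obtain ⟨m, fr, hfr⟩ := hLow n (Fin e) S (gen U) (fun s => xᴴ * gen U s * x) η
    have he : (Fintype.card (Fin e) : ℝ) = tr r := by rw [Fintype.card_fin, x1]
    have hm : m = 0 := hmax ⟨e, fun s => xᴴ * gen U s * x, m, fr⟩ x4 hfr fun i =>
      hCov n (Fin e) (Fin (T i).d) S U P0 x (T i).a (T i).r (T i).x N g W' K c c' η η' C' ζ ζ0 β0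
        β1 hU hK hc0 hc1 hc' hη hη' f1 f2 hC' hAt f3 f4 f5 f6 hβ1.le hζ.le f8 (hT.ty i) (hT.low i)
        x2 x4.2.2.1 (by rw [x3, he]; exact r2)
        (by rw [x3, he]; exact (tr_mul_le_left (BW_mono U s1) r1.nonneg).trans r3) p1
        (by rw [x3, he]; exact r4)
        fun y => by
          rw [Fintype.card_fin]
          exact (d5 i _).trans (p4 _ y)
    subst hm
    have h1 := hfr.2.2 x
    rw [Finset.univ_eq_empty, Finset.sum_empty, sub_zero, x5, norm_sq_eq_tr, x2, tr_one, he] at h1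
    have h2 : 0 < tr r := by rw [← he]; exact_mod_cast x4.1
    have h3 := mul_pos hη h2
    have h4 := mul_le_mul_of_nonneg_right (f7.trans f3) h2.le
    linarith
  have q1 : 2 * Real.sqrt η1 * Fintype.card d.κ ≤ ηs / 2 * Fintype.card n :=
    calc _ ≤ 2 * Real.sqrt η1 * (2 * Fintype.card n) :=
          mul_le_mul_of_nonneg_left k2' (by positivity)
      _ = 4 * Real.sqrt η1 * Fintype.card n := by ring
      _ ≤ _ := mul_le_mul_of_nonneg_right b4 hn0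
  have q2 : α * Fintype.card n ≤ ηs / 2 * Fintype.card n := mul_le_mul_of_nonneg_right hα2 hn0
  have q3 : 0 ≤ ηs * Fintype.card n := by positivity
  refine ⟨{ d with V := V }, d2, v1, v2.trans ?_, ?_, ?_⟩
  · calc _ ≤ (2 * η + 16 * Fintype.card S * η1) * (2 * Fintype.card n) :=
          mul_le_mul_of_nonneg_left k2' (by positivity)
      _ = 2 * (2 * η + 16 * Fintype.card S * η1) * Fintype.card n := by ring
      _ ≤ _ := mul_le_mul_of_nonneg_right b3 hn0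
  · change (Fintype.card d.κ : ℝ) - ‖V‖ ^ 2 ≤ _
    linarith
  · change (Fintype.card n : ℝ) - ‖V‖ ^ 2 ≤ _
    linarith

end Pool.Agent.P.MP_7f9919_an.NH
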