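import Pool.Agent.P.MP_7f9919_an.NH.Eps
import Pool.Agent.P.MP_7f9919_an.NH.Step
import Pool.Agent.P.MP_7f9919_an.NH.Cover
import Pool.Agent.P.MP_7f9919_an.NH.Mass
import Pool.Agent.P.MP_7f9919_an.NH.Block
import Pool.Agent.P.MP_7f9919_an.NH.T4
import Pool.Agent.P.MP_7f9919_an.NH.ThmI
import Pool.Agent.P.MP_7f9919_an.NH.L13
import Pool.Agent.P.MP_7f9919_an.NH.T1
import Pool.Agent.P.MP_7f9919_an.NH.T3
import Pool.Agent.P.MP_7f9919_an.NH.TStar
import Pool.Agent.P.MP_7f9919_an.NH.Imp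
import Pool.Agent.P.MP_7f9919_an.NH.Key
import Pool.Agent.P.MP_7f9919_an.NH.L12
import Pool.Agent.P.MP_7f9919_an.NH.PropP
import Pool.Agent.P.MP_7f9919_an.NH.Pre
import Pool.Agent.P.MP_7f9919_an.NH.Cheeger
import Pool.Agent.P.MP_7f9919_an.NH.New
import Pool.Agent.P.MP_7f9919_an.NH.Cand
import Pool.Agent.P.MP_7f9919_an.NH.Low

set_option autoImplicit false

namespace Pool.Agent.P.MP_7f9919_an.NH

theorem s_TStar : S_TStar := tstar (t3 t1) t4

theorem s_P : S_P := propP step (mass l12 l13 (key l12)) (cand l13)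

theorem s_ThmI : S_ThmI := thmI imp s_P low (newType cheeger) cover block pre

theorem nh_of_II (h : S_II) : S_NH := nh_of s_TStar s_ThmI h

end Pool.Agent.P.MP_7f9919_an.NH
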