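import Pool.Agent.P.MP_7f9919_an.NH.B4
import Pool.Agent.P.MP_7f9919_an.G73.Leavitt

set_option autoImplicit false
set_option linter.unusedVariables false

namespace Pool.Agent.P.MP_7f9919_an.NH

open Matrix Filter Asymptotics
open scoped MatrixOrder ComplexOrder

/-! ## Shared definitions -/

section defs
variable {m n S : Type} [Fintype m] [Fintype n] [Fintype S] [DecidableEq m] [DecidableEq n]

/-- `a (A + a)⁻¹` -/
noncomputable def rg (a : ℝ) (A : Mat n n) : Mat n n := fc (fun l => a / (l + a)) A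

/-- the potential `tr A (A + a)⁻¹ = n - a tr (A + a)⁻¹` -/
noncomputable def Pot (a : ℝ) (A : Mat n n) : ℝ := tr (fc (fun l => l / (l + a)) A)

/-- the spectral projection of `A` for `(-∞, t]` -/
noncomputable def Rle (t : ℝ) (A : Mat n n) : Mat n n := 1 - fc (gtI t) A

/-- partial sums -/
noncomputable def ps (V : ℕ → Mat n n) (j : ℕ) : Mat n n := ∑ l ∈ Finset.range j, V l

/-- unitary representation of the free group -/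
def IsRep (U : FreeGroup S → Mat n n) : Prop :=
  (∀ g, IsUni (U g)) ∧ ∀ g h, U (g * h) = U g * U h

/-- values on the generators -/
def gen (U : FreeGroup S → Mat n n) : S → Mat n n := fun s => U (FreeGroup.of s)

noncomputable def bad (U : FreeGroup S → Mat m m) (V : FreeGroup S → Mat n n)
    (W : Finset (FreeGroup S)) (x : Mat m n) : ℝ := ∑ w ∈ W, ‖U w * x - x * V w‖ ^ 2

noncomputable def BW (U : FreeGroup S → Mat n n) (W : Finset (FreeGroup S)) : Mat n n :=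
  ∑ w ∈ W, (U w - 1)ᴴ * (U w - 1)

/-- average of `x` over a family of words -/
noncomputable def avg {N : ℕ} (g : Fin N → FreeGroup S) (U : FreeGroup S → Mat m m)
    (V : FreeGroup S → Mat n n) (x : Mat m n) : Mat m n :=
  (N : ℝ)⁻¹ • ∑ i, U (g i) * x * (V (g i))ᴴ

/-- commutant of a tuple and its adjoints -/
def Com (a : S → Mat n n) : Submodule ℂ (Mat n n) where
  carrier := {y | ∀ s, a s * y = y * a s ∧ (a s)ᴴ * y = y * (a s)ᴴ}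
  add_mem' := fun hx hy s => by
    simp only [Matrix.mul_add, Matrix.add_mul, (hx s).1, (hx s).2, (hy s).1, (hy s).2, and_self]
  zero_mem' := fun s => by simp
  smul_mem' := fun c x hx s => by
    simp only [Matrix.mul_smul, Matrix.smul_mul, (hx s).1, (hx s).2, and_self]

/-- spectral gap relative to the commutant -/
def GapC (a : S → Mat n n) (c : ℝ) : Prop := ∀ y, ∃ b ∈ Com a, c * ‖y - b‖ ^ 2 ≤ D2 a a y

/-- spectral gap relative to the scalars -/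
def Gap (a : S → Mat n n) (c : ℝ) : Prop :=
  ∀ y, ∃ ζ : ℂ, c * ‖y - ζ • (1 : Mat n n)‖ ^ 2 ≤ D2 a a y

def Sep (a : S → Mat m m) (b : S → Mat n n) (c : ℝ) : Prop := ∀ z, c * ‖z‖ ^ 2 ≤ D2 a b z

def IMP (u : S → Mat n n) (K1 η C : ℝ) (B1 B : Mat n n) : Prop :=
  ∀ T, IsProj T → ∃ U, IsProj U ∧ ‖U - T‖ ^ 2 ≤ K1 * D u u T + η * tr T + C * tr (B1 * T) ∧
    D u u U ^ 2 ≤ tr T * (η * tr T + C * tr (B1 * T)) ∧ tr (B1 * U) ≤ 4 * tr (B * T)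

def Cand (u : S → Mat n n) (R : Mat n n) (γ : ℝ) (T : Mat n n) : Prop :=
  IsProj T ∧ T ≠ 0 ∧ R * T = T ∧ D u u T ≤ γ * tr T

/-- (r1) - (r4) -/
def Succ (u : S → Mat n n) (B1 P0 : Mat n n) (γ1 ζ β1 : ℝ) (r : Mat n n) : Prop :=
  IsProj r ∧ r ≠ 0 ∧
    (∀ q, IsProj q → r * q = q → tr q ≤ tr r / 2 → γ1 * tr q ≤ ed u q (r - q)) ∧
    D u u r ≤ ζ * tr r ∧ tr (B1 * r) ≤ β1 * tr r ∧ tr (P0 * r) ≤ tr r / 100

/-- a discarded projection `V`, relative to the sum `A` of the earlier ones -/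
def StepOK (u : S → Mat n n) (B E : Mat n n) (a γ δ β : ℝ) (A V : Mat n n) : Prop :=
  IsProj V ∧ V ≠ 0 ∧ tr (V * (1 - Rle (a / 100) A)) ≤ tr V / 40 ∧
    ((Rle (a / 100) A * V = V ∧ D u u V ≤ γ * tr V ∧ β * tr V ≤ tr (B * V)) ∨
     (D u u V ≤ δ * tr V ∧ tr V ≤ 1200 * ‖E * rg a A * V‖ ^ 2) ∨
     (D u u V ≤ δ * tr V ∧ ∀ T, Cand u (Rle (a / 100) A) γ T → tr V < tr T))

/-- conditions (G) and (U) of a type -/
def TyOK (a : S → Mat n n) (c ζ0 β0 : ℝ) (W : Finset (FreeGroup S)) : Prop :=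
  0 < Fintype.card n ∧ (∀ s, Ctr (a s)) ∧ Gap a c ∧
    ∃ v : FreeGroup S → Mat n n, IsRep v ∧ ∑ s, ‖a s - gen v s‖ ^ 2 ≤ ζ0 * Fintype.card n ∧
      ∑ w ∈ W, ‖v w - 1‖ ^ 2 ≤ β0 * Fintype.card n

def LowFrame (u : S → Mat m m) (a : S → Mat n n) (η : ℝ) {r : ℕ} (x : Fin r → Mat m n) : Prop :=
  Orthonormal ℂ x ∧ (∀ j, D2 u a (x j) ≤ η) ∧
    ∀ y, η * (‖y‖ ^ 2 - ∑ j, ‖(inner ℂ (x j) y : ℂ)‖ ^ 2) ≤ D2 u a y

end defs

/-- the two inequalities of T* for given words, relators and constants -/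
def TAt {S : Type} [Fintype S] (K η C : ℝ) {N : ℕ} (g : Fin N → FreeGroup S)
    (W : Finset (FreeGroup S)) : Prop :=
  ∀ (m n : Type) [Fintype m] [Fintype n] [DecidableEq m] [DecidableEq n]
    (U : FreeGroup S → Mat m m) (V : FreeGroup S → Mat n n), IsRep U → IsRep V → ∀ x : Mat m n,
      ‖avg g U V x - x‖ ^ 2 ≤ K * D (gen U) (gen V) x + η * ‖x‖ ^ 2 + C * bad U V W x ∧
      D (gen U) (gen V) (avg g U V x) ≤ η * ‖x‖ ^ 2 + C * bad U V W x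

/-- localised property (T) -/
def TStar {S : Type} [Fintype S] (Nr : Subgroup (FreeGroup S)) (K : ℝ) : Prop :=
  ∀ η > 0, ∃ (N : ℕ) (g : Fin N → FreeGroup S) (W : Finset (FreeGroup S)) (C : ℝ),
    0 < N ∧ 1 ≤ C ∧ (∀ w ∈ W, w ∈ Nr) ∧ TAt K η C g W

/-- the defect on the words of `W` is bounded by the defect on the generators -/
def WordBd {S : Type} [Fintype S] (W : Finset (FreeGroup S)) (L : ℝ) : Prop :=
  ∀ (m n : Type) [Fintype m] [Fintype n] [DecidableEq m] [DecidableEq n]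
    (U : FreeGroup S → Mat m m) (V : FreeGroup S → Mat n n), IsRep U → IsRep V → ∀ x : Mat m n,
      bad U V W x ≤ L * D (gen U) (gen V) x

/-- output data of Theorem I -/
structure KD (n S : Type) : Type 1 where
  κ : Type
  [fκ : Fintype κ]
  [dκ : DecidableEq κ]
  J : Type
  [fJ : Fintype J]
  VV : S → Mat κ κ
  V : Mat n κ
  e : J → Mat κ κ

attribute [instance] KD.fκ KD.dκ KD.fJ

/-- the algebraic part of the output: (I1), (I2) -/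
def KD.Alg {n S : Type} [Fintype S] (d : KD n S) (c : ℝ) : Prop :=
  (∀ s, Ctr (d.VV s)) ∧ GapC d.VV c ∧ (∀ j, IsProj (d.e j)) ∧ ∑ j, d.e j = 1 ∧
    (∀ j, d.e j ∈ Com d.VV) ∧ ∀ j, ∀ b ∈ Com d.VV, ∃ ζ : ℂ, d.e j * b * d.e j = ζ • d.e j

/-- (I1) - (I3), with absolute error `h` -/
def KD.OK {n S : Type} [Fintype n] [Fintype S] (d : KD n S) (u : S → Mat n n) (c h : ℝ) : Prop :=
  d.Alg c ∧ Ctr d.V ∧ D2 u d.VV d.V ≤ h ∧ Fintype.card d.κ - ‖d.V‖ ^ 2 ≤ h ∧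
    Fintype.card n - ‖d.V‖ ^ 2 ≤ h

/-- the conclusion of Theorem I -/
def ThmI {S : Type} [Fintype S] (Nr : Subgroup (FreeGroup S)) : Prop :=
  ∃ c > 0, ∀ η > 0, ∃ (W : Finset (FreeGroup S)) (ε : ℝ), 0 < ε ∧ (∀ w ∈ W, w ∈ Nr) ∧
    ∀ (n : Type) [Fintype n] [DecidableEq n] (U : FreeGroup S → Mat n n), IsRep U →
      ∑ w ∈ W, ‖U w - 1‖ ^ 2 ≤ ε * Fintype.card n →
      ∃ d : KD n S, d.OK (gen U) c (η * Fintype.card n)

/-- a type together with a frame -/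
structure TF (n S : Type) : Type where
  d : ℕ
  a : S → Mat (Fin d) (Fin d)
  r : ℕ
  x : Fin r → Mat n (Fin d)

/-- `f k = o(card (ι k))` -/
def Sm (ι : ℕ → Type) [∀ k, Fintype (ι k)] (f : ℕ → ℝ) : Prop :=
  f =o[atTop] fun k => (Fintype.card (ι k) : ℝ)

/-- asymptotic representation -/
def AsRep {G : Type} [Group G] {ι : ℕ → Type} [∀ k, Fintype (ι k)] [∀ k, DecidableEq (ι k)]
    (u : ∀ k, G → Mat (ι k) (ι k)) : Prop :=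
  (∀ k g, IsUni (u k g)) ∧ ∀ g h, Sm ι fun k => ‖u k (g * h) - u k g * u k h‖ ^ 2

/-- THEOREM NH -/
def S_NH : Prop :=
  ∃ (H : Type) (_ : Group H) (_ : Countable H) (w : H), w ≠ 1 ∧
    ∀ (ι : ℕ → Type) [∀ k, Fintype (ι k)] [∀ k, DecidableEq (ι k)]
      (u : ∀ k, H → Mat (ι k) (ι k)), AsRep u → Sm ι fun k => ‖u k w - 1‖ ^ 2

/-! ## Section 0: resolvents -/

/-- L12 (a), (b), (d) -/
def S_L12 : Prop :=
  ∀ (n : Type) [Fintype n] [DecidableEq n] (A V : Mat n n) (a : ℝ), 0 ≤ A → IsProj V → 0 < a →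
    ‖rg a A * V‖ ^ 2 / (1 + a) ≤ Pot a (A + V) - Pot a A ∧
    Pot a (A + V) - Pot a A ≤ tr V ∧
    (tr (fc (gtI (a / 4)) (rg a A * V * rg a A)) < tr V / 2 →
      Pot a (A + V) - Pot a A ≤ 5 / 8 * tr V)

/-- L13 (a), (b), (c) -/
def S_L13 : Prop :=
  ∀ (n : Type) [Fintype n] [DecidableEq n] (V : ℕ → Mat n n) (J : ℕ) (a : ℝ),
    (∀ l < J, IsProj (V l)) → 0 < a → a ≤ 1 →
    (∀ u : Mat n n, ‖u * rg a (ps V J) - rg a (ps V J) * u‖ ^ 2 ≤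
      a⁻¹ * ∑ l ∈ Finset.range J, ‖u * V l - V l * u‖ ^ 2) ∧
    (∀ u : Mat n n, ∑ j ∈ Finset.range J,
        ‖u * (rg a (ps V j) * V j) - rg a (ps V j) * V j * u‖ ^ 2 ≤
      24 / a * ∑ l ∈ Finset.range J, ‖u * V l - V l * u‖ ^ 2) ∧
    (∀ E : Mat n n, ∑ j ∈ Finset.range J, ‖E * rg a (ps V j) * V j‖ ^ 2 ≤ 3 * ‖E‖ ^ 2)

/-! ## Section 1: property (T) -/

/-- average over the powers of `g` -/
noncomputable def Pav {Γ E : Type} [Group Γ] [SeminormedAddCommGroup E] [InnerProductSpace ℂ E]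
    (ρ : Γ →* (E ≃ₗᵢ[ℂ] E)) (g : Γ) (ξ : E) : E :=
  (101 : ℂ)⁻¹ • ∑ i ∈ Finset.range 101, ρ (g ^ i) ξ

/-- T1 -/
def S_T1 : Prop :=
  ∀ (Γ E : Type) [Group Γ] [SeminormedAddCommGroup E] [InnerProductSpace ℂ E]
    (ρ : Γ →* (E ≃ₗᵢ[ℂ] E)) (x y z : Γ), x ^ 101 = 1 → y ^ 101 = 1 → x * y = y * x * z →
    Commute z x → Commute z y → ∀ ξ : E,
      -(1 / 20) * (‖ξ - Pav ρ x ξ‖ ^ 2 + ‖ξ - Pav ρ y ξ‖ ^ 2) ≤
        (inner ℂ (ξ - Pav ρ x ξ) (ξ - Pav ρ y ξ) : ℂ).re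

/-- T2 and T3 -/
def S_T3 : Prop :=
  ∀ η > 0, ∃ (N : ℕ) (g : Fin N → FreeGroup (Fin 7)), 0 < N ∧
    ∀ (Γ E : Type) [Group Γ] [SeminormedAddCommGroup E] [InnerProductSpace ℂ E]
      (ρ : Γ →* (E ≃ₗᵢ[ℂ] E)) (x : Fin 7 → Γ), G73.Good x → ∀ ξ ξ' : E,
      ξ' = (N : ℂ)⁻¹ • ∑ i, ρ (FreeGroup.lift x (g i)) ξ →
      ‖ξ' - ξ‖ ^ 2 ≤ 175 * 101 ^ 2 * ∑ s, ‖ρ (x s) ξ - ξ‖ ^ 2 ∧
      ∑ s, ‖ρ (x s) ξ' - ξ'‖ ^ 2 ≤ η * ‖ξ‖ ^ 2

/-- T4 (compactness) -/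
def S_T4 : Prop :=
  ∀ (S : Type) [Fintype S] (Nr : Subgroup (FreeGroup S)) [Nr.Normal] (ι : Type) [Fintype ι]
    (c : ι → ℝ) (A : ι → FreeGroup S →₀ ℂ),
    (∀ (E : Type) [SeminormedAddCommGroup E] [InnerProductSpace ℂ E]
      (ρ : (FreeGroup S ⧸ Nr) →* (E ≃ₗᵢ[ℂ] E)) (ξ : E),
      0 ≤ ∑ l, c l * ‖(A l).sum fun g z => z • ρ (QuotientGroup.mk g) ξ‖ ^ 2) →
    ∀ η > 0, ∃ (W : Finset (FreeGroup S)) (C : ℝ), 1 ≤ C ∧ (∀ w ∈ W, w ∈ Nr) ∧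
      ∀ (m n : Type) [Fintype m] [Fintype n] [DecidableEq m] [DecidableEq n]
        (U : FreeGroup S → Mat m m) (V : FreeGroup S → Mat n n), IsRep U → IsRep V →
        ∀ x : Mat m n, -(η * ‖x‖ ^ 2) - C * bad U V W x ≤
          ∑ l, c l * ‖(A l).sum fun g z => z • (U g * x * (V g)ᴴ)‖ ^ 2

/-- T* -/
def S_TStar : Prop :=
  ∀ (Γ : Type) [Group Γ] (x : Fin 7 → Γ), G73.Good x → TStar (FreeGroup.lift x).ker (175 * 101 ^ 2)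

/-! ## Section 2 -/

/-- Lemma 2 -/
def S_Imp : Prop :=
  ∀ (S : Type) [Fintype S] [Nonempty S] (Nr : Subgroup (FreeGroup S)) [Nr.Normal] (K : ℝ),
    TStar Nr K → ∀ η > 0, ∀ W' : Finset (FreeGroup S), (∀ w ∈ W', w ∈ Nr) →
    ∃ (W1 Wp : Finset (FreeGroup S)) (C : ℝ), 1 ≤ C ∧ W' ⊆ W1 ∧ W1 ⊆ Wp ∧ (∀ w ∈ Wp, w ∈ Nr) ∧
      ∀ (n : Type) [Fintype n] [DecidableEq n] (U : FreeGroup S → Mat n n), IsRep U →
        IMP (gen U) (16 * K) η C (BW U W1) (BW U Wp)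

/-! ## Section 3: the process -/

/-- Step Lemma -/
def S_Step : Prop :=
  ∀ (n S : Type) [Fintype n] [DecidableEq n] [Fintype S] (u : S → Mat n n)
    (B1 B P0 V0 A : Mat n n) (K1 a θ γ δ η C β ζ β1 : ℝ),
    (∀ s, IsUni (u s)) → 0 ≤ B1 → B1 ≤ B → IsProj P0 → IsProj V0 → V0 ≤ A →
    1 ≤ K1 → 0 < a → a ≤ 1 / 400 → 0 < θ → θ ≤ 1 / 10 → θ ≤ 100 * K1 * ζ →
    γ = θ / (2000 * K1) → 0 < δ → δ ≤ ζ / 4 → δ ≤ θ / (400 * K1) → 0 < η → 3 * η ≤ δ ^ 2 →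
    2 * η ≤ K1 * γ → 1 ≤ C → 0 < β → 8 * C * β ≤ η * θ → 5 * β ≤ β1 →
    IMP u K1 η C B1 B → (∃ T, Cand u (Rle (a / 100) A) γ T) →
    (∃ r, Succ u B1 P0 (1 / (400 * K1)) ζ β1 r) ∨ ∃ V, StepOK u B (P0 - V0) a γ δ β A V

/-- Key Lemma -/
def S_Key : Prop :=
  ∀ (n S : Type) [Fintype n] [DecidableEq n] [Fintype S] [Nonempty S] (u : S → Mat n n)
    (A V : Mat n n) (t γ ϑ ω : ℝ),
    (∀ s, IsUni (u s)) → 0 ≤ A → IsProj V → V ≠ 0 → 0 < t → 0 < γ → γ ≤ 1 →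
    ϑ = γ * t ^ 2 / (4096 * Fintype.card S) →
    ω = γ ^ 2 * ϑ ^ 2 / (2 * Fintype.card S * 256 ^ 2) →
    (∀ T, Cand u (Rle t A) γ T → tr V < tr T) →
    Pot ϑ (A + V) - Pot ϑ A ≤ 5 / 8 * tr V ∨ ω * tr V ≤ D u u (rg ϑ A * V)

/-- Mass Lemma -/
def S_Mass : Prop :=
  ∀ (n S : Type) [Fintype n] [DecidableEq n] [Fintype S] [Nonempty S] (u : S → Mat n n)
    (B E : Mat n n) (V : ℕ → Mat n n) (J : ℕ) (α a γ ϑ ω δ β Λ ε μ : ℝ),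
    (∀ s, IsUni (u s)) → 0 ≤ B → B ≤ Λ • (1 : Mat n n) → tr B ≤ ε * Fintype.card n →
    0 < α → α ≤ 1 → a = α / 400 → 0 < γ → γ ≤ 1 →
    ϑ = γ * (a / 100) ^ 2 / (4096 * Fintype.card S) →
    ω = γ ^ 2 * ϑ ^ 2 / (2 * Fintype.card S * 256 ^ 2) →
    0 < δ → δ ≤ α * ϑ * ω / 2400 → 0 < β → 0 < Λ → 0 < ε → μ = 2 * Λ * ε / β ^ 2 →
    (1 / 4 + 6 * γ / (ϑ * ω)) * μ ≤ α / 400 → γ * μ ≤ δ →
    ‖E‖ ^ 2 ≤ α * Fintype.card n / 500000 → IsProj (V 0) → D u u (V 0) ≤ δ * Fintype.card n →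
    (∀ j < J, StepOK u B E a γ δ β (ps V (j + 1)) (V (j + 1))) →
    ∑ j ∈ Finset.range J, tr (V (j + 1)) ≤ α * Fintype.card n / 10 ∧
      ∑ l ∈ Finset.range (J + 1), D u u (V l) ≤ 3 * δ * Fintype.card n

/-- Candidate Lemma -/
def S_Cand : Prop :=
  ∀ (n S : Type) [Fintype n] [DecidableEq n] [Fintype S] [Nonempty S] (u : S → Mat n n)
    (V : ℕ → Mat n n) (J : ℕ) (α t γ δ : ℝ),
    (∀ s, IsUni (u s)) → 0 < Fintype.card n → 0 < α → 0 < t → t ≤ 1 → 0 < γ →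
    δ ≤ γ ^ 2 * α ^ 2 * t / (384 * Fintype.card S) → (∀ l < J, IsProj (V l)) →
    ∑ l ∈ Finset.range J, tr (V l) ≤ (1 - α / 2) * Fintype.card n →
    ∑ l ∈ Finset.range J, D u u (V l) ≤ 3 * δ * Fintype.card n →
    ∃ T, Cand u (Rle t (ps V J)) γ T

/-- Proposition P -/
def S_P : Prop :=
  ∀ (S : Type) [Fintype S] [Nonempty S] (K1 α ζ β1 : ℝ), 1 ≤ K1 → 0 < α → α ≤ 1 → 0 < ζ →
    0 < β1 → ∃ η > 0, ∀ C Λ : ℝ, 1 ≤ C → 0 < Λ → ∃ ε > 0,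
      ∀ (n : Type) [Fintype n] [DecidableEq n] (u : S → Mat n n) (B1 B P0 : Mat n n),
        0 < Fintype.card n → (∀ s, IsUni (u s)) → 0 ≤ B1 → B1 ≤ B → B ≤ Λ • (1 : Mat n n) →
        tr B ≤ ε * Fintype.card n → IMP u K1 η C B1 B → IsProj P0 →
        tr P0 ≤ (1 - α) * Fintype.card n → D u u P0 ≤ α * Fintype.card n / (10 ^ 6 * K1) →
        ∃ r, Succ u B1 P0 (1 / (400 * K1)) ζ β1 r

/-! ## Section 4: Theorem I -/

/-- Lemma 4.1 -/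
def S_Cheeger : Prop :=
  ∀ (n S : Type) [Fintype n] [DecidableEq n] [Fintype S] [Nonempty S] (b : S → Mat n n) (γ1 : ℝ),
    (∀ s, Ctr (b s)) → 0 ≤ γ1 →
    (∀ q, IsProj q → tr q ≤ Fintype.card n / 2 → γ1 * tr q ≤ D b b q) →
    Gap b (γ1 ^ 2 / (2 * Fintype.card S))

/-- low frames exist -/
def S_Low : Prop :=
  ∀ (m n S : Type) [Fintype m] [Fintype n] [DecidableEq m] [DecidableEq n] [Fintype S]
    (u : S → Mat m m) (a : S → Mat n n) (η : ℝ),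
    ∃ (r : ℕ) (x : Fin r → Mat m n), LowFrame u a η x

/-- a successful projection gives a new type -/
def S_New : Prop :=
  ∀ (n S : Type) [Fintype n] [DecidableEq n] [Fintype S] [Nonempty S]
    (U : FreeGroup S → Mat n n) (B1 P0 r : Mat n n) (W : Finset (FreeGroup S))
    (γ1 ζ β1 ζ0 β0 L : ℝ), IsRep U → BW U W ≤ B1 → Succ (gen U) B1 P0 γ1 ζ β1 r → 0 ≤ γ1 →
    WordBd W L → 0 ≤ L → ζ ≤ ζ0 → 16 * L * ζ ≤ β0 → 4 * β1 ≤ β0 →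
    ∃ (d : ℕ) (x : Mat n (Fin d)), tr r = d ∧ xᴴ * x = 1 ∧ x * xᴴ = r ∧
      TyOK (fun s => xᴴ * gen U s * x) (γ1 ^ 2 / (2 * Fintype.card S)) ζ0 β0 W ∧
      D2 (gen U) (fun s => xᴴ * gen U s * x) x = D (gen U) (gen U) r

/-- coverage: the new type is separated from every type of the structure -/
def S_Cover : Prop :=
  ∀ (n d f S : Type) [Fintype n] [DecidableEq n] [Fintype d] [DecidableEq d] [Fintype f]
    [DecidableEq f] [Fintype S] [Nonempty S] (U : FreeGroup S → Mat n n) (P0 : Mat n n)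
    (x : Mat n d) (a : S → Mat f f) (r : ℕ) (fr : Fin r → Mat n f) (N : ℕ)
    (g : Fin N → FreeGroup S) (W : Finset (FreeGroup S)) (K c c' η η' C' ζ ζ0 β0 β1 : ℝ),
    IsRep U → 1 ≤ K → 0 < c → c ≤ 1 → c' = c / (10 ^ 5 * Fintype.card S * K) → 0 < η →
    0 < η' → η' ≤ η / 2000 → η' ≤ 1 / 1000 → 1 ≤ C' → TAt K η' C' g W →
    ζ0 ≤ η / 1000 → ζ0 ≤ 1 / (4000 * K) → 4 * C' * β0 ≤ η' → 4 * β1 ≤ β0 → 0 ≤ β1 →
    0 ≤ ζ → ζ ≤ 1 / (8000 * K) →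
    TyOK a c ζ0 β0 W → LowFrame (gen U) a η fr →
    xᴴ * x = 1 → Gap (fun s => xᴴ * gen U s * x) c →
    D (gen U) (gen U) (x * xᴴ) ≤ ζ * Fintype.card d →
    tr (BW U W * (x * xᴴ)) ≤ β1 * Fintype.card d →
    IsProj P0 → tr (P0 * (x * xᴴ)) ≤ Fintype.card d / 100 →
    (∀ y : Mat n f, ∑ j, Fintype.card f * ‖(fr j)ᴴ * ((1 - P0) * y)‖ ^ 2 ≤ ‖y‖ ^ 2 / 2) →
    Sep (fun s => xᴴ * gen U s * x) a c'

/-- (S1) - (S3): the block matrices of a structure -/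
def S_Block : Prop :=
  ∀ (n S ι : Type) [Fintype n] [DecidableEq n] [Fintype S] [Fintype ι] (u : S → Mat n n)
    (T : ι → TF n S) (c η : ℝ), 0 < c → (∀ i, 0 < (T i).d) → (∀ i s, Ctr ((T i).a s)) →
    (∀ i, Gap (T i).a c) → (∀ i j, i ≠ j → Sep (T i).a (T j).a c) →
    (∀ i, Orthonormal ℂ (T i).x) → (∀ i j, D2 u (T i).a ((T i).x j) ≤ η) →
    ∃ d : KD n S, Fintype.card d.κ = ∑ i, (T i).r * (T i).d ∧ d.Alg c ∧
      D2 u d.VV d.V ≤ η * Fintype.card d.κ ∧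
      (∀ b ∈ Com d.VV, trace (b * (d.Vᴴ * d.V)) = trace b) ∧
      ∀ (i : ι) (y : Mat n (Fin (T i).d)),
        ∑ j, ((T i).d : ℝ) * ‖((T i).x j)ᴴ * y‖ ^ 2 ≤ ‖d.Vᴴ * y‖ ^ 2

/-- (S4) - (S6) and the output contraction -/
def S_Pre : Prop :=
  ∀ (n k S : Type) [Fintype n] [DecidableEq n] [Fintype k] [DecidableEq k] [Fintype S]
    (u : S → Mat n n) (VV : S → Mat k k) (V0 : Mat n k) (c η η1 : ℝ),
    (∀ s, Ctr (u s)) → (∀ s, Ctr (VV s)) → 0 < c → 0 ≤ η → η1 = 8 * η / c → η1 ≤ 1 / 2 →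
    GapC VV c → D2 u VV V0 ≤ η * Fintype.card k →
    (∀ b ∈ Com VV, trace (b * (V0ᴴ * V0)) = trace b) →
    Fintype.card k ≤ 2 * Fintype.card n ∧
    (∃ P0 : Mat n n, IsProj P0 ∧ tr P0 ≤ Fintype.card k ∧
      D u u P0 ≤ (2 * η + 48 * Fintype.card S * η1) * Fintype.card k ∧
      ∀ (l : Type) [Fintype l] (y : Mat n l), ‖V0ᴴ * ((1 - P0) * y)‖ ^ 2 ≤ ‖y‖ ^ 2 / 2) ∧
    ∃ V : Mat n k, Ctr V ∧ D2 u VV V ≤ (2 * η + 16 * Fintype.card S * η1) * Fintype.card k ∧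
      Fintype.card k - ‖V‖ ^ 2 ≤ 2 * Real.sqrt η1 * Fintype.card k

/-- THEOREM I -/
def S_ThmI : Prop :=
  ∀ (S : Type) [Fintype S] [Nonempty S] (Nr : Subgroup (FreeGroup S)) [Nr.Normal] (K : ℝ),
    1 ≤ K → TStar Nr K → ThmI Nr

/-! ## Section 5 -/

open scoped commutatorElement in
/-- THEOREM II -/
def S_II : Prop :=
  ∀ (H : Type) [Group H] (x y : Fin 7 → H) (t0 t1 a c : H), G73.Conf x y t0 t1 a c →
    ThmI (FreeGroup.lift x).ker → ThmI (FreeGroup.lift y).ker →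
    ∀ (ι : ℕ → Type) [∀ k, Fintype (ι k)] [∀ k, DecidableEq (ι k)]
      (u : ∀ k, H → Mat (ι k) (ι k)), AsRep u →
      Sm ι fun k => ‖u k ⁅t0 * a * t0⁻¹, c⁆ - 1‖ ^ 2

/-- final assembly -/
theorem nh_of (h1 : S_TStar) (h2 : S_ThmI) (h3 : S_II) : S_NH := by
  obtain ⟨H, _, _, x, y, t0, t1, a, c, hC⟩ := G73.exists_conf
  exact ⟨H, inferInstance, inferInstance, _, hC.ne, fun ι _ _ u hu =>
    h3 H x y t0 t1 a c hC (h2 _ _ _ (by norm_num) (h1 H x hC.gx))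
      (h2 _ _ _ (by norm_num) (h1 H y hC.gy)) ι u hu⟩

end Pool.Agent.P.MP_7f9919_an.NH
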